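import Pool.Agent.Helper345.SM.Defs

set_option autoImplicit false
set_option linter.unusedVariables false
set_option linter.style.longLine false

open MeasureTheory Filter Topology
open scoped ENNReal NNReal

noncomputable section

namespace SM345

theorem dcount (Q W P k : ℕ) (hW : 0 < W) (hP : 0 < P) (hk : k ≤ W) :
    ((Finset.range (Q * W * P)).filter (fun u => W ≤ u / P % W + k)).card = Q * k * P := by
  have h0 : ((Finset.range Q) ×ˢ ((Finset.Ico (W - k) W) ×ˢ (Finset.range P))).card
      = Q * k * P := by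
    rw [Finset.card_product, Finset.card_product, Finset.card_range, Finset.card_range,
      Nat.card_Ico, Nat.sub_sub_self hk, mul_assoc]
  rw [← h0]
  symm
  have e1 : ∀ q d r : ℕ, r < P → ((q * W + d) * P + r) / P = q * W + d := by
    intro q d r hr
    rw [add_comm, Nat.add_mul_div_right _ _ hP, Nat.div_eq_of_lt hr, zero_add]
  have e2 : ∀ q d : ℕ, d < W → (q * W + d) % W = d := by
    intro q d hd
    rw [add_comm, Nat.add_mul_mod_self_right, Nat.mod_eq_of_lt hd]
  have e3 : ∀ q d : ℕ, d < W → (q * W + d) / W = q := by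
    intro q d hd
    rw [add_comm, Nat.add_mul_div_right _ _ hW, Nat.div_eq_of_lt hd, zero_add]
  have e4 : ∀ q d r : ℕ, r < P → ((q * W + d) * P + r) % P = r := by
    intro q d r hr
    rw [add_comm, Nat.add_mul_mod_self_right, Nat.mod_eq_of_lt hr]
  refine Finset.card_nbij' (fun x => (x.1 * W + x.2.1) * P + x.2.2)
    (fun u => (u / P / W, u / P % W, u % P)) ?_ ?_ ?_ ?_
  · rintro ⟨q, d, r⟩ h
    simp only [Finset.coe_product, Set.mem_prod, Finset.mem_coe, Finset.mem_range,
      Finset.mem_Ico] at h
    obtain ⟨hq, ⟨hd1, hd2⟩, hr⟩ := h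
    rw [Finset.mem_coe, Finset.mem_filter, Finset.mem_range]
    simp only
    rw [e1 q d r hr, e2 q d hd2]
    refine ⟨?_, by omega⟩
    have h1 : q * W + d < Q * W := by
      have : (q + 1) * W ≤ Q * W := Nat.mul_le_mul_right _ hq
      rw [add_mul, one_mul] at this
      omega
    have h2 : (q * W + d + 1) * P ≤ Q * W * P := Nat.mul_le_mul_right _ h1
    rw [add_mul, one_mul] at h2
    omega
  · intro u hu
    rw [Finset.mem_coe, Finset.mem_filter, Finset.mem_range] at hu
    simp only [Finset.coe_product, Set.mem_prod, Finset.mem_coe, Finset.mem_range,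
      Finset.mem_Ico]
    refine ⟨?_, ⟨?_, Nat.mod_lt _ hW⟩, Nat.mod_lt _ hP⟩
    · rw [Nat.div_div_eq_div_mul]
      apply Nat.div_lt_of_lt_mul
      have : P * W * Q = Q * W * P := by ring
      rw [this]
      exact hu.1
    · have := hu.2
      omega
  · rintro ⟨q, d, r⟩ h
    simp only [Finset.coe_product, Set.mem_prod, Finset.mem_coe, Finset.mem_range,
      Finset.mem_Ico] at h
    obtain ⟨hq, ⟨hd1, hd2⟩, hr⟩ := h
    simp only
    rw [e1 q d r hr, e2 q d hd2, e3 q d hd2, e4 q d r hr]
  · intro u _
    simp only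
    rw [Nat.div_add_mod', Nat.div_add_mod']

theorem digit_count (N B k i : ℕ) (hN0 : 0 < N) (hB0 : 0 < B) (hi : i < 4) (hk : k ≤ WW N B) :
    ((Finset.range (NN N B)).filter (fun u => WW N B ≤ dx N B i u + k)).card * WW N B
      = k * NN N B := by
  have hW : 0 < WW N B := by unfold WW; positivity
  have hNN : NN N B = 4 * N * (WW N B) ^ (3 - i) * WW N B * (WW N B) ^ i := by
    unfold NN
    have h : (WW N B) ^ 4 = (WW N B) ^ (3 - i) * WW N B * (WW N B) ^ i := by
      rw [← pow_succ, ← pow_add]
      congr 1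
      omega
    rw [h, mul_assoc (4 * N), mul_assoc (4 * N)]
  have h1 : (Finset.range (NN N B)).filter (fun u => WW N B ≤ dx N B i u + k) =
      (Finset.range (NN N B)).filter (fun u => WW N B ≤ u / (WW N B) ^ i % WW N B + k) := by
    apply Finset.filter_congr
    intro u hu
    rw [Finset.mem_range] at hu
    unfold dx
    rw [Nat.mod_eq_of_lt hu]
  rw [h1, hNN, dcount _ _ _ _ hW (pow_pos hW i) hk]
  ring

end SM345
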