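import Pool.Agent.Helper345.SM.Defs

set_option autoImplicit false
set_option linter.unusedVariables false
set_option linter.style.longLine false

open MeasureTheory Filter Topology
open scoped ENNReal NNReal

noncomputable section

namespace SM345

theorem pr_s (N w B : ℕ) (hN : 12 ∣ N) (hN0 : 0 < N) (hw : 3 ∣ w) (hB : 0 < B) (u k : ℕ)
    (h : dx N B 0 u + k < WW N B) :
    pr N w B (u + k) = (pr N w B u + k) % N ∧ dx N B 0 (u + k) = dx N B 0 u + k ∧
      (∀ i < 4, 0 < i → dx N B i (u + k) = dx N B i u) ∧ da N B (u + k) = da N B u ∧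
      dc N B (u + k) = dc N B u := by
  have hW : 0 < WW N B := by unfold WW; positivity
  have hNN : NN N B = WW N B * (4 * N * (WW N B) ^ 3) := by unfold NN; ring
  have hNNpos : 0 < NN N B := by rw [hNN]; positivity
  have h0 : ∀ t, dx N B 0 t = (t % NN N B) % WW N B := by intro t; simp [dx]
  have hvlt : u % NN N B < NN N B := Nat.mod_lt _ hNNpos
  rw [h0] at h
  have hq : (u % NN N B) / WW N B < 4 * N * (WW N B) ^ 3 :=
    Nat.div_lt_of_lt_mul (by rw [← hNN]; exact hvlt)
  have hda := Nat.div_add_mod (u % NN N B) (WW N B)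
  have hvk : (u + k) % NN N B = u % NN N B + k := by
    rw [← Nat.mod_add_mod, Nat.mod_eq_of_lt]
    calc u % NN N B + k
        = WW N B * ((u % NN N B) / WW N B) + (u % NN N B) % WW N B + k := by rw [hda]
      _ < WW N B * ((u % NN N B) / WW N B) + WW N B := by omega
      _ = WW N B * ((u % NN N B) / WW N B + 1) := by ring
      _ ≤ WW N B * (4 * N * (WW N B) ^ 3) := Nat.mul_le_mul_left _ hq
      _ = NN N B := hNN.symm
  have hsplit : u % NN N B + k
      = ((u % NN N B) % WW N B + k) + WW N B * ((u % NN N B) / WW N B) := by omega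
  have hdiv : (u % NN N B + k) / WW N B = (u % NN N B) / WW N B := by
    conv_lhs => rw [hsplit]
    rw [Nat.add_mul_div_left _ _ hW, Nat.div_eq_of_lt h, zero_add]
  have hmod : (u % NN N B + k) % WW N B = (u % NN N B) % WW N B + k := by
    conv_lhs => rw [hsplit]
    rw [Nat.add_mul_mod_self_left, Nat.mod_eq_of_lt h]
  have hdivp : ∀ i, 0 < i → (u % NN N B + k) / (WW N B) ^ i = (u % NN N B) / (WW N B) ^ i := by
    intro i hi
    obtain ⟨j, rfl⟩ : ∃ j, i = j + 1 := ⟨i - 1, by omega⟩
    rw [pow_succ', ← Nat.div_div_eq_div_mul, ← Nat.div_div_eq_div_mul, hdiv]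
  have e0 : dx N B 0 (u + k) = dx N B 0 u + k := by
    rw [h0, h0, hvk, hmod]
  have ei : ∀ i, 0 < i → dx N B i (u + k) = dx N B i u := by
    intro i hi
    unfold dx
    rw [hvk, hdivp i hi]
  have ea : da N B (u + k) = da N B u := by
    unfold da
    rw [hvk, hdivp 4 (by norm_num)]
  have ec : dc N B (u + k) = dc N B u := by
    unfold dc
    rw [hvk, ← Nat.div_div_eq_div_mul, ← Nat.div_div_eq_div_mul, hdivp 4 (by norm_num)]
  refine ⟨?_, e0, fun i _ hi => ei i hi, ea, ec⟩
  unfold pr
  rw [e0, ea, ec, Nat.mod_add_mod]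
  congr 1
  have es : ∀ i ∈ Finset.range 3,
      w ^ ((i + da N B u) % 3 + 1) * dx N B (i + 1) (u + k)
        = w ^ ((i + da N B u) % 3 + 1) * dx N B (i + 1) u := by
    intro i _
    rw [ei (i + 1) (Nat.succ_pos i)]
  rw [Finset.sum_congr rfl es]
  ring

end SM345
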