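import Pool.Agent.Helper345.SM.Defs
import Pool.Agent.Helper345.SM.digit_count
import Pool.Agent.Helper345.SM.pr_s

set_option autoImplicit false
set_option linter.unusedVariables false
set_option linter.style.longLine false

open MeasureTheory Filter Topology
open scoped ENNReal NNReal

noncomputable section

namespace SM345

theorem AA_change_blk (m k q : ℕ) (hm : 0 < m) (hk : k ≤ m) :
    ((Finset.range (m * q)).filter (fun u => m ≤ u % m + k)).card = k * q := by
  induction q with
  | zero => simp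
  | succ q ih =>
    rw [Finset.card_filter] at ih ⊢
    rw [mul_add, mul_one, Finset.sum_range_add, ih]
    have h1 : ∀ r ∈ Finset.range m, (if m ≤ (m * q + r) % m + k then 1 else 0)
        = (if m ≤ r + k then 1 else 0) := by
      intro r hr
      rw [Nat.mul_add_mod, Nat.mod_eq_of_lt (Finset.mem_range.1 hr)]
    rw [Finset.sum_congr rfl h1, ← Finset.card_filter]
    have h2 : (Finset.range m).filter (fun r => m ≤ r + k) = Finset.Ico (m - k) m := by
      ext r
      simp only [Finset.mem_filter, Finset.mem_range, Finset.mem_Ico]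
      omega
    rw [h2, Nat.card_Ico, mul_add, mul_one]
    omega

theorem AA_change_cnt (m k M : ℕ) (hm : 0 < m) (hk : k ≤ m) (hM : m ∣ M) :
    ((Finset.range M).filter (fun u => m ≤ u % m + k)).card * m = k * M := by
  obtain ⟨q, rfl⟩ := hM
  rw [AA_change_blk m k q hm hk]
  ring

theorem AA_change_eq (N B : ℕ) (hN : 12 ∣ N) (hN0 : 0 < N) (hB0 : 0 < B) (u : ℕ)
    (h : dx N B 0 u + 3 < WW N B)
    (h2 : ∀ i < B, dx N B 0 u % (3 * LL N B i) + 3 < 3 * LL N B i) :
    AA N B (u + 3) = AA N B u := by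
  obtain ⟨-, h3, -, h4, h5⟩ := pr_s N 3 B hN hN0 (dvd_refl 3) hB0 u 3 h
  unfold AA
  rw [h3, h4, h5]
  congr 1
  refine Finset.sum_congr rfl ?_
  intro i hi
  have h6 := h2 i (Finset.mem_range.1 hi)
  have h7 : (dx N B 0 u + 3 + da N B u) % 3 = (dx N B 0 u + da N B u) % 3 := by omega
  have h8 : (dx N B 0 u + 3) / (3 * LL N B i) = dx N B 0 u / (3 * LL N B i) := by
    have hpos : 0 < 3 * LL N B i := by omega
    have h9 := Nat.div_add_mod (dx N B 0 u) (3 * LL N B i)
    generalize 3 * LL N B i = d at *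
    generalize dx N B 0 u = x at *
    rw [← h9]
    have h10 : d * (x / d) + x % d + 3 = (x % d + 3) + d * (x / d) := by ring
    have h11 : d * (x / d) + x % d = x % d + d * (x / d) := by ring
    rw [h10, h11, Nat.add_mul_div_left _ _ hpos, Nat.add_mul_div_left _ _ hpos,
      Nat.div_eq_of_lt h6, Nat.div_eq_of_lt (Nat.mod_lt _ hpos)]
  rw [h7, h8]

theorem AA_change (N B : ℕ) (hN : 12 ∣ N) (hN0 : 0 < N) (hB : 12 ∣ B) (hB0 : 0 < B) :
    (((Finset.range (NN N B)).filter (fun u => AA N B (u + 3) ≠ AA N B u)).card : ℝ)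
      ≤ (3 / (N * B)) * NN N B := by
  classical
  set M := NN N B with hM
  set W := WW N B with hW
  have hB12 : 12 ≤ B := Nat.le_of_dvd hB0 hB
  have hN12 : 12 ≤ N := Nat.le_of_dvd hN0 hN
  have hWe : W = 36 * N * B ^ (B + 2) := rfl
  have hMe : M = 4 * N * W ^ 4 := rfl
  have hBp : ∀ k, 0 < B ^ k := fun k => Nat.pow_pos hB0
  have hWpos : 0 < W := by
    rw [hWe]
    exact Nat.mul_pos (Nat.mul_pos (by norm_num) hN0) (hBp _)
  have hW3 : 3 * (N * B) ≤ W := by
    rw [hWe, pow_succ]
    have h1 : 1 ≤ B ^ (B + 1) := hBp _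
    calc 3 * (N * B) = 3 * N * 1 * B := by ring
      _ ≤ 36 * N * B ^ (B + 1) * B := by gcongr; norm_num
      _ = 36 * N * (B ^ (B + 1) * B) := by ring
  have hWM : W ∣ M := by
    rw [hMe, pow_succ]
    exact Dvd.intro_left (4 * N * W ^ 3) (by ring)
  have hMpos : 0 < M := by
    rw [hMe]
    exact Nat.mul_pos (Nat.mul_pos (by norm_num) hN0) (Nat.pow_pos hWpos)
  have hLpos : ∀ i, 0 < LL N B i := fun i => Nat.mul_pos hN0 (hBp _)
  have hLW : ∀ i < B, 3 * LL N B i ∣ W := by
    intro i hi
    rw [hWe]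
    unfold LL
    have h1 : B + 2 = (i + 1) + (B + 1 - i) := by omega
    rw [h1, pow_add]
    exact ⟨12 * B ^ (B + 1 - i), by ring⟩
  have hx0 : ∀ u < M, dx N B 0 u = u % W := by
    intro u hu
    unfold dx
    rw [pow_zero, Nat.div_one, Nat.mod_eq_of_lt (show u < NN N B from hu)]
  have hsub : (Finset.range M).filter (fun u => AA N B (u + 3) ≠ AA N B u) ⊆
      ((Finset.range M).filter (fun u => W ≤ u % W + 3)) ∪
      (Finset.range B).biUnion (fun i => (Finset.range M).filter
        (fun u => 3 * LL N B i ≤ u % (3 * LL N B i) + 3)) := by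
    intro u hu
    obtain ⟨hu1, hu2⟩ := Finset.mem_filter.1 hu
    by_contra hcon
    rw [Finset.mem_union, not_or] at hcon
    obtain ⟨hc1, hc2⟩ := hcon
    apply hu2
    have huM := Finset.mem_range.1 hu1
    refine AA_change_eq N B hN hN0 hB0 u ?_ ?_
    · by_contra h
      apply hc1
      rw [hx0 u huM] at h
      exact Finset.mem_filter.2 ⟨hu1, not_lt.1 h⟩
    · intro i hi
      by_contra h
      apply hc2
      rw [hx0 u huM, Nat.mod_mod_of_dvd _ (hLW i hi)] at h
      exact Finset.mem_biUnion.2 ⟨i, Finset.mem_range.2 hi, Finset.mem_filter.2 ⟨hu1, not_lt.1 h⟩⟩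
  have hc := (Finset.card_le_card hsub).trans ((Finset.card_union_le _ _).trans
    (Nat.add_le_add_left Finset.card_biUnion_le _))
  have hcR : (((Finset.range M).filter (fun u => AA N B (u + 3) ≠ AA N B u)).card : ℝ) ≤
      (((Finset.range M).filter (fun u => W ≤ u % W + 3)).card : ℝ) +
      ∑ i ∈ Finset.range B, (((Finset.range M).filter
        (fun u => 3 * LL N B i ≤ u % (3 * LL N B i) + 3)).card : ℝ) := by
    exact_mod_cast hc
  have hN' : (0 : ℝ) < N := by exact_mod_cast hN0
  have hB' : (0 : ℝ) < B := by exact_mod_cast hB0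
  have hM' : (0 : ℝ) < M := by exact_mod_cast hMpos
  have hW' : (0 : ℝ) < W := by exact_mod_cast hWpos
  have h1 : (((Finset.range M).filter (fun u => W ≤ u % W + 3)).card : ℝ) ≤
      1 / (N * B) * M := by
    have h2 := AA_change_cnt W 3 M hWpos (by nlinarith) hWM
    have h3 : (((Finset.range M).filter (fun u => W ≤ u % W + 3)).card : ℝ) * W = 3 * M := by
      exact_mod_cast h2
    have h4 : (((Finset.range M).filter (fun u => W ≤ u % W + 3)).card : ℝ) = 3 * M / W := by
      field_simp
      linarith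
    rw [h4, div_mul_eq_mul_div, one_mul, div_le_div_iff₀ hW' (by positivity)]
    have h5 : (3 : ℝ) * (N * B) ≤ W := by exact_mod_cast hW3
    nlinarith
  have h6 : ∀ i ∈ Finset.range B, (((Finset.range M).filter
        (fun u => 3 * LL N B i ≤ u % (3 * LL N B i) + 3)).card : ℝ) ≤
        (1 / (N * B) * M) * (1 / 2) ^ i := by
    intro i hi
    have hi' := Finset.mem_range.1 hi
    have hL0 : 0 < LL N B i := hLpos i
    have h2 := AA_change_cnt (3 * LL N B i) 3 M (by omega) (by omega) ((hLW i hi').trans hWM)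
    have h3 : (((Finset.range M).filter
        (fun u => 3 * LL N B i ≤ u % (3 * LL N B i) + 3)).card : ℝ) * (3 * (N * B ^ (i + 1))) =
        3 * M := by
      have h7 : ((3 * LL N B i : ℕ) : ℝ) = 3 * (N * B ^ (i + 1)) := by
        unfold LL
        push_cast
        ring
      rw [← h7]
      exact_mod_cast h2
    have hBi : (0 : ℝ) < (B : ℝ) ^ (i + 1) := by positivity
    have h4 : (((Finset.range M).filter
        (fun u => 3 * LL N B i ≤ u % (3 * LL N B i) + 3)).card : ℝ) = M / (N * B ^ (i + 1)) := by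
      rw [eq_div_iff (by positivity)]
      linarith
    rw [h4]
    have h8 : (1 : ℝ) / B ≤ 1 / 2 := by
      apply one_div_le_one_div_of_le (by norm_num)
      have : (12 : ℝ) ≤ B := by exact_mod_cast hB12
      linarith
    have h9 : (M : ℝ) / (N * B ^ (i + 1)) = (1 / (N * B) * M) * (1 / B) ^ i := by
      rw [pow_succ, div_pow, one_pow]
      field_simp
    rw [h9]
    gcongr
  have h10 := Finset.sum_le_sum h6
  rw [← Finset.mul_sum] at h10
  have h11 := sum_geometric_two_le B
  have h12 : (1 / (N * B) * M : ℝ) * ∑ i ∈ Finset.range B, (1 / (2 : ℝ)) ^ i ≤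
      (1 / (N * B) * M) * 2 := by
    gcongr
  have h13 : (3 / (N * B) * M : ℝ) = 1 / (N * B) * M + (1 / (N * B) * M) * 2 := by ring
  rw [h13]
  linarith

end SM345
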