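import Pool.Agent.Helper345.SM.Defs
import Pool.Agent.Helper345.SM.pr_s

set_option autoImplicit false
set_option linter.unusedVariables false
set_option linter.style.longLine false

open MeasureTheory Filter Topology
open scoped ENNReal NNReal

noncomputable section

namespace SM345

theorem AA_diff (N B : ℕ) (hN : 12 ∣ N) (hN0 : 0 < N) (hB : 12 ∣ B) (hB0 : 0 < B) (u i : ℕ)
    (hi : i < B) (h : dx N B 0 u + 3 * LL N B i < WW N B)
    (hl : ∀ l < B, i < l → dx N B 0 u % (3 * LL N B l) + 3 * LL N B i < 3 * LL N B l) :
    AA N B (u + 3 * LL N B i) - AA N B u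
      = 2 ^ (dc N B u) * (alpha ((dx N B 0 u + da N B u) % 3) ((dx N B 0 u / (3 * LL N B i) + 1) % 12)
        - alpha ((dx N B 0 u + da N B u) % 3) (dx N B 0 u / (3 * LL N B i) % 12)) := by
  obtain ⟨_, e1, _, e2, e3⟩ := pr_s N 3 B hN hN0 (dvd_refl 3) hB0 u (3 * LL N B i) h
  have hLpos : ∀ l, 0 < LL N B l := by
    intro l
    unfold LL
    positivity
  unfold AA
  rw [e1, e2, e3]
  have hl' := hl
  clear hl
  generalize hx : dx N B 0 u = x at *
  generalize ha : da N B u = a at *
  generalize hc : dc N B u = c at *
  have hmod : (x + 3 * LL N B i + a) % 3 = (x + a) % 3 := by omega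
  rw [hmod, ← mul_sub, ← Finset.sum_sub_distrib]
  congr 1
  rw [Finset.sum_eq_single i]
  · have hq : (x + 3 * LL N B i) / (3 * LL N B i) = x / (3 * LL N B i) + 1 := by
      have := Nat.add_div_right x (show 0 < 3 * LL N B i by have := hLpos i; omega)
      exact this
    rw [hq]
  · intro l hl hli
    rw [Finset.mem_range] at hl
    have hdiv : (x + 3 * LL N B i) / (3 * LL N B l) % 12 = x / (3 * LL N B l) % 12 := by
      rcases lt_or_gt_of_ne hli with hlt | hgt
      · -- l < i
        have hfac : LL N B i = LL N B l * B ^ (i - l) := by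
          unfold LL
          rw [mul_assoc, ← pow_add]
          congr 2
          omega
        have h1 : 3 * LL N B i = 3 * LL N B l * B ^ (i - l) := by
          rw [hfac]
          ring
        rw [h1, Nat.add_mul_div_left _ _ (show 0 < 3 * LL N B l by have := hLpos l; omega)]
        have h2 : 12 ∣ B ^ (i - l) := dvd_pow hB (by omega)
        obtain ⟨q, hq⟩ := h2
        rw [hq, Nat.add_mul_mod_self_left]
      · -- l > i
        have h1 := hl' l hl hgt
        have h2 : (x + 3 * LL N B i) / (3 * LL N B l) = x / (3 * LL N B l) := by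
          have h3 := Nat.div_add_mod x (3 * LL N B l)
          have hpos : 0 < 3 * LL N B l := by have := hLpos l; omega
          have h4 : x + 3 * LL N B i =
              (x % (3 * LL N B l) + 3 * LL N B i) + 3 * LL N B l * (x / (3 * LL N B l)) := by
            omega
          rw [h4, Nat.add_mul_div_left _ _ hpos, Nat.div_eq_of_lt h1, zero_add]
        rw [h2]
    rw [hdiv, sub_self]
  · intro h1
    exact absurd (Finset.mem_range.2 hi) h1

end SM345
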