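import Pool.Agent.Helper345.SM.Defs

/-! From the `Lp`-form of the multiplicity statement to the elementary form of the statement. -/

set_option autoImplicit false
set_option linter.unusedVariables false

open MeasureTheory

noncomputable section

namespace SM345

theorem br_ip {X : Type} [MeasurableSpace X] {μ : Measure X} (f g : Lp ℂ 2 μ) :
    ∫ x, (starRingEnd ℂ) ((f : X → ℂ) x) * (g : X → ℂ) x ∂μ = inner ℂ f g := by
  rw [L2.inner_def]
  refine integral_congr_ae (Filter.Eventually.of_forall fun x => ?_)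
  simp only [RCLike.inner_apply]
  ring

theorem br_mem {X : Type} [MeasurableSpace X] {μ : Measure X} [IsFiniteMeasure μ]
    (f : Lp ℂ 2 μ) : f ∈ L20 μ ↔ ∫ x, (f : X → ℂ) x ∂μ = 0 := by
  have h1 : inner ℂ (Lp.const 2 μ (1 : ℂ)) f = ∫ x, (f : X → ℂ) x ∂μ := by
    rw [← br_ip]
    refine integral_congr_ae ?_
    filter_upwards [Lp.coeFn_const (p := 2) (μ := μ) (1 : ℂ)] with x hx
    rw [hx]
    simp
  rw [← h1]
  unfold L20
  rw [Submodule.mem_orthogonal_singleton_iff_inner_right]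

theorem br_zmul {σ : Measure Circle} {h : Circle → ℂ} (hh : MemLp h 2 σ) :
    MemLp (fun z : Circle => (z : ℂ) * h z) 2 σ := by
  have hm : Measurable (fun z : Circle => (z : ℂ)) :=
    (by fun_prop : Continuous fun z : Circle => (z : ℂ)).measurable
  refine MemLp.of_le hh (hm.aestronglyMeasurable.mul hh.1) (Filter.Eventually.of_forall fun z => ?_)
  rw [norm_mul, Circle.norm_coe, one_mul]

theorem br_main {X ι : Type} [MeasurableSpace X] (μ : Measure X) [IsFiniteMeasure μ]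
    (T : X ≃ᵐ X) (hT : MeasurePreserving T μ μ) (σ : ι → Measure Circle)
    {E : Type} [NormedAddCommGroup E] [InnerProductSpace ℂ E]
    (W : L20 μ ≃ₗᵢ[ℂ] E) (e : ∀ i, Lp ℂ 2 (σ i) → E)
    (ha : ∀ i h k, inner ℂ (e i h) (e i k) = inner ℂ h k)
    (hb : ∀ i j h k, i ≠ j → inner ℂ (e i h) (e j k) = 0)
    (hc : ∀ i (h h' : Lp ℂ 2 (σ i)), (h' : Circle → ℂ) =ᵐ[σ i] (fun z => (z : ℂ) * (h : Circle → ℂ) z) →
      ∀ f f' : L20 μ, (f' : X → ℂ) =ᵐ[μ] (fun x => (f : X → ℂ) (T x)) →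
        W f = e i h → W f' = e i h')
    (hd : ∀ F : E, (∀ i h, inner ℂ (e i h) F = 0) → F = 0) :
    ∃ V : ι → (Circle → ℂ) → X → ℂ, IsSpectralDecomposition μ T σ V := by
  classical
  set V : ι → (Circle → ℂ) → X → ℂ := fun i h =>
    if hh : MemLp h 2 (σ i) then (((W.symm (e i (hh.toLp h)) : L20 μ) : Lp ℂ 2 μ) : X → ℂ) else 0
    with hV
  have hVe : ∀ i h (hh : MemLp h 2 (σ i)),
      V i h = (((W.symm (e i (hh.toLp h)) : L20 μ) : Lp ℂ 2 μ) : X → ℂ) := by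
    intro i h hh
    simp only [hV, dif_pos hh]
  have hin : ∀ a b : E, inner ℂ ((W.symm a : L20 μ) : Lp ℂ 2 μ) ((W.symm b : L20 μ) : Lp ℂ 2 μ)
      = inner ℂ a b := by
    intro a b
    rw [← Submodule.coe_inner]
    exact LinearIsometryEquiv.inner_map_map W.symm a b
  refine ⟨V, ?_, ?_, ?_, ?_, ?_⟩
  · intro i h hh
    rw [hVe i h hh]
    exact ⟨Lp.memLp _, (br_mem _).1 (W.symm (e i (hh.toLp h))).2⟩
  · intro i h k hh hk
    rw [hVe i h hh, hVe i k hk, br_ip, hin, ha, ← br_ip]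
    refine integral_congr_ae ?_
    filter_upwards [hh.coeFn_toLp, hk.coeFn_toLp] with z h1 h2
    rw [h1, h2]
  · intro i j h k hij hh hk
    rw [hVe i h hh, hVe j k hk, br_ip, hin, hb i j _ _ hij]
  · intro i h hh
    have hz := br_zmul hh
    rw [hVe i h hh, hVe i _ hz]
    set f : L20 μ := W.symm (e i (hh.toLp h)) with hf
    have hm : MemLp (fun x => ((f : Lp ℂ 2 μ) : X → ℂ) (T x)) 2 μ :=
      (Lp.memLp (f : Lp ℂ 2 μ)).comp_measurePreserving hT
    have hmem : hm.toLp _ ∈ L20 μ := by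
      rw [br_mem, integral_congr_ae hm.coeFn_toLp]
      rw [hT.integral_comp' (fun x => ((f : Lp ℂ 2 μ) : X → ℂ) x)]
      exact (br_mem _).1 f.2
    have key := hc i (hh.toLp h) (hz.toLp _) (by
      filter_upwards [hh.coeFn_toLp, hz.coeFn_toLp] with z h1 h2
      rw [h1, h2]) f ⟨hm.toLp _, hmem⟩ hm.coeFn_toLp (by rw [hf, W.apply_symm_apply])
    rw [← key, W.symm_apply_apply]
    exact hm.coeFn_toLp.symm
  · intro f hf hf0 hor
    have hmem : hf.toLp f ∈ L20 μ := by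
      rw [br_mem, integral_congr_ae hf.coeFn_toLp, hf0]
    have h0 : W ⟨hf.toLp f, hmem⟩ = 0 := by
      refine hd _ fun i h => ?_
      have hh : MemLp (h : Circle → ℂ) 2 (σ i) := Lp.memLp h
      have h1 := hor i h hh
      rw [hVe i _ hh, Lp.toLp_coeFn] at h1
      have h2 : ∫ x, (starRingEnd ℂ) ((((W.symm (e i h) : L20 μ) : Lp ℂ 2 μ) : X → ℂ) x) * f x ∂μ
          = inner ℂ ((W.symm (e i h) : L20 μ) : Lp ℂ 2 μ) (hf.toLp f) := by
        rw [← br_ip]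
        refine integral_congr_ae ?_
        filter_upwards [hf.coeFn_toLp] with x hx
        rw [hx]
      rw [h2] at h1
      have h3 : inner ℂ (e i h) (W ⟨hf.toLp f, hmem⟩)
          = inner ℂ ((W.symm (e i h) : L20 μ) : Lp ℂ 2 μ) (hf.toLp f) := by
        rw [← hin, W.symm_apply_apply]
      rw [h3, h1]
    have h4 : (⟨hf.toLp f, hmem⟩ : L20 μ) = 0 := by
      apply W.injective
      rw [h0, map_zero]
    have h5 : hf.toLp f = 0 := congrArg Subtype.val h4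
    exact (MemLp.toLp_eq_toLp_iff hf (MemLp.zero')).1 (by rw [h5]; rfl)
theorem br_single {ι F : Type} [Fintype ι] [DecidableEq ι] [NormedAddCommGroup F]
    [InnerProductSpace ℂ F] (i : ι) (h : F) (v : PiLp 2 fun _ : ι => F) :
    inner ℂ (WithLp.toLp 2 (Pi.single i h) : PiLp 2 fun _ : ι => F) v = inner ℂ h (v i) := by
  rw [PiLp.inner_apply, Finset.sum_eq_single i]
  · simp
  · intro j _ hj
    simp [Pi.single_eq_of_ne hj]
  · intro hi
    exact absurd (Finset.mem_univ i) hi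

/-- the embeddings of the summands -/
def brE {m₁ m₂ : ℕ} {σ₁ σ₂ : Measure Circle} : ∀ i : Fin m₁ ⊕ Fin m₂,
    Lp ℂ 2 (Sum.elim (fun _ => σ₁) (fun _ => σ₂) i) →
      WithLp 2 ((PiLp 2 fun _ : Fin m₁ => Lp ℂ 2 σ₁) × (PiLp 2 fun _ : Fin m₂ => Lp ℂ 2 σ₂))
  | .inl i => fun h => WithLp.toLp 2 (WithLp.toLp 2 (Pi.single i h), 0)
  | .inr i => fun h => WithLp.toLp 2 (0, WithLp.toLp 2 (Pi.single i h))

theorem brE_inl {m₁ m₂ : ℕ} {σ₁ σ₂ : Measure Circle} (i : Fin m₁) (h : Lp ℂ 2 σ₁)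
    (F : WithLp 2 ((PiLp 2 fun _ : Fin m₁ => Lp ℂ 2 σ₁) × (PiLp 2 fun _ : Fin m₂ => Lp ℂ 2 σ₂))) :
    inner ℂ (brE (Sum.inl i) h) F = inner ℂ h (F.fst i) := by
  show inner ℂ (WithLp.toLp 2 (WithLp.toLp 2 (Pi.single i h), 0) :
    WithLp 2 ((PiLp 2 fun _ : Fin m₁ => Lp ℂ 2 σ₁) × (PiLp 2 fun _ : Fin m₂ => Lp ℂ 2 σ₂))) F = _
  rw [WithLp.prod_inner_apply]
  have h1 := br_single i h F.fst
  simp only [inner_zero_left, add_zero]
  exact h1

theorem brE_inr {m₁ m₂ : ℕ} {σ₁ σ₂ : Measure Circle} (i : Fin m₂) (h : Lp ℂ 2 σ₂)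
    (F : WithLp 2 ((PiLp 2 fun _ : Fin m₁ => Lp ℂ 2 σ₁) × (PiLp 2 fun _ : Fin m₂ => Lp ℂ 2 σ₂))) :
    inner ℂ (brE (Sum.inr i) h) F = inner ℂ h (F.snd i) := by
  show inner ℂ (WithLp.toLp 2 (0, WithLp.toLp 2 (Pi.single i h)) :
    WithLp 2 ((PiLp 2 fun _ : Fin m₁ => Lp ℂ 2 σ₁) × (PiLp 2 fun _ : Fin m₂ => Lp ℂ 2 σ₂))) F = _
  rw [WithLp.prod_inner_apply]
  have h1 := br_single i h F.snd
  simp only [inner_zero_left, zero_add]
  exact h1

theorem brE_coord {m₁ m₂ : ℕ} {σ₁ σ₂ : Measure Circle} :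
    (∀ (i j : Fin m₁) (h : Lp ℂ 2 σ₁),
      (brE (m₂ := m₂) (σ₂ := σ₂) (Sum.inl i) h).fst j = if j = i then h else 0) ∧
    (∀ (i : Fin m₁) (j : Fin m₂) (h : Lp ℂ 2 σ₁),
      (brE (σ₂ := σ₂) (Sum.inl i) h).snd j = 0) ∧
    (∀ (i j : Fin m₂) (h : Lp ℂ 2 σ₂),
      (brE (m₁ := m₁) (σ₁ := σ₁) (Sum.inr i) h).snd j = if j = i then h else 0) ∧
    (∀ (i : Fin m₂) (j : Fin m₁) (h : Lp ℂ 2 σ₂),
      (brE (σ₁ := σ₁) (Sum.inr i) h).fst j = 0) := by
  refine ⟨fun i j h => ?_, fun i j h => rfl, fun i j h => ?_, fun i j h => rfl⟩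
  · show (Pi.single i h : Fin m₁ → Lp ℂ 2 σ₁) j = _
    rw [Pi.single_apply]
  · show (Pi.single i h : Fin m₂ → Lp ℂ 2 σ₂) j = _
    rw [Pi.single_apply]

theorem br_ext {m₁ m₂ : ℕ} {σ₁ σ₂ : Measure Circle}
    (F G : WithLp 2 ((PiLp 2 fun _ : Fin m₁ => Lp ℂ 2 σ₁) × (PiLp 2 fun _ : Fin m₂ => Lp ℂ 2 σ₂)))
    (h1 : ∀ i, F.fst i = G.fst i) (h2 : ∀ i, F.snd i = G.snd i) : F = G := by
  have a : F.fst = G.fst := PiLp.ext h1
  have b : F.snd = G.snd := PiLp.ext h2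
  have : WithLp.ofLp F = WithLp.ofLp G := Prod.ext a b
  exact WithLp.ofLp_injective 2 this

theorem br_zero {σ : Measure Circle} (a b h h' : Lp ℂ 2 σ) (P : Prop) [Decidable P]
    (hh : (h' : Circle → ℂ) =ᵐ[σ] (fun z => (z : ℂ) * (h : Circle → ℂ) z))
    (hab : (b : Circle → ℂ) =ᵐ[σ] (fun z => (z : ℂ) * (a : Circle → ℂ) z))
    (ha : a = if P then h else 0) : b = if P then h' else 0 := by
  apply Lp.ext
  split_ifs at ha ⊢ with hP
  · subst ha
    exact hab.trans hh.symm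
  · subst ha
    filter_upwards [hab, Lp.coeFn_zero ℂ 2 σ] with z h1 h2
    rw [h1, h2]
    simp

theorem bridge {X : Type} [MeasurableSpace X] (μ : Measure X) [IsFiniteMeasure μ]
    (T : X ≃ᵐ X) (hT : MeasurePreserving T μ μ) (m₁ m₂ : ℕ)
    (h : HasSpectralMultiplicities μ T hT m₁ m₂) : HasMultiplicities μ T m₁ m₂ := by
  obtain ⟨σ₁, σ₂, h1, h2, h3, h4, h5, W, hW⟩ := h
  refine ⟨σ₁, σ₂, h1, h2, h3, h4, h5, ?_⟩
  obtain ⟨c1, c2, c3, c4⟩ := brE_coord (m₁ := m₁) (m₂ := m₂) (σ₁ := σ₁) (σ₂ := σ₂)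
  refine br_main μ T hT _ W brE ?_ ?_ ?_ ?_
  · rintro (i | i) h k
    · refine (brE_inl i h _).trans ?_
      have e : (brE (m₂ := m₂) (σ₂ := σ₂) (Sum.inl i) k).fst i = k := (c1 i i k).trans (if_pos rfl)
      exact congrArg (fun t : Lp ℂ 2 σ₁ => inner ℂ (h : Lp ℂ 2 σ₁) t) e
    · refine (brE_inr i h _).trans ?_
      have e : (brE (m₁ := m₁) (σ₁ := σ₁) (Sum.inr i) k).snd i = k := (c3 i i k).trans (if_pos rfl)
      exact congrArg (fun t : Lp ℂ 2 σ₂ => inner ℂ (h : Lp ℂ 2 σ₂) t) e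
  · rintro (i | i) (j | j) h k hij
    · refine (brE_inl i h _).trans ?_
      have e : (brE (m₂ := m₂) (σ₂ := σ₂) (Sum.inl j) k).fst i = 0 :=
        (c1 j i k).trans (if_neg (fun e => hij (by rw [e])))
      exact (congrArg (fun t : Lp ℂ 2 σ₁ => inner ℂ (h : Lp ℂ 2 σ₁) t) e).trans (inner_zero_right _)
    · refine (brE_inl i h _).trans ?_
      exact (congrArg (fun t : Lp ℂ 2 σ₁ => inner ℂ (h : Lp ℂ 2 σ₁) t) (c4 j i k)).trans
        (inner_zero_right _)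
    · refine (brE_inr i h _).trans ?_
      exact (congrArg (fun t : Lp ℂ 2 σ₂ => inner ℂ (h : Lp ℂ 2 σ₂) t) (c2 j i k)).trans
        (inner_zero_right _)
    · refine (brE_inr i h _).trans ?_
      have e : (brE (m₁ := m₁) (σ₁ := σ₁) (Sum.inr j) k).snd i = 0 :=
        (c3 j i k).trans (if_neg (fun e => hij (by rw [e])))
      exact (congrArg (fun t : Lp ℂ 2 σ₂ => inner ℂ (h : Lp ℂ 2 σ₂) t) e).trans (inner_zero_right _)
  · rintro (i | i) h h' hh f f' hf hWf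
    · obtain ⟨w1, w2⟩ := hW f f' hf
      rw [hWf] at w1 w2
      refine br_ext _ _ (fun j => ?_) (fun j => ?_)
      · exact (br_zero _ _ h h' _ hh (w1 j) (c1 i j h)).trans (c1 i j h').symm
      · refine Eq.trans ?_ (c2 i j h').symm
        have := br_zero _ _ (0 : Lp ℂ 2 σ₂) 0 False (by
          filter_upwards [Lp.coeFn_zero ℂ 2 σ₂] with z hz
          rw [hz]; simp) (w2 j) (by rw [if_neg (fun e => e)]; exact c2 i j h)
        rw [if_neg (fun e => e)] at this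
        exact this
    · obtain ⟨w1, w2⟩ := hW f f' hf
      rw [hWf] at w1 w2
      refine br_ext _ _ (fun j => ?_) (fun j => ?_)
      · refine Eq.trans ?_ (c4 i j h').symm
        have := br_zero _ _ (0 : Lp ℂ 2 σ₁) 0 False (by
          filter_upwards [Lp.coeFn_zero ℂ 2 σ₁] with z hz
          rw [hz]; simp) (w1 j) (by rw [if_neg (fun e => e)]; exact c4 i j h)
        rw [if_neg (fun e => e)] at this
        exact this
      · exact (br_zero _ _ h h' _ hh (w2 j) (c3 i j h)).trans (c3 i j h').symm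
  · intro F hF
    refine br_ext _ _ (fun i => ?_) (fun i => ?_)
    · have := hF (Sum.inl i) (F.fst i)
      exact inner_self_eq_zero.1 ((brE_inl i (F.fst i) F).symm.trans this)
    · have := hF (Sum.inr i) (F.snd i)
      exact inner_self_eq_zero.1 ((brE_inr i (F.snd i) F).symm.trans this)

end SM345
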