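import Pool.Agent.Helper345.SM.Stmt

/-! Definitions for MP_b9bb23_an: an ergodic automorphism with spectral multiplicities {3,4}. -/

set_option autoImplicit false
set_option linter.unusedVariables false
set_option linter.style.longLine false

open MeasureTheory Filter Topology
open scoped ENNReal NNReal

noncomputable section

namespace SM345

/-! ## Part A: limit space of an inverse system of finite sets -/

/-- coherent sequences -/
def XX (Ω : ℕ → Type) (π : ∀ n, Ω (n+1) → Ω n) : Type :=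
  {v : ∀ n, Ω n // ∀ n, π n (v (n+1)) = v n}

section Lim
variable {Ω : ℕ → Type} [∀ n, Fintype (Ω n)] [∀ n, Nonempty (Ω n)] [∀ n, DecidableEq (Ω n)]
  [∀ n, MeasurableSpace (Ω n)] [∀ n, MeasurableSingletonClass (Ω n)]
  {π : ∀ n, Ω (n+1) → Ω n}

instance instMSXX (Ω : ℕ → Type) [∀ n, MeasurableSpace (Ω n)] (π : ∀ n, Ω (n+1) → Ω n) :
    MeasurableSpace (XX Ω π) :=
  inferInstanceAs (MeasurableSpace {v : ∀ n, Ω n // ∀ n, π n (v (n+1)) = v n})

/-- a probability measure with uniform marginals -/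
structure UnifMeas (μ : Measure (XX Ω π)) : Prop where
  prob : IsProbabilityMeasure μ
  unif : ∀ n (y : Ω n), μ {x | x.1 n = y} = (Fintype.card (Ω n) : ℝ≥0∞)⁻¹

/-- proportion of the points of `Ω (n+1)` at which `g` does not commute with the projection -/
def errs (π : ∀ n, Ω (n+1) → Ω n) (g : ∀ n, Equiv.Perm (Ω n)) (n : ℕ) : ℝ :=
  ((Finset.univ.filter (fun z : Ω (n+1) => π n (g (n+1) z) ≠ g n (π n z))).card : ℝ)
    / (Fintype.card (Ω (n+1)) : ℝ)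

theorem memLp_J {μ : Measure (XX Ω π)} (hμ : UnifMeas μ) (n : ℕ) (f : Ω n → ℂ) :
    MemLp (fun x : XX Ω π => f (x.1 n)) 2 μ := by
  have := hμ.prob
  obtain ⟨C, hC⟩ := (Set.finite_range (fun y => ‖f y‖)).bddAbove
  refine MemLp.of_bound ?_ C (Eventually.of_forall fun x => hC ⟨x.1 n, rfl⟩)
  exact ((measurable_of_finite f).comp
    ((measurable_pi_apply n).comp measurable_subtype_coe)).aestronglyMeasurable

/-- the function `f` of the `n`-th coordinate, as an element of `L²` -/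
def J {μ : Measure (XX Ω π)} (hμ : UnifMeas μ) (n : ℕ) (f : Ω n → ℂ) : Lp ℂ 2 μ :=
  (memLp_J hμ n f).toLp _

/-- the unitary `U` is the limit of the permutations `g n`, with speed `δ` -/
def IsLim {μ : Measure (XX Ω π)} (hμ : UnifMeas μ) (g : ∀ n, Equiv.Perm (Ω n)) (δ : ℕ → ℝ)
    (U : Lp ℂ 2 μ ≃ₗᵢ[ℂ] Lp ℂ 2 μ) : Prop :=
  ∀ n (f : Ω n → ℂ) (C : ℝ), (∀ y, ‖f y‖ ≤ C) → ‖U (J hμ n f) - J hμ n (f ∘ g n)‖ ≤ C * δ n

end Lim

section

theorem koop_surj {X : Type} [MeasurableSpace X] {μ : Measure X} (G : X ≃ᵐ X)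
    (hG : MeasurePreserving G μ μ) :
    Function.Surjective (Lp.compMeasurePreservingₗᵢ (E := ℂ) (p := 2) ℂ G hG) := by
  intro h
  have hG' : MeasurePreserving G.symm μ μ := hG.symm
  refine ⟨Lp.compMeasurePreserving (E := ℂ) (p := 2) G.symm hG' h, ?_⟩
  have e1 : (Lp.compMeasurePreservingₗᵢ (E := ℂ) (p := 2) ℂ G hG)
      (Lp.compMeasurePreserving (E := ℂ) (p := 2) G.symm hG' h) =
      Lp.compMeasurePreserving (E := ℂ) (p := 2) G hG
        (Lp.compMeasurePreserving (E := ℂ) (p := 2) G.symm hG' h) := rfl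
  rw [e1]
  apply Lp.ext
  have h1 := Lp.coeFn_compMeasurePreserving
    (Lp.compMeasurePreserving (E := ℂ) (p := 2) G.symm hG' h) hG
  have h2 := Lp.coeFn_compMeasurePreserving h hG'
  have h3 := hG.quasiMeasurePreserving.ae_eq_comp h2
  refine h1.trans (h3.trans ?_)
  refine Eventually.of_forall fun x => ?_
  simp

end

/-- Koopman operator of an automorphism -/
def Koop {X : Type} [MeasurableSpace X] {μ : Measure X} (G : X ≃ᵐ X)
    (hG : MeasurePreserving G μ μ) : Lp ℂ 2 μ ≃ₗᵢ[ℂ] Lp ℂ 2 μ :=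
  LinearIsometryEquiv.ofSurjective (Lp.compMeasurePreservingₗᵢ (E := ℂ) (p := 2) ℂ G hG)
    (koop_surj G hG)

/-! ## Part B: the concrete finite systems -/

/-- values of the auxiliary function (its cyclic differences are 1,2,3,4 repeated `j+1` times, then 0) -/
def alpha (j ξ : ℕ) : ZMod 5 :=
  if ξ < 4 * (j + 1) then (if ξ % 4 = 0 then 0 else if ξ % 4 = 2 then 3 else 1) else 0

/-- new radix -/
def WW (N B : ℕ) : ℕ := 36 * N * B ^ (B + 2)
/-- new modulus -/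
def NN (N B : ℕ) : ℕ := 4 * N * (WW N B) ^ 4
/-- digits `x_i`, `i = 0,1,2,3` -/
def dx (N B i u : ℕ) : ℕ := (u % NN N B) / (WW N B) ^ i % WW N B
/-- digit `a` -/
def da (N B u : ℕ) : ℕ := (u % NN N B) / (WW N B) ^ 4 % N
/-- digit `c` (quarter) -/
def dc (N B u : ℕ) : ℕ := (u % NN N B) / ((WW N B) ^ 4 * N)
/-- the projection -/
def pr (N w B u : ℕ) : ℕ :=
  (dx N B 0 u + da N B u + N / 4 * dc N B u
    + ∑ i ∈ Finset.range 3, w ^ ((i + da N B u) % 3 + 1) * dx N B (i + 1) u) % N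
/-- time scales `L_i`, `i < B` -/
def LL (N B i : ℕ) : ℕ := N * B ^ (i + 1)
/-- the transfer function -/
def AA (N B u : ℕ) : ZMod 5 :=
  2 ^ (dc N B u) * ∑ i ∈ Finset.range B,
    alpha ((dx N B 0 u + da N B u) % 3) (dx N B 0 u / (3 * LL N B i) % 12)
/-- the new cocycle -/
def phi' (N w B : ℕ) (φ : ℕ → ZMod 5) (u : ℕ) : ZMod 5 :=
  φ (pr N w B u) + AA N B (u + 3) - AA N B u

/-- data of one level -/
structure Lev where
  N : ℕ
  w : ℕ
  φ : ℕ → ZMod 5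

/-- the block length parameter at level `n` -/
def BB (N n : ℕ) : ℕ := 12 * (N * (n + 1)) ^ 12

/-- the levels -/
def lev : ℕ → Lev
  | 0 => ⟨12, 3, fun _ => 0⟩
  | (n + 1) =>
    let ℓ := lev n
    let B := BB ℓ.N n
    ⟨NN ℓ.N B, WW ℓ.N B, phi' ℓ.N ℓ.w B ℓ.φ⟩

abbrev Nn (n : ℕ) : ℕ := (lev n).N
abbrev wn (n : ℕ) : ℕ := (lev n).w
abbrev Bn (n : ℕ) : ℕ := BB (Nn n) n

theorem Nn_succ (n : ℕ) : Nn (n + 1) = NN (Nn n) (Bn n) := rfl
theorem wn_succ (n : ℕ) : wn (n + 1) = WW (Nn n) (Bn n) := rfl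

theorem Nn_pos (n : ℕ) : 0 < Nn n := by
  induction n with
  | zero => norm_num [Nn, lev]
  | succ n ih => rw [Nn_succ]; unfold NN WW Bn BB; positivity

instance (n : ℕ) : NeZero (Nn n) := ⟨(Nn_pos n).ne'⟩

/-- the finite sets -/
abbrev Om (n : ℕ) : Type := ZMod (Nn n) × ZMod 5

instance (n : ℕ) : MeasurableSpace (Om n) := ⊤
instance (n : ℕ) : DiscreteMeasurableSpace (Om n) := ⟨fun _ => trivial⟩

/-- the projections -/
def pP (n : ℕ) (z : Om (n + 1)) : Om n :=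
  (((pr (Nn n) (wn n) (Bn n) z.1.val : ℕ) : ZMod (Nn n)), z.2)

/-- underlying functions of the permutations -/
def sF (n : ℕ) (z : Om n) : Om n := (z.1 + 1, z.2)
def tF (j n : ℕ) (z : Om n) : Om n :=
  (z.1 + ((wn n ^ ((z.1.val + 2 * j) % 3 + 1) : ℕ) : ZMod (Nn n)), z.2)
def TF (n : ℕ) (z : Om n) : Om n := (z.1 + 3, z.2 + (lev n).φ z.1.val)
def rF (n : ℕ) (z : Om n) : Om n := (z.1 + ((Nn n / 4 : ℕ) : ZMod (Nn n)), 2 * z.2)
def dF (n : ℕ) (z : Om n) : Om n := (z.1, z.2 + 1)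

section

theorem lev_dvd_N (n : ℕ) : 12 ∣ Nn n := by
  induction n with
  | zero => exact ⟨1, rfl⟩
  | succ n ih =>
    rw [Nn_succ]
    unfold NN
    exact Dvd.dvd.mul_right (Dvd.dvd.mul_left ih 4) _

theorem lev_dvd_w (n : ℕ) : 3 ∣ wn n := by
  cases n with
  | zero => exact ⟨1, rfl⟩
  | succ n =>
    rw [wn_succ]
    unfold WW
    exact Dvd.dvd.mul_right (Dvd.dvd.mul_right (by norm_num) _) _

theorem lev_dvd (n : ℕ) : 12 ∣ Nn n ∧ 3 ∣ wn n ∧ 12 ≤ Nn n ∧ 12 ∣ Bn n ∧ 12 * (Nn n * (n+1)) ^ 12 = Bn n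
    ∧ 36 * Nn n ∣ wn (n+1) := by
  refine ⟨lev_dvd_N n, lev_dvd_w n, Nat.le_of_dvd (Nn_pos n) (lev_dvd_N n), ?_, rfl, ?_⟩
  · unfold Bn BB
    exact Dvd.intro _ rfl
  · rw [wn_succ]
    unfold WW
    exact Dvd.intro _ rfl

end

section

theorem sF_bij (n : ℕ) : Function.Bijective (sF n) := by
  refine ⟨?_, ?_⟩
  · rintro ⟨a, b⟩ ⟨c, d⟩ h
    simp only [sF, Prod.mk.injEq] at h
    exact Prod.ext (add_right_cancel h.1) h.2
  · rintro ⟨a, b⟩
    refine ⟨(a - 1, b), ?_⟩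
    simp [sF]

end

section

theorem tF_bij_castval (n : ℕ) (h3 : 3 ∣ Nn n) (u : ZMod (Nn n)) :
    ZMod.castHom h3 (ZMod 3) u = ((u.val : ℕ) : ZMod 3) := by
  conv_lhs => rw [← ZMod.natCast_zmod_val u]
  rw [map_natCast]

theorem tF_bij (j n : ℕ) : Function.Bijective (tF j n) := by
  haveI : Finite (Om n) := inferInstance
  refine Finite.injective_iff_bijective.mp ?_
  rintro ⟨u, c⟩ ⟨v, d⟩ h
  unfold tF at h
  rw [Prod.mk.injEq] at h
  obtain ⟨h1, h2⟩ := h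
  simp only at h1 h2
  have hd := lev_dvd n
  have h3 : 3 ∣ Nn n := (by norm_num : 3 ∣ 12).trans hd.1
  have hw : 3 ∣ wn n := hd.2.1
  have hz : ∀ e : ℕ, ZMod.castHom h3 (ZMod 3) (((wn n ^ (e + 1) : ℕ)) : ZMod (Nn n)) = 0 := by
    intro e
    rw [map_natCast, ZMod.natCast_eq_zero_iff]
    exact hw.trans (dvd_pow_self _ (Nat.succ_ne_zero e))
  have h4 := congrArg (ZMod.castHom h3 (ZMod 3)) h1
  rw [map_add, map_add, hz, hz, add_zero, add_zero, tF_bij_castval, tF_bij_castval,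
    ZMod.natCast_eq_natCast_iff'] at h4
  have h5 : (u.val + 2 * j) % 3 = (v.val + 2 * j) % 3 := by omega
  rw [h5] at h1
  rw [add_right_cancel h1, h2]

end

section

theorem TF_bij (n : ℕ) : Function.Bijective (TF n) := by
  rw [Function.bijective_iff_has_inverse]
  refine ⟨fun z => (z.1 - 3, z.2 - (lev n).φ (z.1 - 3).val), ?_, ?_⟩
  · rintro ⟨u, k⟩
    simp only [TF, add_sub_cancel_right]
  · rintro ⟨u, k⟩
    simp only [TF, sub_add_cancel]

end

section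

theorem rF_bij (n : ℕ) : Function.Bijective (rF n) := by
  have h2 : ∀ a b : ZMod 5, 2 * a = 2 * b → a = b := by decide
  have hinj : Function.Injective (rF n) := by
    rintro ⟨a, b⟩ ⟨c, d⟩ h
    unfold rF at h
    have h1 := congrArg Prod.fst h
    have h3 := congrArg Prod.snd h
    simp only at h1 h3
    have e1 : a = c := add_right_cancel h1
    have e2 : b = d := h2 b d h3
    rw [e1, e2]
  exact Finite.injective_iff_bijective.mp hinj

end

section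

theorem dF_bij (n : ℕ) : Function.Bijective (dF n) := by
  refine ⟨?_, ?_⟩
  · rintro ⟨a, b⟩ ⟨c, d⟩ h
    simp only [dF, Prod.mk.injEq, add_left_inj] at h
    exact Prod.ext h.1 h.2
  · rintro ⟨a, b⟩
    exact ⟨(a, b - 1), by simp only [dF, sub_add_cancel]⟩

end

def sP (n : ℕ) : Equiv.Perm (Om n) := Equiv.ofBijective _ (sF_bij n)
def tP (j n : ℕ) : Equiv.Perm (Om n) := Equiv.ofBijective _ (tF_bij j n)
def TP (n : ℕ) : Equiv.Perm (Om n) := Equiv.ofBijective _ (TF_bij n)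
def rP (n : ℕ) : Equiv.Perm (Om n) := Equiv.ofBijective _ (rF_bij n)
def dP (n : ℕ) : Equiv.Perm (Om n) := Equiv.ofBijective _ (dF_bij n)

/-- the limit space -/
abbrev X : Type := XX Om pP

/-- bound for the error at level `n`, and its tail speed -/
def ee (n : ℕ) : ℝ := 4 / (Nn n * Bn n)
def δδ (n : ℕ) : ℝ := 2 * Real.sqrt (∑' m, ee (n + m))

/-- the character of `ZMod 5` -/
def chi (k : ZMod 5) : ℂ := Complex.exp (2 * Real.pi * Complex.I * (k.val : ℂ) / 5)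

/-- primitive cube root of unity -/
def zeta : ℂ := Complex.exp (2 * Real.pi * Complex.I / 3)


/-! ## Part C: polynomials in a unitary, multiplicity -/

/-- `P(U) f` -/
def opP {H : Type} [NormedAddCommGroup H] [InnerProductSpace ℂ H] (U : H ≃ₗᵢ[ℂ] H)
    (P : Polynomial ℂ) (f : H) : H :=
  ∑ k ∈ P.support, P.coeff k • (U ^ k) f

/-- the closed subspace generated by the orbit of `g` -/
def cyc {H : Type} [NormedAddCommGroup H] [InnerProductSpace ℂ H] (U : H ≃ₗᵢ[ℂ] H) (g : H) :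
    Submodule ℂ H :=
  (Submodule.span ℂ (Set.range fun k : ℤ => (U ^ k) g)).topologicalClosure


/-- rotation of the circle -/
def rot (a : Circle) : Circle → Circle := fun z => a * z

/-- the closed subspace of functions with integral zero -/
def L20 {X : Type} [MeasurableSpace X] (μ : Measure X) [IsFiniteMeasure μ] :
    Submodule ℂ (Lp ℂ 2 μ) :=
  (Submodule.span ℂ {Lp.const 2 μ (1 : ℂ)})ᗮ

/-- The Koopman operator of `T` on `L²₀(μ)` is unitarily equivalent to multiplication by `z` on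
`L²(σ₁)^(m₁) ⊕ L²(σ₂)^(m₂)` with nonzero mutually singular finite measures `σ₁, σ₂` on the circle:
the set of spectral multiplicities of `T` is `{m₁, m₂}`. -/
def HasSpectralMultiplicities {X : Type} [MeasurableSpace X] (μ : Measure X) [IsFiniteMeasure μ]
    (T : X ≃ᵐ X) (hT : MeasurePreserving T μ μ) (m₁ m₂ : ℕ) : Prop :=
  ∃ σ₁ σ₂ : Measure Circle, IsFiniteMeasure σ₁ ∧ IsFiniteMeasure σ₂ ∧ σ₁ ≠ 0 ∧ σ₂ ≠ 0 ∧
    σ₁ ⟂ₘ σ₂ ∧
    ∃ W : L20 μ ≃ₗᵢ[ℂ] WithLp 2 ((PiLp 2 fun _ : Fin m₁ => Lp ℂ 2 σ₁) ×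
        (PiLp 2 fun _ : Fin m₂ => Lp ℂ 2 σ₂)),
      ∀ f f' : L20 μ, (f' : X → ℂ) =ᵐ[μ] (fun x => (f : X → ℂ) (T x)) →
        (∀ i, ((W f').fst i : Circle → ℂ) =ᵐ[σ₁] fun z => (z : ℂ) * ((W f).fst i : Circle → ℂ) z) ∧
        (∀ i, ((W f').snd i : Circle → ℂ) =ᵐ[σ₂] fun z => (z : ℂ) * ((W f).snd i : Circle → ℂ) z)

/-- everything constructed from the levels -/
structure Ctx where
  μ : Measure X
  hμ : UnifMeas μ
  G : X ≃ᵐ X
  hG : MeasurePreserving G μ μ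
  US : Lp ℂ 2 μ ≃ₗᵢ[ℂ] Lp ℂ 2 μ
  Ut : ℕ → Lp ℂ 2 μ ≃ₗᵢ[ℂ] Lp ℂ 2 μ
  UR : Lp ℂ 2 μ ≃ₗᵢ[ℂ] Lp ℂ 2 μ
  UD : Lp ℂ 2 μ ≃ₗᵢ[ℂ] Lp ℂ 2 μ
  lS : IsLim hμ sP δδ US
  lt : ∀ j, IsLim hμ (tP j) δδ (Ut j)
  lT : IsLim hμ TP δδ (Koop G hG)
  lR : IsLim hμ rP δδ UR
  lD : IsLim hμ dP δδ UD

/-- the Koopman operator of the automorphism -/
abbrev Ctx.UT (c : Ctx) : Lp ℂ 2 c.μ ≃ₗᵢ[ℂ] Lp ℂ 2 c.μ := Koop c.G c.hG

/-- the function with constant value 1 -/
def Ctx.one (c : Ctx) : Lp ℂ 2 c.μ := J c.hμ 0 (fun _ => 1)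

/-- eigenspace of the fibre rotation -/
def Ctx.Kc (c : Ctx) (b : ZMod 5) : Submodule ℂ (Lp ℂ 2 c.μ) where
  carrier := {F | c.UD F = chi b • F}
  add_mem' := by
    intro x y hx hy
    simp only [Set.mem_ofPred_eq] at *
    rw [map_add, hx, hy, smul_add]
  zero_mem' := by simp
  smul_mem' := by
    intro a x hx
    simp only [Set.mem_ofPred_eq] at *
    rw [map_smul, hx, smul_comm]

/-- base functions with integral zero -/
def Ctx.K0 (c : Ctx) : Submodule ℂ (Lp ℂ 2 c.μ) := c.Kc 0 ⊓ (Submodule.span ℂ {c.one})ᗮ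

/-- a function of the base coordinate times a character of the fibre -/
def bf (n : ℕ) (b : ZMod 5) (f : ZMod (Nn n) → ℂ) : Om n → ℂ := fun y => f y.1 * chi (b * y.2)

/-- the averaging polynomial -/
def QQ (n : ℕ) : Polynomial ℂ :=
  ∑ i ∈ Finset.range (Bn n), Polynomial.C (1 / (Bn n : ℂ)) * Polynomial.X ^ (LL (Nn n) (Bn n) i)

/-- the eigenvalue of the averages on the class of `u` -/
def cc (n : ℕ) (u : ZMod (Nn n)) : ℂ := ((1 - 5 * ((u.val % 3 : ℕ) + 1) / 12 : ℝ) : ℂ)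

/-- rate -/
def th (n : ℕ) : ℝ :=
  10 * (1 / Real.sqrt (Bn n) + (LL (Nn n) (Bn n) (Bn n) : ℝ) * δδ (n + 1)
    + Real.sqrt (ee n))

/-- the intertwining operator -/
def Ctx.VV (c : Ctx) (F : Lp ℂ 2 c.μ) : Lp ℂ 2 c.μ :=
  c.Ut 0 F + zeta • c.Ut 1 F + zeta ^ 2 • c.Ut 2 F

end SM345
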