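import Pool.Agent.Helper345.SM.Defs

set_option autoImplicit false
set_option linter.unusedVariables false
set_option linter.style.longLine false

open MeasureTheory Filter Topology
open scoped ENNReal NNReal

noncomputable section

namespace SM345

theorem J_basic_int {Ω : ℕ → Type} [∀ n, Fintype (Ω n)] [∀ n, Nonempty (Ω n)]
    [∀ n, DecidableEq (Ω n)] [∀ n, MeasurableSpace (Ω n)] [∀ n, MeasurableSingletonClass (Ω n)]
    {π : ∀ n, Ω (n+1) → Ω n} {μ : Measure (XX Ω π)} (hμ : UnifMeas μ) (n : ℕ) (F : Ω n → ℂ) :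
    ∫ x : XX Ω π, F (x.1 n) ∂μ = (∑ y, F y) / (Fintype.card (Ω n) : ℂ) := by
  have := hμ.prob
  have hmeas : Measurable (fun x : XX Ω π => x.1 n) :=
    (measurable_pi_apply n).comp measurable_subtype_coe
  have h1 := MeasureTheory.integral_map (μ := μ) hmeas.aemeasurable (f := F)
    (measurable_of_finite F).aestronglyMeasurable
  rw [← h1]
  have hfin : IsFiniteMeasure (Measure.map (fun x : XX Ω π => x.1 n) μ) :=
    Measure.isFiniteMeasure_map μ _
  rw [MeasureTheory.integral_fintype (Integrable.of_finite), Finset.sum_div]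
  refine Finset.sum_congr rfl fun y _ => ?_
  have h2 : (Measure.map (fun x : XX Ω π => x.1 n) μ).real {y} = ((Fintype.card (Ω n) : ℝ))⁻¹ := by
    rw [Measure.real, Measure.map_apply hmeas (measurableSet_singleton y)]
    have h3 := hμ.unif n y
    have h4 : (fun x : XX Ω π => x.1 n) ⁻¹' {y} = {x | x.1 n = y} := rfl
    rw [h4, h3]
    simp
  rw [h2, Complex.real_smul]
  push_cast
  rw [div_eq_mul_inv, mul_comm]

theorem J_basic_inner {Ω : ℕ → Type} [∀ n, Fintype (Ω n)] [∀ n, Nonempty (Ω n)]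
    [∀ n, DecidableEq (Ω n)] [∀ n, MeasurableSpace (Ω n)] [∀ n, MeasurableSingletonClass (Ω n)]
    {π : ∀ n, Ω (n+1) → Ω n} {μ : Measure (XX Ω π)} (hμ : UnifMeas μ) (n : ℕ)
    (f g : Ω n → ℂ) : inner ℂ (J hμ n f) (J hμ n g)
      = (∑ y, (starRingEnd ℂ) (f y) * g y) / (Fintype.card (Ω n) : ℂ) := by
  rw [← J_basic_int hμ n (fun y => (starRingEnd ℂ) (f y) * g y), MeasureTheory.L2.inner_def]
  refine integral_congr_ae ?_
  filter_upwards [(memLp_J hμ n f).coeFn_toLp, (memLp_J hμ n g).coeFn_toLp] with x hx hy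
  have hx' : (J hμ n f : XX Ω π → ℂ) x = f (x.1 n) := hx
  have hy' : (J hμ n g : XX Ω π → ℂ) x = g (x.1 n) := hy
  rw [hx', hy', RCLike.inner_apply, mul_comm]

theorem J_basic {Ω : ℕ → Type} [∀ n, Fintype (Ω n)] [∀ n, Nonempty (Ω n)]
    [∀ n, DecidableEq (Ω n)] [∀ n, MeasurableSpace (Ω n)] [∀ n, MeasurableSingletonClass (Ω n)]
    {π : ∀ n, Ω (n+1) → Ω n} {μ : Measure (XX Ω π)} (hμ : UnifMeas μ) :
    (∀ n (f g : Ω n → ℂ), J hμ n (fun y => f y + g y) = J hμ n f + J hμ n g) ∧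
    (∀ n (a : ℂ) (f : Ω n → ℂ), J hμ n (fun y => a * f y) = a • J hμ n f) ∧
    (∀ n (f : Ω n → ℂ), J hμ (n+1) (f ∘ π n) = J hμ n f) ∧
    (∀ n (f g : Ω n → ℂ), inner ℂ (J hμ n f) (J hμ n g)
      = (∑ y, (starRingEnd ℂ) (f y) * g y) / (Fintype.card (Ω n) : ℂ)) ∧
    (∀ n (f : Ω n → ℂ), ‖J hμ n f‖ ^ 2 = (∑ y, ‖f y‖ ^ 2) / (Fintype.card (Ω n) : ℝ)) := by
  refine ⟨?_, ?_, ?_, ?_, ?_⟩
  · intro n f g
    exact MemLp.toLp_add (memLp_J hμ n f) (memLp_J hμ n g)
  · intro n a f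
    exact MemLp.toLp_const_smul a (memLp_J hμ n f)
  · intro n f
    refine MemLp.toLp_congr _ _ (Eventually.of_forall fun x => ?_)
    show f (π n (x.1 (n+1))) = f (x.1 n)
    rw [x.2 n]
  · intro n f g
    exact J_basic_inner hμ n f g
  · intro n f
    have h1 := J_basic_inner hμ n f f
    rw [inner_self_eq_norm_sq_to_K] at h1
    have h2 : ((‖J hμ n f‖ ^ 2 : ℝ) : ℂ)
        = (((∑ y, ‖f y‖ ^ 2) / (Fintype.card (Ω n) : ℝ) : ℝ) : ℂ) := by
      push_cast
      refine Eq.trans h1 ?_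
      congr 1
      refine Finset.sum_congr rfl fun y _ => ?_
      rw [mul_comm, Complex.mul_conj, Complex.normSq_eq_norm_sq]
      push_cast
      rfl
    exact_mod_cast h2

end SM345
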