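import Pool.Agent.Helper345.SM.Defs
import Pool.Agent.Helper345.SM.J_basic

set_option autoImplicit false
set_option linter.unusedVariables false
set_option linter.style.longLine false

open MeasureTheory Filter Topology
open scoped ENNReal NNReal

noncomputable section

namespace SM345

section JD
variable {Ω : ℕ → Type} [∀ n, Fintype (Ω n)] [∀ n, Nonempty (Ω n)]
    [∀ n, DecidableEq (Ω n)] [∀ n, MeasurableSpace (Ω n)] [∀ n, MeasurableSingletonClass (Ω n)]
    {π : ∀ n, Ω (n+1) → Ω n}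

theorem jd_lift {μ : Measure (XX Ω π)} (hμ : UnifMeas μ) (n : ℕ) (f : Ω n → ℂ) (k : ℕ) :
    ∃ f' : Ω (n + k) → ℂ, J hμ n f = J hμ (n + k) f' := by
  induction k with
  | zero => exact ⟨f, rfl⟩
  | succ k ih =>
    obtain ⟨f', hf'⟩ := ih
    refine ⟨f' ∘ π (n + k), ?_⟩
    rw [hf']
    exact ((J_basic hμ).2.2.1 (n + k) f').symm

theorem jd_liftle {μ : Measure (XX Ω π)} (hμ : UnifMeas μ) (n m : ℕ) (h : n ≤ m) (f : Ω n → ℂ) :
    ∃ f' : Ω m → ℂ, J hμ n f = J hμ m f' := by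
  obtain ⟨k, rfl⟩ := Nat.exists_eq_add_of_le h
  exact jd_lift hμ n f k

theorem jd_cyl (n : ℕ) (A : Set (Ω n)) (k : ℕ) :
    ∃ A' : Set (Ω (n + k)), {x : XX Ω π | x.1 n ∈ A} = {x : XX Ω π | x.1 (n + k) ∈ A'} := by
  induction k with
  | zero => exact ⟨A, rfl⟩
  | succ k ih =>
    obtain ⟨A', hA'⟩ := ih
    refine ⟨(π (n + k)) ⁻¹' A', ?_⟩
    rw [hA']
    ext x
    show x.1 (n + k) ∈ A' ↔ π (n + k) (x.1 (n + k + 1)) ∈ A'
    rw [x.2 (n + k)]

theorem jd_cylle (n m : ℕ) (h : n ≤ m) (A : Set (Ω n)) :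
    ∃ A' : Set (Ω m), {x : XX Ω π | x.1 n ∈ A} = {x : XX Ω π | x.1 m ∈ A'} := by
  obtain ⟨k, rfl⟩ := Nat.exists_eq_add_of_le h
  exact jd_cyl n A k

/-- cylinder sets -/
def jdC (Ω : ℕ → Type) (π : ∀ n, Ω (n+1) → Ω n) : Set (Set (XX Ω π)) :=
  {s | ∃ n, ∃ A : Set (Ω n), s = {x | x.1 n ∈ A}}

theorem jd_pi : IsPiSystem (jdC Ω π) := by
  rintro s ⟨n, A, rfl⟩ t ⟨m, B, rfl⟩ _
  obtain ⟨A', hA'⟩ := jd_cylle (π := π) n (max n m) (le_max_left _ _) A
  obtain ⟨B', hB'⟩ := jd_cylle (π := π) m (max n m) (le_max_right _ _) B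
  refine ⟨max n m, A' ∩ B', ?_⟩
  rw [hA', hB']
  rfl

theorem jd_meas (n : ℕ) : Measurable (fun x : XX Ω π => x.1 n) :=
  (measurable_pi_apply n).comp measurable_subtype_coe

theorem jd_gen : instMSXX Ω π = MeasurableSpace.generateFrom (jdC Ω π) := by
  apply le_antisymm
  · have : @Measurable (XX Ω π) (∀ n, Ω n) (MeasurableSpace.generateFrom (jdC Ω π)) _
        (fun x => x.1) := by
      refine @measurable_pi_lambda _ _ _ (MeasurableSpace.generateFrom (jdC Ω π)) _ _ ?_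
      intro n A hA
      exact MeasurableSpace.measurableSet_generateFrom ⟨n, A, rfl⟩
    exact this.comap_le
  · apply MeasurableSpace.generateFrom_le
    rintro s ⟨n, A, rfl⟩
    exact jd_meas n (Set.toFinite A).measurableSet

end JD

theorem J_dense {Ω : ℕ → Type} [∀ n, Fintype (Ω n)] [∀ n, Nonempty (Ω n)]
    [∀ n, DecidableEq (Ω n)] [∀ n, MeasurableSpace (Ω n)] [∀ n, MeasurableSingletonClass (Ω n)]
    {π : ∀ n, Ω (n+1) → Ω n} {μ : Measure (XX Ω π)} (hμ : UnifMeas μ)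
    (F : Lp ℂ 2 μ) (ε : ℝ) (hε : 0 < ε) : ∃ n, ∃ f : Ω n → ℂ, ‖F - J hμ n f‖ < ε := by
  have hprob := hμ.prob
  set S : Submodule ℂ (Lp ℂ 2 μ) :=
    Submodule.span ℂ {G | ∃ n, ∃ f : Ω n → ℂ, G = J hμ n f} with hS
  have hSmem : ∀ G ∈ S, ∃ n, ∃ f : Ω n → ℂ, G = J hμ n f := by
    intro G hG
    refine Submodule.span_induction (p := fun G _ => ∃ n, ∃ f : Ω n → ℂ, G = J hμ n f)
      ?_ ?_ ?_ ?_ hG
    · intro x hx
      exact hx
    · refine ⟨0, fun _ => 0 * 1, ?_⟩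
      rw [(J_basic hμ).2.1 0 0 (fun _ => 1), zero_smul]
    · rintro x y _ _ ⟨n, f, rfl⟩ ⟨m, g, rfl⟩
      obtain ⟨f', hf'⟩ := jd_liftle hμ n (max n m) (le_max_left _ _) f
      obtain ⟨g', hg'⟩ := jd_liftle hμ m (max n m) (le_max_right _ _) g
      refine ⟨max n m, fun y => f' y + g' y, ?_⟩
      rw [hf', hg', (J_basic hμ).1]
    · rintro a x _ ⟨n, f, rfl⟩
      exact ⟨n, fun y => a * f y, ((J_basic hμ).2.1 n a f).symm⟩
  have horth : Sᗮ = ⊥ := by
    rw [Submodule.eq_bot_iff]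
    intro G hG
    have hcyl : ∀ (n : ℕ) (A : Set (Ω n)), ∫ x in {x : XX Ω π | x.1 n ∈ A}, G x ∂μ = 0 := by
      intro n A
      have hms : MeasurableSet {x : XX Ω π | x.1 n ∈ A} :=
        jd_meas n (Set.toFinite A).measurableSet
      have h1 : inner ℂ (indicatorConstLp 2 hms (measure_ne_top μ _) (1 : ℂ)) G
          = ∫ x in {x : XX Ω π | x.1 n ∈ A}, G x ∂μ :=
        L2.inner_indicatorConstLp_one hms (measure_ne_top μ _) G
      rw [← h1]
      have h2 : indicatorConstLp 2 hms (measure_ne_top μ _) (1 : ℂ)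
          = J hμ n (A.indicator fun _ => 1) := by
        unfold J indicatorConstLp
        exact MemLp.toLp_congr _ _ (ae_of_all _ fun x => rfl)
      rw [h2]
      exact (Submodule.mem_orthogonal S G).1 hG _ (Submodule.subset_span ⟨n, _, rfl⟩)
    have hint : Integrable (G : XX Ω π → ℂ) μ := (Lp.memLp G).integrable (by norm_num)
    have hall : ∀ s : Set (XX Ω π), MeasurableSet s → ∫ x in s, G x ∂μ = 0 := by
      intro s hs
      refine MeasurableSpace.induction_on_inter (C := fun s _ => ∫ x in s, G x ∂μ = 0)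
        jd_gen jd_pi ?_ ?_ ?_ ?_ s hs
      · simp
      · rintro t ⟨n, A, rfl⟩
        exact hcyl n A
      · intro t ht h
        have h0 : ∫ x, G x ∂μ = 0 := by
          have := hcyl 0 Set.univ
          simpa using this
        have h3 := integral_add_compl ht hint
        rw [h, h0, zero_add] at h3
        exact h3
      · intro f hd hm h
        rw [integral_iUnion hm hd hint.integrableOn]
        simp [h]
    have hz : (G : XX Ω π → ℂ) =ᵐ[μ] 0 :=
      hint.ae_eq_zero_of_forall_setIntegral_eq_zero (fun s hs _ => hall s hs)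
    exact (Lp.eq_zero_iff_ae_eq_zero).2 hz
  have htop : S.topologicalClosure = ⊤ := (Submodule.topologicalClosure_eq_top_iff).2 horth
  have hF : F ∈ closure (S : Set (Lp ℂ 2 μ)) := by
    have : F ∈ S.topologicalClosure := by rw [htop]; trivial
    exact this
  obtain ⟨G, hG, hd⟩ := Metric.mem_closure_iff.1 hF ε hε
  obtain ⟨n, f, rfl⟩ := hSmem G hG
  refine ⟨n, f, ?_⟩
  rwa [dist_eq_norm] at hd

end SM345
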