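import Pool.Agent.Helper345.SM.Defs

set_option autoImplicit false
set_option linter.unusedVariables false
set_option linter.style.longLine false

open MeasureTheory Filter Topology
open scoped ENNReal NNReal

noncomputable section

namespace SM345

theorem chi_basic_prim : IsPrimitiveRoot (Complex.exp (2 * Real.pi * Complex.I / (5 : ℕ))) 5 :=
  Complex.isPrimitiveRoot_exp 5 (by norm_num)

theorem chi_basic_pow (k : ZMod 5) :
    chi k = (Complex.exp (2 * Real.pi * Complex.I / (5 : ℕ))) ^ k.val := by
  unfold chi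
  rw [← Complex.exp_nat_mul]
  congr 1
  push_cast
  ring

theorem chi_basic : (∀ a b : ZMod 5, chi (a + b) = chi a * chi b) ∧ chi 0 = 1 ∧
    (∀ a : ZMod 5, ‖chi a‖ = 1) ∧ chi 1 ≠ 1 := by
  have hz := chi_basic_prim
  refine ⟨?_, ?_, ?_, ?_⟩
  · intro a b
    rw [chi_basic_pow, chi_basic_pow, chi_basic_pow, ← pow_add, ZMod.val_add]
    exact (pow_eq_pow_mod _ hz.pow_eq_one).symm
  · rw [chi_basic_pow, ZMod.val_zero, pow_zero]
  · intro a
    rw [chi_basic_pow, norm_pow, hz.norm'_eq_one (by norm_num), one_pow]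
  · rw [chi_basic_pow]
    have h1 : (1 : ZMod 5).val = 1 := rfl
    rw [h1, pow_one]
    exact hz.ne_one (by norm_num)

end SM345
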