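import Pool.Agent.Helper345.SM.Defs

set_option autoImplicit false
set_option linter.unusedVariables false
set_option linter.style.longLine false

open MeasureTheory Filter Topology
open scoped ENNReal NNReal

noncomputable section

namespace SM345

theorem ef_W_pos (n : ℕ) : 1 ≤ WW (Nn n) (Bn n) := by
  have h := Nn_pos n
  unfold WW Bn BB
  apply Nat.one_le_iff_ne_zero.2
  positivity

theorem ef_B_pos (n : ℕ) : 1 ≤ Bn n := by
  have h := Nn_pos n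
  unfold Bn BB
  apply Nat.one_le_iff_ne_zero.2
  positivity

theorem ef_N_two (n : ℕ) : 2 * Nn n ≤ Nn (n + 1) := by
  rw [Nn_succ]
  unfold NN
  have h := ef_W_pos n
  have h2 : 1 ≤ (WW (Nn n) (Bn n)) ^ 4 := Nat.one_le_pow _ _ h
  nlinarith [Nn_pos n]

theorem ef_B_mono (n : ℕ) : Bn n ≤ Bn (n + 1) := by
  have h := ef_N_two n
  show 12 * (Nn n * (n + 1)) ^ 12 ≤ 12 * (Nn (n+1) * (n + 1 + 1)) ^ 12
  apply Nat.mul_le_mul_left
  apply Nat.pow_le_pow_left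
  apply Nat.mul_le_mul
  · omega
  · omega

theorem ef_pos (n : ℕ) : 0 < ee n := by
  unfold ee
  have h1 : (0:ℝ) < (Nn n : ℝ) := by exact_mod_cast Nn_pos n
  have h2 : (0:ℝ) < (Bn n : ℝ) := by exact_mod_cast ef_B_pos n
  positivity

theorem ef_half (n : ℕ) : ee (n + 1) ≤ ee n * (1 / 2) := by
  unfold ee
  have h1 : (0:ℝ) < (Nn n : ℝ) := by exact_mod_cast Nn_pos n
  have h2 : (0:ℝ) < (Bn n : ℝ) := by exact_mod_cast ef_B_pos n
  have h3 : (2:ℝ) * (Nn n : ℝ) ≤ (Nn (n+1) : ℝ) := by exact_mod_cast ef_N_two n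
  have h4 : (Bn n : ℝ) ≤ (Bn (n+1) : ℝ) := by exact_mod_cast ef_B_mono n
  have h5 : (2 * (Nn n : ℝ)) * (Bn n : ℝ) ≤ (Nn (n+1) : ℝ) * (Bn (n+1) : ℝ) := by
    apply mul_le_mul h3 h4 h2.le (by linarith)
  have h6 : 0 < (2 * (Nn n : ℝ)) * (Bn n : ℝ) := by positivity
  calc (4:ℝ) / ((Nn (n+1) : ℝ) * (Bn (n+1) : ℝ)) ≤ 4 / ((2 * (Nn n : ℝ)) * (Bn n : ℝ)) := by
        apply div_le_div_of_nonneg_left (by norm_num) h6 h5
    _ = 4 / ((Nn n : ℝ) * (Bn n : ℝ)) * (1 / 2) := by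
        field_simp

theorem ef_geo (n m : ℕ) : ee (n + m) ≤ ee n * (1 / 2) ^ m := by
  induction m with
  | zero => simp
  | succ m ih =>
    have := ef_half (n + m)
    calc ee (n + (m + 1)) = ee (n + m + 1) := by rw [add_assoc]
      _ ≤ ee (n + m) * (1 / 2) := this
      _ ≤ ee n * (1 / 2) ^ m * (1 / 2) := by
          apply mul_le_mul_of_nonneg_right ih (by norm_num)
      _ = ee n * (1 / 2) ^ (m + 1) := by ring

theorem ef_sum (n : ℕ) : Summable (fun m => ee (n + m)) := by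
  apply Summable.of_nonneg_of_le (fun m => (ef_pos (n + m)).le) (ef_geo n)
  exact (summable_geometric_of_lt_one (by norm_num) (by norm_num)).mul_left _

theorem ef_tsum (n : ℕ) : (∑' m, ee (n + m)) ≤ 2 * ee n := by
  have hs : Summable (fun m : ℕ => ee n * (1 / 2 : ℝ) ^ m) :=
    (summable_geometric_of_lt_one (by norm_num) (by norm_num)).mul_left _
  calc (∑' m, ee (n + m)) ≤ ∑' m : ℕ, ee n * (1 / 2 : ℝ) ^ m :=
        Summable.tsum_le_tsum (ef_geo n) (ef_sum n) hs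
    _ = ee n * 2 := by
        rw [tsum_mul_left, tsum_geometric_two]
    _ = 2 * ee n := by ring

theorem ef_dd (n : ℕ) : δδ n ≤ 2 * Real.sqrt (8 / ((Nn n : ℝ) * (Bn n : ℝ))) := by
  unfold δδ
  have h := ef_tsum n
  have h2 : 2 * ee n = 8 / ((Nn n : ℝ) * (Bn n : ℝ)) := by
    unfold ee; ring
  rw [h2] at h
  exact mul_le_mul_of_nonneg_left (Real.sqrt_le_sqrt h) (by norm_num)

theorem ef_dd_nonneg (n : ℕ) : 0 ≤ δδ n := by
  unfold δδ; positivity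

theorem ef_Bge (n : ℕ) : (12:ℝ) * ((Nn n : ℝ) * ((n:ℝ) + 1)) ^ 12 = (Bn n : ℝ) := by
  show (12:ℝ) * ((Nn n : ℝ) * ((n:ℝ) + 1)) ^ 12 = ((12 * (Nn n * (n + 1)) ^ 12 : ℕ) : ℝ)
  push_cast
  ring

theorem ef_N12 (n : ℕ) : (1:ℝ) ≤ (Nn n : ℝ) := by
  exact_mod_cast Nn_pos n

theorem ef_dd1 (n : ℕ) : δδ n ≤ 2 / ((Nn n : ℝ) * ((n:ℝ) + 1)) ^ 6 := by
  have hN := ef_N12 n
  have hn : (1:ℝ) ≤ (n:ℝ) + 1 := by
    have : (0:ℝ) ≤ (n:ℝ) := Nat.cast_nonneg n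
    linarith
  have hP : (0:ℝ) < (Nn n : ℝ) * ((n:ℝ) + 1) := by positivity
  have hk : Real.sqrt (8 / ((Nn n : ℝ) * (Bn n : ℝ))) ≤ 1 / ((Nn n : ℝ) * ((n:ℝ) + 1)) ^ 6 := by
    apply Real.sqrt_le_iff.2
    refine ⟨by positivity, ?_⟩
    rw [← ef_Bge n, div_pow, one_pow, ← pow_mul]
    rw [div_le_div_iff₀ (by positivity) (by positivity)]
    have h3 : (0:ℝ) < ((Nn n : ℝ) * ((n:ℝ) + 1)) ^ 12 := by positivity
    norm_num
    nlinarith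
  calc δδ n ≤ 2 * Real.sqrt (8 / ((Nn n : ℝ) * (Bn n : ℝ))) := ef_dd n
    _ ≤ 2 * (1 / ((Nn n : ℝ) * ((n:ℝ) + 1)) ^ 6) := by
        apply mul_le_mul_of_nonneg_left hk (by norm_num)
    _ = _ := by ring

theorem ef_dd2 (n : ℕ) : δδ (n + 1) ≤ 2 / (WW (Nn n) (Bn n) : ℝ) := by
  have hW : (1:ℝ) ≤ (WW (Nn n) (Bn n) : ℝ) := by exact_mod_cast ef_W_pos n
  have hN := ef_N12 n
  have hB : (1:ℝ) ≤ (Bn (n+1) : ℝ) := by exact_mod_cast ef_B_pos (n+1)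
  have hB12 : (12:ℝ) ≤ (Bn (n+1) : ℝ) := by
    rw [← ef_Bge (n+1)]
    have h1 := ef_N12 (n+1)
    have h2 : (1:ℝ) ≤ ((n+1 : ℕ):ℝ) + 1 := by
      have : (0:ℝ) ≤ ((n+1 : ℕ):ℝ) := Nat.cast_nonneg _
      linarith
    have h3 : (1:ℝ) ≤ (Nn (n+1) : ℝ) * (((n+1 : ℕ):ℝ) + 1) := by nlinarith
    have h4 := one_le_pow₀ h3 (n := 12)
    linarith
  have hNW : (WW (Nn n) (Bn n) : ℝ) ^ 2 ≤ (Nn (n+1) : ℝ) := by
    have e : (Nn (n+1) : ℝ) = 4 * (Nn n : ℝ) * (WW (Nn n) (Bn n) : ℝ) ^ 4 := by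
      rw [Nn_succ]; unfold NN; push_cast; ring
    rw [e]
    have h2 : (1:ℝ) ≤ (WW (Nn n) (Bn n) : ℝ) ^ 2 := one_le_pow₀ hW
    have h4 : (WW (Nn n) (Bn n) : ℝ) ^ 4 = (WW (Nn n) (Bn n) : ℝ) ^ 2 * (WW (Nn n) (Bn n) : ℝ) ^ 2 := by ring
    rw [h4]
    nlinarith [mul_nonneg (sub_nonneg.2 h2) (sub_nonneg.2 hN), mul_nonneg (sub_nonneg.2 h2) (by linarith : (0:ℝ) ≤ (WW (Nn n) (Bn n) : ℝ) ^ 2)]
  have hk : Real.sqrt (8 / ((Nn (n+1) : ℝ) * (Bn (n+1) : ℝ))) ≤ 1 / (WW (Nn n) (Bn n) : ℝ) := by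
    apply Real.sqrt_le_iff.2
    refine ⟨by positivity, ?_⟩
    have hN1 : (0:ℝ) < (Nn (n+1) : ℝ) := by linarith [ef_N12 (n+1)]
    have hB1 : (0:ℝ) < (Bn (n+1) : ℝ) := by linarith
    rw [div_pow, one_pow, div_le_div_iff₀ (mul_pos hN1 hB1) (by positivity)]
    have hW2 : (0:ℝ) < (WW (Nn n) (Bn n) : ℝ) ^ 2 := by positivity
    nlinarith [mul_nonneg (sub_nonneg.2 hNW) (by linarith : (0:ℝ) ≤ (Bn (n+1) : ℝ)), mul_nonneg (sub_nonneg.2 hB12) hW2.le]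
  calc δδ (n+1) ≤ 2 * Real.sqrt (8 / ((Nn (n+1) : ℝ) * (Bn (n+1) : ℝ))) := ef_dd (n+1)
    _ ≤ 2 * (1 / (WW (Nn n) (Bn n) : ℝ)) := by
        apply mul_le_mul_of_nonneg_left hk (by norm_num)
    _ = _ := by ring

theorem ef_lim (f : ℕ → ℝ) (h0 : ∀ n, 0 ≤ f n) (h1 : ∀ n, f n ≤ 2 / ((n:ℝ) + 1)) :
    Tendsto f atTop (𝓝 0) := by
  have h : Tendsto (fun n : ℕ => (2:ℝ) / ((n:ℝ) + 1)) atTop (𝓝 0) := by
    have := (tendsto_one_div_add_atTop_nhds_zero_nat (𝕜 := ℝ)).const_mul 2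
    simp only [mul_zero] at this
    refine this.congr (fun n => ?_)
    ring
  exact squeeze_zero h0 h1 h
theorem ee_facts : Summable ee ∧ (∀ n, 0 < ee n) ∧ Tendsto δδ atTop (𝓝 0) ∧
    Tendsto (fun n => (Nn n : ℝ) ^ 5 * δδ n) atTop (𝓝 0) ∧
    Tendsto (fun n => (Nn n : ℝ) ^ 5 * ((LL (Nn n) (Bn n) (Bn n) : ℝ) * δδ (n+1))) atTop (𝓝 0) ∧
    Tendsto (fun n => (Nn n : ℝ) ^ 5 / Real.sqrt (Bn n)) atTop (𝓝 0) := by
  have hnn : ∀ n : ℕ, (1:ℝ) ≤ (n:ℝ) + 1 := fun n => by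
    have : (0:ℝ) ≤ (n:ℝ) := Nat.cast_nonneg n
    linarith
  have key : ∀ n : ℕ, (n:ℝ) + 1 ≤ ((n:ℝ) + 1) ^ 6 := fun n => by
    exact le_self_pow₀ (hnn n) (by norm_num)
  refine ⟨?_, ef_pos, ?_, ?_, ?_, ?_⟩
  · have := ef_sum 0
    simpa using this
  · apply ef_lim _ ef_dd_nonneg
    intro n
    refine (ef_dd1 n).trans ?_
    apply div_le_div_of_nonneg_left (by norm_num) (by have := hnn n; linarith)
    rw [mul_pow]
    have h1 := one_le_pow₀ (ef_N12 n) (n := 6)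
    have h2 := key n
    have h3 := hnn n
    nlinarith
  · apply ef_lim _ (fun n => mul_nonneg (by positivity) (ef_dd_nonneg n))
    intro n
    have hN := ef_N12 n
    have hN0 : (0:ℝ) < (Nn n : ℝ) := by linarith
    have h3 := hnn n
    calc (Nn n : ℝ) ^ 5 * δδ n ≤ (Nn n : ℝ) ^ 5 * (2 / ((Nn n : ℝ) * ((n:ℝ) + 1)) ^ 6) :=
          mul_le_mul_of_nonneg_left (ef_dd1 n) (by positivity)
      _ = 2 / ((Nn n : ℝ) * ((n:ℝ) + 1) ^ 6) := by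
          rw [mul_pow]; field_simp
      _ ≤ 2 / ((n:ℝ) + 1) := by
          apply div_le_div_of_nonneg_left (by norm_num) (by linarith)
          have h2 := key n
          nlinarith
  · apply ef_lim _ (fun n => mul_nonneg (by positivity) (mul_nonneg (by positivity) (ef_dd_nonneg _)))
    intro n
    have hN := ef_N12 n
    have hN0 : (0:ℝ) < (Nn n : ℝ) := by linarith
    have h3 := hnn n
    have hB : (0:ℝ) < (Bn n : ℝ) := by exact_mod_cast ef_B_pos n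
    have eL : (LL (Nn n) (Bn n) (Bn n) : ℝ) = (Nn n : ℝ) * (Bn n : ℝ) ^ (Bn n + 1) := by
      unfold LL; push_cast; ring
    have eW : (WW (Nn n) (Bn n) : ℝ) = 36 * (Nn n : ℝ) * (Bn n : ℝ) ^ (Bn n + 2) := by
      unfold WW; push_cast; ring
    have hp : (0:ℝ) < (Bn n : ℝ) ^ (Bn n + 1) := by positivity
    have e2 : (Bn n : ℝ) ^ (Bn n + 2) = (Bn n : ℝ) ^ (Bn n + 1) * (Bn n : ℝ) := by
      rw [← pow_succ]
    calc (Nn n : ℝ) ^ 5 * ((LL (Nn n) (Bn n) (Bn n) : ℝ) * δδ (n+1))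
        ≤ (Nn n : ℝ) ^ 5 * ((LL (Nn n) (Bn n) (Bn n) : ℝ) * (2 / (WW (Nn n) (Bn n) : ℝ))) := by
          apply mul_le_mul_of_nonneg_left _ (by positivity)
          exact mul_le_mul_of_nonneg_left (ef_dd2 n) (by positivity)
      _ = (Nn n : ℝ) ^ 5 / (18 * (Bn n : ℝ)) := by
          rw [eL, eW, e2]; field_simp; norm_num
      _ ≤ 2 / ((n:ℝ) + 1) := by
          have hP : (0:ℝ) < (Nn n : ℝ) * ((n:ℝ) + 1) := by positivity
          rw [← ef_Bge n, div_le_div_iff₀ (by positivity) (by linarith)]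
          rw [mul_pow]
          have h5 : (Nn n : ℝ) ^ 5 ≤ (Nn n : ℝ) ^ 12 := pow_le_pow_right₀ hN (by norm_num)
          have h6 : (n:ℝ) + 1 ≤ ((n:ℝ) + 1) ^ 12 := le_self_pow₀ (hnn n) (by norm_num)
          have h7 : (Nn n : ℝ) ^ 5 * ((n:ℝ) + 1) ≤ (Nn n : ℝ) ^ 12 * ((n:ℝ) + 1) ^ 12 :=
            mul_le_mul h5 h6 (by linarith) (by positivity)
          have h8 : (0:ℝ) ≤ (Nn n : ℝ) ^ 12 * ((n:ℝ) + 1) ^ 12 := by positivity
          nlinarith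
  · apply ef_lim _ (fun n => by positivity)
    intro n
    have hN := ef_N12 n
    have hN0 : (0:ℝ) < (Nn n : ℝ) := by linarith
    have h3 := hnn n
    have hsq : ((Nn n : ℝ) * ((n:ℝ) + 1)) ^ 6 ≤ Real.sqrt (Bn n) := by
      apply Real.le_sqrt_of_sq_le
      rw [← ef_Bge n, ← pow_mul]
      have : (0:ℝ) ≤ ((Nn n : ℝ) * ((n:ℝ) + 1)) ^ 12 := by positivity
      norm_num
      linarith
    calc (Nn n : ℝ) ^ 5 / Real.sqrt (Bn n) ≤ (Nn n : ℝ) ^ 5 / ((Nn n : ℝ) * ((n:ℝ) + 1)) ^ 6 := by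
          have hP : (0:ℝ) < (Nn n : ℝ) * ((n:ℝ) + 1) := by positivity
          apply div_le_div_of_nonneg_left (by positivity) (by positivity) hsq
      _ = 1 / ((Nn n : ℝ) * ((n:ℝ) + 1) ^ 6) := by
          rw [mul_pow]; field_simp
      _ ≤ 2 / ((n:ℝ) + 1) := by
          rw [div_le_div_iff₀ (by positivity) (by linarith)]
          have h2 := key n
          nlinarith

end SM345
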