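import Pool.Agent.Helper345.SM.Defs
import Pool.Agent.Helper345.SM.J_basic
import Pool.Agent.Helper345.SM.chi_basic
import Pool.Agent.Helper345.SM.ee_facts

set_option autoImplicit false
set_option linter.unusedVariables false
set_option linter.style.longLine false

open MeasureTheory Filter Topology
open scoped ENNReal NNReal

noncomputable section

namespace SM345

theorem bf_norm_coh (c : Ctx) (n : ℕ) (b : ZMod 5) (f : ZMod (Nn n) → ℂ) :
    J c.hμ (n+1) (bf (n+1) b (fun u => f ((pr (Nn n) (wn n) (Bn n) u.val : ℕ) : ZMod (Nn n))))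
      = J c.hμ n (bf n b f) := by
  have h := (J_basic c.hμ).2.2.1 n (bf n b f)
  rw [← h]
  rfl

theorem bf_norm_abs (n : ℕ) (b : ZMod 5) (f : ZMod (Nn n) → ℂ) (y : Om n) :
    ‖bf n b f y‖ = ‖f y.1‖ := by
  unfold bf
  rw [norm_mul, chi_basic.2.2.1, mul_one]

theorem bf_norm_lim (c : Ctx) (b : ZMod 5) (C : ℝ) : ∀ (k n : ℕ) (f : ZMod (Nn n) → ℂ),
    (∀ u, ‖f u‖ ≤ C) →
    ‖c.UD (J c.hμ n (bf n b f)) - chi b • J c.hμ n (bf n b f)‖ ≤ C * δδ (n + k) := by
  intro k
  induction k with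
  | zero =>
    intro n f hf
    have h := c.lD n (bf n b f) C (fun y => by rw [bf_norm_abs]; exact hf y.1)
    have e : (bf n b f) ∘ (dP n) = fun y => chi b * bf n b f y := by
      funext y
      show bf n b f (dF n y) = _
      unfold bf dF
      simp only
      rw [mul_add, mul_one, chi_basic.1]
      ring
    rw [e, (J_basic c.hμ).2.1 n] at h
    exact h
  | succ k ih =>
    intro n f hf
    have h := ih (n + 1) (fun u => f ((pr (Nn n) (wn n) (Bn n) u.val : ℕ) : ZMod (Nn n)))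
      (fun u => hf _)
    rw [bf_norm_coh] at h
    have e : n + 1 + k = n + (k + 1) := by ring
    rw [e] at h
    exact h

theorem bf_norm (c : Ctx) (n : ℕ) (b : ZMod 5) (f : ZMod (Nn n) → ℂ) :
    J c.hμ n (bf n b f) ∈ c.Kc b ∧ ‖J c.hμ n (bf n b f)‖ ^ 2 = (∑ u, ‖f u‖ ^ 2) / (Nn n : ℝ) ∧
    J c.hμ (n+1) (bf (n+1) b (fun u => f ((pr (Nn n) (wn n) (Bn n) u.val : ℕ) : ZMod (Nn n))))
      = J c.hμ n (bf n b f) := by
  refine ⟨?_, ?_, bf_norm_coh c n b f⟩
  · show c.UD (J c.hμ n (bf n b f)) = chi b • J c.hμ n (bf n b f)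
    have hC : ∀ u, ‖f u‖ ≤ ∑ v, ‖f v‖ := fun u =>
      Finset.single_le_sum (f := fun v => ‖f v‖) (fun v _ => norm_nonneg _) (Finset.mem_univ u)
    have h := fun k => bf_norm_lim c b (∑ v, ‖f v‖) k n f hC
    have ht : Tendsto (fun k => (∑ v, ‖f v‖) * δδ (n + k)) atTop (𝓝 ((∑ v, ‖f v‖) * 0)) := by
      apply Tendsto.const_mul
      have h0 := ee_facts.2.2.1
      have h1 : Tendsto (fun k : ℕ => n + k) atTop atTop :=
        tendsto_atTop_mono (fun k => Nat.le_add_left k n) tendsto_id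
      exact h0.comp h1
    rw [mul_zero] at ht
    have h2 := ge_of_tendsto' ht h
    have h3 : c.UD (J c.hμ n (bf n b f)) - chi b • J c.hμ n (bf n b f) = 0 := by
      rw [← norm_eq_zero]
      exact le_antisymm h2 (norm_nonneg _)
    exact sub_eq_zero.1 h3
  · rw [(J_basic c.hμ).2.2.2.2 n]
    have e1 : ∑ y : Om n, ‖bf n b f y‖ ^ 2 = 5 * ∑ u, ‖f u‖ ^ 2 := by
      rw [Fintype.sum_prod_type]
      simp only [bf_norm_abs]
      rw [Finset.mul_sum]
      apply Finset.sum_congr rfl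
      intro u _
      rw [Finset.sum_const, Finset.card_univ, ZMod.card]
      simp
    have e2 : (Fintype.card (Om n) : ℝ) = 5 * (Nn n : ℝ) := by
      rw [Fintype.card_prod, ZMod.card, ZMod.card]
      push_cast; ring
    have hN : (0 : ℝ) < Nn n := by exact_mod_cast Nn_pos n
    rw [e1, e2]
    field_simp

end SM345
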