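import Pool.Agent.Helper345.SM.Defs
import Pool.Agent.Helper345.SM.J_basic

set_option autoImplicit false
set_option linter.unusedVariables false
set_option linter.style.longLine false

open MeasureTheory Filter Topology
open scoped ENNReal NNReal

noncomputable section

namespace SM345

theorem isLim_mul {Ω : ℕ → Type} [∀ n, Fintype (Ω n)] [∀ n, Nonempty (Ω n)]
    [∀ n, DecidableEq (Ω n)] [∀ n, MeasurableSpace (Ω n)] [∀ n, MeasurableSingletonClass (Ω n)]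
    {π : ∀ n, Ω (n+1) → Ω n} {μ : Measure (XX Ω π)} (hμ : UnifMeas μ)
    (g₁ g₂ : ∀ n, Equiv.Perm (Ω n)) (δ₁ δ₂ : ℕ → ℝ) (U₁ U₂ : Lp ℂ 2 μ ≃ₗᵢ[ℂ] Lp ℂ 2 μ)
    (h₁ : IsLim hμ g₁ δ₁ U₁) (h₂ : IsLim hμ g₂ δ₂ U₂) :
    IsLim hμ (fun n => g₂ n * g₁ n) (fun n => δ₁ n + δ₂ n) (U₁ * U₂) := by
  intro n f C hC
  have e1 := h₂ n f C hC
  have e2 := h₁ n (f ∘ g₂ n) C (fun y => hC _)
  have h3 : (U₁ * U₂) (J hμ n f) = U₁ (U₂ (J hμ n f)) := rfl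
  have h4 : (f ∘ (g₂ n * g₁ n : Equiv.Perm (Ω n))) = (f ∘ g₂ n) ∘ g₁ n := rfl
  show ‖(U₁ * U₂) (J hμ n f) - J hμ n (f ∘ (g₂ n * g₁ n : Equiv.Perm (Ω n)))‖ ≤ C * (δ₁ n + δ₂ n)
  rw [h3, h4]
  have h5 : U₁ (U₂ (J hμ n f)) - J hμ n ((f ∘ g₂ n) ∘ g₁ n) =
      U₁ (U₂ (J hμ n f) - J hμ n (f ∘ g₂ n)) + (U₁ (J hμ n (f ∘ g₂ n)) - J hμ n ((f ∘ g₂ n) ∘ g₁ n)) := by
    rw [map_sub]
    abel
  rw [h5]
  refine (norm_add_le _ _).trans ?_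
  rw [LinearIsometryEquiv.norm_map]
  linarith

end SM345
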