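import Pool.Agent.Helper345.SM.Defs
import Pool.Agent.Helper345.SM.J_basic

set_option autoImplicit false
set_option linter.unusedVariables false
set_option linter.style.longLine false

open MeasureTheory Filter Topology
open scoped ENNReal NNReal

noncomputable section

namespace SM345

theorem isLim_pow {Ω : ℕ → Type} [∀ n, Fintype (Ω n)] [∀ n, Nonempty (Ω n)]
    [∀ n, DecidableEq (Ω n)] [∀ n, MeasurableSpace (Ω n)] [∀ n, MeasurableSingletonClass (Ω n)]
    {π : ∀ n, Ω (n+1) → Ω n} {μ : Measure (XX Ω π)} (hμ : UnifMeas μ)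
    (g : ∀ n, Equiv.Perm (Ω n)) (δ : ℕ → ℝ) (U : Lp ℂ 2 μ ≃ₗᵢ[ℂ] Lp ℂ 2 μ)
    (h : IsLim hμ g δ U) (n k : ℕ) (f : Ω n → ℂ) (C : ℝ) (hf : ∀ y, ‖f y‖ ≤ C) :
    ‖(U ^ k) (J hμ n f) - J hμ n (fun y => f (((g n) ^ k) y))‖ ≤ k * (C * δ n) := by
  induction k generalizing f with
  | zero =>
    have : (U ^ 0) (J hμ n f) - J hμ n (fun y => f (((g n) ^ 0) y)) = 0 := by
      rw [pow_zero, pow_zero]
      exact sub_self _
    rw [this]
    simp
  | succ k ih =>
    have h1 := ih (f ∘ g n) (fun y => hf _)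
    have h2 := h n f C hf
    have e1 : (U ^ (k + 1)) (J hμ n f) - J hμ n (fun y => f (((g n) ^ (k + 1)) y)) =
        (U ^ k) (U (J hμ n f) - J hμ n (f ∘ g n)) +
        ((U ^ k) (J hμ n (f ∘ g n)) - J hμ n (fun y => (f ∘ g n) (((g n) ^ k) y))) := by
      rw [map_sub, pow_succ U k, pow_succ' (g n) k]
      have e2 : (U ^ k * U) (J hμ n f) = (U ^ k) (U (J hμ n f)) := rfl
      have e3 : (fun y => f ((g n * (g n) ^ k) y)) = (fun y => (f ∘ g n) (((g n) ^ k) y)) := rfl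
      rw [e2, e3]
      abel
    rw [e1]
    refine (norm_add_le _ _).trans ?_
    rw [LinearIsometryEquiv.norm_map]
    have e4 : ((k + 1 : ℕ) : ℝ) * (C * δ n) = C * δ n + (k : ℝ) * (C * δ n) := by
      push_cast
      ring
    rw [e4]
    exact add_le_add h2 h1

end SM345
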