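import Pool.Agent.Helper345.SM.Defs
import Pool.Agent.Helper345.SM.J_basic
import Pool.Agent.Helper345.SM.J_dense

set_option autoImplicit false
set_option linter.unusedVariables false
set_option linter.style.longLine false

open MeasureTheory Filter Topology
open scoped ENNReal NNReal

noncomputable section

namespace SM345

theorem isLim_unique {Ω : ℕ → Type} [∀ n, Fintype (Ω n)] [∀ n, Nonempty (Ω n)]
    [∀ n, DecidableEq (Ω n)] [∀ n, MeasurableSpace (Ω n)] [∀ n, MeasurableSingletonClass (Ω n)]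
    {π : ∀ n, Ω (n+1) → Ω n} {μ : Measure (XX Ω π)} (hμ : UnifMeas μ)
    (g : ∀ n, Equiv.Perm (Ω n)) (δ₁ δ₂ : ℕ → ℝ) (U₁ U₂ : Lp ℂ 2 μ ≃ₗᵢ[ℂ] Lp ℂ 2 μ)
    (h₁ : IsLim hμ g δ₁ U₁) (h₂ : IsLim hμ g δ₂ U₂)
    (t₁ : Tendsto δ₁ atTop (𝓝 0)) (t₂ : Tendsto δ₂ atTop (𝓝 0)) : U₁ = U₂ := by
  have hJ := (J_basic hμ).2.2.1
  have hlift : ∀ n (f : Ω n → ℂ) (C : ℝ), (∀ y, ‖f y‖ ≤ C) → ∀ k, ∃ f' : Ω (n + k) → ℂ,
      J hμ (n + k) f' = J hμ n f ∧ ∀ y, ‖f' y‖ ≤ C := by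
    intro n f C hC k
    induction k with
    | zero => exact ⟨f, rfl, hC⟩
    | succ k ih =>
      obtain ⟨f', h1, h2⟩ := ih
      refine ⟨f' ∘ π (n + k), ?_, fun y => h2 _⟩
      rw [← h1]
      exact hJ (n + k) f'
  have heq : ∀ n (f : Ω n → ℂ), U₁ (J hμ n f) = U₂ (J hμ n f) := by
    intro n f
    obtain ⟨C, hC⟩ := (Set.finite_range (fun y => ‖f y‖)).bddAbove
    have hC' : ∀ y, ‖f y‖ ≤ C := fun y => hC ⟨y, rfl⟩
    have hb : ∀ k, ‖U₁ (J hμ n f) - U₂ (J hμ n f)‖ ≤ C * δ₁ (n + k) + C * δ₂ (n + k) := by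
      intro k
      obtain ⟨f', e, h2⟩ := hlift n f C hC' k
      rw [← e]
      have a1 := h₁ (n + k) f' C h2
      have a2 := h₂ (n + k) f' C h2
      have e1 : U₁ (J hμ (n + k) f') - U₂ (J hμ (n + k) f') =
          (U₁ (J hμ (n + k) f') - J hμ (n + k) (f' ∘ g (n + k))) -
            (U₂ (J hμ (n + k) f') - J hμ (n + k) (f' ∘ g (n + k))) := by
        rw [sub_sub_sub_cancel_right]
      rw [e1]
      exact (norm_sub_le _ _).trans (add_le_add a1 a2)
    have hlim : Tendsto (fun k => C * δ₁ (n + k) + C * δ₂ (n + k)) atTop (𝓝 0) := by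
      have s1 : Tendsto (fun k : ℕ => n + k) atTop atTop := 
        tendsto_atTop_mono (fun k => Nat.le_add_left k n) tendsto_id
      have l1 := (t₁.comp s1).const_mul C
      have l2 := (t₂.comp s1).const_mul C
      have := l1.add l2
      rw [mul_zero, add_zero] at this
      exact this
    have h0 := ge_of_tendsto' hlim hb
    exact sub_eq_zero.1 (norm_le_zero_iff.1 h0)
  ext1 F
  have hle : ∀ ε : ℝ, 0 < ε → ‖U₁ F - U₂ F‖ ≤ ε := by
    intro ε hε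
    obtain ⟨n, f, hf⟩ := J_dense hμ F (ε / 2) (by positivity)
    have e1 : U₁ F - U₂ F = U₁ (F - J hμ n f) - U₂ (F - J hμ n f) := by
      rw [map_sub, map_sub, heq n f, sub_sub_sub_cancel_right]
    rw [e1]
    refine (norm_sub_le _ _).trans ?_
    rw [U₁.norm_map, U₂.norm_map]
    linarith
  have h0 : ‖U₁ F - U₂ F‖ ≤ 0 := le_of_forall_pos_le_add fun ε hε => by
    rw [zero_add]
    exact hle ε hε
  exact sub_eq_zero.1 (norm_le_zero_iff.1 h0)

end SM345
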