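import Pool.Agent.Helper345.SM.Defs
import Pool.Agent.Helper345.SM.isLim_mul
import Pool.Agent.Helper345.SM.isLim_pow
import Pool.Agent.Helper345.SM.isLim_unique
import Pool.Agent.Helper345.SM.ee_facts
import Pool.Agent.Helper345.SM.J_dense

set_option autoImplicit false
set_option linter.unusedVariables false
set_option linter.style.longLine false

open MeasureTheory Filter Topology
open scoped ENNReal NNReal

noncomputable section

namespace SM345

theorem rel_D_comm (c : Ctx) (g : ∀ n, Equiv.Perm (Om n)) (U : Lp ℂ 2 c.μ ≃ₗᵢ[ℂ] Lp ℂ 2 c.μ)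
    (h : IsLim c.hμ g δδ U) (hg : ∀ n, dP n * g n = g n * dP n) : U * c.UD = c.UD * U := by
  have h1 := isLim_mul c.hμ g dP δδ δδ U c.UD h c.lD
  have h2 := isLim_mul c.hμ dP g δδ δδ c.UD U c.lD h
  have e : (fun n => dP n * g n) = (fun n => g n * dP n) := funext hg
  rw [e] at h1
  have t : Tendsto (fun n => δδ n + δδ n) atTop (𝓝 0) := by
    have := ee_facts.2.2.1.add ee_facts.2.2.1
    rwa [add_zero] at this
  exact isLim_unique c.hμ _ _ _ _ _ h1 h2 t t

theorem rel_D (c : Ctx) (j : ℕ) : c.UT * c.UD = c.UD * c.UT ∧ c.US * c.UD = c.UD * c.US ∧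
    c.Ut j * c.UD = c.UD * c.Ut j ∧ c.UD * c.UR = c.UR * (c.UD * c.UD) ∧ c.UD ^ 5 = 1 := by
  have t0 := ee_facts.2.2.1
  refine ⟨?_, ?_, ?_, ?_, ?_⟩
  · apply rel_D_comm c TP _ c.lT
    intro n
    apply Equiv.ext
    intro z
    show dF n (TF n z) = TF n (dF n z)
    simp only [dF, TF]
    rw [add_right_comm]
  · apply rel_D_comm c sP _ c.lS
    intro n
    apply Equiv.ext
    intro z
    show dF n (sF n z) = sF n (dF n z)
    simp only [dF, sF]
  · apply rel_D_comm c (tP j) _ (c.lt j)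
    intro n
    apply Equiv.ext
    intro z
    show dF n (tF j n z) = tF j n (dF n z)
    simp only [dF, tF]
  · have h1 := isLim_mul c.hμ dP rP δδ δδ c.UD c.UR c.lD c.lR
    have h2 := isLim_mul c.hμ dP dP δδ δδ c.UD c.UD c.lD c.lD
    have h3 := isLim_mul c.hμ rP _ δδ _ c.UR _ c.lR h2
    have e : (fun n => rP n * dP n) = (fun n => (dP n * dP n) * rP n) := by
      funext n
      apply Equiv.ext
      intro z
      show rF n (dF n z) = dF n (dF n (rF n z))
      simp only [dF, rF]
      congr 1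
      ring
    rw [e] at h1
    refine isLim_unique c.hμ _ _ _ _ _ h1 h3 ?_ ?_
    · have := t0.add t0
      rwa [add_zero] at this
    · have := t0.add (t0.add t0)
      simpa using this
  · have h2 := isLim_mul c.hμ dP dP δδ δδ c.UD c.UD c.lD c.lD
    have h4 := isLim_mul c.hμ _ _ _ _ _ _ h2 h2
    have h5 := isLim_mul c.hμ _ dP _ δδ _ c.UD h4 c.lD
    have hone : IsLim c.hμ (fun n => (1 : Equiv.Perm (Om n))) (fun _ => 0)
        (1 : Lp ℂ 2 c.μ ≃ₗᵢ[ℂ] Lp ℂ 2 c.μ) := by
      intro n f C _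
      have : (f ∘ (1 : Equiv.Perm (Om n))) = f := by
        funext y; rfl
      rw [this]
      have e1 : (1 : Lp ℂ 2 c.μ ≃ₗᵢ[ℂ] Lp ℂ 2 c.μ) (J c.hμ n f) = J c.hμ n f := rfl
      rw [e1, sub_self, norm_zero, mul_zero]
    have e : (fun n => dP n * ((dP n * dP n) * (dP n * dP n))) =
        (fun n => (1 : Equiv.Perm (Om n))) := by
      funext n
      apply Equiv.ext
      intro z
      show dF n (dF n (dF n (dF n (dF n z)))) = z
      simp only [dF]
      apply Prod.ext
      · rfl
      · show z.2 + 1 + 1 + 1 + 1 + 1 = z.2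
        have h5' : (1 + 1 + 1 + 1 + 1 : ZMod 5) = 0 := by decide
        calc z.2 + 1 + 1 + 1 + 1 + 1 = z.2 + (1 + 1 + 1 + 1 + 1) := by ring
          _ = z.2 := by rw [h5', add_zero]
    rw [e] at h5
    have hu := isLim_unique c.hμ _ _ _ _ _ h5 hone (by
      have := ((t0.add t0).add (t0.add t0)).add t0
      simpa using this) tendsto_const_nhds
    rw [← hu]
    simp only [pow_succ, pow_zero, one_mul, mul_assoc]

end SM345
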