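import Pool.Agent.Helper345.SM.Defs
import Pool.Agent.Helper345.SM.J_basic
import Pool.Agent.Helper345.SM.J_dense
import Pool.Agent.Helper345.SM.bf_norm
import Pool.Agent.Helper345.SM.chi_basic
import Pool.Agent.Helper345.SM.rel_D

set_option autoImplicit false
set_option linter.unusedVariables false
set_option linter.style.longLine false

open MeasureTheory Filter Topology
open scoped ENNReal NNReal

noncomputable section

namespace SM345

theorem ka_chi_nsmul (n : ℕ) (a : ZMod 5) : chi (n • a) = chi a ^ n := by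
  obtain ⟨h1, h2, h3, h4⟩ := chi_basic
  induction n with
  | zero => simp [h2]
  | succ n ih => rw [succ_nsmul, h1, ih, pow_succ]

theorem ka_chi_ne_one (a : ZMod 5) (ha : a ≠ 0) : chi a ≠ 1 := by
  obtain ⟨h1, h2, h3, h4⟩ := chi_basic
  intro h
  have key : ∃ n : ℕ, n • a = 1 := by
    have : ∀ a : ZMod 5, a ≠ 0 → ∃ n : Fin 5, (n : ℕ) • a = 1 := by decide
    obtain ⟨n, hn⟩ := this a ha
    exact ⟨n, hn⟩
  obtain ⟨n, hn⟩ := key
  apply h4
  rw [← hn, ka_chi_nsmul, h, one_pow]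

theorem ka_chi_ne_zero (a : ZMod 5) : chi a ≠ 0 := by
  obtain ⟨h1, h2, h3, h4⟩ := chi_basic
  intro h
  have := h3 a
  rw [h, norm_zero] at this
  exact zero_ne_one this

theorem ka_chi_neg (a : ZMod 5) : chi (-a) * chi a = 1 := by
  obtain ⟨h1, h2, h3, h4⟩ := chi_basic
  rw [← h1, neg_add_cancel, h2]

theorem ka_chi_sum (d : ZMod 5) : ∑ b : ZMod 5, chi (b * d) = if d = 0 then 5 else 0 := by
  obtain ⟨h1, h2, h3, h4⟩ := chi_basic
  split_ifs with hd
  · subst hd
    simp [h2]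
  · have e : ∑ b : ZMod 5, chi ((b + 1) * d) = ∑ b : ZMod 5, chi (b * d) :=
      Equiv.sum_comp (Equiv.addRight (1 : ZMod 5)) (fun b => chi (b * d))
    have e2 : ∑ b : ZMod 5, chi ((b + 1) * d) = (∑ b : ZMod 5, chi (b * d)) * chi d := by
      rw [Finset.sum_mul]
      refine Finset.sum_congr rfl fun b _ => ?_
      rw [add_mul, one_mul, h1]
    have e3 : (∑ b : ZMod 5, chi (b * d)) * (chi d - 1) = 0 := by
      rw [mul_sub, mul_one, ← e2, e, sub_self]
    rcases mul_eq_zero.mp e3 with h | h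
    · exact h
    · exact absurd (sub_eq_zero.mp h) (ka_chi_ne_one d hd)

/-- Fourier coefficients in the fibre -/
def kaf (n : ℕ) (h : Om n → ℂ) (b : ZMod 5) (u : ZMod (Nn n)) : ℂ :=
  (1 / 5) * ∑ k : ZMod 5, chi (-(b * k)) * h (u, k)

theorem ka_decomp (n : ℕ) (h : Om n → ℂ) :
    h = fun y => ∑ b : ZMod 5, bf n b (kaf n h b) y := by
  obtain ⟨h1, h2, h3, h4⟩ := chi_basic
  funext y
  obtain ⟨u, k0⟩ := y
  unfold bf kaf
  simp only
  have e1 : ∀ b : ZMod 5, (1 / 5 : ℂ) * (∑ k : ZMod 5, chi (-(b * k)) * h (u, k)) * chi (b * k0) =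
      ∑ k : ZMod 5, (1 / 5 : ℂ) * h (u, k) * chi (b * (k0 - k)) := by
    intro b
    rw [Finset.mul_sum, Finset.sum_mul]
    refine Finset.sum_congr rfl fun k _ => ?_
    have : chi (b * (k0 - k)) = chi (-(b * k)) * chi (b * k0) := by
      rw [← h1]; congr 1; ring
    rw [this]; ring
  simp only [e1]
  rw [Finset.sum_comm]
  have e2 : ∀ k : ZMod 5, ∑ b : ZMod 5, (1 / 5 : ℂ) * h (u, k) * chi (b * (k0 - k)) =
      if k = k0 then h (u, k) else 0 := by
    intro k
    rw [← Finset.mul_sum, ka_chi_sum]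
    by_cases hk : k = k0
    · subst hk
      simp only [sub_self, if_true]
      ring
    · have : k0 - k ≠ 0 := fun h => hk (sub_eq_zero.mp h).symm
      rw [if_neg this, if_neg hk, mul_zero]
  simp only [e2]
  rw [Finset.sum_ite_eq' Finset.univ k0]
  simp

theorem ka_J_sum (c : Ctx) (n : ℕ) (s : Finset (ZMod 5)) (g : ZMod 5 → Om n → ℂ) :
    J c.hμ n (fun y => ∑ b ∈ s, g b y) = ∑ b ∈ s, J c.hμ n (g b) := by
  obtain ⟨hadd, hsmul, _, _, _⟩ := J_basic c.hμ
  induction s using Finset.induction_on with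
  | empty =>
    have := hsmul n 0 (fun _ => 0)
    simp only [zero_mul, zero_smul] at this
    simpa using this
  | insert a s ha ih =>
    simp only [Finset.sum_insert ha]
    rw [hadd n (g a) (fun y => ∑ b ∈ s, g b y), ih]

theorem ka_orth (c : Ctx) (b b' : ZMod 5) (hb : b ≠ b') (x y : Lp ℂ 2 c.μ) (hx : x ∈ c.Kc b)
    (hy : y ∈ c.Kc b') : inner ℂ x y = 0 := by
  obtain ⟨h1, h2, h3, h4⟩ := chi_basic
  have hx' : c.UD x = chi b • x := hx
  have hy' : c.UD y = chi b' • y := hy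
  have e : inner ℂ (c.UD x) (c.UD y) = inner ℂ x y := LinearIsometryEquiv.inner_map_map _ _ _
  rw [hx', hy', inner_smul_left, inner_smul_right] at e
  by_contra hne
  have e2 : (starRingEnd ℂ) (chi b) * chi b' = 1 := by
    have : ((starRingEnd ℂ) (chi b) * chi b' - 1) * inner ℂ x y = 0 := by
      rw [sub_mul, one_mul, mul_assoc, e, sub_self]
    rcases mul_eq_zero.mp this with h | h
    · exact sub_eq_zero.mp h
    · exact absurd h hne
  have e3 : chi b * (starRingEnd ℂ) (chi b) = 1 := by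
    rw [Complex.mul_conj, Complex.normSq_eq_norm_sq, h3]; simp
  have e4 : chi b' = chi b := by
    calc chi b' = (chi b * (starRingEnd ℂ) (chi b)) * chi b' := by rw [e3, one_mul]
      _ = chi b * ((starRingEnd ℂ) (chi b) * chi b') := by ring
      _ = chi b := by rw [e2, mul_one]
  have e5 : chi (b' - b) = 1 := by
    have : chi (b' - b) * chi b = chi b := by
      rw [← h1, sub_add_cancel, e4]
    exact mul_right_cancel₀ (ka_chi_ne_zero b) (by rw [this, one_mul])
  exact ka_chi_ne_one (b' - b) (sub_ne_zero.mpr hb.symm) e5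
theorem Kc_approx (c : Ctx) (b : ZMod 5) (F : Lp ℂ 2 c.μ) (hF : F ∈ c.Kc b) (ε : ℝ) (hε : 0 < ε) :
    ∃ n, ∃ f : ZMod (Nn n) → ℂ, ‖F - J c.hμ n (bf n b f)‖ < ε := by
  obtain ⟨n, h, hh⟩ := J_dense c.hμ F ε hε
  refine ⟨n, kaf n h b, lt_of_le_of_lt ?_ hh⟩
  have hJ : J c.hμ n h = ∑ b' : ZMod 5, J c.hμ n (bf n b' (kaf n h b')) := by
    conv_lhs => rw [ka_decomp n h]
    rw [ka_J_sum c n Finset.univ (fun b' => bf n b' (kaf n h b'))]
  have hsplit : ∑ b' : ZMod 5, J c.hμ n (bf n b' (kaf n h b')) =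
      J c.hμ n (bf n b (kaf n h b)) +
        ∑ b' ∈ Finset.univ.erase b, J c.hμ n (bf n b' (kaf n h b')) :=
    (Finset.add_sum_erase _ _ (Finset.mem_univ b)).symm
  set G := ∑ b' ∈ Finset.univ.erase b, J c.hμ n (bf n b' (kaf n h b')) with hG
  set x := F - J c.hμ n (bf n b (kaf n h b)) with hx
  have hxK : x ∈ c.Kc b := (c.Kc b).sub_mem hF (bf_norm c n b _).1
  have horth : inner ℂ x G = 0 := by
    rw [hG, inner_sum]
    refine Finset.sum_eq_zero fun b' hb' => ?_
    exact ka_orth c b b' (Finset.ne_of_mem_erase hb').symm _ _ hxK (bf_norm c n b' _).1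
  have e : F - J c.hμ n h = x - G := by
    rw [hJ, hsplit, hx]; abel
  rw [e]
  have hsq : ‖x - G‖ ^ 2 = ‖x‖ ^ 2 + ‖G‖ ^ 2 := by
    rw [@norm_sub_sq ℂ, horth]
    simp
  have : ‖x‖ ^ 2 ≤ ‖x - G‖ ^ 2 := by
    rw [hsq]; nlinarith [sq_nonneg ‖G‖]
  exact le_of_sq_le_sq this (norm_nonneg _)

end SM345
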