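import Pool.Agent.Helper345.SM.Defs
import Pool.Agent.Helper345.SM.J_basic
import Pool.Agent.Helper345.SM.chi_basic
import Pool.Agent.Helper345.SM.isLim_unique
import Pool.Agent.Helper345.SM.ee_facts

set_option autoImplicit false
set_option linter.unusedVariables false
set_option linter.style.longLine false

open MeasureTheory Filter Topology
open scoped ENNReal NNReal

noncomputable section

namespace SM345

theorem one_J (c : Ctx) (n : ℕ) : c.one = J c.hμ n (fun _ => 1) := by
  induction n with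
  | zero => rfl
  | succ n ih =>
    rw [ih]
    have h := (J_basic c.hμ).2.2.1 n (fun _ => 1)
    exact h.symm

theorem isLim_one (c : Ctx) (g : ∀ n, Equiv.Perm (Om n))
    (U : Lp ℂ 2 c.μ ≃ₗᵢ[ℂ] Lp ℂ 2 c.μ) (h : IsLim c.hμ g δδ U) : U c.one = c.one := by
  have h1 : ∀ n, ‖U c.one - c.one‖ ≤ δδ n := by
    intro n
    have h2 := h n (fun _ => 1) 1 (fun y => by simp)
    rw [one_mul] at h2
    have h3 : ((fun _ => (1 : ℂ)) ∘ (g n) : Om n → ℂ) = fun _ => 1 := rfl
    rw [h3, ← one_J c n] at h2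
    exact h2
  have h2 : ‖U c.one - c.one‖ ≤ 0 := ge_of_tendsto ee_facts.2.2.1 (Eventually.of_forall h1)
  exact sub_eq_zero.mp (norm_le_zero_iff.mp h2)
theorem one_fix (c : Ctx) : c.US c.one = c.one ∧ (∀ j, c.Ut j c.one = c.one) ∧ c.UT c.one = c.one ∧
    c.UD c.one = c.one ∧ ‖c.one‖ = 1 ∧ (∀ n, c.one = J c.hμ n (fun _ => 1)) ∧
    (∀ n f, inner ℂ c.one (J c.hμ n (bf n 0 f)) = (∑ u, f u) / (Nn n : ℂ)) := by
  refine ⟨isLim_one c _ _ c.lS, fun j => isLim_one c _ _ (c.lt j), isLim_one c _ _ c.lT,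
    isLim_one c _ _ c.lD, ?_, one_J c, ?_⟩
  · have h := (J_basic c.hμ).2.2.2.2 0 (fun _ => 1)
    have h1 : ‖c.one‖ ^ 2 = 1 := by
      rw [one_J c 0, h]
      simp only [norm_one, one_pow, Finset.sum_const, nsmul_eq_mul, mul_one, Finset.card_univ]
      exact div_self (by exact_mod_cast Fintype.card_ne_zero)
    have h2 : 0 ≤ ‖c.one‖ := norm_nonneg _
    nlinarith
  · intro n f
    have h := (J_basic c.hμ).2.2.2.1 n (fun _ => 1) (bf n 0 f)
    rw [one_J c n, h]
    have hb : ∀ y : Om n, (starRingEnd ℂ) 1 * bf n 0 f y = f y.1 := by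
      intro y
      simp only [bf, map_one, one_mul, zero_mul, chi_basic.2.1, mul_one]
    have hs : ∑ y : Om n, (starRingEnd ℂ) 1 * bf n 0 f y = 5 * ∑ u, f u := by
      rw [Finset.sum_congr rfl (fun y _ => hb y), Fintype.sum_prod_type]
      simp only [Finset.sum_const, Finset.card_univ, ZMod.card, nsmul_eq_mul]
      rw [← Finset.mul_sum]
      norm_num
    rw [hs]
    have hc : (Fintype.card (Om n) : ℂ) = (Nn n : ℂ) * 5 := by
      rw [Fintype.card_prod, ZMod.card, ZMod.card]
      push_cast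
      ring
    rw [hc]
    have hN : (Nn n : ℂ) ≠ 0 := by exact_mod_cast (Nn_pos n).ne'
    field_simp

end SM345
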