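import Pool.Agent.Helper345.SM.Defs
import Pool.Agent.Helper345.SM.Kc_approx
import Pool.Agent.Helper345.SM.one_fix
import Pool.Agent.Helper345.SM.bf_norm
import Pool.Agent.Helper345.SM.J_basic

set_option autoImplicit false
set_option linter.unusedVariables false
set_option linter.style.longLine false

open MeasureTheory Filter Topology
open scoped ENNReal NNReal

noncomputable section

namespace SM345

theorem K0_approx (c : Ctx) (F : Lp ℂ 2 c.μ) (hF : F ∈ c.K0) (ε : ℝ) (hε : 0 < ε) :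
    ∃ n, ∃ f : ZMod (Nn n) → ℂ, ∑ u, f u = 0 ∧ ‖F - J c.hμ n (bf n 0 f)‖ < ε := by
  obtain ⟨hadd, hsmul, -, -, -⟩ := J_basic c.hμ
  obtain ⟨-, -, -, -, hone, honeJ, hin⟩ := one_fix c
  have hF1 : F ∈ c.Kc 0 := (Submodule.mem_inf.mp hF).1
  have hF2 : F ∈ (Submodule.span ℂ {c.one})ᗮ := (Submodule.mem_inf.mp hF).2
  have hF3 : inner ℂ c.one F = 0 :=
    (Submodule.mem_orthogonal _ _).mp hF2 c.one (Submodule.mem_span_singleton_self _)
  obtain ⟨n, f, hf⟩ := Kc_approx c 0 F hF1 (ε/2) (by positivity)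
  set m : ℂ := (∑ u, f u) / (Nn n : ℂ) with hm
  have hN : (Nn n : ℂ) ≠ 0 := by exact_mod_cast (Nn_pos n).ne'
  refine ⟨n, fun u => f u - m, ?_, ?_⟩
  · rw [Finset.sum_sub_distrib, Finset.sum_const, Finset.card_univ, ZMod.card, nsmul_eq_mul, hm,
      mul_div_cancel₀ _ hN, sub_self]
  · have h1 : J c.hμ n (bf n 0 (fun u => f u - m)) = J c.hμ n (bf n 0 f) - m • c.one := by
      have e1 : bf n 0 (fun u => f u - m) =
          fun y => bf n 0 f y + (fun y => (-m) * (fun _ => (1:ℂ)) y) y := by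
        funext y
        simp [bf, chi]
        ring
      rw [e1, hadd n (bf n 0 f) (fun y => (-m) * (fun _ => (1:ℂ)) y), hsmul n (-m) (fun _ => (1:ℂ)),
        ← honeJ, neg_smul, sub_eq_add_neg]
    have h2 : m = inner ℂ c.one (J c.hμ n (bf n 0 f) - F) := by
      rw [inner_sub_right, hF3, hin, sub_zero]
    have h3 : ‖m‖ ≤ ‖F - J c.hμ n (bf n 0 f)‖ := by
      calc ‖m‖ = ‖(inner ℂ c.one (J c.hμ n (bf n 0 f) - F) : ℂ)‖ := by rw [← h2]
        _ ≤ ‖c.one‖ * ‖J c.hμ n (bf n 0 f) - F‖ := norm_inner_le_norm _ _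
        _ = _ := by rw [hone, one_mul, norm_sub_rev]
    have h4 : F - J c.hμ n (bf n 0 (fun u => f u - m))
        = (F - J c.hμ n (bf n 0 f)) + m • c.one := by
      rw [h1]; abel
    rw [h4]
    calc _ ≤ ‖F - J c.hμ n (bf n 0 f)‖ + ‖m • c.one‖ := norm_add_le _ _
      _ = ‖F - J c.hμ n (bf n 0 f)‖ + ‖m‖ := by rw [norm_smul, hone, mul_one]
      _ < ε := by linarith

end SM345
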