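import Pool.Agent.Helper345.SM.Defs

set_option autoImplicit false
set_option linter.unusedVariables false
set_option linter.style.longLine false

open MeasureTheory Filter Topology
open scoped ENNReal NNReal

noncomputable section

namespace SM345

theorem opP_aux_pow {H : Type} [NormedAddCommGroup H] [InnerProductSpace ℂ H]
    (U : H ≃ₗᵢ[ℂ] H) (k : ℕ) (f : H) :
    ((U.toLinearEquiv.toLinearMap : Module.End ℂ H) ^ k) f = (U ^ k) f := by
  induction k generalizing f with
  | zero => simp
  | succ k ih =>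
    rw [pow_succ, Module.End.mul_apply, ih, pow_succ]
    rfl

theorem opP_aux_aeval {H : Type} [NormedAddCommGroup H] [InnerProductSpace ℂ H]
    (U : H ≃ₗᵢ[ℂ] H) (P : Polynomial ℂ) (f : H) :
    opP U P f = (Polynomial.aeval (U.toLinearEquiv.toLinearMap : Module.End ℂ H) P) f := by
  rw [Polynomial.aeval_def, Polynomial.eval₂_eq_sum, Polynomial.sum_def, LinearMap.sum_apply]
  unfold opP
  refine Finset.sum_congr rfl fun k _ => ?_
  rw [Module.End.mul_apply, opP_aux_pow, Module.algebraMap_end_apply]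

theorem opP_basic {H : Type} [NormedAddCommGroup H] [InnerProductSpace ℂ H]
    (U : H ≃ₗᵢ[ℂ] H) :
    (∀ P Q f, opP U (P * Q) f = opP U P (opP U Q f)) ∧
    (∀ P Q f, opP U (P + Q) f = opP U P f + opP U Q f) ∧
    (∀ (a : ℂ) f, opP U (Polynomial.C a) f = a • f) ∧
    (∀ (k : ℕ) f, opP U (Polynomial.X ^ k) f = (U ^ k) f) ∧
    (∀ P f g, opP U P (f + g) = opP U P f + opP U P g) ∧
    (∀ P (a : ℂ) f, opP U P (a • f) = a • opP U P f) ∧
    (∀ P f, opP U P f ∈ Submodule.span ℂ (Set.range fun k : ℤ => (U ^ k) f)) ∧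
    (∀ P f, ‖opP U P f‖ ≤ (∑ k ∈ P.support, ‖P.coeff k‖) * ‖f‖) := by
  refine ⟨?_, ?_, ?_, ?_, ?_, ?_, ?_, ?_⟩
  · intro P Q f
    simp only [opP_aux_aeval]
    rw [map_mul, Module.End.mul_apply]
  · intro P Q f
    simp only [opP_aux_aeval]
    rw [map_add, LinearMap.add_apply]
  · intro a f
    rw [opP_aux_aeval, Polynomial.aeval_C, Module.algebraMap_end_apply]
  · intro k f
    rw [opP_aux_aeval, map_pow, Polynomial.aeval_X, opP_aux_pow]
  · intro P f g
    simp only [opP_aux_aeval]
    rw [map_add]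
  · intro P a f
    simp only [opP_aux_aeval]
    rw [map_smul]
  · intro P f
    unfold opP
    refine Submodule.sum_mem _ fun k _ => Submodule.smul_mem _ _ (Submodule.subset_span ⟨(k : ℤ), ?_⟩)
    simp
  · intro P f
    unfold opP
    refine (norm_sum_le _ _).trans ?_
    rw [Finset.sum_mul]
    refine Finset.sum_le_sum fun k _ => ?_
    rw [norm_smul, LinearIsometryEquiv.norm_map]

end SM345
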