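import Pool.Agent.Helper345.SM.Defs
import Pool.Agent.Helper345.SM.J_basic
import Pool.Agent.Helper345.SM.bf_norm
import Pool.Agent.Helper345.SM.isLim_pow
import Pool.Agent.Helper345.SM.ee_facts
import Pool.Agent.Helper345.SM.opP_basic

set_option autoImplicit false
set_option linter.unusedVariables false
set_option linter.style.longLine false

open MeasureTheory Filter Topology
open scoped ENNReal NNReal

noncomputable section

namespace SM345

theorem base_cyc_chi0 (v : ZMod 5) : chi (0 * v) = 1 := by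
  unfold chi
  rw [zero_mul]
  simp

theorem base_cyc_sP (n k : ℕ) (z : Om n) : ((sP n) ^ k) z = (z.1 + (k : ZMod (Nn n)), z.2) := by
  induction k with
  | zero =>
    rw [pow_zero, Nat.cast_zero, add_zero]
    rfl
  | succ k ih =>
    rw [pow_succ', Equiv.Perm.mul_apply, ih]
    show (z.1 + (k : ZMod (Nn n)) + 1, z.2) = _
    rw [Nat.cast_succ, add_assoc]

theorem base_cyc_Jzero (c : Ctx) (n : ℕ) : J c.hμ n (fun _ => (0 : ℂ)) = 0 := by
  have h := (J_basic c.hμ).2.1 n 0 (fun _ => (0 : ℂ))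
  simp only [mul_zero, zero_smul] at h
  exact h

theorem base_cyc_Jsum (c : Ctx) (n : ℕ) {ι : Type} (s : Finset ι) (a : ι → ℂ)
    (F : ι → Om n → ℂ) :
    J c.hμ n (fun z => ∑ i ∈ s, a i * F i z) = ∑ i ∈ s, a i • J c.hμ n (F i) := by
  classical
  induction s using Finset.induction_on with
  | empty =>
    simp only [Finset.sum_empty]
    exact base_cyc_Jzero c n
  | insert i s hi ih =>
    have h1 : (fun z => ∑ j ∈ insert i s, a j * F j z) =
        fun z => a i * F i z + ∑ j ∈ s, a j * F j z := by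
      funext z
      rw [Finset.sum_insert hi]
    rw [h1, (J_basic c.hμ).1 n (fun z => a i * F i z) (fun z => ∑ j ∈ s, a j * F j z),
      (J_basic c.hμ).2.1 n (a i) (F i), ih, Finset.sum_insert hi]

theorem base_cyc_opP {H : Type} [NormedAddCommGroup H] [InnerProductSpace ℂ H]
    (U : H ≃ₗᵢ[ℂ] H) {ι : Type} (s : Finset ι) (a : ι → ℂ) (k : ι → ℕ) (f : H) :
    opP U (∑ i ∈ s, Polynomial.C (a i) * Polynomial.X ^ (k i)) f =
      ∑ i ∈ s, a i • (U ^ (k i)) f := by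
  classical
  obtain ⟨h1, h2, h3, h4, -⟩ := opP_basic U
  induction s using Finset.induction_on with
  | empty =>
    simp only [Finset.sum_empty]
    have h5 := h3 0 f
    rw [map_zero, zero_smul] at h5
    exact h5
  | insert i s hi ih =>
    rw [Finset.sum_insert hi, Finset.sum_insert hi, h2, h1, h3, h4, ih]

theorem base_cyc_lift (c : Ctx) (m : ℕ) (f : ZMod (Nn m) → ℂ) (C : ℝ) (hC : ∀ u, ‖f u‖ ≤ C)
    (n : ℕ) (hn : m ≤ n) :
    ∃ g : ZMod (Nn n) → ℂ, (∀ u, ‖g u‖ ≤ C) ∧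
      J c.hμ n (bf n 0 g) = J c.hμ m (bf m 0 f) := by
  induction n, hn using Nat.le_induction with
  | base => exact ⟨f, hC, rfl⟩
  | succ n hn ih =>
    obtain ⟨g, hg1, hg2⟩ := ih
    refine ⟨fun u => g ((pr (Nn n) (wn n) (Bn n) u.val : ℕ) : ZMod (Nn n)), fun u => hg1 _, ?_⟩
    rw [(bf_norm c n 0 g).2.2, hg2]

theorem base_cyc_shift (n : ℕ) (y : ZMod (Nn n)) :
    (fun z : Om n => bf n 0 (fun u => if u = 0 then 1 else 0) (((sP n) ^ ((-y).val)) z)) =
      bf n 0 (fun u => if u = y then 1 else 0) := by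
  funext z
  rw [base_cyc_sP]
  unfold bf
  rw [ZMod.natCast_zmod_val]
  have h : (z.1 + -y = 0) ↔ (z.1 = y) := by
    rw [← sub_eq_add_neg, sub_eq_zero]
  simp only [h]

theorem base_cyc_decomp (n : ℕ) (g : ZMod (Nn n) → ℂ) :
    bf n 0 g = fun z => ∑ y : ZMod (Nn n), g y * bf n 0 (fun u => if u = y then 1 else 0) z := by
  funext z
  unfold bf
  have h : ∀ y : ZMod (Nn n), g y * ((if z.1 = y then (1 : ℂ) else 0) * chi (0 * z.2)) =
      if z.1 = y then g y * chi (0 * z.2) else 0 := by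
    intro y
    split_ifs with h1
    · ring
    · ring
  rw [Finset.sum_congr rfl (fun y _ => h y), Finset.sum_ite_eq]
  simp

theorem base_cyc_bd (n : ℕ) (z : Om n) :
    ‖bf n 0 (fun u => if u = 0 then 1 else 0) z‖ ≤ 1 := by
  unfold bf
  rw [base_cyc_chi0, mul_one]
  show ‖(if z.1 = 0 then (1 : ℂ) else 0)‖ ≤ 1
  split_ifs
  · rw [norm_one]
  · rw [norm_zero]; exact zero_le_one

theorem base_cyc_delta (n : ℕ) : 0 ≤ δδ n := by
  unfold δδ
  positivity

theorem base_cyc_err (c : Ctx) (n : ℕ) (g : ZMod (Nn n) → ℂ) (C : ℝ) (hC0 : 0 ≤ C)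
    (hC : ∀ u, ‖g u‖ ≤ C) :
    ‖J c.hμ n (bf n 0 g) - opP c.US (∑ y : ZMod (Nn n), Polynomial.C (g y) *
      Polynomial.X ^ ((-y).val)) (J c.hμ n (bf n 0 (fun u => if u = 0 then 1 else 0)))‖ ≤
      C * ((Nn n : ℝ) ^ 5 * δδ n) := by
  rw [base_cyc_opP c.US Finset.univ g (fun y => (-y).val), base_cyc_decomp n g,
    base_cyc_Jsum c n Finset.univ g (fun y => bf n 0 (fun u => if u = y then 1 else 0)),
    ← Finset.sum_sub_distrib]
  have hN : (1 : ℝ) ≤ (Nn n : ℝ) := by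
    exact_mod_cast Nn_pos n
  have hterm : ∀ y ∈ (Finset.univ : Finset (ZMod (Nn n))),
      ‖g y • J c.hμ n (bf n 0 (fun u => if u = y then 1 else 0)) -
        g y • (c.US ^ ((-y).val)) (J c.hμ n (bf n 0 (fun u => if u = 0 then 1 else 0)))‖ ≤
      C * ((Nn n : ℝ) * δδ n) := by
    intro y _
    rw [← smul_sub, norm_smul, norm_sub_rev]
    have h1 := isLim_pow c.hμ sP δδ c.US c.lS n ((-y).val)
      (bf n 0 (fun u => if u = 0 then 1 else 0)) 1 (base_cyc_bd n)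
    rw [base_cyc_shift n y, one_mul] at h1
    have h2 : (((-y).val : ℕ) : ℝ) ≤ (Nn n : ℝ) := by
      exact_mod_cast (ZMod.val_lt (-y)).le
    have h3 := base_cyc_delta n
    calc _ ≤ C * ((((-y).val : ℕ) : ℝ) * δδ n) := by
          exact mul_le_mul (hC y) h1 (norm_nonneg _) hC0
      _ ≤ _ := by gcongr
  refine le_trans (norm_sum_le_of_le _ hterm) ?_
  rw [Finset.sum_const, Finset.card_univ, ZMod.card, nsmul_eq_mul]
  have h3 := base_cyc_delta n
  have h4 : (Nn n : ℝ) * (Nn n : ℝ) ≤ (Nn n : ℝ) ^ 5 := by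
    have h5 : (1 : ℝ) ≤ (Nn n : ℝ) ^ 3 := one_le_pow₀ hN
    calc (Nn n : ℝ) * (Nn n : ℝ) = (Nn n : ℝ) ^ 2 * 1 := by ring
      _ ≤ (Nn n : ℝ) ^ 2 * (Nn n : ℝ) ^ 3 := by gcongr
      _ = _ := by ring
  calc (Nn n : ℝ) * (C * ((Nn n : ℝ) * δδ n)) = C * ((Nn n : ℝ) * (Nn n : ℝ) * δδ n) := by ring
    _ ≤ C * ((Nn n : ℝ) ^ 5 * δδ n) := by gcongr

theorem base_cyc (c : Ctx) (m : ℕ) (f : ZMod (Nn m) → ℂ) (ε : ℝ) (hε : 0 < ε) :
    ∀ᶠ n in atTop, ∃ P : Polynomial ℂ,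
      ‖J c.hμ m (bf m 0 f) - opP c.US P (J c.hμ n (bf n 0 (fun u => if u = 0 then 1 else 0)))‖ < ε := by
  obtain ⟨C, hC⟩ : ∃ C, C = ∑ u, ‖f u‖ := ⟨_, rfl⟩
  have hC0 : 0 ≤ C := by
    rw [hC]
    exact Finset.sum_nonneg fun u _ => norm_nonneg _
  have hCf : ∀ u, ‖f u‖ ≤ C := fun u => by
    rw [hC]
    exact Finset.single_le_sum (f := fun u => ‖f u‖) (fun u _ => norm_nonneg _)
      (Finset.mem_univ u)
  have hlim : Tendsto (fun n => C * ((Nn n : ℝ) ^ 5 * δδ n)) atTop (𝓝 0) := by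
    have h := ee_facts.2.2.2.1.const_mul C
    rw [mul_zero] at h
    exact h
  filter_upwards [hlim.eventually (gt_mem_nhds hε), eventually_ge_atTop m] with n hn hmn
  obtain ⟨g, hg1, hg2⟩ := base_cyc_lift c m f C hCf n hmn
  refine ⟨∑ y : ZMod (Nn n), Polynomial.C (g y) * Polynomial.X ^ ((-y).val),
    lt_of_le_of_lt ?_ hn⟩
  rw [← hg2]
  exact base_cyc_err c n g C hC0 hg1

end SM345
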