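import Pool.Agent.Helper345.SM.Defs
import Pool.Agent.Helper345.SM.opP_basic

set_option autoImplicit false
set_option linter.unusedVariables false
set_option linter.style.longLine false

open MeasureTheory Filter Topology
open scoped ENNReal NNReal

noncomputable section

namespace SM345

theorem poly_inv_zz {H : Type} [NormedAddCommGroup H] [InnerProductSpace ℂ H] (U : H ≃ₗᵢ[ℂ] H)
    (k j : ℤ) (h : H) : (U ^ k) ((U ^ j) h) = (U ^ (k + j)) h := by
  rw [zpow_add]
  rfl

theorem poly_inv_z1 {H : Type} [NormedAddCommGroup H] [InnerProductSpace ℂ H] (U : H ≃ₗᵢ[ℂ] H)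
    (k : ℤ) (h : H) : (U ^ k) (U h) = (U ^ (k + 1)) h := by
  have := poly_inv_zz U k 1 h
  rw [zpow_one] at this
  exact this

theorem poly_inv_maps {H : Type} [NormedAddCommGroup H] [InnerProductSpace ℂ H] (U : H ≃ₗᵢ[ℂ] H)
    (h : H) (k : ℤ) : Set.MapsTo (U ^ k)
      (Submodule.span ℂ (Set.range fun k : ℤ => (U ^ k) h) : Set H)
      (Submodule.span ℂ (Set.range fun k : ℤ => (U ^ k) h) : Set H) := by
  intro x hx
  rw [SetLike.mem_coe] at hx ⊢
  induction hx using Submodule.span_induction with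
  | mem x hx =>
    obtain ⟨j, rfl⟩ := hx
    refine Submodule.subset_span ⟨k + j, ?_⟩
    exact (poly_inv_zz U k j h).symm
  | zero => simp
  | add x y _ _ hx hy =>
    rw [map_add]
    exact Submodule.add_mem _ hx hy
  | smul a x _ hx =>
    rw [map_smul]
    exact Submodule.smul_mem _ _ hx

theorem poly_inv_trans {H : Type} [NormedAddCommGroup H] [InnerProductSpace ℂ H]
    (U : H ≃ₗᵢ[ℂ] H) {g h : H} (hg : g ∈ cyc U h) : cyc U g ≤ cyc U h := by
  unfold cyc
  apply Submodule.topologicalClosure_minimal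
  · rw [Submodule.span_le]
    rintro _ ⟨k, rfl⟩
    have hg' : g ∈ closure
        ((Submodule.span ℂ (Set.range fun k : ℤ => (U ^ k) h) : Submodule ℂ H) : Set H) := by
      rw [← Submodule.topologicalClosure_coe]
      exact hg
    have := map_mem_closure (U ^ k).continuous hg' (poly_inv_maps U h k)
    rw [SetLike.mem_coe, ← SetLike.mem_coe, Submodule.topologicalClosure_coe]
    exact this
  · exact Submodule.isClosed_topologicalClosure _

theorem poly_inv_lim {H : Type} [NormedAddCommGroup H] [InnerProductSpace ℂ H]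
    (U : H ≃ₗᵢ[ℂ] H) (g h : H) (s : ℂ) (hs : ‖s‖ < 1) (V : ℕ → H ≃ₗᵢ[ℂ] H)
    (ha : ∀ n, g - s ^ n • V n g ∈ Submodule.span ℂ (Set.range fun k : ℤ => (U ^ k) h)) :
    g ∈ cyc U h := by
  rw [cyc, ← SetLike.mem_coe, Submodule.topologicalClosure_coe]
  have ht : Tendsto (fun n => g - s ^ n • V n g) atTop (𝓝 (g - 0)) := by
    refine Tendsto.sub tendsto_const_nhds ?_
    rw [tendsto_zero_iff_norm_tendsto_zero]
    have h1 : ∀ n, ‖s ^ n • V n g‖ = ‖s‖ ^ n * ‖g‖ := by
      intro n
      rw [norm_smul, norm_pow, LinearIsometryEquiv.norm_map]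
    simp only [h1]
    have h2 := (tendsto_pow_atTop_nhds_zero_of_lt_one (norm_nonneg s) hs).mul_const ‖g‖
    rwa [zero_mul] at h2
  rw [sub_zero] at ht
  exact mem_closure_of_tendsto ht (Eventually.of_forall ha)

theorem poly_inv_lin {H : Type} [NormedAddCommGroup H] [InnerProductSpace ℂ H]
    (U : H ≃ₗᵢ[ℂ] H) (r : ℂ) (hr : ‖r‖ ≠ 1) (g : H) :
    g ∈ cyc U (opP U (Polynomial.X - Polynomial.C r) g) := by
  obtain ⟨-, b2, b3, b4, -, -, -, -⟩ := opP_basic U
  have e : opP U (Polynomial.X - Polynomial.C r) g = U g - r • g := by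
    have h1 : (Polynomial.X - Polynomial.C r : Polynomial ℂ)
        = Polynomial.X ^ 1 + Polynomial.C (-r) := by
      rw [pow_one, Polynomial.C_neg]
      ring
    rw [h1, b2, b4, b3, pow_one, neg_smul]
    exact (sub_eq_add_neg _ _).symm
  rw [e]
  rcases lt_or_gt_of_ne hr with hr | hr
  · refine poly_inv_lim U g _ r hr (fun n => U ^ (-(n : ℤ))) fun n => ?_
    induction n with
    | zero => simp
    | succ n ih =>
      have h1 : g - r ^ (n + 1) • (U ^ (-((n + 1 : ℕ) : ℤ))) g
          = (g - r ^ n • (U ^ (-(n : ℤ))) g)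
            + r ^ n • (U ^ (-((n + 1 : ℕ) : ℤ))) (U g - r • g) := by
        have h2 : (U ^ (-((n + 1 : ℕ) : ℤ))) (U g) = (U ^ (-(n : ℤ))) g := by
          rw [poly_inv_z1]
          congr 2
          push_cast
          ring
        rw [map_sub, h2, map_smul, smul_sub, smul_smul, pow_succ]
        abel
      rw [h1]
      exact Submodule.add_mem _ ih (Submodule.smul_mem _ _ (Submodule.subset_span ⟨_, rfl⟩))
  · have hr0 : r ≠ 0 := by
      rintro rfl
      rw [norm_zero] at hr
      linarith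
    have hs : ‖r⁻¹‖ < 1 := by
      rw [norm_inv]
      exact inv_lt_one_of_one_lt₀ hr
    refine poly_inv_lim U g _ r⁻¹ hs (fun n => U ^ (n : ℤ)) fun n => ?_
    induction n with
    | zero => simp
    | succ n ih =>
      have h1 : g - r⁻¹ ^ (n + 1) • (U ^ ((n + 1 : ℕ) : ℤ)) g
          = (g - r⁻¹ ^ n • (U ^ (n : ℤ)) g)
            + (-(r⁻¹ ^ (n + 1))) • (U ^ (n : ℤ)) (U g - r • g) := by
        have h2 : (U ^ (n : ℤ)) (U g) = (U ^ ((n + 1 : ℕ) : ℤ)) g := by
          rw [poly_inv_z1]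
          congr 2
        have h3 : r⁻¹ ^ (n + 1) * r = r⁻¹ ^ n := by
          rw [pow_succ, mul_assoc, inv_mul_cancel₀ hr0, mul_one]
        rw [map_sub, h2, map_smul, neg_smul, smul_sub, smul_smul, h3]
        abel
      rw [h1]
      exact Submodule.add_mem _ ih (Submodule.smul_mem _ _ (Submodule.subset_span ⟨_, rfl⟩))

theorem poly_inv_self {H : Type} [NormedAddCommGroup H] [InnerProductSpace ℂ H]
    (U : H ≃ₗᵢ[ℂ] H) (g : H) : g ∈ cyc U g := by
  rw [cyc]
  refine Submodule.le_topologicalClosure _ (Submodule.subset_span ⟨0, ?_⟩)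
  simp

theorem poly_inv_ind {H : Type} [NormedAddCommGroup H] [InnerProductSpace ℂ H]
    (U : H ≃ₗᵢ[ℂ] H) (n : ℕ) : ∀ P : Polynomial ℂ, P.natDegree = n →
    (∀ z : ℂ, ‖z‖ = 1 → P.eval z ≠ 0) → ∀ g : H, g ∈ cyc U (opP U P g) := by
  induction n with
  | zero =>
    intro P hd hP g
    rw [Polynomial.eq_C_of_natDegree_eq_zero hd] at hP ⊢
    obtain ⟨-, b2, b3, b4, -, -, -, -⟩ := opP_basic U
    rw [b3]
    have hc : P.coeff 0 ≠ 0 := by
      have := hP 1 (by simp)
      simpa using this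
    have h2 := Submodule.smul_mem (cyc U (P.coeff 0 • g)) (P.coeff 0)⁻¹
      (poly_inv_self U (P.coeff 0 • g))
    rwa [smul_smul, inv_mul_cancel₀ hc, one_smul] at h2
  | succ n ih =>
    intro P hd hP g
    obtain ⟨r, hr⟩ := IsAlgClosed.exists_root P (by
      intro h0
      rw [Polynomial.natDegree_eq_zero_iff_degree_le_zero.2 h0.le] at hd
      omega)
    obtain ⟨Q, hQ⟩ := Polynomial.dvd_iff_isRoot.2 hr
    have hr1 : ‖r‖ ≠ 1 := fun h1 => hP r h1 hr
    have hP0 : P ≠ 0 := by
      rintro rfl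
      simp at hd
    have hQ0 : Q ≠ 0 := by
      rintro rfl
      rw [mul_zero] at hQ
      exact hP0 hQ
    have hQd : Q.natDegree = n := by
      rw [hQ, Polynomial.natDegree_mul (Polynomial.X_sub_C_ne_zero r) hQ0,
        Polynomial.natDegree_X_sub_C] at hd
      omega
    have hQe : ∀ z : ℂ, ‖z‖ = 1 → Q.eval z ≠ 0 := by
      intro z hz h0
      apply hP z hz
      rw [hQ, Polynomial.eval_mul, h0, mul_zero]
    have h1 := ih Q hQd hQe g
    have h2 := poly_inv_lin U r hr1 (opP U Q g)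
    rw [hQ, (opP_basic U).1]
    exact poly_inv_trans U h2 h1

theorem poly_inv {H : Type} [NormedAddCommGroup H] [InnerProductSpace ℂ H] [CompleteSpace H]
    (U : H ≃ₗᵢ[ℂ] H) (P : Polynomial ℂ) (hP : ∀ z : ℂ, ‖z‖ = 1 → P.eval z ≠ 0) (g : H) :
    g ∈ cyc U (opP U P g) := by
  exact poly_inv_ind U _ P rfl hP g

end SM345
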