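import Pool.Agent.Helper345.SM.Defs

set_option autoImplicit false
set_option linter.unusedVariables false
set_option linter.style.longLine false

open MeasureTheory Filter Topology
open scoped ENNReal NNReal

noncomputable section

namespace SM345

theorem poly_perturb (P : Polynomial ℂ) (ε : ℝ) (hε : 0 < ε) :
    ∃ δ : ℂ, ‖δ‖ < ε ∧ ∀ z : ℂ, ‖z‖ = 1 → P.eval z + δ ≠ 0 := by
  have hg : ContDiff ℝ 1 (fun t : ℝ => P.eval (Complex.exp ((t : ℂ) * Complex.I))) := by
    have h1 : ContDiff ℝ 1 (fun t : ℝ => Complex.exp ((t : ℂ) * Complex.I)) :=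
      (Complex.ofRealCLM.contDiff.mul contDiff_const).cexp
    have h2 : ContDiff ℂ 1 (fun z : ℂ => P.eval z) := by
      have h3 := P.contDiff_aeval (𝕜 := ℂ) 1
      simpa using h3
    exact (h2.restrict_scalars ℝ).comp h1
  have hd : Dense (Set.range (fun t : ℝ => P.eval (Complex.exp ((t : ℂ) * Complex.I))))ᶜ := by
    apply ContDiff.dense_compl_range_of_finrank_lt_finrank hg
    rw [Complex.finrank_real_complex, Module.finrank_self]
    norm_num
  obtain ⟨w, hw1, hw2⟩ := hd.inter_open_nonempty (Metric.ball 0 ε) Metric.isOpen_ball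
    ⟨0, Metric.mem_ball_self hε⟩
  rw [mem_ball_zero_iff] at hw1
  refine ⟨-w, by rw [norm_neg]; exact hw1, ?_⟩
  intro z hz h0
  apply hw2
  refine ⟨Complex.arg z, ?_⟩
  have h3 : Complex.exp ((Complex.arg z : ℂ) * Complex.I) = z := by
    have := Complex.norm_mul_exp_arg_mul_I z
    rw [hz] at this
    simpa using this
  simp only [h3]
  linear_combination h0

end SM345
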