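import Pool.Agent.Helper345.SM.Defs
import Pool.Agent.Helper345.SM.poly_perturb
import Pool.Agent.Helper345.SM.poly_inv
import Pool.Agent.Helper345.SM.opP_basic

set_option autoImplicit false
set_option linter.unusedVariables false
set_option linter.style.longLine false

open MeasureTheory Filter Topology
open scoped ENNReal NNReal

noncomputable section

namespace SM345

theorem cycA_zpow_mem {H : Type} [NormedAddCommGroup H] [InnerProductSpace ℂ H]
    (U : H ≃ₗᵢ[ℂ] H) (K : Submodule ℂ H) (hU : ∀ f ∈ K, U f ∈ K) (hU' : ∀ f ∈ K, U⁻¹ f ∈ K)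
    (f : H) (hf : f ∈ K) (k : ℤ) : (U ^ k) f ∈ K := by
  induction k using Int.induction_on with
  | zero => simpa using hf
  | succ n ih =>
    have : (U ^ ((n : ℤ) + 1)) f = U ((U ^ (n : ℤ)) f) := by
      rw [add_comm, zpow_add, zpow_one]; rfl
    rw [this]; exact hU _ ih
  | pred n ih =>
    have : (U ^ (-(n : ℤ) - 1)) f = U⁻¹ ((U ^ (-(n : ℤ))) f) := by
      rw [sub_eq_add_neg, add_comm, zpow_add, zpow_neg_one]; rfl
    rw [this]; exact hU' _ ih

theorem cycA_le {H : Type} [NormedAddCommGroup H] [InnerProductSpace ℂ H]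
    (U : H ≃ₗᵢ[ℂ] H) (K : Submodule ℂ H) (hK : IsClosed (K : Set H)) (g : H)
    (hg : ∀ k : ℤ, (U ^ k) g ∈ K) : cyc U g ≤ K :=
  Submodule.topologicalClosure_minimal _
    (Submodule.span_le.mpr (by rintro _ ⟨k, rfl⟩; exact hg k)) hK

theorem cycA_closed {H : Type} [NormedAddCommGroup H] [InnerProductSpace ℂ H]
    (U : H ≃ₗᵢ[ℂ] H) (g : H) : IsClosed (cyc U g : Set H) :=
  Submodule.isClosed_topologicalClosure _

theorem cycA_mem {H : Type} [NormedAddCommGroup H] [InnerProductSpace ℂ H]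
    (U : H ≃ₗᵢ[ℂ] H) (g : H) (k : ℤ) : (U ^ k) g ∈ cyc U g :=
  Submodule.le_topologicalClosure _ (Submodule.subset_span ⟨k, rfl⟩)

theorem cycA_inv {H : Type} [NormedAddCommGroup H] [InnerProductSpace ℂ H]
    (U : H ≃ₗᵢ[ℂ] H) (g x : H) (hx : x ∈ cyc U g) (k : ℤ) : (U ^ k) x ∈ cyc U g := by
  have h : cyc U g ≤ (cyc U g).comap ((U ^ k : H ≃ₗᵢ[ℂ] H).toLinearEquiv : H →ₗ[ℂ] H) := by
    apply cycA_le
    · exact (cycA_closed U g).preimage (U ^ k : H ≃ₗᵢ[ℂ] H).continuous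
    · intro j
      change (U ^ k) ((U ^ j) g) ∈ cyc U g
      have : (U ^ k) ((U ^ j) g) = (U ^ (k + j)) g := by rw [zpow_add]; rfl
      rw [this]; exact cycA_mem _ _ _
  exact h hx

theorem cycA_dense_step {H : Type} [NormedAddCommGroup H] [InnerProductSpace ℂ H] [CompleteSpace H]
    (U : H ≃ₗᵢ[ℂ] H) (K : Submodule ℂ H)
    (hU : ∀ f ∈ K, U f ∈ K) (hU' : ∀ f ∈ K, U⁻¹ f ∈ K)
    (h : ∀ f₁ ∈ K, ∀ f₂ ∈ K, ∀ ε > 0, ∃ g ∈ K, ∃ P₁ P₂ : Polynomial ℂ,
      ‖f₁ - opP U P₁ g‖ < ε ∧ ‖f₂ - opP U P₂ g‖ < ε)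
    (x f : H) (hx : x ∈ K) (hf : f ∈ K) (η ε : ℝ) (hη : 0 < η) (hε : 0 < ε) :
    ∃ y ∈ K, ‖x - y‖ < η ∧ ∃ c : ℤ →₀ ℂ, ‖f - c.sum (fun k a => a • (U ^ k) y)‖ < ε := by
  obtain ⟨g, hg, P₁, P₂, h1, h2⟩ := h x hx f hf (min (η / 2) (ε / 2)) (lt_min (by linarith) (by linarith))
  obtain ⟨δ, hδ, hP⟩ := poly_perturb P₁ (η / 2 / (‖g‖ + 1)) (by positivity)
  obtain ⟨b1, b2, b3, b4, b5, b6, b7, b8⟩ := opP_basic U
  have hPz : ∀ z : ℂ, ‖z‖ = 1 → (P₁ + Polynomial.C δ).eval z ≠ 0 := by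
    intro z hz
    rw [Polynomial.eval_add, Polynomial.eval_C]
    exact hP z hz
  have hmem := poly_inv U (P₁ + Polynomial.C δ) hPz g
  have hy : opP U (P₁ + Polynomial.C δ) g = opP U P₁ g + δ • g := by rw [b2, b3]
  have hyK : opP U (P₁ + Polynomial.C δ) g ∈ K := by
    have hsp : Submodule.span ℂ (Set.range fun k : ℤ => (U ^ k) g) ≤ K :=
      Submodule.span_le.mpr (by rintro _ ⟨k, rfl⟩; exact cycA_zpow_mem U K hU hU' g hg k)
    exact hsp (b7 _ _)
  refine ⟨opP U (P₁ + Polynomial.C δ) g, hyK, ?_, ?_⟩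
  · rw [hy]
    have e1 : x - (opP U P₁ g + δ • g) = (x - opP U P₁ g) - δ • g := by abel
    rw [e1]
    have e2 : ‖δ • g‖ ≤ η / 2 := by
      rw [norm_smul]
      have hg1 : 0 < ‖g‖ + 1 := by positivity
      calc ‖δ‖ * ‖g‖ ≤ (η / 2 / (‖g‖ + 1)) * (‖g‖ + 1) := by
            apply mul_le_mul hδ.le (by linarith) (norm_nonneg _) (by positivity)
        _ = η / 2 := by field_simp
    calc ‖(x - opP U P₁ g) - δ • g‖ ≤ ‖x - opP U P₁ g‖ + ‖δ • g‖ := norm_sub_le _ _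
      _ < η / 2 + η / 2 := add_lt_add_of_lt_of_le (h1.trans_le (min_le_left _ _)) e2
      _ = η := by ring
  · set y := opP U (P₁ + Polynomial.C δ) g
    have h3 : opP U P₂ g ∈ cyc U y := by
      have hsp : Submodule.span ℂ (Set.range fun k : ℤ => (U ^ k) g) ≤ cyc U y :=
        Submodule.span_le.mpr (by rintro _ ⟨k, rfl⟩; exact cycA_inv U y g hmem k)
      exact hsp (b7 _ _)
    have h4 : opP U P₂ g ∈ closure
        ((Submodule.span ℂ (Set.range fun k : ℤ => (U ^ k) y) : Submodule ℂ H) : Set H) := h3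
    rw [Metric.mem_closure_iff] at h4
    obtain ⟨d, hd, hd2⟩ := h4 (ε / 2) (by linarith)
    obtain ⟨c, hc⟩ := Finsupp.mem_span_range_iff_exists_finsupp.mp hd
    refine ⟨c, ?_⟩
    rw [hc]
    rw [dist_eq_norm] at hd2
    calc ‖f - d‖ = ‖(f - opP U P₂ g) + (opP U P₂ g - d)‖ := by congr 1; abel
      _ ≤ ‖f - opP U P₂ g‖ + ‖opP U P₂ g - d‖ := norm_add_le _ _
      _ < ε / 2 + ε / 2 := add_lt_add (h2.trans_le (min_le_right _ _)) hd2
      _ = ε := by ring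

theorem cyc_exists {H : Type} [NormedAddCommGroup H] [InnerProductSpace ℂ H] [CompleteSpace H]
    [TopologicalSpace.SeparableSpace H] (U : H ≃ₗᵢ[ℂ] H) (K : Submodule ℂ H)
    (hK : IsClosed (K : Set H)) (hU : ∀ f ∈ K, U f ∈ K) (hU' : ∀ f ∈ K, U⁻¹ f ∈ K)
    (h : ∀ f₁ ∈ K, ∀ f₂ ∈ K, ∀ ε > 0, ∃ g ∈ K, ∃ P₁ P₂ : Polynomial ℂ,
      ‖f₁ - opP U P₁ g‖ < ε ∧ ‖f₂ - opP U P₂ g‖ < ε) :
    ∃ g ∈ K, cyc U g = K := by
  have : CompleteSpace K := hK.completeSpace_coe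
  have : SecondCountableTopology H := UniformSpace.secondCountable_of_separable H
  have : Nonempty K := ⟨0⟩
  let O : ℕ × ℕ → Set K := fun p =>
    ⋃ c : ℤ →₀ ℂ, {g : K | ‖((TopologicalSpace.denseSeq K p.1 : K) : H)
      - c.sum (fun k a => a • (U ^ k) (g : H))‖ < 1 / ((p.2 : ℝ) + 1)}
  have hopen : ∀ p, IsOpen (O p) := by
    intro p
    refine isOpen_iUnion fun c => ?_
    have hcont : Continuous fun g : K => ‖((TopologicalSpace.denseSeq K p.1 : K) : H)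
      - c.sum (fun k a => a • (U ^ k) (g : H))‖ := by
      refine (continuous_const.sub ?_).norm
      unfold Finsupp.sum
      refine continuous_finsetSum _ fun k _ => ?_
      exact ((U ^ k : H ≃ₗᵢ[ℂ] H).continuous.comp continuous_subtype_val).const_smul _
    exact isOpen_lt hcont continuous_const
  have hdense : ∀ p, Dense (O p) := by
    intro p
    rw [Metric.dense_iff]
    intro x r hr
    obtain ⟨y, hyK, hxy, c, hc⟩ := cycA_dense_step U K hU hU' h x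
      ((TopologicalSpace.denseSeq K p.1 : K) : H) x.2
      (TopologicalSpace.denseSeq K p.1).2 r (1 / ((p.2 : ℝ) + 1)) hr (by positivity)
    refine ⟨⟨y, hyK⟩, ?_, ?_⟩
    · rw [Metric.mem_ball, dist_comm, Subtype.dist_eq, dist_eq_norm]
      exact hxy
    · exact Set.mem_iUnion.mpr ⟨c, hc⟩
  have hD : Dense (⋂ p, O p) := dense_iInter_of_isOpen hopen hdense
  obtain ⟨g, hg⟩ := hD.nonempty
  rw [Set.mem_iInter] at hg
  refine ⟨g, g.2, le_antisymm ?_ ?_⟩
  · exact cycA_le U K hK g (cycA_zpow_mem U K hU hU' g g.2)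
  · intro f hf
    change f ∈ closure
        ((Submodule.span ℂ (Set.range fun k : ℤ => (U ^ k) (g : H)) : Submodule ℂ H) : Set H)
    rw [Metric.mem_closure_iff]
    intro ε hε
    obtain ⟨n, hn⟩ : ∃ n, dist (⟨f, hf⟩ : K) (TopologicalSpace.denseSeq K n) < ε / 2 := by
      have := TopologicalSpace.denseRange_denseSeq K
      exact (Metric.denseRange_iff.mp this) ⟨f, hf⟩ (ε / 2) (by linarith)
    obtain ⟨m, hm⟩ := exists_nat_one_div_lt (show (0 : ℝ) < ε / 2 by linarith)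
    obtain ⟨c, hc⟩ := Set.mem_iUnion.mp (hg (n, m))
    refine ⟨c.sum (fun k a => a • (U ^ k) (g : H)),
      Finsupp.mem_span_range_iff_exists_finsupp.mpr ⟨c, rfl⟩, ?_⟩
    rw [Subtype.dist_eq] at hn
    have hc' : dist ((TopologicalSpace.denseSeq K n : K) : H)
        (c.sum (fun k a => a • (U ^ k) (g : H))) < ε / 2 := by
      rw [dist_eq_norm]
      exact lt_trans hc hm
    calc dist f (c.sum (fun k a => a • (U ^ k) (g : H)))
        ≤ dist f ((TopologicalSpace.denseSeq K n : K) : H)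
          + dist ((TopologicalSpace.denseSeq K n : K) : H)
            (c.sum (fun k a => a • (U ^ k) (g : H))) := dist_triangle _ _ _
      _ < ε / 2 + ε / 2 := add_lt_add hn hc'
      _ = ε := by ring

end SM345
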