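import Pool.Agent.Helper345.SM.Defs
import Pool.Agent.Helper345.SM.base_cyc
import Pool.Agent.Helper345.SM.K0_approx
import Pool.Agent.Helper345.SM.cyc_exists
import Pool.Agent.Helper345.SM.one_fix
import Pool.Agent.Helper345.SM.opP_basic
import Pool.Agent.Helper345.SM.rel_D
import Pool.Agent.Helper345.SM.bf_norm

set_option autoImplicit false
set_option linter.unusedVariables false
set_option linter.style.longLine false

open MeasureTheory Filter Topology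
open scoped ENNReal NNReal

noncomputable section

namespace SM345

theorem K0_cyc_chi0 : chi 0 = 1 := by
  unfold chi
  simp

theorem K0_cyc_sep (c : Ctx) : TopologicalSpace.SeparableSpace (Lp ℂ 2 c.μ) := by
  have := c.hμ.prob
  have h0 : MeasurableSpace.CountablyGenerated (∀ n, Om n) := by
    have h : ∀ n, ∃ b : Set (Set (∀ n, Om n)), b.Countable ∧
        MeasurableSpace.comap (fun v : ∀ n, Om n => v n) inferInstance =
          MeasurableSpace.generateFrom b := fun n =>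
      (MeasurableSpace.CountablyGenerated.comap (fun v : ∀ n, Om n => v n)).isCountablyGenerated
    choose b hb hb2 using h
    refine ⟨⋃ n, b n, Set.countable_iUnion hb, ?_⟩
    rw [← MeasurableSpace.iSup_generateFrom]
    show (⨆ n, MeasurableSpace.comap (fun v : ∀ n, Om n => v n) inferInstance) = _
    exact iSup_congr hb2
  have h1 : MeasurableSpace.CountablyGenerated X :=
    MeasurableSpace.CountablyGenerated.comap (Subtype.val : X → ∀ n, Om n)
  have h2 : IsSeparable c.μ := inferInstance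
  have : Fact ((2 : ℝ≥0∞) ≠ ∞) := ⟨by norm_num⟩
  infer_instance

theorem K0_cyc_mem (c : Ctx) (f : Lp ℂ 2 c.μ) :
    f ∈ c.K0 ↔ c.UD f = f ∧ inner ℂ c.one f = 0 := by
  unfold Ctx.K0
  rw [Submodule.mem_inf, Submodule.mem_orthogonal_singleton_iff_inner_right]
  have : f ∈ c.Kc 0 ↔ c.UD f = chi 0 • f := Iff.rfl
  rw [this, K0_cyc_chi0, one_smul]

theorem K0_cyc_closed (c : Ctx) : IsClosed (c.K0 : Set (Lp ℂ 2 c.μ)) := by
  have e : (c.K0 : Set (Lp ℂ 2 c.μ)) = {f | c.UD f = f} ∩ {f | inner ℂ c.one f = 0} := by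
    ext f
    exact K0_cyc_mem c f
  rw [e]
  apply IsClosed.inter
  · exact isClosed_eq c.UD.continuous continuous_id
  · exact isClosed_eq (continuous_const.inner continuous_id) continuous_const

theorem K0_cyc_inv (c : Ctx) (f : Lp ℂ 2 c.μ) (hf : f ∈ c.K0) : c.US f ∈ c.K0 := by
  rw [K0_cyc_mem] at hf ⊢
  constructor
  · have h := congrArg (fun V : Lp ℂ 2 c.μ ≃ₗᵢ[ℂ] Lp ℂ 2 c.μ => V f) (rel_D c 0).2.1
    have h2 : c.US (c.UD f) = c.UD (c.US f) := h
    rw [← h2, hf.1]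
  · have h := c.US.inner_map_map c.one f
    rw [(one_fix c).1, hf.2] at h
    exact h

theorem K0_cyc_inv' (c : Ctx) (f : Lp ℂ 2 c.μ) (hf : f ∈ c.K0) : c.US⁻¹ f ∈ c.K0 := by
  rw [K0_cyc_mem] at hf ⊢
  have hinv : ∀ x, c.US (c.US⁻¹ x) = x := fun x => c.US.apply_symm_apply x
  constructor
  · apply c.US.injective
    have h := congrArg (fun V : Lp ℂ 2 c.μ ≃ₗᵢ[ℂ] Lp ℂ 2 c.μ => V (c.US⁻¹ f)) (rel_D c 0).2.1
    have h2 : c.US (c.UD (c.US⁻¹ f)) = c.UD (c.US (c.US⁻¹ f)) := h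
    rw [h2, hinv, hf.1]
  · have h := c.US.inner_map_map c.one (c.US⁻¹ f)
    rw [(one_fix c).1, hinv, hf.2] at h
    exact h.symm

theorem K0_cyc_pow (c : Ctx) (f : Lp ℂ 2 c.μ) (hf : f ∈ c.K0) (k : ℕ) : (c.US ^ k) f ∈ c.K0 := by
  induction k with
  | zero => exact hf
  | succ k ih =>
    rw [pow_succ']
    exact K0_cyc_inv c _ ih

theorem K0_cyc_powone (c : Ctx) (k : ℕ) : (c.US ^ k) c.one = c.one := by
  induction k with
  | zero => rfl
  | succ k ih =>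
    rw [pow_succ']
    show c.US ((c.US ^ k) c.one) = _
    rw [ih, (one_fix c).1]

theorem K0_cyc_opP (c : Ctx) (f : Lp ℂ 2 c.μ) (hf : f ∈ c.K0) (P : Polynomial ℂ) :
    opP c.US P f ∈ c.K0 := by
  unfold opP
  exact Submodule.sum_mem _ (fun k _ => Submodule.smul_mem _ _ (K0_cyc_pow c f hf k))

theorem K0_cyc_opPone (c : Ctx) (P : Polynomial ℂ) :
    ∃ β : ℂ, opP c.US P c.one = β • c.one := by
  refine ⟨∑ k ∈ P.support, P.coeff k, ?_⟩
  unfold opP
  rw [Finset.sum_smul]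
  apply Finset.sum_congr rfl
  intro k _
  rw [K0_cyc_powone]

theorem K0_cyc (c : Ctx) : ∃ g ∈ c.K0, cyc c.US g = c.K0 := by
  have := K0_cyc_sep c
  apply cyc_exists c.US c.K0 (K0_cyc_closed c) (K0_cyc_inv c) (K0_cyc_inv' c)
  intro f₁ hf₁ f₂ hf₂ ε hε
  obtain ⟨n₁, F₁, -, hF₁⟩ := K0_approx c f₁ hf₁ (ε / 2) (by linarith)
  obtain ⟨n₂, F₂, -, hF₂⟩ := K0_approx c f₂ hf₂ (ε / 2) (by linarith)
  obtain ⟨n, ⟨P₁, hP₁⟩, ⟨P₂, hP₂⟩⟩ := ((base_cyc c n₁ F₁ (ε / 2) (by linarith)).and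
    (base_cyc c n₂ F₂ (ε / 2) (by linarith))).exists
  set g' := J c.hμ n (bf n 0 (fun u => if u = 0 then 1 else 0)) with hg'
  have hg'D : c.UD g' = g' := by
    have h := (bf_norm c n 0 (fun u => if u = 0 then 1 else 0)).1
    have h2 : c.UD g' = chi 0 • g' := h
    rw [h2, K0_cyc_chi0, one_smul]
  obtain ⟨-, -, -, h1D, h1n, -⟩ := one_fix c
  set α : ℂ := inner ℂ c.one g' with hα
  have h11 : inner ℂ c.one c.one = (1 : ℂ) := by
    rw [inner_self_eq_norm_sq_to_K, h1n]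
    simp
  have hg : g' - α • c.one ∈ c.K0 := by
    rw [K0_cyc_mem]
    constructor
    · rw [map_sub, map_smul, hg'D, h1D]
    · rw [inner_sub_right, inner_smul_right, h11, ← hα]
      ring
  have key : ∀ (f : Lp ℂ 2 c.μ) (_ : f ∈ c.K0) (P : Polynomial ℂ),
      ‖f - opP c.US P (g' - α • c.one)‖ ≤ ‖f - opP c.US P g'‖ := by
    intro f hf P
    obtain ⟨β, hβ⟩ := K0_cyc_opPone c P
    obtain ⟨-, -, -, -, hadd, hsm, -, -⟩ := opP_basic c.US
    have e1 : opP c.US P g' = opP c.US P (g' - α • c.one) + (α * β) • c.one := by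
      have e0 : g' = (g' - α • c.one) + α • c.one := by abel
      conv_lhs => rw [e0]
      rw [hadd, hsm, hβ, smul_smul]
    have e2 : f - opP c.US P g' = (f - opP c.US P (g' - α • c.one)) + (-(α * β)) • c.one := by
      rw [e1, neg_smul]
      abel
    have hx : f - opP c.US P (g' - α • c.one) ∈ c.K0 :=
      Submodule.sub_mem _ hf (K0_cyc_opP c _ hg P)
    rw [K0_cyc_mem] at hx
    have h0 : inner ℂ (f - opP c.US P (g' - α • c.one)) ((-(α * β)) • c.one) = (0 : ℂ) := by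
      rw [inner_smul_right, inner_eq_zero_symm.1 hx.2, mul_zero]
    have h3 := norm_add_sq_eq_norm_sq_add_norm_sq_of_inner_eq_zero _ _ h0
    rw [← e2] at h3
    have h4 := mul_self_nonneg ‖(-(α * β)) • c.one‖
    by_contra hcon
    push Not at hcon
    have h5 := mul_self_lt_mul_self (norm_nonneg _) hcon
    linarith
  refine ⟨g' - α • c.one, hg, P₁, P₂, ?_, ?_⟩
  · calc ‖f₁ - opP c.US P₁ (g' - α • c.one)‖ ≤ ‖f₁ - opP c.US P₁ g'‖ := key f₁ hf₁ P₁
      _ = ‖(f₁ - J c.hμ n₁ (bf n₁ 0 F₁)) + (J c.hμ n₁ (bf n₁ 0 F₁) - opP c.US P₁ g')‖ := by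
        congr 1; abel
      _ ≤ ‖f₁ - J c.hμ n₁ (bf n₁ 0 F₁)‖ + ‖J c.hμ n₁ (bf n₁ 0 F₁) - opP c.US P₁ g'‖ :=
        norm_add_le _ _
      _ < ε := by linarith
  · calc ‖f₂ - opP c.US P₂ (g' - α • c.one)‖ ≤ ‖f₂ - opP c.US P₂ g'‖ := key f₂ hf₂ P₂
      _ = ‖(f₂ - J c.hμ n₂ (bf n₂ 0 F₂)) + (J c.hμ n₂ (bf n₂ 0 F₂) - opP c.US P₂ g')‖ := by
        congr 1; abel
      _ ≤ ‖f₂ - J c.hμ n₂ (bf n₂ 0 F₂)‖ + ‖J c.hμ n₂ (bf n₂ 0 F₂) - opP c.US P₂ g'‖ :=
        norm_add_le _ _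
      _ < ε := by linarith

end SM345
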