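import Pool.Agent.Helper345.SM.Defs

set_option autoImplicit false
set_option linter.unusedVariables false
set_option linter.style.longLine false

open MeasureTheory Filter Topology
open scoped ENNReal NNReal

noncomputable section

namespace SM345

theorem QQ_circle (n : ℕ) (z : Circle) : ‖(QQ n).eval (z : ℂ)‖ ≤ 1 := by
  unfold QQ
  rw [Polynomial.eval_finset_sum]
  have h1 : ∀ i ∈ Finset.range (Bn n), ‖(Polynomial.C (1 / (Bn n : ℂ)) *
      Polynomial.X ^ (LL (Nn n) (Bn n) i)).eval (z : ℂ)‖ ≤ 1 / (Bn n : ℝ) := by
    intro i _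
    rw [Polynomial.eval_mul, Polynomial.eval_C, Polynomial.eval_pow, Polynomial.eval_X, norm_mul, norm_pow,
      Circle.norm_coe, one_pow, mul_one, norm_div, norm_one, Complex.norm_natCast]
  refine (norm_sum_le_of_le _ h1).trans ?_
  rw [Finset.sum_const, Finset.card_range, nsmul_eq_mul, mul_one_div]
  exact div_self_le_one _

end SM345
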