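import Pool.Agent.Helper345.SM.Defs

set_option autoImplicit false
set_option linter.unusedVariables false
set_option linter.style.longLine false

open MeasureTheory Filter Topology
open scoped ENNReal NNReal

noncomputable section

namespace SM345

theorem db_lt {W x v V : ℕ} (hx : x < W) (hv : v < V) : x + W * v < W * V := by
  calc x + W * v < W + W * v := by omega
    _ = W * (v + 1) := by ring
    _ ≤ W * V := Nat.mul_le_mul_left W hv

theorem db_mod {W x v : ℕ} (hx : x < W) : (x + W * v) % W = x := by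
  rw [Nat.add_mul_mod_self_left, Nat.mod_eq_of_lt hx]

theorem db_div {W x v : ℕ} (hx : x < W) : (x + W * v) / W = v := by
  rw [Nat.add_mul_div_left _ _ (by omega), Nat.div_eq_of_lt hx, zero_add]

theorem db_NN (N B : ℕ) : NN N B = WW N B * (WW N B * (WW N B * (WW N B * (N * 4)))) := by
  rw [NN]; ring

theorem db_dx (N B i u : ℕ) (hu : u < NN N B) : dx N B i u = u / (WW N B) ^ i % WW N B := by
  rw [dx, Nat.mod_eq_of_lt hu]

theorem db_comp (N B : ℕ) (x0 x1 x2 x3 a c : ℕ) (h0 : x0 < WW N B) (h1 : x1 < WW N B)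
    (h2 : x2 < WW N B) (h3 : x3 < WW N B) (ha : a < N) (hc : c < 4) (u : ℕ)
    (hu : u = x0 + WW N B * (x1 + WW N B * (x2 + WW N B * (x3 + WW N B * (a + N * c))))) :
    u < NN N B ∧ dx N B 0 u = x0 ∧ dx N B 1 u = x1 ∧ dx N B 2 u = x2 ∧ dx N B 3 u = x3 ∧
      da N B u = a ∧ dc N B u = c := by
  have hlt : u < NN N B := by
    rw [db_NN, hu]
    exact db_lt h0 (db_lt h1 (db_lt h2 (db_lt h3 (db_lt ha hc))))
  have e1 : u / (WW N B) ^ 1 = x1 + WW N B * (x2 + WW N B * (x3 + WW N B * (a + N * c))) := by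
    rw [pow_one, hu, db_div h0]
  have e2 : u / (WW N B) ^ 2 = x2 + WW N B * (x3 + WW N B * (a + N * c)) := by
    rw [pow_succ, ← Nat.div_div_eq_div_mul, e1, db_div h1]
  have e3 : u / (WW N B) ^ 3 = x3 + WW N B * (a + N * c) := by
    rw [pow_succ, ← Nat.div_div_eq_div_mul, e2, db_div h2]
  have e4 : u / (WW N B) ^ 4 = a + N * c := by
    rw [pow_succ, ← Nat.div_div_eq_div_mul, e3, db_div h3]
  refine ⟨hlt, ?_, ?_, ?_, ?_, ?_, ?_⟩
  · rw [db_dx _ _ _ _ hlt, pow_zero, Nat.div_one, hu, db_mod h0]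
  · rw [db_dx _ _ _ _ hlt, e1, db_mod h1]
  · rw [db_dx _ _ _ _ hlt, e2, db_mod h2]
  · rw [db_dx _ _ _ _ hlt, e3, db_mod h3]
  · rw [da, Nat.mod_eq_of_lt hlt, e4, db_mod ha]
  · rw [dc, Nat.mod_eq_of_lt hlt, ← Nat.div_div_eq_div_mul, e4, db_div ha]

theorem db_recon (N B u : ℕ) (hu : u < NN N B) :
    u = dx N B 0 u + WW N B * (dx N B 1 u + WW N B * (dx N B 2 u + WW N B * (dx N B 3 u +
      WW N B * (da N B u + N * dc N B u)))) := by
  have e4 : da N B u + N * dc N B u = u / (WW N B) ^ 4 := by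
    rw [da, dc, Nat.mod_eq_of_lt hu, ← Nat.div_div_eq_div_mul]
    exact Nat.mod_add_div _ _
  have e3 : dx N B 3 u + WW N B * (u / (WW N B) ^ 4) = u / (WW N B) ^ 3 := by
    rw [db_dx _ _ _ _ hu, pow_succ (WW N B) 3, ← Nat.div_div_eq_div_mul]
    exact Nat.mod_add_div _ _
  have e2 : dx N B 2 u + WW N B * (u / (WW N B) ^ 3) = u / (WW N B) ^ 2 := by
    rw [db_dx _ _ _ _ hu, pow_succ (WW N B) 2, ← Nat.div_div_eq_div_mul]
    exact Nat.mod_add_div _ _
  have e1 : dx N B 1 u + WW N B * (u / (WW N B) ^ 2) = u / (WW N B) ^ 1 := by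
    rw [db_dx _ _ _ _ hu, pow_succ (WW N B) 1, ← Nat.div_div_eq_div_mul]
    exact Nat.mod_add_div _ _
  have e0 : dx N B 0 u + WW N B * (u / (WW N B) ^ 1) = u := by
    rw [db_dx _ _ _ _ hu, pow_one, pow_zero, Nat.div_one]
    exact Nat.mod_add_div _ _
  rw [e4, e3, e2, e1, e0]

/-- the projection as a function of `a` -/
def db_F (N w : ℕ) (x : ℕ → ℕ) (c a : ℕ) : ℕ :=
  (x 0 + a + N / 4 * c + ∑ i ∈ Finset.range 3, w ^ ((i + a) % 3 + 1) * x (i + 1)) % N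

theorem db_F_inj (N w : ℕ) (hN : 12 ∣ N) (hw : 3 ∣ w) (x : ℕ → ℕ) (c a a' : ℕ)
    (ha : a < N) (ha' : a' < N) (h : db_F N w x c a = db_F N w x c a') : a = a' := by
  have h3N : 3 ∣ N := dvd_trans (by norm_num) hN
  have hS : ∀ a, (∑ i ∈ Finset.range 3, w ^ ((i + a) % 3 + 1) * x (i + 1)) ≡ 0 [MOD 3] := by
    intro a
    rw [Nat.modEq_zero_iff_dvd]
    refine Finset.dvd_sum fun i _ => ?_
    exact dvd_mul_of_dvd_left (dvd_pow hw (by omega)) _
  have h1 : x 0 + a + N / 4 * c + ∑ i ∈ Finset.range 3, w ^ ((i + a) % 3 + 1) * x (i + 1) ≡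
      x 0 + a' + N / 4 * c + ∑ i ∈ Finset.range 3, w ^ ((i + a') % 3 + 1) * x (i + 1) [MOD N] := h
  have h2 := h1.of_dvd h3N
  have h3 : x 0 + a + N / 4 * c ≡ x 0 + a' + N / 4 * c [MOD 3] :=
    Nat.ModEq.add_right_cancel ((hS a).trans (hS a').symm) h2
  have h4 : a ≡ a' [MOD 3] := Nat.ModEq.add_left_cancel' _ (Nat.ModEq.add_right_cancel' _ h3)
  have h5 : (∑ i ∈ Finset.range 3, w ^ ((i + a) % 3 + 1) * x (i + 1)) =
      ∑ i ∈ Finset.range 3, w ^ ((i + a') % 3 + 1) * x (i + 1) := by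
    refine Finset.sum_congr rfl fun i _ => ?_
    have : (i + a) % 3 = (i + a') % 3 := Nat.ModEq.add_left i h4
    rw [this]
  rw [h5] at h1
  have h6 : a ≡ a' [MOD N] := Nat.ModEq.add_left_cancel' _
    (Nat.ModEq.add_right_cancel' _ (Nat.ModEq.add_right_cancel' _ h1))
  exact Nat.ModEq.eq_of_lt_of_lt h6 ha ha'

theorem db_F_surj (N w : ℕ) (hN : 12 ∣ N) (hN0 : 0 < N) (hw : 3 ∣ w) (x : ℕ → ℕ) (c y : ℕ)
    (hy : y < N) : ∃ a < N, db_F N w x c a = y := by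
  let f : Fin N → Fin N := fun a => ⟨db_F N w x c a, Nat.mod_lt _ hN0⟩
  have hf : Function.Injective f := by
    intro a a' h
    exact Fin.ext (db_F_inj N w hN hw x c a a' a.2 a'.2 (congrArg Fin.val h))
  obtain ⟨a, ha⟩ := (Finite.injective_iff_surjective.1 hf) ⟨y, hy⟩
  exact ⟨a, a.2, congrArg Fin.val ha⟩

theorem db_pr (N w B u : ℕ) (x : ℕ → ℕ) (hx : ∀ i < 4, dx N B i u = x i) :
    pr N w B u = db_F N w x (dc N B u) (da N B u) := by
  rw [pr, db_F, hx 0 (by norm_num)]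
  congr 2
  refine Finset.sum_congr rfl fun i hi => ?_
  have : i < 3 := Finset.mem_range.1 hi
  rw [hx (i + 1) (by omega)]

theorem digit_bij (N w B : ℕ) (hN : 12 ∣ N) (hN0 : 0 < N) (hw : 3 ∣ w) (hB : 0 < B)
    (y : ℕ) (hy : y < N) (x : ℕ → ℕ) (hx : ∀ i, x i < WW N B) (c : ℕ) (hc : c < 4) :
    ∃! u : ℕ, u < NN N B ∧ pr N w B u = y ∧ (∀ i < 4, dx N B i u = x i) ∧ dc N B u = c := by
  obtain ⟨a, ha, hay⟩ := db_F_surj N w hN hN0 hw x c y hy
  obtain ⟨h0, h1, h2, h3, h4, h5, h6⟩ := db_comp N B (x 0) (x 1) (x 2) (x 3) a c (hx 0) (hx 1)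
    (hx 2) (hx 3) ha hc _ rfl
  set u := x 0 + WW N B * (x 1 + WW N B * (x 2 + WW N B * (x 3 + WW N B * (a + N * c)))) with hu
  have hxu : ∀ i < 4, dx N B i u = x i := by
    intro i hi
    interval_cases i <;> assumption
  refine ⟨u, ⟨h0, ?_, hxu, h6⟩, ?_⟩
  · rw [db_pr N w B u x hxu, h5, h6, hay]
  · rintro v ⟨g0, g1, g2, g3⟩
    have ha' : da N B v < N := Nat.mod_lt _ hN0
    rw [db_pr N w B v x g2, g3] at g1
    have e : da N B v = a := db_F_inj N w hN hw x c _ _ ha' ha (g1.trans hay.symm)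
    rw [db_recon N B v g0, g2 0 (by norm_num), g2 1 (by norm_num), g2 2 (by norm_num),
      g2 3 (by norm_num), e, g3]

end SM345
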