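import Pool.Agent.Helper345.SM.Defs

set_option autoImplicit false
set_option linter.unusedVariables false
set_option linter.style.longLine false

open MeasureTheory Filter Topology
open scoped ENNReal NNReal

noncomputable section

namespace SM345

theorem pr_per_dx (N B i u : ℕ) : dx N B i (u + NN N B) = dx N B i u := by
  unfold dx
  rw [Nat.add_mod_right]

theorem pr_per_da (N B u : ℕ) : da N B (u + NN N B) = da N B u := by
  unfold da
  rw [Nat.add_mod_right]

theorem pr_per_dc (N B u : ℕ) : dc N B (u + NN N B) = dc N B u := by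
  unfold dc
  rw [Nat.add_mod_right]

theorem pr_per_pr (N w B u : ℕ) : pr N w B (u + NN N B) = pr N w B u := by
  unfold pr
  simp only [pr_per_dx, pr_per_da, pr_per_dc]

theorem pr_per_AA (N B u : ℕ) : AA N B (u + NN N B) = AA N B u := by
  unfold AA
  simp only [pr_per_dx, pr_per_da, pr_per_dc]

theorem pr_per (N w B : ℕ) (u : ℕ) :
    pr N w B (u + NN N B) = pr N w B u ∧ AA N B (u + NN N B) = AA N B u ∧
    (∀ φ : ℕ → ZMod 5, phi' N w B φ (u + NN N B) = phi' N w B φ u) := by
  refine ⟨pr_per_pr N w B u, pr_per_AA N B u, fun φ => ?_⟩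
  unfold phi'
  rw [pr_per_pr, pr_per_AA, add_right_comm u (NN N B) 3, pr_per_AA]

end SM345
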