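import Pool.Agent.Helper345.SM.Defs

set_option autoImplicit false
set_option linter.unusedVariables false
set_option linter.style.longLine false

open MeasureTheory Filter Topology
open scoped ENNReal NNReal

noncomputable section

namespace SM345

theorem pr_r_mod (Q u : ℕ) (hQ : 0 < Q) :
    ((u + Q) % (4 * Q) = u % (4 * Q) + Q ∧ u % (4 * Q) + Q < 4 * Q) ∨
      ((u + Q) % (4 * Q) + 3 * Q = u % (4 * Q) ∧ (u + Q) % (4 * Q) < Q) := by
  have h1 : u % (4 * Q) < 4 * Q := Nat.mod_lt _ (by omega)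
  have h2 : (u + Q) % (4 * Q) = (u % (4 * Q) + Q) % (4 * Q) := (Nat.mod_add_mod _ _ _).symm
  by_cases h3 : u % (4 * Q) + Q < 4 * Q
  · left
    rw [h2, Nat.mod_eq_of_lt h3]
    exact ⟨rfl, h3⟩
  · right
    have h4 : (u % (4 * Q) + Q) % (4 * Q) = u % (4 * Q) + Q - 4 * Q := by
      rw [Nat.mod_eq_sub_mod (by omega), Nat.mod_eq_of_lt (by omega)]
    rw [h2, h4]
    omega

theorem pr_r_dig (W i j x k : ℕ) (hW : 0 < W) (hij : i + 1 + j = 4) :
    (x + k * W ^ 4) / W ^ i % W = x / W ^ i % W := by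
  have h1 : x + k * W ^ 4 = x + W ^ i * (W * (k * W ^ j)) := by
    rw [← hij, pow_add, pow_add, pow_one]
    ring
  rw [h1, Nat.add_mul_div_left _ _ (pow_pos hW i), Nat.add_mul_mod_self_left]

theorem pr_r_digits (N B : ℕ) (hN0 : 0 < N) (hB : 0 < B) (u : ℕ) :
    (∀ i, i ≤ 3 → dx N B i (u + NN N B / 4) = dx N B i u) ∧
      da N B (u + NN N B / 4) = da N B u ∧
      (dc N B (u + NN N B / 4) = dc N B u + 1 ∨
        (dc N B u = 3 ∧ dc N B (u + NN N B / 4) = 0)) := by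
  have hW : 0 < WW N B := by unfold WW; positivity
  unfold dx da dc NN
  generalize WW N B = W at hW ⊢
  have hQ : 0 < W ^ 4 * N := Nat.mul_pos (pow_pos hW 4) hN0
  have e1 : 4 * N * W ^ 4 / 4 = W ^ 4 * N := by
    rw [show 4 * N * W ^ 4 = (W ^ 4 * N) * 4 by ring, Nat.mul_div_cancel _ (by norm_num)]
  have e2 : 4 * N * W ^ 4 = 4 * (W ^ 4 * N) := by ring
  rw [e1, e2]
  have hd : ∀ x k i, i ≤ 3 → (x + k * (W ^ 4 * N)) / W ^ i % W = x / W ^ i % W := by
    intro x k i hi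
    have h1 := pr_r_dig W i (3 - i) x (k * N) hW (by omega)
    rw [show k * (W ^ 4 * N) = k * N * W ^ 4 by ring]
    exact h1
  have ha : ∀ x k, (x + k * (W ^ 4 * N)) / W ^ 4 % N = x / W ^ 4 % N := by
    intro x k
    rw [show x + k * (W ^ 4 * N) = x + W ^ 4 * (N * k) by ring,
      Nat.add_mul_div_left _ _ (pow_pos hW 4), Nat.add_mul_mod_self_left]
  have hc : ∀ x k, (x + k * (W ^ 4 * N)) / (W ^ 4 * N) = x / (W ^ 4 * N) + k := by
    intro x k
    rw [mul_comm k, Nat.add_mul_div_left _ _ hQ]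
  rcases pr_r_mod (W ^ 4 * N) u hQ with ⟨h1, _⟩ | ⟨h1, h2⟩
  · rw [h1]
    have h3 : u % (4 * (W ^ 4 * N)) + W ^ 4 * N = u % (4 * (W ^ 4 * N)) + 1 * (W ^ 4 * N) := by ring
    rw [h3]
    exact ⟨fun i hi => hd _ _ i hi, ha _ _, Or.inl (hc _ _)⟩
  · rw [← h1]
    refine ⟨fun i hi => (hd _ _ i hi).symm, (ha _ _).symm, Or.inr ⟨?_, ?_⟩⟩
    · rw [hc, Nat.div_eq_of_lt h2]
    · exact Nat.div_eq_of_lt h2

theorem pr_r (N w B : ℕ) (hN : 12 ∣ N) (hN0 : 0 < N) (hw : 3 ∣ w) (hB : 0 < B) (u : ℕ) :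
    pr N w B (u + NN N B / 4) = (pr N w B u + N / 4) % N ∧
      AA N B (u + NN N B / 4) = 2 * AA N B u := by
  obtain ⟨hd, ha, hc⟩ := pr_r_digits N B hN0 hB u
  have hN4 : N / 4 * 4 = N := by
    obtain ⟨k, rfl⟩ := hN
    omega
  have h0 := hd 0 (by omega)
  constructor
  · unfold pr
    have hs : ∑ i ∈ Finset.range 3, w ^ ((i + da N B (u + NN N B / 4)) % 3 + 1) *
        dx N B (i + 1) (u + NN N B / 4) =
        ∑ i ∈ Finset.range 3, w ^ ((i + da N B u) % 3 + 1) * dx N B (i + 1) u := by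
      refine Finset.sum_congr rfl fun i hi => ?_
      rw [ha, hd (i + 1) (by have := Finset.mem_range.mp hi; omega)]
    rw [hs, h0, ha, Nat.mod_add_mod]
    generalize ∑ i ∈ Finset.range 3, w ^ ((i + da N B u) % 3 + 1) * dx N B (i + 1) u = S
    rcases hc with hc | ⟨hc1, hc2⟩
    · rw [hc]
      congr 1
      ring
    · rw [hc1, hc2, Nat.mul_zero, Nat.add_zero]
      have h1 : dx N B 0 u + da N B u + N / 4 * 3 + S + N / 4 =
          dx N B 0 u + da N B u + S + N := by omega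
      rw [h1, Nat.add_mod_right]
  · unfold AA
    rw [h0, ha]
    rcases hc with hc | ⟨hc1, hc2⟩
    · rw [hc, pow_succ]
      ring
    · rw [hc1, hc2, ← mul_assoc]
      congr 1

end SM345
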