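import Pool.Agent.Helper345.SM.Defs
import Pool.Agent.Helper345.SM.pr_r
import Pool.Agent.Helper345.SM.pr_per

set_option autoImplicit false
set_option linter.unusedVariables false
set_option linter.style.longLine false

open MeasureTheory Filter Topology
open scoped ENNReal NNReal

noncomputable section

namespace SM345

theorem phi_r (n u : ℕ) : (lev n).φ (u + Nn n) = (lev n).φ u ∧
    (lev n).φ (u + Nn n / 4) = 2 * (lev n).φ u := by
  induction n generalizing u with
  | zero =>
    constructor
    · rfl
    · show (0 : ZMod 5) = 2 * 0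
      rw [mul_zero]
  | succ n ih =>
    obtain ⟨h1, h2, -, -, h5, -⟩ := lev_dvd n
    have hN0 : 0 < Nn n := Nn_pos n
    have hB0 : 0 < Bn n := by
      rw [← h5]
      positivity
    have hper : Function.Periodic (lev n).φ (Nn n) := fun x => (ih x).1
    have hphi : ∀ x, (lev (n + 1)).φ x = phi' (Nn n) (wn n) (Bn n) (lev n).φ x := fun _ => rfl
    have hr := fun x => pr_r (Nn n) (wn n) (Bn n) h1 hN0 h2 hB0 x
    constructor
    · rw [hphi, hphi, Nn_succ]
      exact (pr_per (Nn n) (wn n) (Bn n) u).2.2 (lev n).φ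
    · rw [hphi, hphi, Nn_succ]
      unfold phi'
      have e1 : u + NN (Nn n) (Bn n) / 4 + 3 = (u + 3) + NN (Nn n) (Bn n) / 4 := by ring
      rw [e1, (hr u).1, (hr u).2, (hr (u + 3)).2, hper.map_mod_nat, (ih (pr (Nn n) (wn n) (Bn n) u)).2]
      ring

end SM345
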