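import Pool.Agent.Helper345.SM.Defs
import Pool.Agent.Helper345.SM.phi_r

set_option autoImplicit false
set_option linter.unusedVariables false
set_option linter.style.longLine false

open MeasureTheory Filter Topology
open scoped ENNReal NNReal

noncomputable section

namespace SM345

theorem phi_sum (n u L : ℕ) (hL : Nn n ∣ L) :
    ∑ k ∈ Finset.range L, (lev n).φ (u + 3 * k) = 0 := by
  obtain ⟨⟨q, hq⟩, -, -, -, -, -⟩ := lev_dvd n
  obtain ⟨M, hM⟩ := hL
  have hq4 : Nn n / 4 = 3 * q := by omega
  set F : ℕ → ZMod 5 := fun k => (lev n).φ (u + 3 * k) with hF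
  have h1 : ∀ k, F (k + q) = 2 * F k := by
    intro k
    have h := (phi_r n (u + 3 * k)).2
    rw [hq4] at h
    simp only [hF]
    rw [← h]
    congr 1
    ring
  have h2 : ∀ k, F (k + 4 * q) = F k := by
    intro k
    have h := (phi_r n (u + 3 * k)).1
    rw [hq] at h
    simp only [hF]
    rw [← h]
    congr 1
    ring
  have h3 : ∀ m k, F (k + m * (4 * q)) = F k := by
    intro m
    induction m with
    | zero => intro k; simp
    | succ m ih =>
      intro k
      have : k + (m + 1) * (4 * q) = (k + m * (4 * q)) + 4 * q := by ring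
      rw [this, h2, ih]
  have hLq : L = (3 * M) * (4 * q) := by rw [hM, hq]; ring
  have h4 : ∀ k, F (k + L) = F k := by
    intro k
    rw [hLq]
    exact h3 _ _
  have h5 : ∀ s, ∑ k ∈ Finset.range L, F (k + s) = ∑ k ∈ Finset.range L, F k := by
    intro s
    induction s with
    | zero => simp
    | succ s ih =>
      have e1 : ∑ k ∈ Finset.range L, F (k + (s + 1)) + F s
          = ∑ k ∈ Finset.range (L + 1), F (k + s) := by
        rw [Finset.sum_range_succ' (fun k => F (k + s)) L]
        have : ∀ k, F (k + 1 + s) = F (k + (s + 1)) := by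
          intro k
          congr 1
          ring
        simp only [this, Nat.zero_add]
      have e2 : ∑ k ∈ Finset.range (L + 1), F (k + s)
          = ∑ k ∈ Finset.range L, F (k + s) + F s := by
        rw [Finset.sum_range_succ]
        congr 1
        rw [Nat.add_comm L s, h4]
      have e3 := e1.trans e2
      rw [add_right_cancel e3, ih]
  have h6 := h5 q
  simp only [h1] at h6
  rw [← Finset.mul_sum] at h6
  have h7 : ∑ k ∈ Finset.range L, F k = 0 := by
    have : (2 : ZMod 5) * ∑ k ∈ Finset.range L, F k - ∑ k ∈ Finset.range L, F k = 0 := by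
      rw [h6]; ring
    have h8 : (2 : ZMod 5) * ∑ k ∈ Finset.range L, F k - ∑ k ∈ Finset.range L, F k
      = ∑ k ∈ Finset.range L, F k := by ring
    rw [h8] at this
    exact this
  exact h7

end SM345
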