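import Pool.Agent.Helper345.SM.Defs
import Pool.Agent.Helper345.SM.chi_basic

set_option autoImplicit false
set_option linter.unusedVariables false
set_option linter.style.longLine false

open MeasureTheory Filter Topology
open scoped ENNReal NNReal

noncomputable section

namespace SM345

theorem chi_mean (j c : ℕ) (hj : j < 3) (b : ZMod 5) (hb : b ≠ 0) :
    ∑ ξ ∈ Finset.range 12, chi (b * (alpha j ((ξ + 1) % 12) - alpha j (ξ % 12)))
      = 12 * (1 - 5 * (j + 1) / 12) := by
  obtain ⟨h1, h2, h3, h4⟩ := chi_basic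
  have hall : ∑ a : ZMod 5, chi a = 0 := by
    have e : chi 1 * ∑ a : ZMod 5, chi a = ∑ a : ZMod 5, chi a := by
      rw [Finset.mul_sum]
      simp only [← h1]
      exact Fintype.sum_equiv (Equiv.addLeft (1 : ZMod 5)) _ _ (fun _ => rfl)
    have e2 : (chi 1 - 1) * ∑ a : ZMod 5, chi a = 0 := by rw [sub_mul, e, one_mul, sub_self]
    exact (mul_eq_zero.1 e2).resolve_left (sub_ne_zero.2 h4)
  have hb' : ∑ a : ZMod 5, chi (b * a) = 0 := by
    rw [← hall]
    haveI : Fact (Nat.Prime 5) := ⟨by norm_num⟩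
    exact Fintype.sum_equiv (Equiv.mulLeft₀ b hb) _ _ (fun _ => rfl)
  have hs : chi (b * 1) + chi (b * 2) + chi (b * 3) + chi (b * 4) = -1 := by
    have e : ∑ a : ZMod 5, chi (b * a) = chi (b * 0) + chi (b * 1) + chi (b * 2) + chi (b * 3) + chi (b * 4) := by
      exact Fin.sum_univ_five (fun a : ZMod 5 => chi (b * a))
    rw [hb', mul_zero, h2] at e
    linear_combination (-1 : ℂ) * e
  have key : ∀ j < 3, ∀ ξ < 12, alpha j ((ξ + 1) % 12) - alpha j (ξ % 12) =
      if ξ < 4 * (j + 1) then ((ξ % 4 + 1 : ℕ) : ZMod 5) else 0 := by decide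
  rw [Finset.sum_congr rfl (fun ξ hξ => by rw [key j hj ξ (Finset.mem_range.1 hξ)])]
  interval_cases j <;>
    simp [Finset.sum_range_succ, h2] <;>
    norm_num at hs ⊢ <;>
    [linear_combination hs; linear_combination 2 * hs; linear_combination 3 * hs]

end SM345
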