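import Pool.Agent.Helper345.SM.Defs
import Pool.Agent.Helper345.SM.chi_mean
import Pool.Agent.Helper345.SM.chi_basic

set_option autoImplicit false
set_option linter.unusedVariables false
set_option linter.style.longLine false

open MeasureTheory Filter Topology
open scoped ENNReal NNReal

noncomputable section

namespace SM345

theorem variance_block (a b : ℕ) (f : ℕ → ℂ) :
    ∑ x ∈ Finset.range (a * b), f x =
      ∑ z ∈ Finset.range b, ∑ y ∈ Finset.range a, f (a * z + y) := by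
  induction b with
  | zero => simp
  | succ b ih => rw [Nat.mul_succ, Finset.sum_range_add, ih, Finset.sum_range_succ]

theorem variance_split (P k : ℕ) (hP : 0 < P) (G h : ℕ → ℂ) :
    ∑ x ∈ Finset.range (12 * P * k), G (x / P % 12) * h (x / (12 * P)) =
      P * (∑ ξ ∈ Finset.range 12, G ξ) * ∑ z ∈ Finset.range k, h z := by
  rw [variance_block]
  have h1 : ∀ z ∈ Finset.range k, ∑ y ∈ Finset.range (12 * P),
      G ((12 * P * z + y) / P % 12) * h ((12 * P * z + y) / (12 * P)) =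
      P * (∑ ξ ∈ Finset.range 12, G ξ) * h z := by
    intro z _
    have h2 : ∀ y ∈ Finset.range (12 * P),
        G ((12 * P * z + y) / P % 12) * h ((12 * P * z + y) / (12 * P)) = G (y / P) * h z := by
      intro y hy
      have hy' := Finset.mem_range.1 hy
      have e1 : (12 * P * z + y) / (12 * P) = z := by
        rw [Nat.mul_add_div (by positivity), Nat.div_eq_of_lt hy', add_zero]
      have e2 : (12 * P * z + y) / P % 12 = y / P := by
        have e3 : 12 * P * z + y = P * (12 * z) + y := by ring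
        rw [e3, Nat.mul_add_div hP, Nat.mul_add_mod]
        apply Nat.mod_eq_of_lt
        rw [Nat.div_lt_iff_lt_mul hP]
        exact hy'
      rw [e1, e2]
    rw [Finset.sum_congr rfl h2, ← Finset.sum_mul]
    congr 1
    rw [mul_comm 12 P, variance_block P 12 (fun y => G (y / P)), Finset.mul_sum]
    refine Finset.sum_congr rfl fun ξ _ => ?_
    have h4 : ∀ y ∈ Finset.range P, G ((P * ξ + y) / P) = G ξ := by
      intro y hy
      rw [Nat.mul_add_div hP, Nat.div_eq_of_lt (Finset.mem_range.1 hy), add_zero]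
    rw [Finset.sum_congr rfl h4, Finset.sum_const, Finset.card_range, nsmul_eq_mul]
  rw [Finset.sum_congr rfl h1, ← Finset.mul_sum]

theorem variance_abs (P : ℕ → ℕ) (W B : ℕ) (g : ℕ → ℂ)
    (hg : ∑ ξ ∈ Finset.range 12, g ξ = 0)
    (hP : ∀ i < B, 0 < P i) (hW : ∀ i < B, ∃ k, 12 * P i * k = W)
    (hPP : ∀ i i', i < i' → i' < B → ∃ k, P i' = 12 * P i * k) :
    ∑ x ∈ Finset.range W, ‖∑ i ∈ Finset.range B, g (x / P i % 12)‖ ^ 2 =
      B * (W / 12 * ∑ ξ ∈ Finset.range 12, ‖g ξ‖ ^ 2) := by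
  have hoff : ∀ i i', i < i' → i' < B →
      ∑ x ∈ Finset.range W, g (x / P i % 12) * (starRingEnd ℂ) (g (x / P i' % 12)) = 0 := by
    intro i i' h1 h2
    obtain ⟨k, hk⟩ := hW i (h1.trans h2)
    obtain ⟨k', hk'⟩ := hPP i i' h1 h2
    rw [← hk]
    have h3 := variance_split (P i) k (hP i (h1.trans h2)) g
      (fun z => (starRingEnd ℂ) (g (z / k' % 12)))
    rw [hg, mul_zero, zero_mul] at h3
    rw [← h3]
    refine Finset.sum_congr rfl fun x _ => ?_
    rw [hk', Nat.div_div_eq_div_mul]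
  have hoff2 : ∀ i i', i < i' → i' < B →
      ∑ x ∈ Finset.range W, g (x / P i' % 12) * (starRingEnd ℂ) (g (x / P i % 12)) = 0 := by
    intro i i' h1 h2
    have h3 := congrArg (starRingEnd ℂ) (hoff i i' h1 h2)
    rw [map_sum, map_zero] at h3
    rw [← h3]
    refine Finset.sum_congr rfl fun x _ => ?_
    rw [map_mul, Complex.conj_conj, mul_comm]
  have hdiag : ∀ i, i < B →
      ∑ x ∈ Finset.range W, g (x / P i % 12) * (starRingEnd ℂ) (g (x / P i % 12)) =
        W / 12 * ∑ ξ ∈ Finset.range 12, g ξ * (starRingEnd ℂ) (g ξ) := by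
    intro i hi
    obtain ⟨k, hk⟩ := hW i hi
    have h3 := variance_split (P i) k (hP i hi) (fun ξ => g ξ * (starRingEnd ℂ) (g ξ))
      (fun _ => 1)
    rw [hk] at h3
    simp only [mul_one, Finset.sum_const, Finset.card_range, nsmul_eq_mul] at h3
    rw [h3, ← hk]
    push_cast
    ring
  have hC : ((∑ x ∈ Finset.range W, ‖∑ i ∈ Finset.range B, g (x / P i % 12)‖ ^ 2 : ℝ) : ℂ) =
      ((B * (W / 12 * ∑ ξ ∈ Finset.range 12, ‖g ξ‖ ^ 2) : ℝ) : ℂ) := by
    push_cast
    have h1 : ∀ x ∈ Finset.range W, ((‖∑ i ∈ Finset.range B, g (x / P i % 12)‖ : ℂ)) ^ 2 =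
        ∑ i ∈ Finset.range B, ∑ i' ∈ Finset.range B,
          g (x / P i % 12) * (starRingEnd ℂ) (g (x / P i' % 12)) := by
      intro x _
      rw [← Complex.mul_conj', map_sum, Finset.sum_mul_sum]
    have h2 : ∀ ξ ∈ Finset.range 12, ((‖g ξ‖ : ℂ)) ^ 2 = g ξ * (starRingEnd ℂ) (g ξ) := by
      intro ξ _
      rw [← Complex.mul_conj']
    rw [Finset.sum_congr rfl h1, Finset.sum_congr rfl h2, Finset.sum_comm]
    have h3 : ∀ i ∈ Finset.range B, ∑ x ∈ Finset.range W, ∑ i' ∈ Finset.range B,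
        g (x / P i % 12) * (starRingEnd ℂ) (g (x / P i' % 12)) =
        W / 12 * ∑ ξ ∈ Finset.range 12, g ξ * (starRingEnd ℂ) (g ξ) := by
      intro i hi
      rw [Finset.sum_comm, Finset.sum_eq_single i]
      · exact hdiag i (Finset.mem_range.1 hi)
      · intro i' hi' hne
        rcases lt_or_gt_of_ne hne with h | h
        · exact hoff2 i' i h (Finset.mem_range.1 hi)
        · exact hoff i i' h (Finset.mem_range.1 hi')
      · intro h
        exact absurd hi h
    rw [Finset.sum_congr rfl h3, Finset.sum_const, Finset.card_range, nsmul_eq_mul]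
  exact_mod_cast hC

theorem variance_sq (F : ℕ → ℂ) (c : ℝ) (hF : ∀ ξ, ‖F ξ‖ = 1)
    (hs : ∑ ξ ∈ Finset.range 12, F ξ = 12 * (c : ℂ)) :
    ∑ ξ ∈ Finset.range 12, ‖F ξ - (c : ℂ)‖ ^ 2 ≤ 12 := by
  have h1 : ∀ ξ ∈ Finset.range 12, ‖F ξ - (c : ℂ)‖ ^ 2 = 1 - 2 * c * (F ξ).re + c ^ 2 := by
    intro ξ _
    have h2 := hF ξ
    have h3 : ‖F ξ‖ ^ 2 = (F ξ).re * (F ξ).re + (F ξ).im * (F ξ).im := by
      rw [← Complex.normSq_eq_norm_sq, Complex.normSq_apply]
    rw [h2] at h3
    rw [← Complex.normSq_eq_norm_sq, Complex.normSq_apply]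
    simp only [Complex.sub_re, Complex.sub_im, Complex.ofReal_re, Complex.ofReal_im]
    linarith
  rw [Finset.sum_congr rfl h1, Finset.sum_add_distrib, Finset.sum_sub_distrib, ← Finset.mul_sum]
  have h4 : ∑ ξ ∈ Finset.range 12, (F ξ).re = 12 * c := by
    have h5 := congrArg Complex.re hs
    rw [Complex.re_sum] at h5
    rw [h5]
    simp
  rw [h4]
  simp only [Finset.sum_const, Finset.card_range, nsmul_eq_mul]
  push_cast
  nlinarith [sq_nonneg c]

theorem variance (N B : ℕ) (hN0 : 0 < N) (hB : 12 ∣ B) (hB0 : 0 < B) (j : ℕ) (hj : j < 3)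
    (b : ZMod 5) (hb : b ≠ 0) :
    ∑ x ∈ Finset.range (WW N B),
      ‖(1 / (B : ℂ)) * ∑ i ∈ Finset.range B,
        chi (b * (alpha j ((x / (3 * LL N B i) + 1) % 12) - alpha j (x / (3 * LL N B i) % 12)))
        - ((1 - 5 * (j + 1) / 12 : ℝ) : ℂ)‖ ^ 2 ≤ (WW N B : ℝ) / B := by
  set c : ℝ := 1 - 5 * (j + 1) / 12 with hc
  set F : ℕ → ℂ := fun ξ => chi (b * (alpha j ((ξ + 1) % 12) - alpha j (ξ % 12))) with hF
  have hFs : ∑ ξ ∈ Finset.range 12, F ξ = 12 * (c : ℂ) := by
    have h1 := chi_mean j 0 hj b hb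
    rw [hF]
    simp only
    rw [h1, hc]
    push_cast
    ring
  have hFn : ∀ ξ, ‖F ξ‖ = 1 := fun ξ => chi_basic.2.2.1 _
  have hBne : (B : ℂ) ≠ 0 := by exact_mod_cast hB0.ne'
  have hBpos : (0 : ℝ) < B := by exact_mod_cast hB0
  have hterm : ∀ x ∈ Finset.range (WW N B),
      ‖(1 / (B : ℂ)) * ∑ i ∈ Finset.range B,
        chi (b * (alpha j ((x / (3 * LL N B i) + 1) % 12) - alpha j (x / (3 * LL N B i) % 12)))
        - (c : ℂ)‖ ^ 2 =
      (1 / (B : ℝ) ^ 2) * ‖∑ i ∈ Finset.range B, (F (x / (3 * LL N B i) % 12) - (c : ℂ))‖ ^ 2 := by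
    intro x _
    have h1 : (1 / (B : ℂ)) * ∑ i ∈ Finset.range B,
        chi (b * (alpha j ((x / (3 * LL N B i) + 1) % 12) - alpha j (x / (3 * LL N B i) % 12)))
        - (c : ℂ) =
        (1 / (B : ℂ)) * ∑ i ∈ Finset.range B, (F (x / (3 * LL N B i) % 12) - (c : ℂ)) := by
      rw [Finset.sum_sub_distrib, Finset.sum_const, Finset.card_range, nsmul_eq_mul, mul_sub]
      congr 1
      · congr 1
        refine Finset.sum_congr rfl fun i _ => ?_
        simp only [hF, Nat.mod_mod]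
        rw [Nat.mod_add_mod]
      · field_simp
    rw [h1, norm_mul, mul_pow]
    congr 1
    rw [norm_div, norm_one, Complex.norm_natCast, div_pow, one_pow]
  rw [Finset.sum_congr rfl hterm, ← Finset.mul_sum]
  have hg0 : ∑ ξ ∈ Finset.range 12, (F ξ - (c : ℂ)) = 0 := by
    rw [Finset.sum_sub_distrib, hFs]
    simp
  have habs := variance_abs (fun i => 3 * LL N B i) (WW N B) B (fun ξ => F ξ - (c : ℂ)) hg0
    (fun i _ => by unfold LL; positivity)
    (fun i hi => ⟨B ^ (B + 1 - i), by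
      unfold LL WW
      have h2 : B + 2 = (i + 1) + (B + 1 - i) := by omega
      rw [h2, pow_add]
      ring⟩)
    (fun i i' h h' => by
      obtain ⟨q, hq⟩ := hB
      refine ⟨q * B ^ (i' - i - 1), ?_⟩
      unfold LL
      have h2 : i' + 1 = (i + 1) + (i' - i - 1) + 1 := by omega
      rw [h2, pow_succ, pow_add]
      nth_rewrite 3 [hq]
      ring)
  rw [habs]
  have hsq := variance_sq F c hFn hFs
  have hWW : (0 : ℝ) ≤ (WW N B : ℝ) := Nat.cast_nonneg _
  have h5 : 1 / (B : ℝ) ^ 2 * ((B : ℝ) * ((WW N B : ℝ) / 12 *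
      ∑ ξ ∈ Finset.range 12, ‖F ξ - (c : ℂ)‖ ^ 2)) ≤
      1 / (B : ℝ) ^ 2 * ((B : ℝ) * ((WW N B : ℝ) / 12 * 12)) := by
    apply mul_le_mul_of_nonneg_left _ (by positivity)
    apply mul_le_mul_of_nonneg_left _ hBpos.le
    exact mul_le_mul_of_nonneg_left hsq (by positivity)
  refine h5.trans (le_of_eq ?_)
  field_simp

end SM345
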