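import Pool.Agent.Helper345.SM.Defs
import Pool.Agent.Helper345.SM.J_basic
import Pool.Agent.Helper345.SM.bf_norm
import Pool.Agent.Helper345.SM.isLim_pow
import Pool.Agent.Helper345.SM.digit_bij
import Pool.Agent.Helper345.SM.digit_count
import Pool.Agent.Helper345.SM.pr_s
import Pool.Agent.Helper345.SM.AA_diff
import Pool.Agent.Helper345.SM.phi_sum
import Pool.Agent.Helper345.SM.variance
import Pool.Agent.Helper345.SM.chi_basic
import Pool.Agent.Helper345.SM.opP_basic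
import Pool.Agent.Helper345.SM.ee_facts

set_option autoImplicit false
set_option linter.unusedVariables false
set_option linter.style.longLine false

open MeasureTheory Filter Topology
open scoped ENNReal NNReal

noncomputable section

namespace SM345

/-! helpers -/

theorem ca_dx_congr {N B u v : ℕ} (h : u % NN N B = v % NN N B) (i : ℕ) :
    dx N B i u = dx N B i v := by
  unfold dx
  rw [h]

theorem ca_da_congr {N B u v : ℕ} (h : u % NN N B = v % NN N B) : da N B u = da N B v := by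
  unfold da
  rw [h]

theorem ca_dc_congr {N B u v : ℕ} (h : u % NN N B = v % NN N B) : dc N B u = dc N B v := by
  unfold dc
  rw [h]

theorem ca_pr_congr {N B u v : ℕ} (h : u % NN N B = v % NN N B) (w : ℕ) :
    pr N w B u = pr N w B v := by
  unfold pr
  rw [ca_da_congr h, ca_dc_congr h, ca_dx_congr h 0]
  simp only [ca_dx_congr h]

theorem ca_AA_congr {N B u v : ℕ} (h : u % NN N B = v % NN N B) : AA N B u = AA N B v := by
  unfold AA
  rw [ca_da_congr h, ca_dc_congr h, ca_dx_congr h 0]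

theorem ca_phi_congr (n : ℕ) {u v : ℕ} (h : u % Nn n = v % Nn n) : (lev n).φ u = (lev n).φ v := by
  cases n with
  | zero => rfl
  | succ n =>
    have h' : u % NN (Nn n) (Bn n) = v % NN (Nn n) (Bn n) := h
    have h3 : (u + 3) % NN (Nn n) (Bn n) = (v + 3) % NN (Nn n) (Bn n) := Nat.ModEq.add_right 3 h'
    show phi' (Nn n) (wn n) (Bn n) (lev n).φ u = phi' (Nn n) (wn n) (Bn n) (lev n).φ v
    unfold phi'
    rw [ca_pr_congr h', ca_AA_congr h', ca_AA_congr h3]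

theorem ca_TP_pow (m L : ℕ) (z : Om m) : ((TP m) ^ L) z =
    (((z.1.val + 3 * L : ℕ) : ZMod (Nn m)),
      z.2 + ∑ h ∈ Finset.range L, (lev m).φ (z.1.val + 3 * h)) := by
  induction L with
  | zero =>
    refine Prod.ext ?_ ?_
    · simp
    · simp
  | succ L ih =>
    rw [pow_succ', Equiv.Perm.mul_apply, ih]
    refine Prod.ext ?_ ?_
    · show ((z.1.val + 3 * L : ℕ) : ZMod (Nn m)) + 3 = _
      push_cast
      ring
    · show z.2 + ∑ h ∈ Finset.range L, (lev m).φ (z.1.val + 3 * h) +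
        (lev m).φ (((z.1.val + 3 * L : ℕ) : ZMod (Nn m)).val) = _
      rw [Finset.sum_range_succ, ← add_assoc,
        ca_phi_congr m (u := ((z.1.val + 3 * L : ℕ) : ZMod (Nn m)).val) (v := z.1.val + 3 * L)
          (by rw [ZMod.val_natCast, Nat.mod_mod])]

theorem ca_sum (n u L : ℕ) (hL : Nn n ∣ L)
    (h : dx (Nn n) (Bn n) 0 u + 3 * L < WW (Nn n) (Bn n)) :
    ∑ k ∈ Finset.range L, (lev (n + 1)).φ (u + 3 * k) =
      AA (Nn n) (Bn n) (u + 3 * L) - AA (Nn n) (Bn n) u := by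
  obtain ⟨h1, h2, h3, h4, h5, -⟩ := lev_dvd n
  have hB : 0 < Bn n := by
    rw [← h5]
    have := Nn_pos n
    positivity
  have h1' : ∀ k ∈ Finset.range L, (lev (n + 1)).φ (u + 3 * k) =
      (lev n).φ (pr (Nn n) (wn n) (Bn n) u + 3 * k) +
        (AA (Nn n) (Bn n) (u + 3 * (k + 1)) - AA (Nn n) (Bn n) (u + 3 * k)) := by
    intro k hk
    rw [Finset.mem_range] at hk
    have hp := (pr_s (Nn n) (wn n) (Bn n) h1 (Nn_pos n) h2 hB u (3 * k) (by omega)).1
    show phi' (Nn n) (wn n) (Bn n) (lev n).φ (u + 3 * k) = _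
    unfold phi'
    rw [hp, ca_phi_congr n (v := pr (Nn n) (wn n) (Bn n) u + 3 * k) (by rw [Nat.mod_mod])]
    rw [show u + 3 * (k + 1) = u + 3 * k + 3 by ring]
    ring
  rw [Finset.sum_congr rfl h1', Finset.sum_add_distrib, phi_sum n _ L hL, zero_add,
    Finset.sum_range_sub (fun k => AA (Nn n) (Bn n) (u + 3 * k)) L]
  simp

theorem ca_pr_lt (N w B u : ℕ) (hN0 : 0 < N) : pr N w B u < N := Nat.mod_lt _ hN0

theorem ca_pr_shift (n u L : ℕ) (hL : Nn n ∣ L)
    (h : dx (Nn n) (Bn n) 0 u + 3 * L < WW (Nn n) (Bn n)) :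
    pr (Nn n) (wn n) (Bn n) (u + 3 * L) = pr (Nn n) (wn n) (Bn n) u := by
  obtain ⟨h1, h2, h3, h4, h5, -⟩ := lev_dvd n
  have hB : 0 < Bn n := by
    rw [← h5]
    have := Nn_pos n
    positivity
  rw [(pr_s (Nn n) (wn n) (Bn n) h1 (Nn_pos n) h2 hB u (3 * L) h).1]
  obtain ⟨q, rfl⟩ := hL
  rw [show pr (Nn n) (wn n) (Bn n) u + 3 * (Nn n * q) =
    pr (Nn n) (wn n) (Bn n) u + Nn n * (3 * q) by ring, Nat.add_mul_mod_self_left]
  exact Nat.mod_eq_of_lt (ca_pr_lt _ _ _ _ (Nn_pos n))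

theorem ca_pr_mod (N w B u : ℕ) (hN : 12 ∣ N) (hw : 3 ∣ w) :
    pr N w B u % 3 = (dx N B 0 u + da N B u) % 3 := by
  obtain ⟨k, rfl⟩ := hN
  obtain ⟨w', rfl⟩ := hw
  unfold pr
  rw [Nat.mod_mod_of_dvd _ (show 3 ∣ 12 * k from ⟨4 * k, by ring⟩)]
  have h1 : 12 * k / 4 = 3 * k := by omega
  have h2 : 3 ∣ ∑ i ∈ Finset.range 3, (3 * w') ^ ((i + da (12 * k) B u) % 3 + 1) *
      dx (12 * k) B (i + 1) u := by
    apply Finset.dvd_sum
    intro i _
    apply Dvd.dvd.mul_right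
    rw [pow_succ]
    exact ⟨(3 * w') ^ ((i + da (12 * k) B u) % 3) * w', by ring⟩
  obtain ⟨t, ht⟩ := h2
  rw [h1, ht]
  rw [show dx (12 * k) B 0 u + da (12 * k) B u + 3 * k * dc (12 * k) B u + 3 * t =
    dx (12 * k) B 0 u + da (12 * k) B u + 3 * (k * dc (12 * k) B u + t) by ring,
    Nat.add_mul_mod_self_left]

theorem ca_W_pos (N B : ℕ) (hN0 : 0 < N) (hB : 0 < B) : 0 < WW N B := by
  unfold WW
  positivity

theorem ca_S (N w B : ℕ) (hN : 12 ∣ N) (hN0 : 0 < N) (hw : 3 ∣ w) (hB : 0 < B)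
    (h : ℕ → ℕ → ℕ → ℝ) (T : ℝ)
    (hT : ∀ y < N, ∀ c < 4, ∑ x ∈ Finset.range (WW N B), h y c x ≤ T) :
    ∑ u ∈ Finset.range (NN N B), h (pr N w B u) (dc N B u) (dx N B 0 u) ≤
      (N : ℝ) * (4 * ((WW N B : ℝ) ^ 3 * T)) := by
  have hW := ca_W_pos N B hN0 hB
  have hdx : ∀ i u, dx N B i u < WW N B := fun i u => Nat.mod_lt _ hW
  have hdc : ∀ u, dc N B u < 4 := by
    intro u
    unfold dc
    apply Nat.div_lt_of_lt_mul
    have h1 : u % NN N B < NN N B := Nat.mod_lt _ (by unfold NN; positivity)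
    calc u % NN N B < NN N B := h1
      _ = WW N B ^ 4 * N * 4 := by unfold NN; ring
  let P : Finset (ℕ × ℕ × ℕ × ℕ × ℕ × ℕ) := Finset.range N ×ˢ (Finset.range 4 ×ˢ
    (Finset.range (WW N B) ×ˢ (Finset.range (WW N B) ×ˢ (Finset.range (WW N B) ×ˢ
      Finset.range (WW N B)))))
  have e : ∑ u ∈ Finset.range (NN N B), h (pr N w B u) (dc N B u) (dx N B 0 u) =
      ∑ p ∈ P, h p.1 p.2.1 p.2.2.1 := by
    refine Finset.sum_bij (fun u _ => (pr N w B u, dc N B u, dx N B 0 u, dx N B 1 u, dx N B 2 u,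
      dx N B 3 u)) ?_ ?_ ?_ ?_
    · intro u _
      simp only [P, Finset.mem_product, Finset.mem_range]
      exact ⟨ca_pr_lt _ _ _ _ hN0, hdc u, hdx 0 u, hdx 1 u, hdx 2 u, hdx 3 u⟩
    · intro u hu v hv huv
      simp only [Prod.mk.injEq] at huv
      obtain ⟨g1, g2, g3, g4, g5, g6⟩ := huv
      refine (digit_bij N w B hN hN0 hw hB (pr N w B u) (ca_pr_lt _ _ _ _ hN0)
        (fun i => dx N B i u) (fun i => hdx i u) (dc N B u) (hdc u)).unique
        ⟨Finset.mem_range.1 hu, rfl, fun _ _ => rfl, rfl⟩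
        ⟨Finset.mem_range.1 hv, g1.symm, ?_, g2.symm⟩
      intro i hi
      interval_cases i
      · exact g3.symm
      · exact g4.symm
      · exact g5.symm
      · exact g6.symm
    · rintro ⟨y, c, x0, x1, x2, x3⟩ hp
      simp only [P, Finset.mem_product, Finset.mem_range] at hp
      obtain ⟨g1, g2, g3, g4, g5, g6⟩ := hp
      obtain ⟨u, ⟨hu1, hu2, hu3, hu4⟩, -⟩ := digit_bij N w B hN hN0 hw hB y g1
        (fun i => if i = 0 then x0 else if i = 1 then x1 else if i = 2 then x2 else x3)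
        (fun i => by
          show (if i = 0 then x0 else if i = 1 then x1 else if i = 2 then x2 else x3) < _
          split_ifs <;> assumption) c g2
      refine ⟨u, Finset.mem_range.2 hu1, ?_⟩
      have k0 := hu3 0 (by norm_num)
      have k1 := hu3 1 (by norm_num)
      have k2 := hu3 2 (by norm_num)
      have k3 := hu3 3 (by norm_num)
      simp only [Prod.mk.injEq]
      exact ⟨hu2, hu4, by simpa using k0, by simpa using k1, by simpa using k2, by simpa using k3⟩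
    · intro u _
      rfl
  rw [e]
  simp only [P, Finset.sum_product, Finset.sum_const, Finset.card_product, Finset.card_range,
    nsmul_eq_mul]
  calc ∑ y ∈ Finset.range N, ∑ c ∈ Finset.range 4, ∑ x ∈ Finset.range (WW N B),
        ((WW N B * (WW N B * WW N B) : ℕ) : ℝ) * h y c x
      ≤ ∑ y ∈ Finset.range N, ∑ c ∈ Finset.range 4, (WW N B : ℝ) ^ 3 * T := by
        apply Finset.sum_le_sum
        intro y hy
        apply Finset.sum_le_sum
        intro c hc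
        rw [← Finset.mul_sum]
        have h1 := hT y (Finset.mem_range.1 hy) c (Finset.mem_range.1 hc)
        have h2 : (0 : ℝ) ≤ (WW N B : ℝ) ^ 3 := by positivity
        have h3 := mul_le_mul_of_nonneg_left h1 h2
        calc _ = (WW N B : ℝ) ^ 3 * ∑ x ∈ Finset.range (WW N B), h y c x := by
              push_cast
              ring
          _ ≤ _ := h3
    _ = (N : ℝ) * (4 * ((WW N B : ℝ) ^ 3 * T)) := by
        simp only [Finset.sum_const, Finset.card_range, nsmul_eq_mul]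
        norm_num

theorem ca_count (M K q : ℕ) (hM : 0 < M) (hK : K ≤ M) :
    ∑ x ∈ Finset.range (M * q), (if M ≤ x % M + K then (1 : ℝ) else 0) ≤ K * q := by
  induction q with
  | zero => simp
  | succ q ih =>
    rw [Nat.mul_succ, Finset.sum_range_add]
    have h1 : ∑ x ∈ Finset.range M, (if M ≤ (M * q + x) % M + K then (1 : ℝ) else 0) ≤ K := by
      have h2 : ∀ x ∈ Finset.range M, (if M ≤ (M * q + x) % M + K then (1 : ℝ) else 0) =
          if M ≤ x + K then (1 : ℝ) else 0 := by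
        intro x hx
        rw [Nat.mul_add_mod, Nat.mod_eq_of_lt (Finset.mem_range.1 hx)]
      rw [Finset.sum_congr rfl h2, Finset.sum_boole]
      have h3 : (Finset.range M).filter (fun x => M ≤ x + K) ⊆ Finset.Ico (M - K) M := by
        intro x hx
        rw [Finset.mem_filter, Finset.mem_range] at hx
        rw [Finset.mem_Ico]
        omega
      have h4 := Finset.card_le_card h3
      rw [Nat.card_Ico] at h4
      have h5 : ((Finset.range M).filter (fun x => M ≤ x + K)).card ≤ K := by omega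
      exact_mod_cast h5
    push_cast
    linarith

theorem ca_mod (x M K q : ℕ) (hM : 0 < M) (h : x % M + K < M) (hq : 0 < q) :
    x % (M * q) + K < M * q := by
  have h1 : x % (M * q) % M = x % M := Nat.mod_mul_right_mod _ _ _
  have h2 : x % (M * q) < M * q := Nat.mod_lt _ (by positivity)
  have h3 : x % (M * q) / M < q := Nat.div_lt_of_lt_mul h2
  have h4 := Nat.div_add_mod (x % (M * q)) M
  rw [h1] at h4
  nlinarith

/-- the phase difference -/
def caD (N B i u : ℕ) : ZMod 5 :=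
  2 ^ (dc N B u) * (alpha ((dx N B 0 u + da N B u) % 3) ((dx N B 0 u / (3 * LL N B i) + 1) % 12)
        - alpha ((dx N B 0 u + da N B u) % 3) (dx N B 0 u / (3 * LL N B i) % 12))

theorem ca_good (N B i u : ℕ) (hN : 12 ∣ N) (hN0 : 0 < N) (hB : 12 ∣ B) (hB0 : 0 < B) (hi : i < B)
    (h : dx N B 0 u % (3 * LL N B (i + 1)) + 3 * LL N B i < 3 * LL N B (i + 1)) :
    dx N B 0 u + 3 * LL N B i < WW N B ∧ AA N B (u + 3 * LL N B i) - AA N B u = caD N B i u := by
  have hW := ca_W_pos N B hN0 hB0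
  have hM : 0 < 3 * LL N B (i + 1) := by
    unfold LL
    positivity
  have h1 : dx N B 0 u + 3 * LL N B i < WW N B := by
    have e : WW N B = 3 * LL N B (i + 1) * (12 * B ^ (B - i)) := by
      unfold WW LL
      have : B + 2 = i + 1 + 1 + (B - i) := by omega
      rw [this, pow_add]
      ring
    have h2 := ca_mod (dx N B 0 u) (3 * LL N B (i + 1)) (3 * LL N B i) (12 * B ^ (B - i)) hM h
      (by positivity)
    rw [← e] at h2
    rwa [Nat.mod_eq_of_lt (show dx N B 0 u < WW N B from Nat.mod_lt _ hW)] at h2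
  refine ⟨h1, AA_diff N B hN hN0 hB hB0 u i hi h1 ?_⟩
  intro l hl hil
  have e : 3 * LL N B l = 3 * LL N B (i + 1) * B ^ (l - (i + 1)) := by
    unfold LL
    have : l + 1 = i + 1 + 1 + (l - (i + 1)) := by omega
    rw [this, pow_add]
    ring
  rw [e]
  exact ca_mod (dx N B 0 u) (3 * LL N B (i + 1)) (3 * LL N B i) (B ^ (l - (i + 1))) hM h
      (by positivity)

theorem ca_bad (N w B i : ℕ) (hN : 12 ∣ N) (hN0 : 0 < N) (hw : 3 ∣ w) (hB0 : 0 < B) (hi : i < B) :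
    ∑ u ∈ Finset.range (NN N B), (if 3 * LL N B (i + 1) ≤
      dx N B 0 u % (3 * LL N B (i + 1)) + 3 * LL N B i then (1 : ℝ) else 0) ≤
        (NN N B : ℝ) / B := by
  have hW := ca_W_pos N B hN0 hB0
  have hM : 0 < 3 * LL N B (i + 1) := by
    unfold LL
    positivity
  have hK : 3 * LL N B i ≤ 3 * LL N B (i + 1) := by
    unfold LL
    apply Nat.mul_le_mul_left
    apply Nat.mul_le_mul_left
    exact Nat.pow_le_pow_right hB0 (by omega)
  have e : WW N B = 3 * LL N B (i + 1) * (12 * B ^ (B - i)) := by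
    unfold WW LL
    have : B + 2 = i + 1 + 1 + (B - i) := by omega
    rw [this, pow_add]
    ring
  have h1 := ca_S N w B hN hN0 hw hB0 (fun _ _ x => if 3 * LL N B (i + 1) ≤
      x % (3 * LL N B (i + 1)) + 3 * LL N B i then (1 : ℝ) else 0)
      (((3 * LL N B i : ℕ) : ℝ) * ((12 * B ^ (B - i) : ℕ) : ℝ)) (by
        intro y _ c _
        rw [e]
        exact ca_count _ _ _ hM hK)
  refine h1.trans (le_of_eq ?_)
  have hB' : (B : ℝ) ≠ 0 := by positivity
  have e2 : (WW N B : ℝ) = ((3 * LL N B i : ℕ) : ℝ) * ((12 * B ^ (B - i) : ℕ) : ℝ) * B := by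
    rw [e]
    unfold LL
    push_cast
    ring
  have e3 : (NN N B : ℝ) = 4 * N * (WW N B : ℝ) ^ 4 := by
    unfold NN
    push_cast
    ring
  rw [e3, eq_div_iff hB']
  calc (N : ℝ) * (4 * ((WW N B : ℝ) ^ 3 * (((3 * LL N B i : ℕ) : ℝ) *
        ((12 * B ^ (B - i) : ℕ) : ℝ)))) * B
      = 4 * N * (WW N B : ℝ) ^ 3 * (((3 * LL N B i : ℕ) : ℝ) *
        ((12 * B ^ (B - i) : ℕ) : ℝ) * B) := by ring
    _ = 4 * N * (WW N B : ℝ) ^ 4 := by
        rw [← e2]
        ring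

theorem ca_var (N w B : ℕ) (hN : 12 ∣ N) (hN0 : 0 < N) (hw : 3 ∣ w) (hB : 12 ∣ B) (hB0 : 0 < B)
    (b : ZMod 5) (hb : b ≠ 0) :
    ∑ u ∈ Finset.range (NN N B), ‖(1 / (B : ℂ)) * ∑ i ∈ Finset.range B, chi (b * caD N B i u) -
      ((1 - 5 * ((pr N w B u % 3 : ℕ) + 1) / 12 : ℝ) : ℂ)‖ ^ 2 ≤ (NN N B : ℝ) / B := by
  have hW := ca_W_pos N B hN0 hB0
  have h20 : (2 : ZMod 5) ≠ 0 := by decide
  have : Fact (Nat.Prime 5) := ⟨by norm_num⟩
  have h1 := ca_S N w B hN hN0 hw hB0 (fun y c x =>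
      ‖(1 / (B : ℂ)) * ∑ i ∈ Finset.range B,
        chi ((b * 2 ^ c) * (alpha (y % 3) ((x / (3 * LL N B i) + 1) % 12) -
          alpha (y % 3) (x / (3 * LL N B i) % 12)))
        - ((1 - 5 * ((y % 3 : ℕ) + 1) / 12 : ℝ) : ℂ)‖ ^ 2)
      ((WW N B : ℝ) / B) (by
        intro y _ c _
        apply variance N B hN0 hB hB0 (y % 3) (Nat.mod_lt _ (by norm_num))
        exact mul_ne_zero hb (pow_ne_zero _ h20))
  have h2 : (N : ℝ) * (4 * ((WW N B : ℝ) ^ 3 * ((WW N B : ℝ) / B))) = (NN N B : ℝ) / B := by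
    unfold NN
    push_cast
    ring
  rw [h2] at h1
  refine le_trans (le_of_eq ?_) h1
  apply Finset.sum_congr rfl
  intro u _
  have h3 : ∀ i, chi (b * caD N B i u) = chi ((b * 2 ^ (dc N B u)) *
      (alpha (pr N w B u % 3) ((dx N B 0 u / (3 * LL N B i) + 1) % 12) -
          alpha (pr N w B u % 3) (dx N B 0 u / (3 * LL N B i) % 12))) := by
    intro i
    unfold caD
    rw [ca_pr_mod N w B u hN hw, mul_assoc]
  simp only [h3]

theorem ca_J_sub (c : Ctx) (m : ℕ) (f g : Om m → ℂ) :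
    J c.hμ m f - J c.hμ m g = J c.hμ m (fun y => f y - g y) := by
  obtain ⟨h1, h2, -⟩ := J_basic c.hμ
  have e : (fun y => f y - g y) = fun y => f y + (fun y => (-1 : ℂ) * g y) y := by
    funext y
    ring
  rw [e, h1, h2, neg_one_smul, sub_eq_add_neg]

theorem ca_J_sum (c : Ctx) (m : ℕ) (s : Finset ℕ) (a : ℂ) (f : ℕ → Om m → ℂ) :
    ∑ i ∈ s, a • J c.hμ m (f i) = J c.hμ m (fun y => ∑ i ∈ s, a * f i y) := by
  obtain ⟨h1, h2, -⟩ := J_basic c.hμ
  classical
  induction s using Finset.induction_on with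
  | empty =>
    simp only [Finset.sum_empty]
    have h3 := h2 m 0 (fun _ => (0 : ℂ))
    rw [zero_smul] at h3
    rw [← h3]
    congr 1
    funext y
    ring
  | insert i s hi ih =>
    rw [Finset.sum_insert hi, ih, ← h2, ← h1]
    congr 1
    funext y
    rw [Finset.sum_insert hi]

theorem ca_sum_zmod (k : ℕ) [NeZero k] (g : ℕ → ℝ) :
    ∑ u : ZMod k, g u.val = ∑ u ∈ Finset.range k, g u :=
  Finset.sum_bij (fun u _ => u.val) (fun u _ => Finset.mem_range.2 (ZMod.val_lt u))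
    (fun a _ b _ h => ZMod.val_injective _ h)
    (fun b hb => ⟨(b : ZMod k), Finset.mem_univ _, ZMod.val_cast_of_lt (Finset.mem_range.1 hb)⟩)
    (fun _ _ => rfl)

theorem ca_J_norm (c : Ctx) (m : ℕ) (H : Om m → ℂ) (g : ℕ → ℝ) (S : ℝ)
    (hH : ∀ z : Om m, ‖H z‖ ^ 2 ≤ g z.1.val) (hS : ∑ u ∈ Finset.range (Nn m), g u ≤ S) :
    ‖J c.hμ m H‖ ^ 2 ≤ S / Nn m := by
  obtain ⟨-, -, -, -, h5⟩ := J_basic c.hμ
  rw [h5]
  have hN : (0 : ℝ) < Nn m := by exact_mod_cast Nn_pos m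
  have h1 : ∑ z : Om m, ‖H z‖ ^ 2 ≤ 5 * S := by
    calc ∑ z : Om m, ‖H z‖ ^ 2 ≤ ∑ z : Om m, g z.1.val := Finset.sum_le_sum fun z _ => hH z
      _ = ∑ u : ZMod (Nn m), ∑ k : ZMod 5, g u.val := Fintype.sum_prod_type _
      _ = 5 * ∑ u ∈ Finset.range (Nn m), g u := by
          rw [← ca_sum_zmod, Finset.mul_sum]
          apply Finset.sum_congr rfl
          intro u _
          rw [Finset.sum_const, Finset.card_univ, ZMod.card, nsmul_eq_mul]
          norm_num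
      _ ≤ 5 * S := by linarith
  have h2 : (Fintype.card (Om m) : ℝ) = Nn m * 5 := by
    rw [Fintype.card_prod, ZMod.card, ZMod.card]
    push_cast
    ring
  rw [h2, div_le_div_iff₀ (by positivity) hN]
  nlinarith

theorem ca_opP_sum (c : Ctx) (s : Finset ℕ) (P : ℕ → Polynomial ℂ) (f : Lp ℂ 2 c.μ) :
    opP c.UT (∑ i ∈ s, P i) f = ∑ i ∈ s, opP c.UT (P i) f := by
  obtain ⟨-, h2, h3, -⟩ := opP_basic c.UT
  classical
  induction s using Finset.induction_on with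
  | empty =>
    simp only [Finset.sum_empty]
    have h4 := h3 0 f
    rw [zero_smul, map_zero] at h4
    exact h4
  | insert i s hi ih =>
    rw [Finset.sum_insert hi, Finset.sum_insert hi, h2, ih]
theorem chi_avg (c : Ctx) (n : ℕ) (b : ZMod 5) (hb : b ≠ 0) (f : ZMod (Nn n) → ℂ) (C : ℝ)
    (hf : ∀ u, ‖f u‖ ≤ C) :
    ‖opP c.UT (QQ n) (J c.hμ n (bf n b f)) - J c.hμ n (bf n b (fun u => cc n u * f u))‖ ≤ C * th n := by
  obtain ⟨h1, h2, h3, h4, h5, -⟩ := lev_dvd n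
  obtain ⟨hchi, hchi0, hchi1, -⟩ := chi_basic
  have hN0 := Nn_pos n
  have hB : 0 < Bn n := by
    rw [← h5]
    positivity
  have hBR : (0 : ℝ) < Bn n := by exact_mod_cast hB
  have hC : 0 ≤ C := (norm_nonneg _).trans (hf 0)
  have hN' : (0 : ℝ) < Nn (n + 1) := by exact_mod_cast Nn_pos (n + 1)
  set rB : ℝ := 1 / Real.sqrt (Bn n) with hrB
  have hsq : rB ^ 2 = 1 / Bn n := by
    rw [hrB, div_pow, Real.sq_sqrt hBR.le, one_pow]
  have hrB0 : 0 ≤ rB := by positivity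
  let p : ZMod (Nn (n + 1)) → ZMod (Nn n) :=
    fun u => ((pr (Nn n) (wn n) (Bn n) u.val : ℕ) : ZMod (Nn n))
  let F : Om (n + 1) → ℂ := bf (n + 1) b (fun u => f (p u))
  let G : Om (n + 1) → ℂ := bf (n + 1) b (fun u => cc n (p u) * f (p u))
  let E : ℕ → Om (n + 1) → ℂ := fun i z =>
    f (p z.1) * chi (b * z.2) * chi (b * caD (Nn n) (Bn n) i z.1.val)
  have hF : ∀ z, ‖F z‖ ≤ C := by
    intro z
    show ‖f (p z.1) * chi (b * z.2)‖ ≤ C
    rw [norm_mul, hchi1, mul_one]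
    exact hf _
  have hE : ∀ i z, ‖E i z‖ ≤ C := by
    intro i z
    show ‖f (p z.1) * chi (b * z.2) * chi (b * caD (Nn n) (Bn n) i z.1.val)‖ ≤ C
    rw [norm_mul, norm_mul, hchi1, hchi1, mul_one, mul_one]
    exact hf _
  -- claim 1
  have hc1 : ∀ i < Bn n, ∀ z, ‖F (((TP (n + 1)) ^ (LL (Nn n) (Bn n) i)) z) - E i z‖ ^ 2 ≤
      4 * C ^ 2 * (if 3 * LL (Nn n) (Bn n) (i + 1) ≤ dx (Nn n) (Bn n) 0 z.1.val %
        (3 * LL (Nn n) (Bn n) (i + 1)) + 3 * LL (Nn n) (Bn n) i then (1 : ℝ) else 0) := by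
    intro i hi z
    split_ifs with hbad
    · have g1 : ‖F (((TP (n + 1)) ^ (LL (Nn n) (Bn n) i)) z) - E i z‖ ≤ 2 * C :=
        (norm_sub_le _ _).trans (by linarith [hF (((TP (n + 1)) ^ (LL (Nn n) (Bn n) i)) z), hE i z])
      have g2 := pow_le_pow_left₀ (norm_nonneg _) g1 2
      calc _ ≤ (2 * C) ^ 2 := g2
        _ = _ := by ring
    · push Not at hbad
      obtain ⟨g1, g2⟩ := ca_good (Nn n) (Bn n) i z.1.val h1 hN0 h4 hB hi hbad
      have hdvd : Nn n ∣ LL (Nn n) (Bn n) i := ⟨Bn n ^ (i + 1), rfl⟩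
      have g3 := ca_sum n z.1.val (LL (Nn n) (Bn n) i) hdvd g1
      have g4 := ca_pr_shift n z.1.val (LL (Nn n) (Bn n) i) hdvd g1
      have g5 : F (((TP (n + 1)) ^ (LL (Nn n) (Bn n) i)) z) = E i z := by
        rw [ca_TP_pow, g3, g2]
        show f (((pr (Nn n) (wn n) (Bn n) (((z.1.val + 3 * LL (Nn n) (Bn n) i : ℕ) :
          ZMod (Nn (n + 1))).val) : ℕ) : ZMod (Nn n))) *
            chi (b * (z.2 + caD (Nn n) (Bn n) i z.1.val)) = _
        have g6 : pr (Nn n) (wn n) (Bn n) (((z.1.val + 3 * LL (Nn n) (Bn n) i : ℕ) :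
          ZMod (Nn (n + 1))).val) = pr (Nn n) (wn n) (Bn n) z.1.val := by
          rw [← g4]
          apply ca_pr_congr
          rw [ZMod.val_natCast]
          exact Nat.mod_mod _ _
        rw [g6, mul_add, hchi, ← mul_assoc]
      rw [g5, sub_self, norm_zero]
      simp
  have hc1' : ∀ i < Bn n, ‖J c.hμ (n + 1) (fun z => F (((TP (n + 1)) ^ (LL (Nn n) (Bn n) i)) z)) -
      J c.hμ (n + 1) (E i)‖ ≤ 2 * C * rB := by
    intro i hi
    rw [ca_J_sub]
    have g1 := ca_J_norm c (n + 1) _ (fun u => 4 * C ^ 2 * (if 3 * LL (Nn n) (Bn n) (i + 1) ≤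
        dx (Nn n) (Bn n) 0 u % (3 * LL (Nn n) (Bn n) (i + 1)) + 3 * LL (Nn n) (Bn n) i
          then (1 : ℝ) else 0)) (4 * C ^ 2 * ((Nn (n + 1) : ℝ) / Bn n)) (hc1 i hi) (by
      rw [← Finset.mul_sum]
      apply mul_le_mul_of_nonneg_left _ (by positivity)
      exact ca_bad (Nn n) (wn n) (Bn n) i h1 hN0 h2 hB hi)
    rw [← pow_le_pow_iff_left₀ (norm_nonneg _) (by positivity) two_ne_zero]
    refine g1.trans (le_of_eq ?_)
    rw [mul_pow, hsq]
    field_simp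
    ring
  -- claim 2
  have hc2 : ‖∑ i ∈ Finset.range (Bn n), (1 / (Bn n : ℂ)) • J c.hμ (n + 1) (E i) -
      J c.hμ (n + 1) G‖ ≤ C * rB := by
    rw [ca_J_sum, ca_J_sub]
    have g1 := ca_J_norm c (n + 1)
      (fun z => ∑ i ∈ Finset.range (Bn n), (1 / (Bn n : ℂ)) * E i z - G z)
      (fun u => C ^ 2 * ‖(1 / (Bn n : ℂ)) * ∑ i ∈ Finset.range (Bn n),
        chi (b * caD (Nn n) (Bn n) i u) -
        ((1 - 5 * ((pr (Nn n) (wn n) (Bn n) u % 3 : ℕ) + 1) / 12 : ℝ) : ℂ)‖ ^ 2)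
      (C ^ 2 * ((Nn (n + 1) : ℝ) / Bn n)) (by
        intro z
        have g2 : cc n (p z.1) =
            ((1 - 5 * ((pr (Nn n) (wn n) (Bn n) z.1.val % 3 : ℕ) + 1) / 12 : ℝ) : ℂ) := by
          show ((1 - 5 * ((((pr (Nn n) (wn n) (Bn n) z.1.val : ℕ) : ZMod (Nn n)).val % 3 : ℕ) + 1) /
            12 : ℝ) : ℂ) = _
          rw [ZMod.val_cast_of_lt (ca_pr_lt _ _ _ _ hN0)]
        have g3 : ∑ i ∈ Finset.range (Bn n), (1 / (Bn n : ℂ)) * E i z - G z =
            (f (p z.1) * chi (b * z.2)) * ((1 / (Bn n : ℂ)) * ∑ i ∈ Finset.range (Bn n),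
        chi (b * caD (Nn n) (Bn n) i z.1.val) -
        ((1 - 5 * ((pr (Nn n) (wn n) (Bn n) z.1.val % 3 : ℕ) + 1) / 12 : ℝ) : ℂ)) := by
          rw [← g2]
          show ∑ i ∈ Finset.range (Bn n), (1 / (Bn n : ℂ)) * (f (p z.1) * chi (b * z.2) *
            chi (b * caD (Nn n) (Bn n) i z.1.val)) - cc n (p z.1) * f (p z.1) * chi (b * z.2) = _
          rw [mul_sub, ← Finset.mul_sum, ← Finset.mul_sum]
          ring
        rw [g3, norm_mul, mul_pow]
        apply mul_le_mul_of_nonneg_right _ (sq_nonneg _)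
        exact pow_le_pow_left₀ (norm_nonneg _) (hF z) 2) (by
      rw [← Finset.mul_sum]
      apply mul_le_mul_of_nonneg_left _ (by positivity)
      exact ca_var (Nn n) (wn n) (Bn n) h1 hN0 h2 h4 hB b hb)
    rw [← pow_le_pow_iff_left₀ (norm_nonneg _) (by positivity) two_ne_zero]
    refine g1.trans (le_of_eq ?_)
    rw [mul_pow, hsq]
    field_simp
  -- claim 0
  have hδ : 0 ≤ δδ (n + 1) := by
    unfold δδ
    positivity
  have hc0 : ∀ i < Bn n, ‖(c.UT ^ (LL (Nn n) (Bn n) i)) (J c.hμ (n + 1) F) -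
      J c.hμ (n + 1) (fun z => F (((TP (n + 1)) ^ (LL (Nn n) (Bn n) i)) z))‖ ≤
        C * ((LL (Nn n) (Bn n) (Bn n) : ℝ) * δδ (n + 1)) := by
    intro i hi
    refine (isLim_pow c.hμ TP δδ c.UT c.lT (n + 1) (LL (Nn n) (Bn n) i) F C hF).trans ?_
    have g1 : (LL (Nn n) (Bn n) i : ℝ) ≤ LL (Nn n) (Bn n) (Bn n) := by
      have : LL (Nn n) (Bn n) i ≤ LL (Nn n) (Bn n) (Bn n) := by
        unfold LL
        apply Nat.mul_le_mul_left
        exact Nat.pow_le_pow_right hB (by omega)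
      exact_mod_cast this
    have g2 := mul_le_mul_of_nonneg_right g1 (mul_nonneg hC hδ)
    calc _ ≤ (LL (Nn n) (Bn n) (Bn n) : ℝ) * (C * δδ (n + 1)) := g2
      _ = _ := by ring
  have hJF : J c.hμ (n + 1) F = J c.hμ n (bf n b f) := (bf_norm c n b f).2.2
  have hJG : J c.hμ (n + 1) G = J c.hμ n (bf n b (fun u => cc n u * f u)) :=
    (bf_norm c n b (fun u => cc n u * f u)).2.2
  rw [← hJF, ← hJG]
  have hQ : opP c.UT (QQ n) (J c.hμ (n + 1) F) = ∑ i ∈ Finset.range (Bn n), (1 / (Bn n : ℂ)) •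
      (c.UT ^ (LL (Nn n) (Bn n) i)) (J c.hμ (n + 1) F) := by
    obtain ⟨o1, -, o3, o4, -⟩ := opP_basic c.UT
    unfold QQ
    rw [ca_opP_sum]
    apply Finset.sum_congr rfl
    intro i _
    rw [o1, o4, o3]
  have hnB : ‖(1 / (Bn n : ℂ))‖ = 1 / (Bn n : ℝ) := by
    rw [norm_div, norm_one, Complex.norm_natCast]
  have hsumle : ∀ (v : ℕ → Lp ℂ 2 c.μ) (K : ℝ), (∀ i < Bn n, ‖v i‖ ≤ K) →
      ‖∑ i ∈ Finset.range (Bn n), (1 / (Bn n : ℂ)) • v i‖ ≤ K := by
    intro v K hv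
    calc ‖∑ i ∈ Finset.range (Bn n), (1 / (Bn n : ℂ)) • v i‖
        ≤ ∑ i ∈ Finset.range (Bn n), ‖(1 / (Bn n : ℂ)) • v i‖ := norm_sum_le _ _
      _ ≤ ∑ i ∈ Finset.range (Bn n), (1 / (Bn n : ℝ)) * K := by
          apply Finset.sum_le_sum
          intro i hi
          rw [norm_smul, hnB]
          exact mul_le_mul_of_nonneg_left (hv i (Finset.mem_range.1 hi)) (by positivity)
      _ = K := by
          rw [Finset.sum_const, Finset.card_range, nsmul_eq_mul]
          field_simp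
  have hs0 := hsumle (fun i => (c.UT ^ (LL (Nn n) (Bn n) i)) (J c.hμ (n + 1) F) -
      J c.hμ (n + 1) (fun z => F (((TP (n + 1)) ^ (LL (Nn n) (Bn n) i)) z))) _ hc0
  have hs1 := hsumle (fun i => J c.hμ (n + 1) (fun z => F (((TP (n + 1)) ^
    (LL (Nn n) (Bn n) i)) z)) - J c.hμ (n + 1) (E i)) _ hc1'
  rw [hQ]
  have hdec : ∑ i ∈ Finset.range (Bn n), (1 / (Bn n : ℂ)) •
      (c.UT ^ (LL (Nn n) (Bn n) i)) (J c.hμ (n + 1) F) - J c.hμ (n + 1) G =
      ∑ i ∈ Finset.range (Bn n), (1 / (Bn n : ℂ)) •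
        ((c.UT ^ (LL (Nn n) (Bn n) i)) (J c.hμ (n + 1) F) -
          J c.hμ (n + 1) (fun z => F (((TP (n + 1)) ^ (LL (Nn n) (Bn n) i)) z))) +
      ∑ i ∈ Finset.range (Bn n), (1 / (Bn n : ℂ)) •
        (J c.hμ (n + 1) (fun z => F (((TP (n + 1)) ^ (LL (Nn n) (Bn n) i)) z)) -
          J c.hμ (n + 1) (E i)) +
      (∑ i ∈ Finset.range (Bn n), (1 / (Bn n : ℂ)) • J c.hμ (n + 1) (E i) -
        J c.hμ (n + 1) G) := by
    simp only [smul_sub, Finset.sum_sub_distrib]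
    abel
  rw [hdec]
  refine (norm_add₃_le).trans ?_
  refine (add_le_add (add_le_add hs0 hs1) hc2).trans ?_
  unfold th
  have hLL : 0 ≤ (LL (Nn n) (Bn n) (Bn n) : ℝ) * δδ (n + 1) := by positivity
  have hee : 0 ≤ Real.sqrt (ee n) := Real.sqrt_nonneg _
  have k1 := mul_nonneg hC hLL
  have k2 := mul_nonneg hC hee
  have k3 := mul_nonneg hC hrB0
  rw [← hrB]
  nlinarith

end SM345
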