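import Pool.Agent.Helper345.SM.Defs
import Pool.Agent.Helper345.SM.chi_avg
import Pool.Agent.Helper345.SM.opP_basic
import Pool.Agent.Helper345.SM.J_basic
import Pool.Agent.Helper345.SM.QQ_circle

set_option autoImplicit false
set_option linter.unusedVariables false
set_option linter.style.longLine false

open MeasureTheory Filter Topology
open scoped ENNReal NNReal

noncomputable section

namespace SM345

theorem chi_sep (c : Ctx) : ∃ R : Fin 3 → Polynomial ℂ, ∃ D : ℝ, ∀ n (f : ZMod (Nn n) → ℂ) (C : ℝ),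
    (∀ u, ‖f u‖ ≤ C) → ∀ j : Fin 3,
    ‖opP c.UT ((R j).comp (QQ n)) (J c.hμ n (bf n 1 f))
      - J c.hμ n (bf n 1 (fun u => if u.val % 3 = j.val then f u else 0))‖ ≤ D * (C * th n) := by
  classical
  let ca : Fin 3 → ℂ := ![-3/25, 21/25, 7/25]
  let cb : Fin 3 → ℂ := ![6/25, 48/25, -54/25]
  let c2 : Fin 3 → ℂ := ![72/25, -144/25, 72/25]
  refine ⟨fun j => Polynomial.C (ca j) + Polynomial.C (cb j) * Polynomial.X +
    Polynomial.C (c2 j) * (Polynomial.X * Polynomial.X), 14, ?_⟩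
  intro n f C hf j
  obtain ⟨omul, oadd, oC, oX, _, _, _, _⟩ := opP_basic c.UT
  obtain ⟨Jadd, Jmul, _, _, _⟩ := J_basic c.hμ
  -- the averaging operator is a contraction
  have opsum : ∀ (s : Finset ℕ) (P : ℕ → Polynomial ℂ) (F : Lp ℂ 2 c.μ),
      opP c.UT (∑ i ∈ s, P i) F = ∑ i ∈ s, opP c.UT (P i) F := by
    intro s P F
    induction s using Finset.induction_on with
    | empty =>
      have := oC 0 F
      rw [Polynomial.C_0, zero_smul] at this
      simpa using this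
    | insert a s ha ih => rw [Finset.sum_insert ha, Finset.sum_insert ha, oadd, ih]
  have hB : 0 < Bn n := by
    have h1 := (lev_dvd n).2.2.2.2.1
    have h2 := (lev_dvd n).2.2.1
    rw [← h1]
    have : 0 < Nn n * (n + 1) := Nat.mul_pos (by omega) (by omega)
    positivity
  have hcontr : ∀ F : Lp ℂ 2 c.μ, ‖opP c.UT (QQ n) F‖ ≤ ‖F‖ := by
    intro F
    rw [QQ, opsum]
    have h1 : ∀ i ∈ Finset.range (Bn n),
        ‖opP c.UT (Polynomial.C (1 / (Bn n : ℂ)) * Polynomial.X ^ (LL (Nn n) (Bn n) i)) F‖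
          ≤ (1 / (Bn n : ℝ)) * ‖F‖ := by
      intro i _
      rw [omul, oC, oX, norm_smul, LinearIsometryEquiv.norm_map]
      apply le_of_eq
      congr 1
      rw [norm_div, norm_one, Complex.norm_natCast]
    refine (norm_sum_le _ _).trans ((Finset.sum_le_sum h1).trans ?_)
    rw [Finset.sum_const, Finset.card_range, nsmul_eq_mul]
    have hB' : (Bn n : ℝ) ≠ 0 := by exact_mod_cast hB.ne'
    rw [← mul_assoc, mul_one_div_cancel hB', one_mul]
  -- values of cc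
  have hcc : ∀ u : ZMod (Nn n), (u.val % 3 = 0 ∧ cc n u = 7/12) ∨ (u.val % 3 = 1 ∧ cc n u = 1/6) ∨
      (u.val % 3 = 2 ∧ cc n u = -1/4) := by
    intro u
    have h3 : u.val % 3 < 3 := Nat.mod_lt _ (by norm_num)
    rcases (by omega : u.val % 3 = 0 ∨ u.val % 3 = 1 ∨ u.val % 3 = 2) with h | h | h
    · left; refine ⟨h, ?_⟩; rw [cc, h]; push_cast; norm_num
    · right; left; refine ⟨h, ?_⟩; rw [cc, h]; push_cast; norm_num
    · right; right; refine ⟨h, ?_⟩; rw [cc, h]; push_cast; norm_num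
  have hcn : ∀ u : ZMod (Nn n), ‖cc n u‖ ≤ 1 := by
    intro u
    rcases hcc u with ⟨_, h⟩ | ⟨_, h⟩ | ⟨_, h⟩ <;> rw [h] <;> norm_num
  have hf1 : ∀ u, ‖cc n u * f u‖ ≤ C := by
    intro u
    rw [norm_mul]
    calc ‖cc n u‖ * ‖f u‖ ≤ 1 * C := mul_le_mul (hcn u) (hf u) (norm_nonneg _) zero_le_one
      _ = C := one_mul _
  have hb : (1 : ZMod 5) ≠ 0 := by decide
  have e1 := chi_avg c n 1 hb f C hf
  have e2 := chi_avg c n 1 hb (fun u => cc n u * f u) C hf1
  set F0 := J c.hμ n (bf n 1 f) with hF0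
  set F1 := J c.hμ n (bf n 1 (fun u => cc n u * f u)) with hF1
  set F2 := J c.hμ n (bf n 1 (fun u => cc n u * (cc n u * f u))) with hF2
  set x : ℝ := C * th n with hx
  have hx0 : 0 ≤ x := le_trans (norm_nonneg _) e1
  have hsub : ∀ F G : Lp ℂ 2 c.μ, opP c.UT (QQ n) F - opP c.UT (QQ n) G = opP c.UT (QQ n) (F - G) := by
    intro F G
    simp only [opP, map_sub, smul_sub, Finset.sum_sub_distrib]
  have e3 : ‖opP c.UT (QQ n) (opP c.UT (QQ n) F0) - F2‖ ≤ 2 * x := by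
    have h1 : opP c.UT (QQ n) (opP c.UT (QQ n) F0) - F2 =
        opP c.UT (QQ n) (opP c.UT (QQ n) F0 - F1) + (opP c.UT (QQ n) F1 - F2) := by
      rw [← hsub]; abel
    rw [h1]
    have h2 := hcontr (opP c.UT (QQ n) F0 - F1)
    calc _ ≤ ‖opP c.UT (QQ n) (opP c.UT (QQ n) F0 - F1)‖ + ‖opP c.UT (QQ n) F1 - F2‖ := norm_add_le _ _
      _ ≤ x + x := add_le_add (h2.trans e1) e2
      _ = 2 * x := by ring
  have hcomp : ((Polynomial.C (ca j) + Polynomial.C (cb j) * Polynomial.X +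
      Polynomial.C (c2 j) * (Polynomial.X * Polynomial.X)).comp (QQ n)) =
      Polynomial.C (ca j) + Polynomial.C (cb j) * QQ n + Polynomial.C (c2 j) * (QQ n * QQ n) := by
    simp [Polynomial.add_comp, Polynomial.mul_comp]
  have htgt : J c.hμ n (bf n 1 (fun u => if u.val % 3 = j.val then f u else 0)) =
      ca j • F0 + cb j • F1 + c2 j • F2 := by
    rw [hF0, hF1, hF2, ← Jmul, ← Jmul, ← Jmul, ← Jadd, ← Jadd]
    congr 1
    funext y
    simp only [bf]
    have key : (if y.1.val % 3 = j.val then f y.1 else 0) =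
        ca j * f y.1 + cb j * (cc n y.1 * f y.1) + c2 j * (cc n y.1 * (cc n y.1 * f y.1)) := by
      fin_cases j
      · rcases hcc y.1 with ⟨h, h'⟩ | ⟨h, h'⟩ | ⟨h, h'⟩ <;> rw [h, h'] <;>
          simp [ca, cb, c2] <;> ring
      · rcases hcc y.1 with ⟨h, h'⟩ | ⟨h, h'⟩ | ⟨h, h'⟩ <;> rw [h, h'] <;>
          simp [ca, cb, c2] <;> ring
      · rcases hcc y.1 with ⟨h, h'⟩ | ⟨h, h'⟩ | ⟨h, h'⟩ <;> rw [h, h'] <;>
          simp [ca, cb, c2] <;> ring
    rw [key]
    ring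
  have hfin : opP c.UT (Polynomial.C (ca j) + Polynomial.C (cb j) * QQ n +
      Polynomial.C (c2 j) * (QQ n * QQ n)) F0 - (ca j • F0 + cb j • F1 + c2 j • F2) =
      cb j • (opP c.UT (QQ n) F0 - F1) + c2 j • (opP c.UT (QQ n) (opP c.UT (QQ n) F0) - F2) := by
    rw [oadd, oadd, omul, omul, omul, oC, oC, oC, smul_sub, smul_sub]
    abel
  have hbd : ‖cb j‖ + 2 * ‖c2 j‖ ≤ 14 := by
    fin_cases j <;> simp [cb, c2] <;> norm_num
  rw [hcomp, htgt, hfin]
  calc _ ≤ ‖cb j • (opP c.UT (QQ n) F0 - F1)‖ +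
        ‖c2 j • (opP c.UT (QQ n) (opP c.UT (QQ n) F0) - F2)‖ := norm_add_le _ _
    _ ≤ ‖cb j‖ * x + ‖c2 j‖ * (2 * x) := by
        rw [norm_smul, norm_smul]
        gcongr
    _ = (‖cb j‖ + 2 * ‖c2 j‖) * x := by ring
    _ ≤ 14 * x := mul_le_mul_of_nonneg_right hbd hx0

end SM345
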