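import Pool.Agent.Helper345.SM.Defs
import Pool.Agent.Helper345.SM.ee_facts

set_option autoImplicit false
set_option linter.unusedVariables false
set_option linter.style.longLine false

open MeasureTheory Filter Topology
open scoped ENNReal NNReal

noncomputable section

namespace SM345

theorem th_facts_B (n : ℕ) : 0 < Bn n := by
  have h := (lev_dvd n).2.2.2.2.1
  have hN := Nn_pos n
  rw [← h]; positivity

theorem th_facts_grow (n : ℕ) : n ≤ Nn n := by
  induction n with
  | zero => exact Nat.zero_le _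
  | succ n ih =>
    rw [Nn_succ]
    unfold NN
    have hN := Nn_pos n
    have hB := th_facts_B n
    have hW : 0 < WW (Nn n) (Bn n) := by unfold WW; positivity
    have hW4 : 1 ≤ WW (Nn n) (Bn n) ^ 4 := Nat.one_le_iff_ne_zero.2 (by positivity)
    calc n + 1 ≤ 4 * Nn n := by omega
      _ = 4 * Nn n * 1 := by ring
      _ ≤ 4 * Nn n * WW (Nn n) (Bn n) ^ 4 := Nat.mul_le_mul_left _ hW4

theorem th_facts : Tendsto (fun n => (Nn n : ℝ) ^ 5 * th n) atTop (𝓝 0) ∧ (∀ n, 0 ≤ th n) ∧
    Tendsto (fun n => (Nn n : ℝ)) atTop atTop := by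
  obtain ⟨_, hee, _, _, h2, h3⟩ := ee_facts
  have hsq : Tendsto (fun n => (Nn n : ℝ) ^ 5 * Real.sqrt (ee n)) atTop (𝓝 0) := by
    have h4 := h3.const_mul 2
    rw [mul_zero] at h4
    apply squeeze_zero (fun n => by positivity) _ h4
    intro n
    have hN : (1 : ℝ) ≤ Nn n := by exact_mod_cast Nn_pos n
    have hB : (0 : ℝ) < Bn n := by exact_mod_cast th_facts_B n
    have hle : Real.sqrt (ee n) ≤ 2 / Real.sqrt (Bn n) := by
      have h5 : ee n ≤ (2 / Real.sqrt (Bn n)) ^ 2 := by
        rw [div_pow, Real.sq_sqrt hB.le]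
        unfold ee
        have : (Bn n : ℝ) ≤ Nn n * Bn n := by nlinarith
        calc (4 : ℝ) / (Nn n * Bn n) ≤ 4 / Bn n := by
              apply div_le_div_of_nonneg_left (by norm_num) hB this
          _ = 2 ^ 2 / Bn n := by norm_num
      calc Real.sqrt (ee n) ≤ Real.sqrt ((2 / Real.sqrt (Bn n)) ^ 2) := Real.sqrt_le_sqrt h5
        _ = 2 / Real.sqrt (Bn n) := Real.sqrt_sq (by positivity)
    calc (Nn n : ℝ) ^ 5 * Real.sqrt (ee n) ≤ (Nn n : ℝ) ^ 5 * (2 / Real.sqrt (Bn n)) := by
          apply mul_le_mul_of_nonneg_left hle (by positivity)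
      _ = 2 * ((Nn n : ℝ) ^ 5 / Real.sqrt (Bn n)) := by ring
  refine ⟨?_, ?_, ?_⟩
  · have h := ((h3.add h2).add hsq).const_mul 10
    simp only [add_zero, mul_zero] at h
    refine h.congr fun n => ?_
    unfold th
    ring
  · intro n
    unfold th δδ
    positivity
  · exact tendsto_natCast_atTop_atTop.comp (tendsto_atTop_mono th_facts_grow tendsto_id)

end SM345
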