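import Pool.Agent.Helper345.SM.Defs
import Pool.Agent.Helper345.SM.chi_sep
import Pool.Agent.Helper345.SM.th_facts
import Pool.Agent.Helper345.SM.bf_norm
import Pool.Agent.Helper345.SM.isLim_pow
import Pool.Agent.Helper345.SM.ee_facts
import Pool.Agent.Helper345.SM.opP_basic
import Pool.Agent.Helper345.SM.J_basic
import Pool.Agent.Helper345.SM.chi_basic

set_option autoImplicit false
set_option linter.unusedVariables false
set_option linter.style.longLine false

open MeasureTheory Filter Topology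
open scoped ENNReal NNReal

noncomputable section

namespace SM345

theorem cyc_aux_pow (n k : ℕ) (z : Om n) : ((TP n) ^ k) z =
    (z.1 + 3 * (k : ZMod (Nn n)), z.2 + ∑ i ∈ Finset.range k,
      (lev n).φ ((z.1 + 3 * (i : ZMod (Nn n))).val)) := by
  induction k with
  | zero => simp
  | succ k ih =>
    rw [pow_succ', Equiv.Perm.mul_apply, ih, Finset.sum_range_succ]
    change TF n _ = _
    unfold TF
    ext
    · push_cast; ring
    · simp only [add_assoc]

theorem cyc_aux_lift (c : Ctx) (m : ℕ) (f : ZMod (Nn m) → ℂ) (C : ℝ) (hC : ∀ u, ‖f u‖ ≤ C)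
    (n : ℕ) (hn : m ≤ n) : ∃ fn : ZMod (Nn n) → ℂ, (∀ u, ‖fn u‖ ≤ C) ∧
      J c.hμ n (bf n 1 fn) = J c.hμ m (bf m 1 f) := by
  induction n, hn using Nat.le_induction with
  | base => exact ⟨f, hC, rfl⟩
  | succ n hmn ih =>
    obtain ⟨fn, h1, h2⟩ := ih
    exact ⟨fun u => fn ((pr (Nn n) (wn n) (Bn n) u.val : ℕ) : ZMod (Nn n)), fun u => h1 _,
      by rw [(bf_norm c n 1 fn).2.2, h2]⟩

theorem cyc_aux_dd (n : ℕ) : 0 ≤ δδ n := by unfold δδ; positivity

theorem cyc_aux_chi (k : ZMod 5) : ‖chi k‖ = 1 := chi_basic.2.2.1 k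

theorem cyc_aux_one (c : Ctx) (n : ℕ) (y : ZMod (Nn n)) : ∃ (k : ℕ) (j : Fin 3) (ph : ℂ),
    ‖ph‖ = 1 ∧
    ‖J c.hμ n (bf n 1 (fun u => if u = y then 1 else 0)) - ph • (c.UT ^ k) (J c.hμ n
      (bf n 1 (fun u => if u.val % 3 = j.val then (if u.val < 3 then (1:ℂ) else 0) else 0)))‖
      ≤ (Nn n : ℝ) * δδ n := by
  obtain ⟨h12, -, hle, -⟩ := lev_dvd n
  have hyv := ZMod.val_lt y
  have hj : y.val % 3 < 3 := Nat.mod_lt _ (by norm_num)
  have h3 : 3 * (Nn n / 3 - y.val / 3) + 3 * (y.val / 3) = Nn n := by omega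
  have hy : (((y.val % 3 : ℕ) : ZMod (Nn n)) + 3 * ((y.val / 3 : ℕ) : ZMod (Nn n))) = y := by
    have : ((y.val % 3 + 3 * (y.val / 3) : ℕ) : ZMod (Nn n)) = y := by
      rw [Nat.mod_add_div]; exact ZMod.natCast_zmod_val y
    rw [Nat.cast_add, Nat.cast_mul, Nat.cast_ofNat] at this
    exact this
  have hk0 : 3 * ((Nn n / 3 - y.val / 3 : ℕ) : ZMod (Nn n)) + 3 * ((y.val / 3 : ℕ) : ZMod (Nn n)) = 0 := by
    have : ((3 * (Nn n / 3 - y.val / 3) + 3 * (y.val / 3) : ℕ) : ZMod (Nn n)) = 0 := by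
      rw [h3]; exact ZMod.natCast_self _
    rw [← this]; push_cast; ring
  set k := Nn n / 3 - y.val / 3 with hk
  have hiff : ∀ z : ZMod (Nn n), z + 3 * (k : ZMod (Nn n)) = ((y.val % 3 : ℕ) : ZMod (Nn n)) ↔ z = y := by
    intro z
    constructor
    · intro h
      rw [← hy, ← h]
      linear_combination -hk0
    · intro h
      rw [h]
      nth_rw 1 [← hy]
      linear_combination hk0
  have hg : (fun u : ZMod (Nn n) => if u.val % 3 = y.val % 3 then (if u.val < 3 then (1:ℂ) else 0) else 0)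
      = fun u => if u = ((y.val % 3 : ℕ) : ZMod (Nn n)) then (1:ℂ) else 0 := by
    funext u
    have hv : (((y.val % 3 : ℕ) : ZMod (Nn n))).val = y.val % 3 :=
      ZMod.val_cast_of_lt (by omega)
    have hu : u = ((y.val % 3 : ℕ) : ZMod (Nn n)) ↔ u.val = y.val % 3 := by
      constructor
      · intro h; rw [h, hv]
      · intro h; apply ZMod.val_injective; rw [hv, h]
    by_cases h1 : u.val = y.val % 3
    · rw [if_pos (hu.mpr h1), if_pos (by omega), if_pos (by omega)]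
    · rw [if_neg (fun h => h1 (hu.mp h))]
      by_cases h2 : u.val % 3 = y.val % 3
      · rw [if_pos h2, if_neg (by omega)]
      · rw [if_neg h2]
  set a : ℂ := chi (∑ i ∈ Finset.range k, (lev n).φ ((y + 3 * (i : ZMod (Nn n))).val)) with ha
  have han : ‖a‖ = 1 := cyc_aux_chi _
  have ha0 : a ≠ 0 := by intro h; rw [h, norm_zero] at han; exact zero_ne_one han
  refine ⟨k, ⟨y.val % 3, hj⟩, a⁻¹, by rw [norm_inv, han, inv_one], ?_⟩
  simp only
  rw [hg]
  set F : Om n → ℂ := bf n 1 (fun u => if u = ((y.val % 3 : ℕ) : ZMod (Nn n)) then (1:ℂ) else 0) with hF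
  have hFb : ∀ z, ‖F z‖ ≤ 1 := by
    intro z
    rw [hF]; unfold bf
    rw [norm_mul, cyc_aux_chi, mul_one]
    dsimp only
    split_ifs <;> simp
  have hpow := isLim_pow c.hμ TP δδ c.UT c.lT n k F 1 hFb
  have hcomp : (fun z => F (((TP n) ^ k) z)) =
      fun z => a * bf n 1 (fun u => if u = y then (1:ℂ) else 0) z := by
    funext z
    rw [cyc_aux_pow, hF]
    unfold bf
    simp only [one_mul]
    rw [chi_basic.1]
    by_cases hz : z.1 = y
    · rw [if_pos ((hiff z.1).mpr hz), if_pos hz, ha, hz]; ring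
    · rw [if_neg (fun h => hz ((hiff z.1).mp h)), if_neg hz]; ring
  rw [hcomp, (J_basic c.hμ).2.1] at hpow
  have hfin : J c.hμ n (bf n 1 (fun u => if u = y then (1:ℂ) else 0)) - a⁻¹ • (c.UT ^ k) (J c.hμ n F)
      = a⁻¹ • (a • J c.hμ n (bf n 1 (fun u => if u = y then (1:ℂ) else 0))
          - (c.UT ^ k) (J c.hμ n F)) := by
    rw [smul_sub, smul_smul, inv_mul_cancel₀ ha0, one_smul]
  rw [hfin, norm_smul, norm_inv, han, inv_one, one_mul, norm_sub_rev]
  refine hpow.trans ?_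
  rw [one_mul]
  refine mul_le_mul_of_nonneg_right ?_ (cyc_aux_dd n)
  exact_mod_cast (by omega : k ≤ Nn n)

theorem cyc_aux_opsum {H : Type} [NormedAddCommGroup H] [InnerProductSpace ℂ H]
    (U : H ≃ₗᵢ[ℂ] H) {ι : Type} (s : Finset ι) (P : ι → Polynomial ℂ) (f : H) :
    opP U (∑ i ∈ s, P i) f = ∑ i ∈ s, opP U (P i) f := by
  classical
  refine Finset.induction_on s (by simp [opP]) fun a s ha ih => ?_
  rw [Finset.sum_insert ha, Finset.sum_insert ha, (opP_basic U).2.1, ih]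

theorem cyc_aux_Jsum (c : Ctx) (n : ℕ) {ι : Type} (s : Finset ι) (F : ι → Om n → ℂ) :
    J c.hμ n (fun z => ∑ i ∈ s, F i z) = ∑ i ∈ s, J c.hμ n (F i) := by
  classical
  refine Finset.induction_on s ?_ fun a s ha ih => ?_
  · have := (J_basic c.hμ).2.1 n 0 (fun _ => 0)
    simpa using this
  · rw [Finset.sum_insert ha, ← ih, ← (J_basic c.hμ).1]
    congr 1
    funext z
    rw [Finset.sum_insert ha]

theorem chi_cyc (c : Ctx) (m : ℕ) (f : ZMod (Nn m) → ℂ) (ε : ℝ) (hε : 0 < ε) :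
    ∀ᶠ n in atTop, ∃ P : Polynomial ℂ,
      ‖J c.hμ m (bf m 1 f)
        - opP c.UT P (J c.hμ n (bf n 1 (fun u => if u.val < 3 then 1 else 0)))‖ < ε := by
  obtain ⟨R, D, hR⟩ := chi_sep c
  obtain ⟨C, hC0, hC⟩ : ∃ C : ℝ, 0 ≤ C ∧ ∀ u, ‖f u‖ ≤ C :=
    ⟨∑ u, ‖f u‖, Finset.sum_nonneg fun u _ => norm_nonneg _,
      fun u => Finset.single_le_sum (f := fun u => ‖f u‖) (fun u _ => norm_nonneg _)
        (Finset.mem_univ u)⟩
  obtain ⟨hth1, hth0, -⟩ := th_facts
  obtain ⟨-, -, -, hdd, -⟩ := ee_facts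
  have hN1 : ∀ n, (1:ℝ) ≤ (Nn n : ℝ) := fun n => by exact_mod_cast (Nn_pos n)
  have hA : Tendsto (fun n => (Nn n : ℝ) * th n) atTop (𝓝 0) := by
    refine squeeze_zero (fun n => mul_nonneg (by linarith [hN1 n]) (hth0 n)) (fun n => ?_) hth1
    refine mul_le_mul_of_nonneg_right ?_ (hth0 n)
    calc (Nn n : ℝ) = (Nn n : ℝ) ^ 1 := (pow_one _).symm
      _ ≤ (Nn n : ℝ) ^ 5 := pow_le_pow_right₀ (hN1 n) (by norm_num)
  have hB : Tendsto (fun n => (Nn n : ℝ) ^ 2 * δδ n) atTop (𝓝 0) := by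
    refine squeeze_zero (fun n => mul_nonneg (by positivity) (cyc_aux_dd n)) (fun n => ?_) hdd
    exact mul_le_mul_of_nonneg_right (pow_le_pow_right₀ (hN1 n) (by norm_num)) (cyc_aux_dd n)
  have hlim : Tendsto (fun n => (Nn n : ℝ) * (C * ((Nn n : ℝ) * δδ n + D * (1 * th n)))) atTop (𝓝 0) := by
    have h := ((hB.const_mul C).add (hA.const_mul (C * D)))
    simp only [mul_zero, add_zero] at h
    refine h.congr fun n => ?_
    ring
  filter_upwards [hlim.eventually (gt_mem_nhds hε), eventually_ge_atTop m] with n hn hmn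
  obtain ⟨fn, hfn, hJ⟩ := cyc_aux_lift c m f C hC n hmn
  choose k j ph hph hk using cyc_aux_one c n
  set v := J c.hμ n (bf n 1 (fun u => if u.val < 3 then (1:ℂ) else 0)) with hv
  refine ⟨∑ y, Polynomial.C (fn y * ph y) * (Polynomial.X ^ (k y) * (R (j y)).comp (QQ n)), ?_⟩
  rw [← hJ, cyc_aux_opsum]
  have hdec : J c.hμ n (bf n 1 fn) =
      ∑ y, fn y • J c.hμ n (bf n 1 (fun u => if u = y then (1:ℂ) else 0)) := by
    have h1 : bf n 1 fn = fun z => ∑ y, (fun z => fn y * bf n 1 (fun u => if u = y then (1:ℂ) else 0) z) z := by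
      funext z
      unfold bf
      simp only [ite_mul, one_mul, zero_mul, mul_ite, mul_zero]
      rw [Finset.sum_ite_eq]
      simp
    rw [h1, cyc_aux_Jsum]
    exact Finset.sum_congr rfl fun y _ => (J_basic c.hμ).2.1 _ _ _
  rw [hdec, ← Finset.sum_sub_distrib]
  refine lt_of_le_of_lt (norm_sum_le _ _) (lt_of_le_of_lt ?_ hn)
  have hb : ∀ y : ZMod (Nn n), ‖fn y • J c.hμ n (bf n 1 (fun u => if u = y then (1:ℂ) else 0)) -
      opP c.UT (Polynomial.C (fn y * ph y) * (Polynomial.X ^ (k y) * (R (j y)).comp (QQ n))) v‖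
      ≤ C * ((Nn n : ℝ) * δδ n + D * (1 * th n)) := by
    intro y
    obtain ⟨o1, o2, o3, o4, -⟩ := opP_basic c.UT
    rw [o1, o1, o3, o4, mul_smul, ← smul_sub, norm_smul]
    refine mul_le_mul (hfn y) ?_ (norm_nonneg _) hC0
    set w := J c.hμ n (bf n 1 (fun u => if u.val % 3 = (j y).val then
      (if u.val < 3 then (1:ℂ) else 0) else 0)) with hw
    have hs := hR n (fun u => if u.val < 3 then (1:ℂ) else 0) 1 (fun u => by split_ifs <;> simp) (j y)
    calc ‖J c.hμ n (bf n 1 (fun u => if u = y then (1:ℂ) else 0)) -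
          ph y • (c.UT ^ k y) (opP c.UT ((R (j y)).comp (QQ n)) v)‖
        = ‖(J c.hμ n (bf n 1 (fun u => if u = y then (1:ℂ) else 0)) - ph y • (c.UT ^ k y) w)
          - ph y • (c.UT ^ k y) (opP c.UT ((R (j y)).comp (QQ n)) v - w)‖ := by
          rw [map_sub, smul_sub]; congr 1; abel
      _ ≤ (Nn n : ℝ) * δδ n + D * (1 * th n) := by
          refine (norm_sub_le _ _).trans (add_le_add (hk y) ?_)
          rw [norm_smul, hph, one_mul, LinearIsometryEquiv.norm_map]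
          exact hs
  refine (Finset.sum_le_sum fun y _ => hb y).trans ?_
  rw [Finset.sum_const, Finset.card_univ, ZMod.card, nsmul_eq_mul]

end SM345
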