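import Pool.Agent.Helper345.SM.Defs
import Pool.Agent.Helper345.SM.chi_cyc
import Pool.Agent.Helper345.SM.Kc_approx
import Pool.Agent.Helper345.SM.cyc_exists
import Pool.Agent.Helper345.SM.rel_D
import Pool.Agent.Helper345.SM.bf_norm
import Pool.Agent.Helper345.SM.opP_basic

set_option autoImplicit false
set_option linter.unusedVariables false
set_option linter.style.longLine false

open MeasureTheory Filter Topology
open scoped ENNReal NNReal

noncomputable section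

namespace SM345

theorem sep_X' (c : Ctx) : TopologicalSpace.SeparableSpace (Lp ℂ 2 c.μ) := by
  have hp := c.hμ.prob
  have h1 : ∀ n, MeasurableSpace.CountablyGenerated (Om n) := fun n => inferInstance
  have h2 : MeasurableSpace.CountablyGenerated X := by
    show MeasurableSpace.CountablyGenerated {v : ∀ n, Om n // ∀ n, pP n (v (n+1)) = v n}
    infer_instance
  have h3 : MeasureTheory.IsSeparable c.μ := inferInstance
  have hf2 : Fact ((2:ℝ≥0∞) ≠ ∞) := ⟨by simp⟩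
  have h4 : SecondCountableTopology (Lp ℂ 2 c.μ) := inferInstance
  infer_instance

theorem K1_cyc (c : Ctx) : ∃ g ∈ c.Kc 1, cyc c.UT g = c.Kc 1 := by
  have hsep := sep_X' c
  have hrel := rel_D c 0
  have hcomm : ∀ F, c.UT (c.UD F) = c.UD (c.UT F) := by
    intro F
    have := DFunLike.congr_fun hrel.1 F
    exact this
  have hmem : ∀ (b : ZMod 5) (F : Lp ℂ 2 c.μ), F ∈ c.Kc b ↔ c.UD F = chi b • F := fun b F => Iff.rfl
  apply cyc_exists c.UT (c.Kc 1)
  · exact isClosed_eq c.UD.continuous (continuous_const_smul (chi 1))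
  · intro f hf
    rw [hmem] at hf ⊢
    rw [← hcomm, hf, map_smul]
  · intro f hf
    rw [hmem] at hf ⊢
    apply c.UT.injective
    have e1 : ∀ y, c.UT ((c.UT)⁻¹ y) = y := fun y => c.UT.apply_symm_apply y
    rw [hcomm, e1, map_smul, e1, hf]
  · intro f₁ hf₁ f₂ hf₂ ε hε
    obtain ⟨n₁, φ₁, h₁⟩ := Kc_approx c 1 f₁ hf₁ (ε / 2) (by linarith)
    obtain ⟨n₂, φ₂, h₂⟩ := Kc_approx c 1 f₂ hf₂ (ε / 2) (by linarith)
    obtain ⟨n, ⟨P₁, hP₁⟩, ⟨P₂, hP₂⟩⟩ := ((chi_cyc c n₁ φ₁ (ε / 2) (by linarith)).and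
      (chi_cyc c n₂ φ₂ (ε / 2) (by linarith))).exists
    refine ⟨_, (bf_norm c n 1 (fun u => if u.val < 3 then 1 else 0)).1, P₁, P₂, ?_, ?_⟩
    · calc _ ≤ ‖f₁ - J c.hμ n₁ (bf n₁ 1 φ₁)‖ + ‖J c.hμ n₁ (bf n₁ 1 φ₁) -
            opP c.UT P₁ (J c.hμ n (bf n 1 (fun u => if u.val < 3 then 1 else 0)))‖ :=
            norm_sub_le_norm_sub_add_norm_sub _ _ _
        _ < ε := by linarith
    · calc _ ≤ ‖f₂ - J c.hμ n₂ (bf n₂ 1 φ₂)‖ + ‖J c.hμ n₂ (bf n₂ 1 φ₂) -
            opP c.UT P₂ (J c.hμ n (bf n 1 (fun u => if u.val < 3 then 1 else 0)))‖ :=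
            norm_sub_le_norm_sub_add_norm_sub _ _ _
        _ < ε := by linarith

end SM345
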