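import Pool.Agent.Helper345.SM.th_facts

set_option autoImplicit false

open MeasureTheory Filter Topology
open scoped ENNReal

noncomputable section

namespace SM345

/-- the limit measure has no atoms -/
theorem noAtoms (c : Ctx) (x : X) : c.μ {x} = 0 := by

  have h1 : ∀ n, c.μ {x} ≤ ((Nn n : ℕ) : ℝ≥0∞)⁻¹ := by
    intro n
    calc c.μ {x} ≤ c.μ {y : X | y.1 n = x.1 n} := by
          apply measure_mono
          intro y hy
          rw [Set.mem_singleton_iff] at hy
          subst hy
          rfl
      _ = (Fintype.card (Om n) : ℝ≥0∞)⁻¹ := c.hμ.unif n (x.1 n)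
      _ ≤ ((Nn n : ℕ) : ℝ≥0∞)⁻¹ := by
          apply ENNReal.inv_le_inv.2
          have : Nn n ≤ Fintype.card (Om n) := by
            rw [Fintype.card_prod, ZMod.card, ZMod.card]
            omega
          exact_mod_cast this
  have h2 : Tendsto (fun n => ((Nn n : ℕ) : ℝ≥0∞)⁻¹) atTop (𝓝 0) := by
    have h3 : Tendsto (fun n => Nn n) atTop atTop :=
      tendsto_natCast_atTop_iff.1 th_facts.2.2
    exact ENNReal.tendsto_inv_nat_nhds_zero.comp h3
  exact le_antisymm (ge_of_tendsto' h2 h1) zero_le

end SM345
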