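import Mathlib

/-! The set of spectral multiplicities of an automorphism of a probability space
(definitions used in the statement of MP_b9bb23_an). -/

set_option autoImplicit false

open MeasureTheory

noncomputable section

namespace SM345

/-- the unit circle of `ℂ` with its Borel sigma-algebra -/
instance : MeasurableSpace Circle := borel Circle
instance : BorelSpace Circle := ⟨rfl⟩

/-- The maps `V i` identify the Hilbert sum of the spaces `L²(σ i)` with `L²₀(μ)`, and carry
multiplication by `z` on each `L²(σ i)` to the Koopman operator `f ↦ f ∘ T`: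
`V i` maps square integrable functions to square integrable functions with integral zero,
preserves inner products, different `V i` have orthogonal ranges, `(V i h) ∘ T = V i (z h)`, and
no nonzero element of `L²₀(μ)` is orthogonal to all the ranges. -/
def IsSpectralDecomposition {X ι : Type} [MeasurableSpace X] (μ : Measure X) (T : X → X)
    (σ : ι → Measure Circle) (V : ι → (Circle → ℂ) → X → ℂ) : Prop :=
  (∀ i h, MemLp h 2 (σ i) → MemLp (V i h) 2 μ ∧ ∫ x, V i h x ∂μ = 0) ∧
  (∀ i h k, MemLp h 2 (σ i) → MemLp k 2 (σ i) →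
    ∫ x, (starRingEnd ℂ) (V i h x) * V i k x ∂μ = ∫ z, (starRingEnd ℂ) (h z) * k z ∂(σ i)) ∧
  (∀ i j h k, i ≠ j → MemLp h 2 (σ i) → MemLp k 2 (σ j) →
    ∫ x, (starRingEnd ℂ) (V i h x) * V j k x ∂μ = 0) ∧
  (∀ i h, MemLp h 2 (σ i) → (fun x => V i h (T x)) =ᵐ[μ] V i (fun z => (z : ℂ) * h z)) ∧
  (∀ f : X → ℂ, MemLp f 2 μ → ∫ x, f x ∂μ = 0 →
    (∀ i h, MemLp h 2 (σ i) → ∫ x, (starRingEnd ℂ) (V i h x) * f x ∂μ = 0) → f =ᵐ[μ] 0)

/-- The set of spectral multiplicities of `T` is `{m₁, m₂}`: there are nonzero mutually singular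
finite Borel measures `σ₁, σ₂` on the circle such that the Koopman operator of `T` on `L²₀(μ)` is
unitarily equivalent to multiplication by `z` on the Hilbert sum of `m₁` copies of `L²(σ₁)` and
`m₂` copies of `L²(σ₂)`. -/
def HasMultiplicities {X : Type} [MeasurableSpace X] (μ : Measure X) (T : X → X)
    (m₁ m₂ : ℕ) : Prop :=
  ∃ σ₁ σ₂ : Measure Circle, IsFiniteMeasure σ₁ ∧ IsFiniteMeasure σ₂ ∧ σ₁ ≠ 0 ∧ σ₂ ≠ 0 ∧
    σ₁ ⟂ₘ σ₂ ∧
    ∃ V : Fin m₁ ⊕ Fin m₂ → (Circle → ℂ) → X → ℂ,
      IsSpectralDecomposition μ T (Sum.elim (fun _ => σ₁) (fun _ => σ₂)) V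

end SM345
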