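import Pool.Agent.Helper345.SM.Defs
import Pool.Agent.Helper345.SM.digit_bij
import Pool.Agent.Helper345.SM.pr_per

set_option autoImplicit false
set_option linter.unusedVariables false
set_option linter.style.longLine false

open MeasureTheory Filter Topology
open scoped ENNReal NNReal

noncomputable section

namespace SM345

theorem T_orbit_aux (N w B : ℕ) (hN : 12 ∣ N) (hN0 : 0 < N) (hw : 3 ∣ w) (hB : 0 < B)
    [NeZero N] [NeZero (NN N B)] (f : ZMod N → ℂ) (u : ZMod (NN N B)) :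
    ∑ h ∈ Finset.range (NN N B),
      f ((pr N w B (u + 3 * (h : ZMod (NN N B))).val : ℕ) : ZMod N)
      = ((NN N B : ℂ) / (N : ℂ)) * ∑ v, f v := by
  classical
  obtain ⟨K, hK⟩ : ∃ K, WW N B = 3 * K := ⟨12 * N * B ^ (B + 2), by unfold WW; ring⟩
  have hW0 : 0 < WW N B := by unfold WW; positivity
  have hNN : NN N B = 4 * N * (WW N B) ^ 4 := rfl
  obtain ⟨M, hM⟩ : ∃ M, NN N B = 3 * M := by
    refine ⟨4 * N * (WW N B) ^ 3 * K, ?_⟩
    calc NN N B = 4 * N * (WW N B) ^ 3 * WW N B := by rw [hNN]; ring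
      _ = 4 * N * (WW N B) ^ 3 * (3 * K) := by rw [← hK]
      _ = _ := by ring
  have hNpos : 0 < NN N B := Nat.pos_of_ne_zero (NeZero.ne _)
  have hMpos : 0 < M := by omega
  obtain ⟨x, hx⟩ : ∃ x : ℕ → ℕ, ∀ h, x h = (u + 3 * (h : ZMod (NN N B))).val := ⟨_, fun h => rfl⟩
  simp only [← hx]
  have hxlt : ∀ h, x h < NN N B := fun h => by rw [hx]; exact ZMod.val_lt _
  have hxmod : ∀ h, (x h) % NN N B = (u.val + 3 * h) % NN N B := by
    intro h
    rw [← ZMod.natCast_eq_natCast_iff', hx, ZMod.natCast_zmod_val]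
    push_cast
    rw [ZMod.natCast_zmod_val]
  have h3 : ∀ h, (x h) % 3 = u.val % 3 := by
    intro h
    have h1 : (x h) % NN N B % 3 = (u.val + 3 * h) % NN N B % 3 := by rw [hxmod h]
    rw [Nat.mod_mod_of_dvd _ ⟨M, hM⟩, Nat.mod_mod_of_dvd _ ⟨M, hM⟩] at h1
    omega
  have hd0 : ∀ h, dx N B 0 (x h) % 3 = u.val % 3 := by
    intro h
    unfold dx
    rw [pow_zero, Nat.div_one, Nat.mod_mod_of_dvd _ ⟨K, hK⟩, Nat.mod_eq_of_lt (hxlt h), h3]
  have hdlt : ∀ i a, dx N B i a < WW N B := fun i a => Nat.mod_lt _ hW0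
  have hclt : ∀ a, dc N B a < 4 := by
    intro a
    unfold dc
    rw [Nat.div_lt_iff_lt_mul (by positivity)]
    have h1 : a % NN N B < NN N B := Nat.mod_lt _ hNpos
    calc a % NN N B < NN N B := h1
      _ = 4 * (WW N B ^ 4 * N) := by rw [hNN]; ring
  have hplt : ∀ a, pr N w B a < N := fun a => Nat.mod_lt _ hN0
  let T : Finset (ℕ × ℕ × ℕ × ℕ × ℕ × ℕ) := Finset.range K ×ˢ (Finset.range 3 ×ˢ
    (Finset.range (WW N B) ×ˢ (Finset.range (WW N B) ×ˢ (Finset.range (WW N B) ×ˢ Finset.range 4))))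
  let Ψ : ℕ → ℕ × (ℕ × ℕ × ℕ × ℕ × ℕ × ℕ) := fun h =>
    (pr N w B (x h), (dx N B 0 (x h) / 3, h / M, dx N B 1 (x h), dx N B 2 (x h), dx N B 3 (x h),
      dc N B (x h)))
  have hinj : Set.InjOn Ψ (Finset.range (NN N B)) := by
    intro h hh h' hh' heq
    simp only [Ψ, Prod.mk.injEq] at heq
    obtain ⟨e1, e2, e3, e4, e5, e6, e7⟩ := heq
    have e8 : dx N B 0 (x h) = dx N B 0 (x h') := by
      have := hd0 h
      have := hd0 h'
      omega
    obtain ⟨z, _, hz⟩ := digit_bij N w B hN hN0 hw hB (pr N w B (x h)) (hplt _)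
      (fun i => dx N B i (x h)) (fun i => hdlt i _) (dc N B (x h)) (hclt _)
    have g1 := hz (x h) ⟨hxlt h, rfl, fun i _ => rfl, rfl⟩
    have g2 := hz (x h') ⟨hxlt h', e1.symm, fun i hi => by
      interval_cases i
      · exact e8.symm
      · exact e4.symm
      · exact e5.symm
      · exact e6.symm, e7.symm⟩
    have g3 : x h = x h' := by rw [g1, g2]
    have g4 : (u.val + 3 * h) % NN N B = (u.val + 3 * h') % NN N B := by
      rw [← hxmod h, ← hxmod h', g3]
    have g5 : u.val + 3 * h ≡ u.val + 3 * h' [MOD NN N B] := g4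
    have g6 : 3 * h ≡ 3 * h' [MOD NN N B] := Nat.ModEq.add_left_cancel' _ g5
    rw [hM] at g6
    have g7 : h ≡ h' [MOD M] := Nat.ModEq.mul_left_cancel' (by norm_num) g6
    have g8 : h % M = h' % M := g7
    rw [← Nat.div_add_mod h M, ← Nat.div_add_mod h' M, g8, e3]
  have himg : (Finset.range (NN N B)).image Ψ = Finset.range N ×ˢ T := by
    apply Finset.eq_of_subset_of_card_le
    · intro p hp
      obtain ⟨h, hh, rfl⟩ := Finset.mem_image.1 hp
      have hh' := Finset.mem_range.1 hh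
      simp only [Ψ, T, Finset.mem_product, Finset.mem_range]
      refine ⟨hplt _, ?_, ?_, hdlt _ _, hdlt _ _, hdlt _ _, hclt _⟩
      · have := hdlt 0 (x h)
        omega
      · rw [Nat.div_lt_iff_lt_mul hMpos]
        omega
    · rw [Finset.card_image_of_injOn hinj, Finset.card_range]
      simp only [T, Finset.card_product, Finset.card_range]
      have : N * (K * (3 * (WW N B * (WW N B * (WW N B * 4))))) =
          4 * N * ((3 * K) * (WW N B) ^ 3) := by ring
      rw [this, ← hK, hNN]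
      apply le_of_eq
      ring
  have hsum1 : ∑ h ∈ Finset.range (NN N B), f ((pr N w B (x h) : ℕ) : ZMod N) =
      ∑ p ∈ Finset.range N ×ˢ T, f ((p.1 : ℕ) : ZMod N) := by
    rw [← himg, Finset.sum_image hinj]
  have hsum2 : ∑ v, f v = ∑ y ∈ Finset.range N, f ((y : ℕ) : ZMod N) := by
    refine Finset.sum_nbij' (fun v => v.val) (fun y => (y : ZMod N)) ?_ ?_ ?_ ?_ ?_
    · intro v _
      exact Finset.mem_range.2 (ZMod.val_lt v)
    · intro y _
      exact Finset.mem_univ _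
    · intro v _
      exact ZMod.natCast_zmod_val v
    · intro y hy
      exact ZMod.val_cast_of_lt (Finset.mem_range.1 hy)
    · intro v _
      rw [ZMod.natCast_zmod_val]
  rw [hsum1, Finset.sum_product, hsum2, Finset.mul_sum]
  refine Finset.sum_congr rfl fun y _ => ?_
  simp only [Finset.sum_const, nsmul_eq_mul]
  congr 1
  have hcard : T.card = 4 * (WW N B) ^ 4 := by
    simp only [T, Finset.card_product, Finset.card_range]
    have : K * (3 * (WW N B * (WW N B * (WW N B * 4)))) =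
        4 * ((3 * K) * (WW N B) ^ 3) := by ring
    rw [this, ← hK]
    ring
  have hNc : (N : ℂ) ≠ 0 := by exact_mod_cast hN0.ne'
  rw [hcard, hNN]
  push_cast
  field_simp

theorem T_orbit (n : ℕ) (f : ZMod (Nn n) → ℂ) (u : ZMod (Nn (n+1))) :
    ∑ h ∈ Finset.range (Nn (n+1)),
      f ((pr (Nn n) (wn n) (Bn n) (u + 3 * (h : ZMod (Nn (n+1)))).val : ℕ) : ZMod (Nn n))
      = (Nn (n+1) / Nn n : ℂ) * ∑ v, f v := by
  obtain ⟨h1, h2, h3, h4, h5, h6⟩ := lev_dvd n
  have hB : 0 < Bn n := by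
    rw [← h5]
    have := Nn_pos n
    positivity
  haveI : NeZero (NN (Nn n) (Bn n)) := inferInstanceAs (NeZero (Nn (n + 1)))
  exact T_orbit_aux (Nn n) (wn n) (Bn n) h1 (Nn_pos n) h2 hB f u

end SM345
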