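import Pool.Agent.Helper345.SM.Defs
import Pool.Agent.Helper345.SM.T_orbit
import Pool.Agent.Helper345.SM.K0_approx
import Pool.Agent.Helper345.SM.bf_norm
import Pool.Agent.Helper345.SM.isLim_pow
import Pool.Agent.Helper345.SM.ee_facts
import Pool.Agent.Helper345.SM.J_basic
import Pool.Agent.Helper345.SM.one_fix

set_option autoImplicit false
set_option linter.unusedVariables false
set_option linter.style.longLine false

open MeasureTheory Filter Topology
open scoped ENNReal NNReal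

noncomputable section

namespace SM345

theorem teb_J_zero (c : Ctx) (n : ℕ) : J c.hμ n (fun _ => (0 : ℂ)) = 0 := by
  have h := (J_basic c.hμ).2.1 n 0 (fun _ => (0 : ℂ))
  simpa using h

theorem teb_J_sum (c : Ctx) (n : ℕ) (g : ℕ → Om n → ℂ) (H : ℕ) :
    ∑ h ∈ Finset.range H, J c.hμ n (g h) = J c.hμ n (fun y => ∑ h ∈ Finset.range H, g h y) := by
  induction H with
  | zero => simp [teb_J_zero]
  | succ H ih =>
    rw [Finset.sum_range_succ, ih, ← (J_basic c.hμ).1]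
    congr 1
    funext y
    rw [Finset.sum_range_succ]

theorem teb_lift (c : Ctx) (n : ℕ) (f : ZMod (Nn n) → ℂ) (hf : ∑ u, f u = 0) (C : ℝ)
    (hC : ∀ u, ‖f u‖ ≤ C) (k : ℕ) :
    ∃ f' : ZMod (Nn (n + k)) → ℂ, ∑ u, f' u = 0 ∧ (∀ u, ‖f' u‖ ≤ C) ∧
      J c.hμ (n + k) (bf (n + k) 0 f') = J c.hμ n (bf n 0 f) := by
  induction k with
  | zero => exact ⟨f, hf, hC, rfl⟩
  | succ k ih =>
    obtain ⟨f', h1, h2, h3⟩ := ih
    refine ⟨fun u => f' ((pr (Nn (n + k)) (wn (n + k)) (Bn (n + k)) u.val : ℕ) :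
      ZMod (Nn (n + k))), ?_, fun u => h2 _, ?_⟩
    · have e1 := (bf_norm c (n + k) 0 f').2.2
      have e2 := (one_fix c).2.2.2.2.2.2 (n + k) f'
      have e3 := (one_fix c).2.2.2.2.2.2 (n + k + 1)
        (fun u => f' ((pr (Nn (n + k)) (wn (n + k)) (Bn (n + k)) u.val : ℕ) : ZMod (Nn (n + k))))
      rw [e1, e2, h1] at e3
      have hne : ((Nn (n + k + 1) : ℕ) : ℂ) ≠ 0 := by
        exact_mod_cast (Nn_pos (n + k + 1)).ne'
      rw [zero_div, eq_comm, div_eq_zero_iff] at e3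
      rcases e3 with e3 | e3
      · exact e3
      · exact absurd e3 hne
    · have e1 := (bf_norm c (n + k) 0 f').2.2
      rw [← h3]
      exact e1

theorem teb_TP_pow (n h : ℕ) (y : Om n) : (((TP n) ^ h) y).1 = y.1 + 3 * (h : ZMod (Nn n)) := by
  induction h with
  | zero => simp
  | succ h ih =>
    rw [pow_succ', Equiv.Perm.mul_apply]
    have : (TP n (((TP n) ^ h) y)).1 = (((TP n) ^ h) y).1 + 3 := rfl
    rw [this, ih]
    push_cast
    ring

theorem teb_bound (c : Ctx) (m : ℕ) (f : ZMod (Nn m) → ℂ) (hf : ∑ u, f u = 0) (C : ℝ)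
    (hC : ∀ u, ‖f u‖ ≤ C) :
    ‖∑ h ∈ Finset.range (Nn (m + 1)), (c.UT ^ h) (J c.hμ m (bf m 0 f))‖
      ≤ (Nn (m + 1) : ℝ) * ((Nn (m + 1) : ℝ) * (C * δδ (m + 1))) := by
  have hC0 : 0 ≤ C := le_trans (norm_nonneg _) (hC 0)
  have hd : 0 ≤ δδ (m + 1) := by unfold δδ; positivity
  set g : ZMod (Nn (m + 1)) → ℂ := fun u => f ((pr (Nn m) (wn m) (Bn m) u.val : ℕ) : ZMod (Nn m))
    with hg
  have e1 : J c.hμ (m + 1) (bf (m + 1) 0 g) = J c.hμ m (bf m 0 f) := (bf_norm c m 0 f).2.2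
  have hchi : ∀ x : ZMod 5, chi (0 * x) = 1 := by
    intro x
    simp [chi]
  have hz : ∑ h ∈ Finset.range (Nn (m + 1)),
      J c.hμ (m + 1) (fun y => bf (m + 1) 0 g (((TP (m + 1)) ^ h) y)) = 0 := by
    rw [teb_J_sum c (m + 1) (fun h y => bf (m + 1) 0 g (((TP (m + 1)) ^ h) y)), ← teb_J_zero c (m + 1)]
    congr 1
    funext y
    have := T_orbit m f y.1
    rw [hf, mul_zero] at this
    rw [← this]
    refine Finset.sum_congr rfl fun h _ => ?_
    simp only [bf, hchi, mul_one, hg]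
    rw [teb_TP_pow]
  have hb : ∀ y, ‖bf (m + 1) 0 g y‖ ≤ C := by
    intro y
    simp only [bf, hchi, mul_one, hg]
    exact hC _
  have hpt : ∀ h ∈ Finset.range (Nn (m + 1)),
      ‖(c.UT ^ h) (J c.hμ m (bf m 0 f))
        - J c.hμ (m + 1) (fun y => bf (m + 1) 0 g (((TP (m + 1)) ^ h) y))‖
      ≤ (Nn (m + 1) : ℝ) * (C * δδ (m + 1)) := by
    intro h hh
    rw [← e1]
    refine le_trans (isLim_pow c.hμ TP δδ c.UT c.lT (m + 1) h (bf (m + 1) 0 g) C hb) ?_
    have : (h : ℝ) ≤ (Nn (m + 1) : ℝ) := by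
      exact_mod_cast (Finset.mem_range.mp hh).le
    exact mul_le_mul_of_nonneg_right this (mul_nonneg hC0 hd)
  calc ‖∑ h ∈ Finset.range (Nn (m + 1)), (c.UT ^ h) (J c.hμ m (bf m 0 f))‖
      = ‖∑ h ∈ Finset.range (Nn (m + 1)), ((c.UT ^ h) (J c.hμ m (bf m 0 f))
        - J c.hμ (m + 1) (fun y => bf (m + 1) 0 g (((TP (m + 1)) ^ h) y)))‖ := by
        rw [Finset.sum_sub_distrib, hz, sub_zero]
    _ ≤ ∑ h ∈ Finset.range (Nn (m + 1)), ‖((c.UT ^ h) (J c.hμ m (bf m 0 f))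
        - J c.hμ (m + 1) (fun y => bf (m + 1) 0 g (((TP (m + 1)) ^ h) y)))‖ := norm_sum_le _ _
    _ ≤ ∑ h ∈ Finset.range (Nn (m + 1)), (Nn (m + 1) : ℝ) * (C * δδ (m + 1)) :=
        Finset.sum_le_sum hpt
    _ = (Nn (m + 1) : ℝ) * ((Nn (m + 1) : ℝ) * (C * δδ (m + 1))) := by
        rw [Finset.sum_const, Finset.card_range, nsmul_eq_mul]

theorem T_erg_base (c : Ctx) (F : Lp ℂ 2 c.μ) (hF : F ∈ c.K0) (h : c.UT F = F) : F = 0 := by
  have hpow : ∀ k : ℕ, (c.UT ^ k) F = F := by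
    intro k
    induction k with
    | zero => rfl
    | succ k ih =>
      rw [pow_succ]
      show (c.UT ^ k) (c.UT F) = F
      rw [h, ih]
  rw [← norm_eq_zero]
  refine le_antisymm ?_ (norm_nonneg _)
  refine le_of_forall_pos_le_add fun ε hε => ?_
  rw [zero_add]
  obtain ⟨n, f, hf, hfε⟩ := K0_approx c F hF ε hε
  obtain ⟨C, hC⟩ := (Set.finite_range (fun y => ‖f y‖)).bddAbove
  have hC' : ∀ u, ‖f u‖ ≤ C := fun u => hC ⟨u, rfl⟩
  have key : ∀ k : ℕ, ‖F‖ ≤ ε + C * ((Nn (n + k + 1) : ℝ) * δδ (n + k + 1)) := by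
    intro k
    obtain ⟨f', h1, h2, h3⟩ := teb_lift c n f hf C hC' k
    have hb := teb_bound c (n + k) f' h1 C h2
    rw [h3] at hb
    set G := J c.hμ n (bf n 0 f) with hG
    set H := Nn (n + k + 1) with hH
    have hHpos : (0 : ℝ) < (H : ℝ) := by exact_mod_cast Nn_pos (n + k + 1)
    have e1 : (H : ℕ) • F = (∑ j ∈ Finset.range H, (c.UT ^ j) (F - G))
        + ∑ j ∈ Finset.range H, (c.UT ^ j) G := by
      rw [← Finset.sum_add_distrib]
      have : ∀ j ∈ Finset.range H, (c.UT ^ j) (F - G) + (c.UT ^ j) G = F := by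
        intro j _
        rw [map_sub, sub_add_cancel, hpow]
      rw [Finset.sum_congr rfl this, Finset.sum_const, Finset.card_range]
    have e2 : ‖(H : ℕ) • F‖ = (H : ℝ) * ‖F‖ := by
      rw [← Nat.cast_smul_eq_nsmul ℝ, norm_smul]
      simp
    have e3 : ‖∑ j ∈ Finset.range H, (c.UT ^ j) (F - G)‖ ≤ (H : ℝ) * ε := by
      refine le_trans (norm_sum_le _ _) ?_
      refine le_trans (Finset.sum_le_sum (g := fun _ => ε) fun j _ => ?_) ?_
      · rw [LinearIsometryEquiv.norm_map]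
        exact hfε.le
      · rw [Finset.sum_const, Finset.card_range, nsmul_eq_mul]
    have e4 : (H : ℝ) * ‖F‖ ≤ (H : ℝ) * ε + (H : ℝ) * ((H : ℝ) * (C * δδ (n + k + 1))) := by
      rw [← e2, e1]
      exact le_trans (norm_add_le _ _) (add_le_add e3 hb)
    have e5 : (H : ℝ) * ‖F‖ ≤ (H : ℝ) * (ε + C * ((H : ℝ) * δδ (n + k + 1))) := by
      refine le_trans e4 (le_of_eq ?_)
      ring
    exact le_of_mul_le_mul_left e5 hHpos
  have hlim : Tendsto (fun n => (Nn n : ℝ) * δδ n) atTop (𝓝 0) := by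
    refine squeeze_zero (fun n => ?_) (fun n => ?_) ee_facts.2.2.2.1
    · have : 0 ≤ δδ n := by unfold δδ; positivity
      positivity
    · have hd : 0 ≤ δδ n := by unfold δδ; positivity
      have h1 : (1 : ℝ) ≤ (Nn n : ℝ) := by exact_mod_cast Nn_pos n
      refine mul_le_mul_of_nonneg_right ?_ hd
      calc (Nn n : ℝ) = (Nn n : ℝ) ^ 1 := (pow_one _).symm
        _ ≤ (Nn n : ℝ) ^ 5 := pow_le_pow_right₀ h1 (by norm_num)
  have hlim2 : Tendsto (fun k => ε + C * ((Nn (n + k + 1) : ℝ) * δδ (n + k + 1))) atTop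
      (𝓝 (ε + C * 0)) := by
    refine tendsto_const_nhds.add (tendsto_const_nhds.mul ?_)
    have ht : Tendsto (fun k : ℕ => n + k + 1) atTop atTop :=
      tendsto_atTop_mono (f := fun k : ℕ => k) (fun k => by show k ≤ n + k + 1; omega) tendsto_id
    exact hlim.comp ht
  rw [mul_zero, add_zero] at hlim2
  exact ge_of_tendsto' hlim2 key

end SM345
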