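import Pool.Agent.Helper345.SM.Defs
import Pool.Agent.Helper345.SM.chi_avg
import Pool.Agent.Helper345.SM.th_facts
import Pool.Agent.Helper345.SM.Kc_approx
import Pool.Agent.Helper345.SM.bf_norm
import Pool.Agent.Helper345.SM.opP_basic
import Pool.Agent.Helper345.SM.J_basic

set_option autoImplicit false
set_option linter.unusedVariables false
set_option linter.style.longLine false

open MeasureTheory Filter Topology
open scoped ENNReal NNReal

noncomputable section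

namespace SM345

theorem QQ_contr_aux {H : Type} [NormedAddCommGroup H] [InnerProductSpace ℂ H]
    (U : H ≃ₗᵢ[ℂ] H) (n : ℕ) (G : H) (m : ℕ) :
    ‖opP U (∑ i ∈ Finset.range m, Polynomial.C (1 / (Bn n : ℂ)) *
      Polynomial.X ^ (LL (Nn n) (Bn n) i)) G‖ ≤ m * (1 / (Bn n : ℝ)) * ‖G‖ := by
  obtain ⟨h1, h2, h3, h4, -, -, -, -⟩ := opP_basic U
  induction m with
  | zero =>
    have h0 : opP U (0 : Polynomial ℂ) G = 0 := by
      have := h3 0 G
      rwa [map_zero, zero_smul] at this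
    simp [h0]
  | succ m ih =>
    rw [Finset.sum_range_succ, h2]
    refine (norm_add_le _ _).trans ?_
    have h5 : ‖opP U (Polynomial.C (1 / (Bn n : ℂ)) * Polynomial.X ^ (LL (Nn n) (Bn n) m)) G‖
        = (1 / (Bn n : ℝ)) * ‖G‖ := by
      rw [h1, h3, h4, norm_smul, LinearIsometryEquiv.norm_map]
      congr 1
      rw [norm_div, norm_one, Complex.norm_natCast]
    rw [h5]
    push_cast
    linarith

theorem QQ_contr {H : Type} [NormedAddCommGroup H] [InnerProductSpace ℂ H]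
    (U : H ≃ₗᵢ[ℂ] H) (n : ℕ) (G : H) : ‖opP U (QQ n) G‖ ≤ ‖G‖ := by
  have h1 := QQ_contr_aux U n G (Bn n)
  have h2 : (0 : ℝ) < Bn n := by
    have : 0 < Bn n := by
      rw [← (lev_dvd n).2.2.2.2.1]
      have := Nn_pos n
      positivity
    exact_mod_cast this
  rw [mul_one_div, div_self h2.ne', one_mul] at h1
  exact h1

theorem cc_le (n : ℕ) (u : ZMod (Nn n)) : ‖cc n u‖ ≤ 7 / 12 := by
  unfold cc
  rw [Complex.norm_real, Real.norm_eq_abs, abs_le]
  have h1 : u.val % 3 < 3 := Nat.mod_lt _ (by norm_num)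
  have h2 : ((u.val % 3 : ℕ) : ℝ) ≤ 2 := by
    have : u.val % 3 ≤ 2 := by omega
    exact_mod_cast this
  have h3 : (0 : ℝ) ≤ ((u.val % 3 : ℕ) : ℝ) := Nat.cast_nonneg _
  constructor <;> linarith

theorem chi_avg_lim (c : Ctx) (b : ZMod 5) (hb : b ≠ 0) (F : Lp ℂ 2 c.μ) (hF : F ∈ c.Kc b)
    (hF0 : F ≠ 0) : ∀ᶠ n in atTop, ‖opP c.UT (QQ n) F‖ ^ 2 ≤ (1 / 2) * ‖F‖ ^ 2 := by
  have hFn : 0 < ‖F‖ := norm_pos_iff.2 hF0
  obtain ⟨m, f, hf⟩ := Kc_approx c b F hF (‖F‖ / 100) (by positivity)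
  set F' := J c.hμ m (bf m b f) with hF'
  obtain ⟨C0, hC0⟩ := (Set.finite_range (fun y => ‖f y‖)).bddAbove
  have hC0' : ∀ u, ‖f u‖ ≤ C0 := fun u => hC0 ⟨u, rfl⟩
  have hlift : ∀ n, m ≤ n → ∃ g : ZMod (Nn n) → ℂ, (∀ u, ‖g u‖ ≤ C0) ∧
      J c.hμ n (bf n b g) = F' := by
    intro n hn
    induction n, hn using Nat.le_induction with
    | base => exact ⟨f, hC0', rfl⟩
    | succ n hn ih =>
      obtain ⟨g, hg1, hg2⟩ := ih
      exact ⟨fun u => g ((pr (Nn n) (wn n) (Bn n) u.val : ℕ) : ZMod (Nn n)),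
        fun u => hg1 _, ((bf_norm c n b g).2.2).trans hg2⟩
  have hC00 : 0 ≤ C0 := (norm_nonneg _).trans (hC0' 0)
  obtain ⟨t1, t2, t3⟩ := th_facts
  have hth : ∀ᶠ n in atTop, C0 * th n ≤ ‖F‖ / 100 := by
    have h1 : Tendsto (fun n => C0 * ((Nn n : ℝ) ^ 5 * th n)) atTop (𝓝 0) := by
      simpa using t1.const_mul C0
    have h2 : (0 : ℝ) < ‖F‖ / 100 := by positivity
    filter_upwards [h1.eventually_lt_const h2] with n hn
    refine le_trans ?_ hn.le
    refine mul_le_mul_of_nonneg_left ?_ hC00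
    have h3 : (1 : ℝ) ≤ (Nn n : ℝ) ^ 5 := by
      apply one_le_pow₀
      have := Nn_pos n
      exact_mod_cast this
    nlinarith [t2 n]
  filter_upwards [hth, eventually_ge_atTop m] with n hn1 hn2
  obtain ⟨g, hg1, hg2⟩ := hlift n hn2
  have h1 := chi_avg c n b hb g C0 hg1
  rw [hg2] at h1
  have h2 : ‖J c.hμ n (bf n b (fun u => cc n u * g u))‖ ≤ (7 / 12) * ‖F'‖ := by
    have e1 := (bf_norm c n b (fun u => cc n u * g u)).2.1
    have e2 := (bf_norm c n b g).2.1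
    rw [hg2] at e2
    refine le_of_sq_le_sq ?_ (by positivity)
    rw [e1, mul_pow, e2, ← mul_div_assoc, Finset.mul_sum]
    refine div_le_div_of_nonneg_right ?_ (Nat.cast_nonneg _)
    refine Finset.sum_le_sum fun u _ => ?_
    rw [norm_mul, mul_pow]
    have := cc_le n u
    have h0 := norm_nonneg (cc n u)
    refine mul_le_mul_of_nonneg_right ?_ (by positivity)
    exact pow_le_pow_left₀ h0 this 2
  have h3 : ‖opP c.UT (QQ n) F'‖ ≤ C0 * th n + (7 / 12) * ‖F'‖ := by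
    have := norm_sub_norm_le (opP c.UT (QQ n) F') (J c.hμ n (bf n b (fun u => cc n u * g u)))
    linarith
  have h4 : ‖F'‖ ≤ ‖F‖ + ‖F‖ / 100 := by
    have := norm_sub_norm_le F' F
    rw [norm_sub_rev] at this
    linarith
  have h5 : ‖opP c.UT (QQ n) F‖ ≤ ‖F‖ / 100 + ‖opP c.UT (QQ n) F'‖ := by
    obtain ⟨-, -, -, -, h5a, -⟩ := opP_basic c.UT
    have e1 : F = (F - F') + F' := by abel
    have e2 : opP c.UT (QQ n) F = opP c.UT (QQ n) (F - F') + opP c.UT (QQ n) F' := by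
      rw [← h5a, ← e1]
    rw [e2]
    refine (norm_add_le _ _).trans ?_
    have := QQ_contr c.UT n (F - F')
    linarith
  have h6 : ‖opP c.UT (QQ n) F‖ ≤ (61 / 100) * ‖F‖ := by linarith
  have h7 : ‖opP c.UT (QQ n) F‖ ^ 2 ≤ ((61 / 100) * ‖F‖) ^ 2 :=
    pow_le_pow_left₀ (norm_nonneg _) h6 2
  nlinarith [sq_nonneg ‖F‖]

end SM345
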