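import Pool.Agent.Helper345.SM.Defs

set_option autoImplicit false
set_option linter.unusedVariables false
set_option linter.style.longLine false

open MeasureTheory Filter Topology
open scoped ENNReal NNReal

noncomputable section

namespace SM345

theorem koop_coe {X : Type} [MeasurableSpace X] {μ : Measure X} (G : X ≃ᵐ X)
    (hG : MeasurePreserving G μ μ) (F : Lp ℂ 2 μ) : Koop G hG F =ᵐ[μ] fun x => F (G x) := by
  have h1 : Koop G hG F = Lp.compMeasurePreserving G hG F := rfl
  rw [h1]
  exact Lp.coeFn_compMeasurePreserving F hG

end SM345
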