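import Pool.Agent.Helper345.SM.Defs
import Pool.Agent.Helper345.SM.T_erg_base
import Pool.Agent.Helper345.SM.chi_avg_lim
import Pool.Agent.Helper345.SM.rel_D
import Pool.Agent.Helper345.SM.one_fix
import Pool.Agent.Helper345.SM.koop_coe
import Pool.Agent.Helper345.SM.opP_basic
import Pool.Agent.Helper345.SM.chi_basic

set_option autoImplicit false
set_option linter.unusedVariables false
set_option linter.style.longLine false

open MeasureTheory Filter Topology
open scoped ENNReal NNReal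

noncomputable section

namespace SM345

theorem aux_invKc (c : Ctx) (b : ZMod 5) (hb : b ≠ 0) (F : Lp ℂ 2 c.μ) (hF : c.UD F = chi b • F)
    (h : c.UT F = F) : F = 0 := by
  by_contra hF0
  obtain ⟨n, hn⟩ := (chi_avg_lim c b hb F hF hF0).exists
  have hpow : ∀ k : ℕ, (c.UT ^ k) F = F := by
    intro k
    induction k with
    | zero => simp
    | succ k ih =>
      rw [pow_succ, LinearIsometryEquiv.coe_mul, Function.comp_apply, h, ih]
  obtain ⟨hmul, hadd, hC, hX, -, hsm, -, -⟩ := opP_basic (H := Lp ℂ 2 c.μ) c.UT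
  have hsum : ∀ (s : Finset ℕ) (P : ℕ → Polynomial ℂ),
      opP c.UT (∑ i ∈ s, P i) F = ∑ i ∈ s, opP c.UT (P i) F := by
    intro s P
    classical
    induction s using Finset.induction_on with
    | empty =>
      have := hC 0 F
      simpa using this
    | insert a s ha ih =>
      rw [Finset.sum_insert ha, Finset.sum_insert ha, hadd, ih]
  have hB : (Bn n : ℂ) ≠ 0 := by
    have : 0 < Bn n := by
      have := Nn_pos n
      unfold Bn BB
      positivity
    exact_mod_cast this.ne'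
  have hQ : opP c.UT (QQ n) F = F := by
    unfold QQ
    rw [hsum]
    have : ∀ i ∈ Finset.range (Bn n),
        opP c.UT (Polynomial.C (1 / (Bn n : ℂ)) * Polynomial.X ^ (LL (Nn n) (Bn n) i)) F
          = (1 / (Bn n : ℂ)) • F := by
      intro i _
      rw [hmul, hX, hpow, hC]
    rw [Finset.sum_congr rfl this, Finset.sum_const, Finset.card_range, ← Nat.cast_smul_eq_nsmul ℂ,
      smul_smul, mul_one_div_cancel hB, one_smul]
  rw [hQ] at hn
  have h1 : 0 < ‖F‖ := norm_pos_iff.mpr hF0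
  have h2 : 0 < ‖F‖ ^ 2 := by positivity
  linarith

theorem aux_invD (c : Ctx) (F : Lp ℂ 2 c.μ) (h : c.UT F = F) : c.UD F = F := by
  obtain ⟨hadd, h0, -, h1⟩ := chi_basic
  obtain ⟨hTD, -, -, -, hD5⟩ := rel_D c 0
  have hcomm : ∀ E, c.UT E = E → c.UT (c.UD E) = c.UD E := by
    intro E hE
    have := congrArg (fun W => W E) hTD
    simp only [LinearIsometryEquiv.coe_mul, Function.comp_apply] at this
    rw [this, hE]
  obtain ⟨w, hw⟩ : ∃ w, w = chi 1 := ⟨_, rfl⟩
  have hchi : chi 1 = w ∧ chi 2 = w ^ 2 ∧ chi 3 = w ^ 3 ∧ chi 4 = w ^ 4 := by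
    have e2 : chi 2 = w ^ 2 := by
      have := hadd 1 1
      rw [show (1 : ZMod 5) + 1 = 2 by decide] at this
      rw [this, hw]; ring
    have e3 : chi 3 = w ^ 3 := by
      have := hadd 2 1
      rw [show (2 : ZMod 5) + 1 = 3 by decide] at this
      rw [this, e2, hw]; ring
    have e4 : chi 4 = w ^ 4 := by
      have := hadd 3 1
      rw [show (3 : ZMod 5) + 1 = 4 by decide] at this
      rw [this, e3, hw]; ring
    exact ⟨hw.symm, e2, e3, e4⟩
  have hw5 : w ^ 5 = 1 := by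
    have := hadd 4 1
    rw [show (4 : ZMod 5) + 1 = 0 by decide, h0, hchi.2.2.2, hchi.1] at this
    rw [this]; ring
  have hw1 : w ≠ 1 := by rw [hw]; exact h1
  have hs : 1 + w + w ^ 2 + w ^ 3 + w ^ 4 = 0 := by
    have : (w - 1) * (1 + w + w ^ 2 + w ^ 3 + w ^ 4) = 0 := by
      linear_combination hw5
    rcases mul_eq_zero.mp this with h | h
    · exact absurd (sub_eq_zero.mp h) hw1
    · exact h
  obtain ⟨x1, hx1⟩ : ∃ x, x = c.UD F := ⟨_, rfl⟩
  obtain ⟨x2, hx2⟩ : ∃ x, x = c.UD x1 := ⟨_, rfl⟩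
  obtain ⟨x3, hx3⟩ : ∃ x, x = c.UD x2 := ⟨_, rfl⟩
  obtain ⟨x4, hx4⟩ : ∃ x, x = c.UD x3 := ⟨_, rfl⟩
  have hx5 : c.UD x4 = F := by
    have := congrArg (fun W => W F) hD5
    simp only [pow_succ, pow_zero, one_mul, LinearIsometryEquiv.coe_mul, Function.comp_apply,
      LinearIsometryEquiv.coe_one, id] at this
    rw [hx4, hx3, hx2, hx1]
    exact this
  have t1 : c.UT x1 = x1 := by rw [hx1]; exact hcomm _ h
  have t2 : c.UT x2 = x2 := by rw [hx2]; exact hcomm _ t1
  have t3 : c.UT x3 = x3 := by rw [hx3]; exact hcomm _ t2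
  have t4 : c.UT x4 = x4 := by rw [hx4]; exact hcomm _ t3
  have key : ∀ (b : ZMod 5) (hb : b ≠ 0) (v : ℂ), chi b * v = 1 → v ^ 5 = 1 →
      F + v • x1 + v ^ 2 • x2 + v ^ 3 • x3 + v ^ 4 • x4 = 0 := by
    intro b hb v hv hv5
    apply aux_invKc c b hb
    · have e1 : chi b = v ^ 4 := by
        have : chi b * v * v ^ 4 = v ^ 4 := by rw [hv]; ring
        have h2 : chi b * v ^ 5 = v ^ 4 := by rw [← this]; ring
        rw [hv5] at h2
        simpa using h2
      rw [e1]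
      simp only [map_add, map_smul, ← hx1, ← hx2, ← hx3, ← hx4, hx5, smul_add, smul_smul]
      have a1 : v ^ 4 * v = 1 := by rw [← hv5]; ring
      have a2 : v ^ 4 * v ^ 2 = v := by linear_combination v * hv5
      have a3 : v ^ 4 * v ^ 3 = v ^ 2 := by linear_combination v ^ 2 * hv5
      have a4 : v ^ 4 * v ^ 4 = v ^ 3 := by linear_combination v ^ 3 * hv5
      rw [a1, a2, a3, a4, one_smul]
      abel
    · simp only [map_add, map_smul, t1, t2, t3, t4, h]
  have k1 := key 1 (by decide) (w ^ 4) (by rw [hchi.1]; linear_combination hw5)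
    (by linear_combination (w ^ 15 + w ^ 10 + w ^ 5 + 1) * hw5)
  have k2 := key 2 (by decide) (w ^ 3) (by rw [hchi.2.1]; linear_combination hw5)
    (by linear_combination (w ^ 10 + w ^ 5 + 1) * hw5)
  have k3 := key 3 (by decide) (w ^ 2) (by rw [hchi.2.2.1]; linear_combination hw5)
    (by linear_combination (w ^ 5 + 1) * hw5)
  have k4 := key 4 (by decide) w (by rw [hchi.2.2.2]; linear_combination hw5) hw5
  have hsum : (5 : ℂ) • F = F + x1 + x2 + x3 + x4 := by
    have e : (5 : ℂ) • F - (F + x1 + x2 + x3 + x4) =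
        (F + (w ^ 4) • x1 + (w ^ 4) ^ 2 • x2 + (w ^ 4) ^ 3 • x3 + (w ^ 4) ^ 4 • x4) +
        (F + (w ^ 3) • x1 + (w ^ 3) ^ 2 • x2 + (w ^ 3) ^ 3 • x3 + (w ^ 3) ^ 4 • x4) +
        (F + (w ^ 2) • x1 + (w ^ 2) ^ 2 • x2 + (w ^ 2) ^ 3 • x3 + (w ^ 2) ^ 4 • x4) +
        (F + w • x1 + w ^ 2 • x2 + w ^ 3 • x3 + w ^ 4 • x4) -
        ((w ^ 4 + w ^ 3 + w ^ 2 + w + 1) • x1 +
         ((w ^ 4) ^ 2 + (w ^ 3) ^ 2 + (w ^ 2) ^ 2 + w ^ 2 + 1) • x2 +
         ((w ^ 4) ^ 3 + (w ^ 3) ^ 3 + (w ^ 2) ^ 3 + w ^ 3 + 1) • x3 +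
         ((w ^ 4) ^ 4 + (w ^ 3) ^ 4 + (w ^ 2) ^ 4 + w ^ 4 + 1) • x4) := by
      module
    have z1 : w ^ 4 + w ^ 3 + w ^ 2 + w + 1 = 0 := by linear_combination hs
    have z2 : (w ^ 4) ^ 2 + (w ^ 3) ^ 2 + (w ^ 2) ^ 2 + w ^ 2 + 1 = 0 := by
      linear_combination hs + (w ^ 3 + w) * hw5
    have z3 : (w ^ 4) ^ 3 + (w ^ 3) ^ 3 + (w ^ 2) ^ 3 + w ^ 3 + 1 = 0 := by
      linear_combination hs + (w ^ 7 + w ^ 2 + w ^ 4 + w) * hw5
    have z4 : (w ^ 4) ^ 4 + (w ^ 3) ^ 4 + (w ^ 2) ^ 4 + w ^ 4 + 1 = 0 := by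
      linear_combination hs + (w ^ 11 + w ^ 6 + w + w ^ 7 + w ^ 2 + w ^ 3) * hw5
    rw [z1, z2, z3, z4, k1, k2, k3, k4] at e
    simp only [zero_smul, add_zero, sub_zero] at e
    exact sub_eq_zero.mp e
  have hsum2 : (5 : ℂ) • c.UD F = F + x1 + x2 + x3 + x4 := by
    have := congrArg (fun E => c.UD E) hsum
    simp only [map_add, map_smul, ← hx1, ← hx2, ← hx3, ← hx4, hx5] at this
    rw [← hx1, this]
    abel
  have h5 : (5 : ℂ) ≠ 0 := by norm_num
  have : (5 : ℂ) • c.UD F = (5 : ℂ) • F := by rw [hsum, hsum2]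
  exact smul_right_injective _ h5 this

theorem aux_inv_const (c : Ctx) (F : Lp ℂ 2 c.μ) (h : c.UT F = F) : ∃ a : ℂ, F = a • c.one := by
  obtain ⟨-, h0, -, -⟩ := chi_basic
  obtain ⟨-, -, hT1, hD1, hn1, -, -⟩ := one_fix c
  have hD := aux_invD c F h
  refine ⟨inner ℂ c.one F, ?_⟩
  have hz : F - (inner ℂ c.one F : ℂ) • c.one = 0 := by
    apply T_erg_base c
    · refine ⟨?_, ?_⟩
      · show c.UD (F - (inner ℂ c.one F : ℂ) • c.one) = chi 0 • _
        rw [h0, one_smul, map_sub, map_smul, hD, hD1]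
      · show F - (inner ℂ c.one F : ℂ) • c.one ∈ (Submodule.span ℂ {c.one})ᗮ
        rw [Submodule.mem_orthogonal_singleton_iff_inner_right, inner_sub_right, inner_smul_right,
          inner_self_eq_norm_sq_to_K, hn1]
        simp
    · rw [map_sub, map_smul, h, hT1]
  exact sub_eq_zero.mp hz

theorem T_erg (c : Ctx) : Ergodic c.G c.μ := by
  have hp : IsProbabilityMeasure c.μ := c.hμ.prob
  refine { c.hG with aeconst_set := ?_ }
  intro A hA hinv
  set F : Lp ℂ 2 c.μ := indicatorConstLp 2 hA (measure_ne_top c.μ A) (1 : ℂ) with hFdef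
  have hF : F =ᵐ[c.μ] A.indicator (fun _ => (1 : ℂ)) := indicatorConstLp_coeFn
  have hUF : c.UT F = F := by
    apply Lp.ext
    have h1 := koop_coe c.G c.hG F
    have h2 : ∀ᵐ x ∂c.μ, F (c.G x) = A.indicator (fun _ => (1 : ℂ)) (c.G x) :=
      c.hG.quasiMeasurePreserving.ae hF
    filter_upwards [h1, h2, hF] with x e1 e2 e3
    rw [e1, e2, e3]
    have : c.G x ∈ A ↔ x ∈ A := by
      conv_rhs => rw [← hinv]
      rfl
    by_cases hx : x ∈ A
    · rw [Set.indicator_of_mem hx, Set.indicator_of_mem (this.mpr hx)]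
    · rw [Set.indicator_of_notMem hx, Set.indicator_of_notMem (fun h => hx (this.mp h))]
  obtain ⟨a, ha⟩ := aux_inv_const c F hUF
  have hone : c.one =ᵐ[c.μ] fun _ => (1 : ℂ) := by
    unfold Ctx.one J
    exact MemLp.coeFn_toLp _
  have hconst : ∀ᵐ x ∂c.μ, A.indicator (fun _ => (1 : ℂ)) x = a := by
    have h1 : F =ᵐ[c.μ] fun x => a * c.one x := by
      rw [ha]
      filter_upwards [Lp.coeFn_smul a c.one] with x hx
      rw [hx]; rfl
    filter_upwards [h1, hF, hone] with x e1 e2 e3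
    rw [← e2, e1, e3, mul_one]
  rw [Filter.eventuallyConst_set]
  by_cases h1 : a = 1
  · left
    filter_upwards [hconst] with x hx
    by_contra hxA
    rw [Set.indicator_of_notMem hxA, h1] at hx
    exact zero_ne_one hx
  · right
    filter_upwards [hconst] with x hx
    intro hxA
    rw [Set.indicator_of_mem hxA] at hx
    exact h1 hx.symm

end SM345
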