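import Pool.Agent.Helper345.SM.Defs
import Pool.Agent.Helper345.SM.isLim_mul
import Pool.Agent.Helper345.SM.isLim_unique
import Pool.Agent.Helper345.SM.ee_facts

set_option autoImplicit false
set_option linter.unusedVariables false
set_option linter.style.longLine false

open MeasureTheory Filter Topology
open scoped ENNReal NNReal

noncomputable section

namespace SM345

theorem rel_tS_aux (j n : ℕ) : sP n * tP j n = tP (j + 1) n * sP n := by
  obtain ⟨h12, -, hN, -⟩ := lev_dvd n
  have h3 : 3 ∣ Nn n := Dvd.dvd.trans (by norm_num) h12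
  ext1 z
  show sF n (tF j n z) = tF (j + 1) n (sF n z)
  have hv : (z.1 + 1).val % 3 = (z.1.val + 1) % 3 := by
    rw [ZMod.val_add, Nat.mod_mod_of_dvd _ h3]
    have h1 : (1 : ZMod (Nn n)).val = 1 := by
      haveI : Fact (1 < Nn n) := ⟨by omega⟩
      exact ZMod.val_one (Nn n)
    rw [h1]
  have hm : (z.1.val + 2 * j) % 3 = ((z.1 + 1).val + 2 * (j + 1)) % 3 := by omega
  unfold sF tF
  simp only []
  rw [← hm]
  ext1
  · simp only []
    ring
  · rfl

theorem rel_tS (c : Ctx) (j : ℕ) : c.Ut j * c.US = c.US * c.Ut (j + 1) := by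
  have h₁ := isLim_mul c.hμ (tP j) sP δδ δδ (c.Ut j) c.US (c.lt j) c.lS
  have h₂ := isLim_mul c.hμ sP (tP (j + 1)) δδ δδ c.US (c.Ut (j + 1)) c.lS (c.lt (j + 1))
  have he : (fun n => sP n * tP j n) = (fun n => tP (j + 1) n * sP n) := by
    funext n; exact rel_tS_aux j n
  rw [he] at h₁
  have ht : Tendsto (fun n => δδ n + δδ n) atTop (𝓝 0) := by
    have := ee_facts.2.2.1.add ee_facts.2.2.1
    simpa using this
  exact isLim_unique c.hμ _ _ _ _ _ h₁ h₂ ht ht

end SM345
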