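import Pool.Agent.Helper345.SM.Defs
import Pool.Agent.Helper345.SM.isLim_mul
import Pool.Agent.Helper345.SM.isLim_unique
import Pool.Agent.Helper345.SM.ee_facts

set_option autoImplicit false
set_option linter.unusedVariables false
set_option linter.style.longLine false

open MeasureTheory Filter Topology
open scoped ENNReal NNReal

noncomputable section

namespace SM345

theorem rel_tt_val (n : ℕ) (a : ZMod (Nn n)) (m : ℕ) (hm : 3 ∣ m) :
    (a + ((m : ℕ) : ZMod (Nn n))).val % 3 = a.val % 3 := by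
  have h3 : 3 ∣ Nn n := Dvd.dvd.trans (by norm_num) (lev_dvd n).1
  rw [ZMod.val_add, ZMod.val_natCast, Nat.mod_mod_of_dvd _ h3, Nat.add_mod,
    Nat.mod_mod_of_dvd _ h3, Nat.mod_eq_zero_of_dvd hm, add_zero, Nat.mod_mod]

theorem rel_tt_comm (i j n : ℕ) : tP i n * tP j n = tP j n * tP i n := by
  have h3w : 3 ∣ wn n := (lev_dvd n).2.1
  ext1 z
  show tF i n (tF j n z) = tF j n (tF i n z)
  have h1 : ∀ (i j : ℕ), (tF i n (tF j n z)).1 =
      z.1 + ((wn n ^ ((z.1.val + 2 * j) % 3 + 1) : ℕ) : ZMod (Nn n)) +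
        ((wn n ^ ((z.1.val + 2 * i) % 3 + 1) : ℕ) : ZMod (Nn n)) := by
    intro i j
    have h2 : (tF j n z).1.val % 3 = z.1.val % 3 :=
      rel_tt_val n z.1 _ (Dvd.dvd.trans h3w (dvd_pow_self _ (Nat.succ_ne_zero _)))
    have h4 : ((tF j n z).1.val + 2 * i) % 3 = (z.1.val + 2 * i) % 3 := by
      omega
    show (tF j n z).1 + ((wn n ^ (((tF j n z).1.val + 2 * i) % 3 + 1) : ℕ) : ZMod (Nn n)) = _
    rw [h4]
    rfl
  refine Prod.ext ?_ rfl
  rw [h1, h1]
  ring

theorem rel_tt (c : Ctx) (i j : ℕ) : c.Ut i * c.Ut j = c.Ut j * c.Ut i ∧ c.Ut (j + 3) = c.Ut j := by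
  have hδ := ee_facts.2.2.1
  have hδ2 : Tendsto (fun n => δδ n + δδ n) atTop (𝓝 0) := by
    have h := hδ.add hδ
    rw [add_zero] at h
    exact h
  constructor
  · have h1 := isLim_mul c.hμ (tP i) (tP j) δδ δδ (c.Ut i) (c.Ut j) (c.lt i) (c.lt j)
    have h2 := isLim_mul c.hμ (tP j) (tP i) δδ δδ (c.Ut j) (c.Ut i) (c.lt j) (c.lt i)
    have h3 : (fun n => tP i n * tP j n) = (fun n => tP j n * tP i n) := by
      funext n
      exact rel_tt_comm i j n
    rw [h3] at h2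
    exact isLim_unique c.hμ _ _ _ _ _ h1 h2 hδ2 hδ2
  · have h4 : tP (j + 3) = tP j := by
      funext n
      ext1 z
      show tF (j + 3) n z = tF j n z
      unfold tF
      have h5 : (z.1.val + 2 * (j + 3)) % 3 = (z.1.val + 2 * j) % 3 := by omega
      rw [h5]
    have h6 := c.lt (j + 3)
    rw [h4] at h6
    exact isLim_unique c.hμ _ _ _ _ _ h6 (c.lt j) hδ hδ

end SM345
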