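import Pool.Agent.Helper345.SM.Defs
import Pool.Agent.Helper345.SM.rel_tS
import Pool.Agent.Helper345.SM.rel_tt
import Pool.Agent.Helper345.SM.rel_D
import Pool.Agent.Helper345.SM.one_fix

set_option autoImplicit false
set_option linter.unusedVariables false
set_option linter.style.longLine false

open MeasureTheory Filter Topology
open scoped ENNReal NNReal

noncomputable section

namespace SM345

theorem VV_basic_zeta : zeta ^ 3 = 1 ∧ ‖zeta‖ = 1 := by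
  have h3 : zeta ^ 3 = 1 := by
    unfold zeta
    rw [← Complex.exp_nat_mul, ← Complex.exp_two_pi_mul_I]
    congr 1
    push_cast
    ring
  refine ⟨h3, ?_⟩
  have h : ‖zeta‖ ^ 3 = 1 := by rw [← norm_pow, h3, norm_one]
  exact (pow_eq_one_iff_of_nonneg (norm_nonneg _) (by norm_num)).1 h

theorem VV_basic_K0 (c : Ctx) (j : ℕ) (F : Lp ℂ 2 c.μ) (hF : F ∈ c.K0) : c.Ut j F ∈ c.K0 := by
  obtain ⟨h1, h2⟩ := hF
  refine ⟨?_, ?_⟩
  · show c.UD (c.Ut j F) = chi 0 • c.Ut j F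
    have h3 : c.UD F = chi 0 • F := h1
    have h4 : c.Ut j (c.UD F) = c.UD (c.Ut j F) :=
      congrArg (fun U : Lp ℂ 2 c.μ ≃ₗᵢ[ℂ] Lp ℂ 2 c.μ => U F) (rel_D c j).2.2.1
    rw [← h4, h3, map_smul]
  · have h2' : F ∈ (Submodule.span ℂ {c.one})ᗮ := h2
    show c.Ut j F ∈ (Submodule.span ℂ {c.one})ᗮ
    rw [Submodule.mem_orthogonal_singleton_iff_inner_right] at h2' ⊢
    have h5 := (one_fix c).2.1 j
    calc inner ℂ c.one (c.Ut j F) = inner ℂ (c.Ut j c.one) (c.Ut j F) := by rw [h5]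
      _ = inner ℂ c.one F := LinearIsometryEquiv.inner_map_map _ _ _
      _ = 0 := h2'

theorem VV_basic (c : Ctx) : (∀ F ∈ c.K0, c.VV F ∈ c.K0) ∧
    (∀ F, c.VV (c.US F) = zeta ^ 2 • c.US (c.VV F)) ∧ (∀ F, ‖c.VV F‖ ≤ 3 * ‖F‖) := by
  obtain ⟨hz3, hz1⟩ := VV_basic_zeta
  refine ⟨?_, ?_, ?_⟩
  · intro F hF
    unfold Ctx.VV
    exact Submodule.add_mem _ (Submodule.add_mem _ (VV_basic_K0 c 0 F hF)
      (Submodule.smul_mem _ _ (VV_basic_K0 c 1 F hF)))
      (Submodule.smul_mem _ _ (VV_basic_K0 c 2 F hF))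
  · intro F
    have h : ∀ j, c.Ut j (c.US F) = c.US (c.Ut (j + 1) F) := fun j =>
      congrArg (fun U : Lp ℂ 2 c.μ ≃ₗᵢ[ℂ] Lp ℂ 2 c.μ => U F) (rel_tS c j)
    have h30 : c.Ut 3 = c.Ut 0 := (rel_tt c 0 0).2
    unfold Ctx.VV
    rw [h 0, h 1, h 2]
    show c.US (c.Ut 1 F) + zeta • c.US (c.Ut 2 F) + zeta ^ 2 • c.US (c.Ut 3 F) = _
    rw [h30, map_add, map_add, map_smul, map_smul, smul_add, smul_add, smul_smul, smul_smul]
    have e1 : zeta ^ 2 * zeta = 1 := by rw [← pow_succ]; exact hz3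
    have e2 : zeta ^ 2 * zeta ^ 2 = zeta := by
      calc zeta ^ 2 * zeta ^ 2 = zeta ^ 3 * zeta := by ring
        _ = zeta := by rw [hz3, one_mul]
    rw [e1, e2, one_smul]
    abel
  · intro F
    unfold Ctx.VV
    refine (norm_add_le _ _).trans ?_
    have h1 := norm_add_le (c.Ut 0 F) (zeta • c.Ut 1 F)
    rw [norm_smul, hz1, one_mul, LinearIsometryEquiv.norm_map, LinearIsometryEquiv.norm_map] at h1
    rw [norm_smul, norm_pow, hz1, one_pow, one_mul, LinearIsometryEquiv.norm_map]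
    linarith

end SM345
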