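import Pool.Agent.Helper345.SM.Defs

set_option autoImplicit false
set_option linter.unusedVariables false
set_option linter.style.longLine false

open MeasureTheory Filter Topology
open scoped ENNReal NNReal

noncomputable section

namespace SM345

theorem three_unitaries {H : Type} [NormedAddCommGroup H] [InnerProductSpace ℂ H]
    (A B C : H ≃ₗᵢ[ℂ] H) (hAB : A * B = B * A) (hAC : A * C = C * A) (hBC : B * C = C * B)
    (b c : ℂ) (hb : ‖b‖ = 1) (hc : ‖c‖ = 1) (f : H) (h : A f + b • B f + c • C f = 0) :
    (A ^ 3) f = b ^ 3 • (B ^ 3) f := by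
  have cAB : ∀ x, A (B x) = B (A x) := fun x => DFunLike.congr_fun hAB x
  have cAC : ∀ x, A (C x) = C (A x) := fun x => DFunLike.congr_fun hAC x
  have cBC : ∀ x, B (C x) = C (B x) := fun x => DFunLike.congr_fun hBC x
  have hb' : (starRingEnd ℂ) b * b = 1 := by
    rw [Complex.conj_mul', hb]; norm_num
  have hc' : (starRingEnd ℂ) c * c = 1 := by
    rw [Complex.conj_mul', hc]; norm_num
  have s1 : inner ℂ (A f + b • B f + c • C f) (A f + b • B f + c • C f) = (0 : ℂ) := by
    rw [h, inner_zero_left]
  simp only [inner_add_left, inner_add_right, inner_smul_left, inner_smul_right,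
    LinearIsometryEquiv.inner_map_map] at s1
  have i1 : inner ℂ (B (C f)) (A (C f)) = (inner ℂ (B f) (A f) : ℂ) := by
    rw [cBC, cAC, LinearIsometryEquiv.inner_map_map]
  have i1' : inner ℂ (A (C f)) (B (C f)) = (inner ℂ (A f) (B f) : ℂ) := by
    rw [cBC, cAC, LinearIsometryEquiv.inner_map_map]
  have i2 : inner ℂ (B (C f)) (A (B f)) = (inner ℂ (C f) (A f) : ℂ) := by
    rw [cAB, LinearIsometryEquiv.inner_map_map]
  have i2' : inner ℂ (A (B f)) (B (C f)) = (inner ℂ (A f) (C f) : ℂ) := by
    rw [cAB, LinearIsometryEquiv.inner_map_map]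
  have i3 : inner ℂ (A (C f)) (A (B f)) = (inner ℂ (C f) (B f) : ℂ) := by
    rw [LinearIsometryEquiv.inner_map_map]
  have i3' : inner ℂ (A (B f)) (A (C f)) = (inner ℂ (B f) (C f) : ℂ) := by
    rw [LinearIsometryEquiv.inner_map_map]
  have j1 : inner ℂ (B (C f)) (B (C f)) = (inner ℂ f f : ℂ) := by
    rw [LinearIsometryEquiv.inner_map_map, LinearIsometryEquiv.inner_map_map]
  have j2 : inner ℂ (A (C f)) (A (C f)) = (inner ℂ f f : ℂ) := by
    rw [LinearIsometryEquiv.inner_map_map, LinearIsometryEquiv.inner_map_map]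
  have j3 : inner ℂ (A (B f)) (A (B f)) = (inner ℂ f f : ℂ) := by
    rw [LinearIsometryEquiv.inner_map_map, LinearIsometryEquiv.inner_map_map]
  have s2 : inner ℂ ((b * c) • B (C f) + c • A (C f) + b • A (B f))
      ((b * c) • B (C f) + c • A (C f) + b • A (B f)) = (0 : ℂ) := by
    simp only [inner_add_left, inner_add_right, inner_smul_left, inner_smul_right, i1, i1', i2, i2',
      i3, i3', j1, j2, j3, map_mul]
    linear_combination s1 + (inner ℂ f f * ((starRingEnd ℂ) c * c) +
      (starRingEnd ℂ) c * inner ℂ (C f) (A f) + c * inner ℂ (A f) (C f)) * hb' +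
      (inner ℂ f f + (starRingEnd ℂ) b * inner ℂ (B f) (A f) + b * inner ℂ (A f) (B f)) * hc'
  have e2 : (b * c) • B (C f) + c • A (C f) + b • A (B f) = 0 := inner_self_eq_zero.mp s2
  have hA : A (A f) + b • A (B f) + c • A (C f) = 0 := by
    have := congrArg A h
    simpa only [map_add, map_smul, map_zero] using this
  have hB : B (A f) + b • B (B f) + c • B (C f) = 0 := by
    have := congrArg B h
    simpa only [map_add, map_smul, map_zero] using this
  have q : A (A f) + b • A (B f) + b ^ 2 • B (B f) = 0 := by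
    have h1 : A (A f) + b • A (B f) + b ^ 2 • B (B f) =
        (A (A f) + b • A (B f) + c • A (C f)) + b • (B (A f) + b • B (B f) + c • B (C f)) -
          ((b * c) • B (C f) + c • A (C f) + b • A (B f)) := by
      rw [cAB f]
      module
    rw [h1, hA, hB, e2]
    simp
  have qA : A (A (A f)) + b • A (A (B f)) + b ^ 2 • A (B (B f)) = 0 := by
    have := congrArg A q
    simpa only [map_add, map_smul, map_zero] using this
  have qB : B (A (A f)) + b • B (A (B f)) + b ^ 2 • B (B (B f)) = 0 := by
    have := congrArg B q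
    simpa only [map_add, map_smul, map_zero] using this
  have eA : (A ^ 3) f = A (A (A f)) := rfl
  have eB : (B ^ 3) f = B (B (B f)) := rfl
  rw [eA, eB]
  have k1 : A (A (B f)) = B (A (A f)) := by rw [cAB, cAB]
  have k2 : A (B (B f)) = B (A (B f)) := cAB _
  rw [k1, k2] at qA
  have fin : A (A (A f)) - b ^ 3 • B (B (B f)) = 0 := by
    have h1 : A (A (A f)) - b ^ 3 • B (B (B f)) =
        (A (A (A f)) + b • B (A (A f)) + b ^ 2 • B (A (B f))) -
          b • (B (A (A f)) + b • B (A (B f)) + b ^ 2 • B (B (B f))) := by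
      module
    rw [h1, qA, qB]
    simp
  exact sub_eq_zero.mp fin

end SM345
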