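import Pool.Agent.Helper345.SM.Defs
import Pool.Agent.Helper345.SM.J_basic

set_option autoImplicit false
set_option linter.unusedVariables false
set_option linter.style.longLine false

open MeasureTheory Filter Topology
open scoped ENNReal NNReal

noncomputable section

namespace SM345

theorem isLim_symm {Ω : ℕ → Type} [∀ n, Fintype (Ω n)] [∀ n, Nonempty (Ω n)]
    [∀ n, DecidableEq (Ω n)] [∀ n, MeasurableSpace (Ω n)] [∀ n, MeasurableSingletonClass (Ω n)]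
    {π : ∀ n, Ω (n+1) → Ω n} {μ : Measure (XX Ω π)} (hμ : UnifMeas μ)
    (g : ∀ n, Equiv.Perm (Ω n)) (δ : ℕ → ℝ) (U : Lp ℂ 2 μ ≃ₗᵢ[ℂ] Lp ℂ 2 μ)
    (h : IsLim hμ g δ U) : IsLim hμ (fun n => (g n)⁻¹) δ U⁻¹ := by
  intro n f C hC
  have h1 := h n (f ∘ ((g n)⁻¹ : Equiv.Perm (Ω n))) C (fun y => hC _)
  have e1 : (f ∘ ((g n)⁻¹ : Equiv.Perm (Ω n))) ∘ (g n) = f := by
    funext y
    simp
  rw [e1] at h1
  have e2 : ‖U⁻¹ (J hμ n f) - J hμ n (f ∘ ((g n)⁻¹ : Equiv.Perm (Ω n)))‖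
      = ‖U (U⁻¹ (J hμ n f) - J hμ n (f ∘ ((g n)⁻¹ : Equiv.Perm (Ω n))))‖ :=
    (U.norm_map _).symm
  have e3 : U (U⁻¹ (J hμ n f)) = J hμ n f := U.apply_symm_apply _
  show ‖U⁻¹ (J hμ n f) - J hμ n (f ∘ ((g n)⁻¹ : Equiv.Perm (Ω n)))‖ ≤ C * δ n
  rw [e2, map_sub, e3, norm_sub_rev]
  exact h1

end SM345
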