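import Pool.Agent.Helper345.SM.Defs
import Pool.Agent.Helper345.SM.digit_bij
import Pool.Agent.Helper345.SM.pr_per

set_option autoImplicit false
set_option linter.unusedVariables false
set_option linter.style.longLine false

open MeasureTheory Filter Topology
open scoped ENNReal NNReal

noncomputable section

namespace SM345

theorem wo_sum_range (M : ℕ) [NeZero M] (F : ZMod M → ℂ) :
    ∑ h ∈ Finset.range M, F (h : ZMod M) = ∑ h : ZMod M, F h := by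
  refine Finset.sum_nbij' (fun h => (h : ZMod M)) (fun h => h.val) ?_ ?_ ?_ ?_ ?_
  · intro h _; exact Finset.mem_univ _
  · intro h _; exact Finset.mem_range.mpr (ZMod.val_lt h)
  · intro h hh; exact ZMod.val_cast_of_lt (Finset.mem_range.mp hh)
  · intro h _; exact ZMod.natCast_zmod_val h
  · intro h _; rfl

theorem wo_per (p : ℕ) (g : ℕ → ℂ) (hg : ∀ i, g (i + p) = g i) (m : ℕ) :
    ∑ k ∈ Finset.range (p * m), g k = m * ∑ i ∈ Finset.range p, g i := by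
  induction m with
  | zero => simp
  | succ m ih =>
    rw [Nat.mul_succ, Finset.sum_range_add, ih]
    have h1 : ∀ m x, g (p * m + x) = g x := by
      intro m
      induction m with
      | zero => intro x; simp
      | succ m ih => intro x; rw [Nat.mul_succ, show p * m + p + x = p * m + (x + p) by ring, ih, hg]
    simp only [h1]
    push_cast
    ring

theorem wo_dx (N B M W : ℕ) (hM : M = NN N B) (hW : W = WW N B) (k : ℕ) (hk : k < 4) (u u' : ℕ)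
    (hu : u < M) (hu' : u' < M) (h : u % W ^ 4 = u' % W ^ 4) : dx N B k u = dx N B k u' := by
  unfold dx
  rw [← hM, ← hW, Nat.mod_eq_of_lt hu, Nat.mod_eq_of_lt hu', ← Nat.mod_mul_right_div_self,
    ← Nat.mod_mul_right_div_self, ← pow_succ]
  have h1 : u % W ^ (k + 1) = u' % W ^ (k + 1) :=
    Nat.ModEq.of_dvd (pow_dvd_pow W (show k + 1 ≤ 4 by omega)) h
  rw [h1]

theorem wo_class (N w B M W : ℕ) [NeZero N] [NeZero M] (hM : M = NN N B) (hW : W = WW N B)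
    (hN : 12 ∣ N) (hw : 3 ∣ w) (hB : 0 < B) (f : ZMod N → ℂ) (x : ZMod M) :
    ∑ k : ZMod M, f ((pr N w B (x + k * ((W : ℕ) : ZMod M) ^ 4).val : ℕ) : ZMod N)
      = (4 * (W : ℂ) ^ 4) * ∑ v, f v := by
  have hN0 : 0 < N := NeZero.pos N
  have hM0 : 0 < M := NeZero.pos M
  have hM' : M = 4 * N * W ^ 4 := by rw [hM, hW]; rfl
  have hW0 : 0 < W := by
    rcases Nat.eq_zero_or_pos W with h | h
    · rw [h] at hM'; simp at hM'; omega
    · exact h
  rw [← wo_sum_range M (fun k => f ((pr N w B (x + k * ((W : ℕ) : ZMod M) ^ 4).val : ℕ) : ZMod N))]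
  have hval : ∀ i : ℕ, (x + (i : ZMod M) * ((W : ℕ) : ZMod M) ^ 4).val = (x.val + i * W ^ 4) % M := by
    intro i
    have : x + (i : ZMod M) * ((W : ℕ) : ZMod M) ^ 4 = ((x.val + i * W ^ 4 : ℕ) : ZMod M) := by
      push_cast
      rw [ZMod.natCast_zmod_val]
    rw [this, ZMod.val_natCast]
  have hsum := wo_per (4 * N) (fun k => f ((pr N w B (x + (k : ZMod M) * ((W : ℕ) : ZMod M) ^ 4).val : ℕ) : ZMod N))
    (by
      intro i
      have : x + ((i + 4 * N : ℕ) : ZMod M) * ((W : ℕ) : ZMod M) ^ 4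
          = x + (i : ZMod M) * ((W : ℕ) : ZMod M) ^ 4 := by
        have h0 : ((M : ℕ) : ZMod M) = 0 := ZMod.natCast_self M
        have h01 : ((4 * N * W ^ 4 : ℕ) : ZMod M) = ((M : ℕ) : ZMod M) :=
          congrArg (Nat.cast (R := ZMod M)) hM'.symm
        have h1 : ((4 * N : ℕ) : ZMod M) * ((W : ℕ) : ZMod M) ^ 4 = 0 := by
          rw [← h0, ← h01]
          push_cast
          ring
        rw [Nat.cast_add, add_mul, h1, add_zero]
      simp only [this]) (W ^ 4)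
  rw [← hM'] at hsum
  rw [hsum]
  set v : ℕ → ℕ := fun i => (x + (i : ZMod M) * ((W : ℕ) : ZMod M) ^ 4).val with hv
  have hvlt : ∀ i, v i < M := fun i => ZMod.val_lt _
  have hvmod : ∀ i, v i % W ^ 4 = x.val % W ^ 4 := by
    intro i
    simp only [hv]
    rw [hval i, Nat.mod_mod_of_dvd _ (by rw [hM']; exact Dvd.intro_left _ rfl),
      Nat.add_mul_mod_self_right]
  have hdc : ∀ i, dc N B (v i) < 4 := by
    intro i
    unfold dc
    rw [← hM, ← hW, Nat.mod_eq_of_lt (hvlt i), Nat.div_lt_iff_lt_mul (by positivity)]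
    calc v i < M := hvlt i
      _ = 4 * (W ^ 4 * N) := by rw [hM']; ring
  have hpr : ∀ i, pr N w B (v i) < N := fun i => Nat.mod_lt _ hN0
  let Φ : Fin (4 * N) → ZMod N × Fin 4 := fun i =>
    (((pr N w B (v i) : ℕ) : ZMod N), ⟨dc N B (v i), hdc i⟩)
  have hinj : Function.Injective Φ := by
    intro i j hij
    have h1 : pr N w B (v i) = pr N w B (v j) := by
      have := congrArg Prod.fst hij
      simp only [Φ] at this
      rw [ZMod.natCast_eq_natCast_iff', Nat.mod_eq_of_lt (hpr _), Nat.mod_eq_of_lt (hpr _)] at this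
      exact this
    have h2 : dc N B (v i) = dc N B (v j) := by
      have := congrArg Prod.snd hij
      simp only [Φ, Fin.mk.injEq] at this
      exact this
    obtain ⟨u0, -, huniq⟩ := digit_bij N w B hN hN0 hw hB (pr N w B (v i)) (hpr i)
      (fun k => dx N B k (v i)) (fun k => by
        unfold dx
        exact Nat.mod_lt _ (by rw [← hW]; exact hW0)) (dc N B (v i)) (hdc i)
    have e1 := huniq (v i) ⟨by rw [← hM]; exact hvlt i, rfl, fun _ _ => rfl, rfl⟩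
    have e2 := huniq (v j) ⟨by rw [← hM]; exact hvlt j, h1.symm,
      fun k hk => wo_dx N B M W hM hW k hk _ _ (hvlt _) (hvlt _) (by rw [hvmod, hvmod]), h2.symm⟩
    have e3 : v i = v j := e1.trans e2.symm
    simp only [hv] at e3
    have e4 := ZMod.val_injective M e3
    have e5 : (((i : ℕ) * W ^ 4 : ℕ) : ZMod M) = (((j : ℕ) * W ^ 4 : ℕ) : ZMod M) := by
      push_cast
      exact add_left_cancel e4
    have hlt : ∀ i : Fin (4 * N), (i : ℕ) * W ^ 4 < M := fun i => by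
      rw [hM']; exact Nat.mul_lt_mul_of_pos_right i.2 (by positivity)
    rw [ZMod.natCast_eq_natCast_iff', Nat.mod_eq_of_lt (hlt i), Nat.mod_eq_of_lt (hlt j)] at e5
    exact Fin.ext (Nat.eq_of_mul_eq_mul_right (by positivity) e5)
  have hbij : Function.Bijective Φ := by
    rw [Fintype.bijective_iff_injective_and_card]
    refine ⟨hinj, ?_⟩
    rw [Fintype.card_prod, Fintype.card_fin, Fintype.card_fin, ZMod.card]
    ring
  have hfin : ∑ i ∈ Finset.range (4 * N), f ((pr N w B (v i) : ℕ) : ZMod N) = 4 * ∑ v, f v := by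
    rw [Finset.sum_range]
    have h1 : ∑ i : Fin (4 * N), f ((pr N w B (v i) : ℕ) : ZMod N) = ∑ p : ZMod N × Fin 4, f p.1 :=
      hbij.sum_comp (fun p : ZMod N × Fin 4 => f p.1)
    rw [h1, Fintype.sum_prod_type]
    simp only [Finset.sum_const, Finset.card_univ, Fintype.card_fin, nsmul_eq_mul]
    rw [Finset.mul_sum]
    simp
  rw [hfin]
  push_cast
  ring

/-- sums along an arithmetic progression whose step divides `W^4` -/
theorem wo_prog (N w B M W : ℕ) [NeZero N] [NeZero M] (hM : M = NN N B) (hW : W = WW N B)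
    (hN : 12 ∣ N) (hw : 3 ∣ w) (hB : 0 < B) (f : ZMod N → ℂ) (x d m : ZMod M)
    (hd : d * m = ((W : ℕ) : ZMod M) ^ 4) :
    ∑ h : ZMod M, f ((pr N w B (x + h * d).val : ℕ) : ZMod N)
      = (4 * (W : ℂ) ^ 4) * ∑ v, f v := by
  have hM0 : (M : ℂ) ≠ 0 := by
    have := NeZero.ne M
    exact_mod_cast this
  have h1 : ∀ k : ZMod M, ∑ h : ZMod M, f ((pr N w B (x + h * d).val : ℕ) : ZMod N)
      = ∑ h : ZMod M, f ((pr N w B ((x + h * d) + k * ((W : ℕ) : ZMod M) ^ 4).val : ℕ) : ZMod N) := by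
    intro k
    refine ((Equiv.sum_comp (Equiv.addRight (k * m))
      (fun h : ZMod M => f ((pr N w B (x + h * d).val : ℕ) : ZMod N))).symm).trans ?_
    refine Finset.sum_congr rfl fun h _ => ?_
    have : x + (h + k * m) * d = (x + h * d) + k * ((W : ℕ) : ZMod M) ^ 4 := by
      rw [← hd]
      ring
    simp only [Equiv.coe_addRight, this]
  have h2 : (M : ℂ) * ∑ h : ZMod M, f ((pr N w B (x + h * d).val : ℕ) : ZMod N)
      = M * ((4 * (W : ℂ) ^ 4) * ∑ v, f v) := by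
    calc (M : ℂ) * ∑ h : ZMod M, f ((pr N w B (x + h * d).val : ℕ) : ZMod N)
        = ∑ k : ZMod M, ∑ h : ZMod M, f ((pr N w B (x + h * d).val : ℕ) : ZMod N) := by
          rw [Finset.sum_const, Finset.card_univ, ZMod.card, nsmul_eq_mul]
      _ = ∑ k : ZMod M, ∑ h : ZMod M,
          f ((pr N w B ((x + h * d) + k * ((W : ℕ) : ZMod M) ^ 4).val : ℕ) : ZMod N) :=
          Finset.sum_congr rfl fun k _ => h1 k
      _ = ∑ h : ZMod M, ∑ k : ZMod M,
          f ((pr N w B ((x + h * d) + k * ((W : ℕ) : ZMod M) ^ 4).val : ℕ) : ZMod N) :=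
          Finset.sum_comm
      _ = ∑ h : ZMod M, ((4 * (W : ℂ) ^ 4) * ∑ v, f v) :=
          Finset.sum_congr rfl fun h _ => wo_class N w B M W hM hW hN hw hB f _
      _ = M * ((4 * (W : ℂ) ^ 4) * ∑ v, f v) := by
          rw [Finset.sum_const, Finset.card_univ, ZMod.card, nsmul_eq_mul]
  exact mul_left_cancel₀ hM0 h2

/-- class mod 3 -/
theorem wo_cls (M W : ℕ) [NeZero M] (h3 : 3 ∣ M) (hW : 3 ∣ W) (x t : ZMod M) :
    (x + ((W : ℕ) : ZMod M) * t).val % 3 = x.val % 3 := by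
  have h1 : x + ((W : ℕ) : ZMod M) * t = ((x.val + W * t.val : ℕ) : ZMod M) := by
    push_cast
    rw [ZMod.natCast_zmod_val, ZMod.natCast_zmod_val]
  rw [h1, ZMod.val_natCast, Nat.mod_mod_of_dvd _ h3]
  obtain ⟨W1, rfl⟩ := hW
  rw [mul_assoc]
  generalize W1 * t.val = s
  omega

/-- increments -/
def wo_D (M W r : ℕ) : ZMod M := ((W : ℕ) : ZMod M) ^ ((r + 2) % 3 + 1) - ((W : ℕ) : ZMod M) ^ (r % 3 + 1)

theorem wo_D_eq (M W r : ℕ) : wo_D M W r =
    ((W : ℕ) : ZMod M) * (((W : ℕ) : ZMod M) ^ ((r + 2) % 3) - ((W : ℕ) : ZMod M) ^ (r % 3)) := by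
  unfold wo_D
  ring

theorem wo_tP (j n : ℕ) (z : Om n) : tP j n z =
    (z.1 + ((wn n : ℕ) : ZMod (Nn n)) ^ ((z.1.val + 2 * j) % 3 + 1), z.2) := by
  show tF j n z = _
  unfold tF
  push_cast
  rfl

theorem wo_q (n : ℕ) (u : ZMod (Nn (n + 1))) (b : ZMod 5) :
    ((tP 0 (n+1))⁻¹ * tP 1 (n+1)) (u, b) = (u + wo_D (Nn (n+1)) (wn (n+1)) (u.val), b) := by
  obtain ⟨hN, -, -, -, -, hW⟩ := lev_dvd n
  obtain ⟨hM, h3, -, -, -, -⟩ := lev_dvd (n + 1)
  have hM3 : 3 ∣ Nn (n + 1) := dvd_trans (by norm_num) hM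
  rw [Equiv.Perm.mul_apply, Equiv.Perm.inv_eq_iff_eq, wo_tP, wo_tP]
  simp only [mul_one, mul_zero, add_zero]
  have hc : (u + wo_D (Nn (n+1)) (wn (n+1)) (u.val)).val % 3 = u.val % 3 := by
    rw [wo_D_eq]
    exact wo_cls _ _ hM3 h3 _ _
  rw [hc]
  unfold wo_D
  congr 1
  ring

theorem wo_qpow (n : ℕ) (u : ZMod (Nn (n + 1))) (b : ZMod 5) (k : ℕ) :
    (((tP 0 (n+1))⁻¹ * tP 1 (n+1)) ^ k) (u, b)
      = (u + (k : ZMod (Nn (n + 1))) * wo_D (Nn (n+1)) (wn (n+1)) (u.val), b) := by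
  obtain ⟨hM, h3, -, -, -, -⟩ := lev_dvd (n + 1)
  have hM3 : 3 ∣ Nn (n + 1) := dvd_trans (by norm_num) hM
  induction k with
  | zero => simp
  | succ k ih =>
    rw [pow_succ', Equiv.Perm.mul_apply, ih, wo_q]
    have hc : (u + (k : ZMod (Nn (n + 1))) * wo_D (Nn (n+1)) (wn (n+1)) (u.val)).val % 3 = u.val % 3 := by
      rw [wo_D_eq, show (k : ZMod (Nn (n + 1))) * (((wn (n+1) : ℕ) : ZMod (Nn (n+1))) *
        (((wn (n+1) : ℕ) : ZMod (Nn (n+1))) ^ ((u.val + 2) % 3) - ((wn (n+1) : ℕ) : ZMod (Nn (n+1))) ^ (u.val % 3)))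
        = ((wn (n+1) : ℕ) : ZMod (Nn (n+1))) * ((k : ZMod (Nn (n + 1))) *
        (((wn (n+1) : ℕ) : ZMod (Nn (n+1))) ^ ((u.val + 2) % 3) - ((wn (n+1) : ℕ) : ZMod (Nn (n+1))) ^ (u.val % 3))) by ring]
      exact wo_cls _ _ hM3 h3 _ _
    have hD : wo_D (Nn (n+1)) (wn (n+1))
        (u + (k : ZMod (Nn (n + 1))) * wo_D (Nn (n+1)) (wn (n+1)) (u.val)).val
        = wo_D (Nn (n+1)) (wn (n+1)) (u.val) := by
      have hc2 : ((u + (k : ZMod (Nn (n + 1))) * wo_D (Nn (n+1)) (wn (n+1)) (u.val)).val + 2) % 3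
          = (u.val + 2) % 3 := by omega
      unfold wo_D at hc hc2 ⊢
      rw [hc, hc2]
    rw [hD]
    congr 1
    push_cast
    ring

theorem wo_unit (M : ℕ) (W W1 : ZMod M) (h5 : W ^ 5 = 0) (h1 : W = 3 * W1) (r : ℕ) :
    ∃ m : ZMod M, (3 * (W ^ ((r + 2) % 3 + 1) - W ^ (r % 3 + 1))) * m = W ^ 4 := by
  have h3 : r % 3 = 0 ∨ r % 3 = 1 ∨ r % 3 = 2 := by omega
  rcases h3 with h | h | h
  · have h' : (r + 2) % 3 = 2 := by omega
    refine ⟨-W1 * W ^ 2 * (1 + W ^ 2 + W ^ 4), ?_⟩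
    rw [h, h']
    have : (3 * (W ^ (2 + 1) - W ^ (0 + 1))) * (-W1 * W ^ 2 * (1 + W ^ 2 + W ^ 4))
        = (3 * W1) * W ^ 3 - (3 * W1) * W ^ 4 * W ^ 5 := by ring
    rw [this, h5, ← h1]
    ring
  · have h' : (r + 2) % 3 = 0 := by omega
    refine ⟨W1 * W ^ 2 * (1 + W + W ^ 2 + W ^ 3 + W ^ 4), ?_⟩
    rw [h, h']
    have : (3 * (W ^ (0 + 1) - W ^ (1 + 1))) * (W1 * W ^ 2 * (1 + W + W ^ 2 + W ^ 3 + W ^ 4))
        = (3 * W1) * W ^ 3 - (3 * W1) * W ^ 3 * W ^ 5 := by ring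
    rw [this, h5, ← h1]
    ring
  · have h' : (r + 2) % 3 = 1 := by omega
    refine ⟨W1 * W * (1 + W + W ^ 2 + W ^ 3 + W ^ 4), ?_⟩
    rw [h, h']
    have : (3 * (W ^ (1 + 1) - W ^ (2 + 1))) * (W1 * W * (1 + W + W ^ 2 + W ^ 3 + W ^ 4))
        = (3 * W1) * W ^ 3 - (3 * W1) * W ^ 3 * W ^ 5 := by ring
    rw [this, h5, ← h1]
    ring

theorem w_orbit (n : ℕ) (f : ZMod (Nn n) → ℂ) (u : ZMod (Nn (n+1))) :
    ∑ h ∈ Finset.range (Nn (n+1)),
      (fun z : Om (n+1) => f (pP n z).1) (((((tP 0 (n+1))⁻¹ * tP 1 (n+1)) ^ 3) ^ h) (u, 0))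
      = (Nn (n+1) / Nn n : ℂ) * ∑ v, f v := by
  obtain ⟨hN, hw, hN12, hB12, hBe, hW36⟩ := lev_dvd n
  obtain ⟨hM, h3, -, -, -, -⟩ := lev_dvd (n + 1)
  have hN0 : 0 < Nn n := Nn_pos n
  have hB0 : 0 < Bn n := by rw [← hBe]; positivity
  have hMM : Nn (n + 1) = 4 * Nn n * (wn (n + 1)) ^ 4 := by rw [Nn_succ, wn_succ]; rfl
  have e1 : ∀ h : ℕ, ((((tP 0 (n+1))⁻¹ * tP 1 (n+1)) ^ 3) ^ h) (u, (0 : ZMod 5))
      = (u + (h : ZMod (Nn (n+1))) * (3 * wo_D (Nn (n+1)) (wn (n+1)) (u.val)), 0) := by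
    intro h
    rw [← pow_mul, wo_qpow]
    congr 1
    push_cast
    ring
  simp only [e1]
  have e2 : ∀ h : ℕ, f (pP n (u + (h : ZMod (Nn (n+1))) * (3 * wo_D (Nn (n+1)) (wn (n+1)) (u.val)), 0)).1
      = (fun k : ZMod (Nn (n+1)) => f ((pr (Nn n) (wn n) (Bn n)
        (u + k * (3 * wo_D (Nn (n+1)) (wn (n+1)) (u.val))).val : ℕ) : ZMod (Nn n))) (h : ZMod (Nn (n+1))) :=
    fun h => rfl
  simp only [e2]
  have e3 := wo_sum_range (Nn (n+1)) (fun k : ZMod (Nn (n+1)) => f ((pr (Nn n) (wn n) (Bn n)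
        (u + k * (3 * wo_D (Nn (n+1)) (wn (n+1)) (u.val))).val : ℕ) : ZMod (Nn n)))
  rw [e3]
  -- W^5 = 0
  have h5 : ((wn (n+1) : ℕ) : ZMod (Nn (n+1))) ^ 5 = 0 := by
    obtain ⟨q, hq⟩ := hW36
    have hdvd : Nn (n+1) ∣ (wn (n+1)) ^ 5 := by
      rw [hMM, pow_succ' (wn (n+1)) 4]
      refine Nat.mul_dvd_mul ?_ dvd_rfl
      rw [hq]
      exact ⟨9 * q, by ring⟩
    have := (ZMod.natCast_eq_zero_iff ((wn (n+1)) ^ 5) (Nn (n+1))).mpr hdvd
    rw [← this]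
    push_cast
    rfl
  obtain ⟨W1, hW1⟩ := h3
  have hW1' : ((wn (n+1) : ℕ) : ZMod (Nn (n+1))) = 3 * (W1 : ZMod (Nn (n+1))) := by
    rw [hW1]; push_cast; rfl
  obtain ⟨m, hm⟩ := wo_unit (Nn (n+1)) ((wn (n+1) : ℕ) : ZMod (Nn (n+1))) (W1 : ZMod (Nn (n+1))) h5 hW1' u.val
  have e4 := wo_prog (Nn n) (wn n) (Bn n) (Nn (n+1)) (wn (n+1)) (Nn_succ n) (wn_succ n) hN hw hB0 f u
    (3 * wo_D (Nn (n+1)) (wn (n+1)) (u.val)) m hm
  rw [e4]
  congr 1
  have hNc : (Nn n : ℂ) ≠ 0 := by exact_mod_cast hN0.ne'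
  rw [eq_div_iff hNc]
  have : (Nn (n+1) : ℂ) = 4 * (Nn n : ℂ) * (wn (n+1) : ℂ) ^ 4 := by
    rw [hMM]; push_cast; rfl
  rw [this]
  ring

end SM345
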