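import Pool.Agent.Helper345.SM.Defs
import Pool.Agent.Helper345.SM.w_orbit
import Pool.Agent.Helper345.SM.K0_approx
import Pool.Agent.Helper345.SM.bf_norm
import Pool.Agent.Helper345.SM.isLim_mul
import Pool.Agent.Helper345.SM.isLim_symm
import Pool.Agent.Helper345.SM.isLim_pow
import Pool.Agent.Helper345.SM.ee_facts
import Pool.Agent.Helper345.SM.J_basic
import Pool.Agent.Helper345.SM.one_fix
import Pool.Agent.Helper345.SM.rel_tt

set_option autoImplicit false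
set_option linter.unusedVariables false
set_option linter.style.longLine false

open MeasureTheory Filter Topology
open scoped ENNReal NNReal

noncomputable section

namespace SM345

theorem we_Jsum (c : Ctx) (m : ℕ) (F : ℕ → Om m → ℂ) (H : ℕ) :
    ∑ h ∈ Finset.range H, J c.hμ m (F h) = J c.hμ m (fun y => ∑ h ∈ Finset.range H, F h y) := by
  obtain ⟨hadd, hsmul, -, -, -⟩ := J_basic c.hμ
  induction H with
  | zero =>
    simp only [Finset.range_zero, Finset.sum_empty]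
    have := hsmul m 0 (fun _ => (0 : ℂ))
    simp only [zero_mul, zero_smul] at this
    exact this.symm
  | succ H ih =>
    simp only [Finset.sum_range_succ]
    rw [ih, ← hadd]

theorem we_Jzero (c : Ctx) (m : ℕ) : J c.hμ m (fun _ => (0 : ℂ)) = 0 := by
  have := we_Jsum c m (fun _ _ => 0) 0
  simp only [Finset.range_zero, Finset.sum_empty] at this
  exact this.symm

theorem we_chi0 : chi 0 = 1 := by
  unfold chi
  rw [ZMod.val_zero]
  simp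

theorem we_bf (n : ℕ) (f : ZMod (Nn n) → ℂ) (y : Om n) : bf n 0 f y = f y.1 := by
  unfold bf
  rw [zero_mul, we_chi0, mul_one]

/-- shift of the fibre -/
def we_D (n : ℕ) (v : ZMod 5) : Equiv.Perm (Om n) :=
  Equiv.prodCongr (Equiv.refl _) (Equiv.addRight v)

theorem we_D_apply (n : ℕ) (v : ZMod 5) (z : Om n) : we_D n v z = (z.1, z.2 + v) := rfl

theorem we_comm (j n : ℕ) (v : ZMod 5) : Commute (we_D n v) (tP j n) := by
  apply Equiv.ext
  intro z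
  rfl

theorem we_orb (n : ℕ) (h : ℕ) (u : ZMod (Nn n)) (v : ZMod 5) :
    (((((tP 0 n)⁻¹ * tP 1 n) ^ 3) ^ h) (u, v)).1 =
      (((((tP 0 n)⁻¹ * tP 1 n) ^ 3) ^ h) (u, 0)).1 := by
  have h1 : Commute (we_D n v) ((((tP 0 n)⁻¹ * tP 1 n) ^ 3) ^ h) :=
    (((we_comm 0 n v).inv_right.mul_right (we_comm 1 n v)).pow_right 3).pow_right h
  have h2 : we_D n v (u, 0) = (u, v) := by
    rw [we_D_apply]
    simp
  have h3 := congrArg (fun e : Equiv.Perm (Om n) => e (u, 0)) h1.eq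
  simp only [Equiv.Perm.mul_apply] at h3
  rw [h2] at h3
  rw [← h3, we_D_apply]

theorem we_pow {c : Ctx} {V : Lp ℂ 2 c.μ ≃ₗᵢ[ℂ] Lp ℂ 2 c.μ} {F : Lp ℂ 2 c.μ} (h : V F = F)
    (k : ℕ) : (V ^ k) F = F := by
  induction k with
  | zero => rw [pow_zero]; rfl
  | succ k ih =>
    rw [pow_succ]
    change (V ^ k) (V F) = F
    rw [h, ih]

theorem we_fix (c : Ctx) (F : Lp ℂ 2 c.μ) (h : (c.Ut 1 ^ 3) F = (c.Ut 0 ^ 3) F) :
    ((c.Ut 1 * (c.Ut 0)⁻¹) ^ 3) F = F := by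
  have hc : Commute (c.Ut 1) (c.Ut 0) := (rel_tt c 1 0).1
  have h1 : (c.Ut 1 * (c.Ut 0)⁻¹) ^ 3 = (c.Ut 0 ^ 3)⁻¹ * c.Ut 1 ^ 3 := by
    rw [hc.inv_right.mul_pow, inv_pow]
    exact ((hc.pow_pow 3 3).inv_right).eq
  rw [h1]
  change (c.Ut 0 ^ 3)⁻¹ ((c.Ut 1 ^ 3) F) = F
  rw [h]
  change ((c.Ut 0 ^ 3)⁻¹ * (c.Ut 0 ^ 3)) F = F
  rw [inv_mul_cancel]
  rfl

theorem we_bound (c : Ctx) (F : Lp ℂ 2 c.μ) (h : (c.Ut 1 ^ 3) F = (c.Ut 0 ^ 3) F)
    (n : ℕ) (f : ZMod (Nn n) → ℂ) (C : ℝ) (hf0 : ∑ u, f u = 0) (hfC : ∀ u, ‖f u‖ ≤ C) :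
    ‖inner ℂ F (J c.hμ n (bf n 0 f))‖ ≤ ‖F‖ * (6 * C * (Nn (n + 1) * δδ (n + 1))) := by
  obtain ⟨-, -, hlift, -, -⟩ := J_basic c.hμ
  have hC0 : 0 ≤ C := (norm_nonneg _).trans (hfC 0)
  set V := c.Ut 1 * (c.Ut 0)⁻¹ with hV
  set w := ((tP 0 (n + 1))⁻¹ * tP 1 (n + 1)) with hw
  have hlim := isLim_mul c.hμ (tP 1) (fun n => (tP 0 n)⁻¹) δδ δδ (c.Ut 1) (c.Ut 0)⁻¹ (c.lt 1)
    (isLim_symm c.hμ (tP 0) δδ (c.Ut 0) (c.lt 0))
  set g : Om (n + 1) → ℂ := (bf n 0 f) ∘ pP n with hg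
  have hG : J c.hμ n (bf n 0 f) = J c.hμ (n + 1) g := (hlift n _).symm
  have hgC : ∀ y, ‖g y‖ ≤ C := by
    intro y
    rw [hg, Function.comp_apply, we_bf]
    exact hfC _
  set H := Nn (n + 1) with hH
  have hH0 : (0 : ℝ) < H := by exact_mod_cast Nn_pos (n + 1)
  have hδ : 0 ≤ δδ (n + 1) := by
    unfold δδ
    positivity
  -- averages vanish
  have havg : ∑ k ∈ Finset.range H, J c.hμ (n + 1) (fun y => g ((w ^ (3 * k)) y)) = 0 := by
    rw [we_Jsum c (n + 1) (fun k y => g ((w ^ (3 * k)) y))]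
    rw [← we_Jzero c (n + 1)]
    congr 1
    funext y
    obtain ⟨u, v⟩ := y
    have horb := w_orbit n f u
    rw [hf0, mul_zero] at horb
    rw [← horb]
    apply Finset.sum_congr rfl
    intro k _
    rw [hg, Function.comp_apply, we_bf, pow_mul]
    have h4 := we_orb (n + 1) k u v
    unfold pP
    simp only
    rw [hw, h4]
  have hpow : ∀ k : ℕ, ‖(V ^ (3 * k)) (J c.hμ (n + 1) g) -
      J c.hμ (n + 1) (fun y => g ((w ^ (3 * k)) y))‖ ≤ ((3 * k : ℕ) : ℝ) * (C * (δδ (n + 1) + δδ (n + 1))) :=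
    fun k => isLim_pow c.hμ (fun n => (tP 0 n)⁻¹ * tP 1 n) (fun n => δδ n + δδ n) V hlim (n + 1)
      (3 * k) g C hgC
  have hsum : ‖∑ k ∈ Finset.range H, (V ^ (3 * k)) (J c.hμ (n + 1) g)‖ ≤
      H * (6 * C * (H * δδ (n + 1))) := by
    have e1 : ∑ k ∈ Finset.range H, (V ^ (3 * k)) (J c.hμ (n + 1) g) =
        ∑ k ∈ Finset.range H, ((V ^ (3 * k)) (J c.hμ (n + 1) g) -
          J c.hμ (n + 1) (fun y => g ((w ^ (3 * k)) y))) := by
      rw [Finset.sum_sub_distrib, havg, sub_zero]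
    rw [e1]
    refine (norm_sum_le _ _).trans ?_
    have e2 : ∀ k ∈ Finset.range H, ‖(V ^ (3 * k)) (J c.hμ (n + 1) g) -
      J c.hμ (n + 1) (fun y => g ((w ^ (3 * k)) y))‖ ≤ 6 * C * (H * δδ (n + 1)) := by
      intro k hk
      refine (hpow k).trans ?_
      have hk' : (k : ℝ) ≤ H := by
        exact_mod_cast (Finset.mem_range.mp hk).le
      push_cast
      have h6 : (k : ℝ) * (C * δδ (n + 1)) ≤ H * (C * δδ (n + 1)) :=
        mul_le_mul_of_nonneg_right hk' (mul_nonneg hC0 hδ)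
      linarith
    refine (Finset.sum_le_sum e2).trans ?_
    rw [Finset.sum_const, Finset.card_range, nsmul_eq_mul]
  have hfix := we_fix c F h
  have hin : ∀ k : ℕ, inner ℂ F (J c.hμ (n + 1) g) =
      inner ℂ F ((V ^ (3 * k)) (J c.hμ (n + 1) g)) := by
    intro k
    have e3 : (V ^ (3 * k)) F = F := by
      rw [pow_mul]
      exact we_pow hfix k
    conv_rhs => rw [← e3]
    rw [LinearIsometryEquiv.inner_map_map]
  have htot : (H : ℂ) * inner ℂ F (J c.hμ (n + 1) g) =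
      inner ℂ F (∑ k ∈ Finset.range H, (V ^ (3 * k)) (J c.hμ (n + 1) g)) := by
    rw [inner_sum, ← Finset.sum_congr rfl (fun k _ => hin k), Finset.sum_const, Finset.card_range,
      nsmul_eq_mul]
  have hn := congrArg norm htot
  rw [norm_mul, Complex.norm_natCast] at hn
  have h7 : (H : ℝ) * ‖inner ℂ F (J c.hμ (n + 1) g)‖ ≤ H * (‖F‖ * (6 * C * (H * δδ (n + 1)))) := by
    rw [hn]
    refine (norm_inner_le_norm _ _).trans ?_
    have := mul_le_mul_of_nonneg_left hsum (norm_nonneg F)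
    linarith
  rw [hG]
  exact le_of_mul_le_mul_left h7 hH0

theorem we_lift (c : Ctx) (n : ℕ) (f : ZMod (Nn n) → ℂ) (C : ℝ) (hf0 : ∑ u, f u = 0)
    (hfC : ∀ u, ‖f u‖ ≤ C) (m : ℕ) : ∃ f' : ZMod (Nn (n + m)) → ℂ, ∑ u, f' u = 0 ∧
      (∀ u, ‖f' u‖ ≤ C) ∧ J c.hμ (n + m) (bf (n + m) 0 f') = J c.hμ n (bf n 0 f) := by
  induction m with
  | zero => exact ⟨f, hf0, hfC, rfl⟩
  | succ m ih =>
    obtain ⟨f', h1, h2, h3⟩ := ih
    have h4 := (bf_norm c (n + m) 0 f').2.2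
    refine ⟨fun u => f' ((pr (Nn (n + m)) (wn (n + m)) (Bn (n + m)) u.val : ℕ) :
      ZMod (Nn (n + m))), ?_, fun u => h2 _, h4.trans h3⟩
    obtain ⟨-, -, -, -, -, -, hin⟩ := one_fix c
    have h5 := hin (n + m + 1) (fun u => f' ((pr (Nn (n + m)) (wn (n + m)) (Bn (n + m)) u.val : ℕ) :
      ZMod (Nn (n + m))))
    have h6 := hin (n + m) f'
    rw [h4, h6, h1, zero_div] at h5
    have h7 : (Nn (n + m + 1) : ℂ) ≠ 0 := by
      have := (Nn_pos (n + m + 1)).ne'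
      exact_mod_cast this
    rcases div_eq_zero_iff.mp h5.symm with h8 | h8
    · exact h8
    · exact absurd h8 h7

theorem we_lim : Tendsto (fun n : ℕ => (Nn n : ℝ) * δδ n) atTop (𝓝 0) := by
  obtain ⟨-, -, -, h, -, -⟩ := ee_facts
  refine squeeze_zero (fun n => ?_) (fun n => ?_) h
  · have : 0 ≤ δδ n := by
      unfold δδ
      positivity
    positivity
  · have h1 : 0 ≤ δδ n := by
      unfold δδ
      positivity
    have h2 : (1 : ℝ) ≤ Nn n := by exact_mod_cast Nn_pos n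
    have h3 : (Nn n : ℝ) ≤ (Nn n : ℝ) ^ 5 := le_self_pow₀ h2 (by norm_num)
    exact mul_le_mul_of_nonneg_right h3 h1

theorem we_perp (c : Ctx) (F : Lp ℂ 2 c.μ) (h : (c.Ut 1 ^ 3) F = (c.Ut 0 ^ 3) F)
    (n : ℕ) (f : ZMod (Nn n) → ℂ) (hf0 : ∑ u, f u = 0) :
    inner ℂ F (J c.hμ n (bf n 0 f)) = 0 := by
  obtain ⟨C, hC⟩ := (Set.finite_range (fun y => ‖f y‖)).bddAbove
  have hfC : ∀ u, ‖f u‖ ≤ C := fun u => hC ⟨u, rfl⟩
  have hb : ∀ m : ℕ, ‖inner ℂ F (J c.hμ n (bf n 0 f))‖ ≤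
      ‖F‖ * (6 * C * (Nn (m + (n + 1)) * δδ (m + (n + 1)))) := by
    intro m
    obtain ⟨f', h1, h2, h3⟩ := we_lift c n f C hf0 hfC m
    have h4 := we_bound c F h (n + m) f' C h1 h2
    rw [h3] at h4
    have e : n + m + 1 = m + (n + 1) := by ring
    rw [← e]
    exact h4
  have hl : Tendsto (fun m : ℕ => ‖F‖ * (6 * C * (Nn (m + (n + 1)) * δδ (m + (n + 1))))) atTop
      (𝓝 (‖F‖ * (6 * C * 0))) :=
    ((we_lim.comp (tendsto_add_atTop_nat (n + 1))).const_mul (6 * C)).const_mul ‖F‖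
  rw [mul_zero, mul_zero] at hl
  have h9 := ge_of_tendsto' hl hb
  exact norm_le_zero_iff.mp h9
theorem w_erg (c : Ctx) (F : Lp ℂ 2 c.μ) (hF : F ∈ c.K0) (h : (c.Ut 1 ^ 3) F = (c.Ut 0 ^ 3) F) :
    F = 0 := by
  by_contra hF0
  have hpos : 0 < ‖F‖ := norm_pos_iff.mpr hF0
  obtain ⟨n, f, hf0, hlt⟩ := K0_approx c F hF (‖F‖ / 2) (by positivity)
  have hperp := we_perp c F h n f hf0
  have h1 : inner ℂ F F = inner ℂ F (F - J c.hμ n (bf n 0 f)) := by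
    rw [inner_sub_right, hperp, sub_zero]
  have h2 := congrArg norm h1
  rw [inner_self_eq_norm_sq_to_K] at h2
  have h3 : ‖((‖F‖ : ℂ)) ^ 2‖ = ‖F‖ * ‖F‖ := by
    rw [norm_pow, Complex.norm_real, norm_norm, sq]
  have h4 : ‖F‖ * ‖F‖ ≤ ‖F‖ * ‖F - J c.hμ n (bf n 0 f)‖ := by
    rw [← h3]
    refine le_trans (le_of_eq ?_) (norm_inner_le_norm (𝕜 := ℂ) F (F - J c.hμ n (bf n 0 f)))
    exact h2
  have h5 := mul_lt_mul_of_pos_left hlt hpos
  nlinarith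

end SM345
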