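import Pool.Agent.Helper345.SM.Defs
import Pool.Agent.Helper345.SM.w_erg
import Pool.Agent.Helper345.SM.three_unitaries
import Pool.Agent.Helper345.SM.rel_tt

set_option autoImplicit false
set_option linter.unusedVariables false
set_option linter.style.longLine false

open MeasureTheory Filter Topology
open scoped ENNReal NNReal

noncomputable section

namespace SM345

theorem VV_inj (c : Ctx) (F : Lp ℂ 2 c.μ) (hF : F ∈ c.K0) (h : c.VV F = 0) : F = 0 := by
  have hz3 : zeta ^ 3 = 1 := by
    unfold zeta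
    rw [← Complex.exp_nat_mul]
    have : ((3 : ℕ) : ℂ) * (2 * Real.pi * Complex.I / 3) = 2 * Real.pi * Complex.I := by
      push_cast; ring
    rw [this]
    exact Complex.exp_two_pi_mul_I
  have hzn : ‖zeta‖ = 1 := by
    have h1 : ‖zeta‖ ^ 3 = 1 := by
      rw [← norm_pow, hz3, norm_one]
    exact (pow_eq_one_iff_of_nonneg (norm_nonneg _) (by norm_num)).1 h1
  have hzn2 : ‖zeta ^ 2‖ = 1 := by rw [norm_pow, hzn, one_pow]
  have h2 := three_unitaries (c.Ut 0) (c.Ut 1) (c.Ut 2) (rel_tt c 0 1).1 (rel_tt c 0 2).1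
    (rel_tt c 1 2).1 zeta (zeta ^ 2) hzn hzn2 F h
  rw [hz3, one_smul] at h2
  exact w_erg c F hF h2.symm

end SM345
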