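import Pool.Agent.Helper345.SM.Defs
import Pool.Agent.Helper345.SM.VV_inj
import Pool.Agent.Helper345.SM.VV_basic
import Pool.Agent.Helper345.SM.rel_tt
import Pool.Agent.Helper345.SM.rel_D
import Pool.Agent.Helper345.SM.one_fix

set_option autoImplicit false
set_option linter.unusedVariables false
set_option linter.style.longLine false

open MeasureTheory Filter Topology
open scoped ENNReal NNReal

noncomputable section

namespace SM345

theorem VV_dense (c : Ctx) (F : Lp ℂ 2 c.μ) (hF : F ∈ c.K0)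
    (h : ∀ f ∈ c.K0, inner ℂ (c.VV f) F = 0) : F = 0 := by
  have hc : ∀ (i j : ℕ) (x : Lp ℂ 2 c.μ), c.Ut i (c.Ut j x) = c.Ut j (c.Ut i x) := fun i j x =>
    DFunLike.congr_fun (rel_tt c i j).1 x
  have hcs : ∀ (i j : ℕ) (x : Lp ℂ 2 c.μ),
      (c.Ut i).symm (c.Ut j x) = c.Ut j ((c.Ut i).symm x) := by
    intro i j x
    apply (c.Ut i).injective
    rw [LinearIsometryEquiv.apply_symm_apply, hc, LinearIsometryEquiv.apply_symm_apply]
  have hD : ∀ (j : ℕ) (x : Lp ℂ 2 c.μ), c.Ut j (c.UD x) = c.UD (c.Ut j x) := fun j x =>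
    DFunLike.congr_fun (rel_D c j).2.2.1 x
  have hDs : ∀ (j : ℕ) (x : Lp ℂ 2 c.μ), c.UD ((c.Ut j).symm x) = (c.Ut j).symm (c.UD x) := by
    intro j x
    apply (c.Ut j).injective
    rw [hD, LinearIsometryEquiv.apply_symm_apply, LinearIsometryEquiv.apply_symm_apply]
  have hin : ∀ (j : ℕ) (x y : Lp ℂ 2 c.μ),
      inner ℂ (c.Ut j x) y = inner ℂ x ((c.Ut j).symm y) := by
    intro j x y
    rw [← (c.Ut j).inner_map_map x, LinearIsometryEquiv.apply_symm_apply]
  have hmem : ∀ j : ℕ, (c.Ut j).symm F ∈ c.K0 := by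
    intro j
    refine ⟨?_, ?_⟩
    · have h1 : c.UD F = chi 0 • F := hF.1
      show c.UD ((c.Ut j).symm F) = chi 0 • (c.Ut j).symm F
      rw [hDs, h1, map_smul]
    · have h2 : F ∈ (Submodule.span ℂ {c.one})ᗮ := hF.2
      rw [Submodule.mem_orthogonal_singleton_iff_inner_right] at h2
      show (c.Ut j).symm F ∈ (Submodule.span ℂ {c.one})ᗮ
      rw [Submodule.mem_orthogonal_singleton_iff_inner_right, ← hin, (one_fix c).2.1 j, h2]
  let Vd : Lp ℂ 2 c.μ → Lp ℂ 2 c.μ := fun y =>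
    (c.Ut 0).symm y + (starRingEnd ℂ zeta) • (c.Ut 1).symm y
      + (starRingEnd ℂ (zeta ^ 2)) • (c.Ut 2).symm y
  have hadj : ∀ x y : Lp ℂ 2 c.μ, inner ℂ (c.VV x) y = inner ℂ x (Vd y) := by
    intro x y
    simp only [Ctx.VV, Vd, inner_add_left, inner_add_right, inner_smul_left, inner_smul_right, hin]
  have hnorm : ∀ x : Lp ℂ 2 c.μ, Vd (c.VV x) = c.VV (Vd x) := by
    intro x
    simp only [Ctx.VV, Vd, map_add, map_smul, hcs, smul_add, smul_smul]
    simp only [mul_comm (starRingEnd ℂ zeta), mul_comm (starRingEnd ℂ (zeta ^ 2))]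
    abel
  have hVdF : Vd F ∈ c.K0 :=
    c.K0.add_mem (c.K0.add_mem (hmem 0) (c.K0.smul_mem _ (hmem 1))) (c.K0.smul_mem _ (hmem 2))
  have h0 : Vd F = 0 := by
    have := h _ hVdF
    rw [hadj] at this
    exact inner_self_eq_zero.1 this
  apply VV_inj c F hF
  have h3 : inner ℂ (c.VV F) (c.VV F) = (0 : ℂ) := by
    rw [hadj, hnorm, h0]
    simp [Ctx.VV]
  exact inner_self_eq_zero.1 h3

end SM345
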