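import Pool.Agent.Helper345.SM.Defs

set_option autoImplicit false
set_option linter.unusedVariables false
set_option linter.style.longLine false

open MeasureTheory Filter Topology
open scoped ENNReal NNReal

noncomputable section

namespace SM345

theorem XX_standard {Ω : ℕ → Type} [∀ n, Fintype (Ω n)] 
    [∀ n, DecidableEq (Ω n)] [∀ n, MeasurableSpace (Ω n)] [∀ n, MeasurableSingletonClass (Ω n)]
    (π : ∀ n, Ω (n+1) → Ω n) : StandardBorelSpace (XX Ω π) := by
  haveI : ∀ n, DiscreteMeasurableSpace (Ω n) := fun n => inferInstance
  haveI : ∀ n, StandardBorelSpace (Ω n) := fun n => inferInstance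
  haveI : StandardBorelSpace (∀ n, Ω n) := StandardBorelSpace.pi_countable
  have hm : MeasurableSet {v : ∀ n, Ω n | ∀ n, π n (v (n+1)) = v n} := by
    rw [Set.setOf_forall]
    refine MeasurableSet.iInter fun n => ?_
    refine measurableSet_eq_fun ?_ (measurable_pi_apply n)
    exact (measurable_of_finite (π n)).comp (measurable_pi_apply (n+1))
  exact hm.standardBorel

end SM345
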