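import Pool.Agent.Helper345.SM.Defs
import Pool.Agent.Helper345.SM.J_basic
import Pool.Agent.Helper345.SM.bf_norm
import Pool.Agent.Helper345.SM.isLim_pow
import Pool.Agent.Helper345.SM.digit_count
import Pool.Agent.Helper345.SM.pr_s
import Pool.Agent.Helper345.SM.opP_basic
import Pool.Agent.Helper345.SM.ee_facts

set_option autoImplicit false
set_option linter.unusedVariables false
set_option linter.style.longLine false

open MeasureTheory Filter Topology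
open scoped ENNReal NNReal

noncomputable section

namespace SM345

theorem ba_chi0 : chi 0 = 1 := by
  unfold chi
  simp

theorem ba_bf (n : ℕ) (f : ZMod (Nn n) → ℂ) (y : Om n) : bf n 0 f y = f y.1 := by
  unfold bf
  rw [zero_mul, ba_chi0, mul_one]

theorem ba_TP (m L : ℕ) (y : Om m) : (((TP m) ^ L) y).1 = y.1 + ((3 * L : ℕ) : ZMod (Nn m)) := by
  induction L with
  | zero => simp
  | succ L ih =>
    rw [pow_succ', Equiv.Perm.mul_apply]
    show (TF m _).1 = _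
    unfold TF
    show (((TP m) ^ L) y).1 + 3 = _
    rw [ih]
    push_cast
    ring

theorem ba_pr_mod (N w B u : ℕ) : pr N w B (u % NN N B) = pr N w B u := by
  unfold pr dx da dc
  simp only [Nat.mod_mod]

theorem ba_opP_sum {H : Type} [NormedAddCommGroup H] [InnerProductSpace ℂ H]
    (U : H ≃ₗᵢ[ℂ] H) (s : Finset ℕ) (a : ℂ) (L : ℕ → ℕ) (v : H) :
    opP U (∑ i ∈ s, Polynomial.C a * Polynomial.X ^ (L i)) v = ∑ i ∈ s, a • (U ^ (L i)) v := by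
  classical
  obtain ⟨h1, h2, h3, h4, -⟩ := opP_basic U
  induction s using Finset.induction_on with
  | empty => simp [opP]
  | insert i s hi ih =>
    rw [Finset.sum_insert hi, Finset.sum_insert hi, h2, ih, h1, h3, h4]

theorem ba_F (n : ℕ) (f : ZMod (Nn n) → ℂ) (L : ℕ) (hL : Nn n ∣ L) (u : ZMod (Nn (n+1)))
    (h : dx (Nn n) (Bn n) 0 u.val + 3 * L < WW (Nn n) (Bn n)) :
    f ((pr (Nn n) (wn n) (Bn n) (u + ((3 * L : ℕ) : ZMod (Nn (n+1)))).val : ℕ) : ZMod (Nn n)) =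
      f ((pr (Nn n) (wn n) (Bn n) u.val : ℕ) : ZMod (Nn n)) := by
  obtain ⟨hN12, hw3, hN12', hB12, hBeq, hWdvd⟩ := lev_dvd n
  have hN0 : 0 < Nn n := Nn_pos n
  have hB0 : 0 < Bn n := by rw [← hBeq]; positivity
  have h1 : (u + ((3 * L : ℕ) : ZMod (Nn (n+1)))).val = (u.val + 3 * L) % (NN (Nn n) (Bn n)) := by
    rw [ZMod.val_add, ZMod.val_natCast, Nat.add_mod_mod]
    rfl
  rw [h1, ba_pr_mod, (pr_s (Nn n) (wn n) (Bn n) hN12 hN0 hw3 hB0 u.val (3 * L) h).1]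
  congr 1
  rw [ZMod.natCast_mod]
  have h2 : ((3 * L : ℕ) : ZMod (Nn n)) = 0 := (ZMod.natCast_eq_zero_iff _ _).2 (Dvd.dvd.mul_left hL 3)
  rw [Nat.cast_add, h2, add_zero]

theorem ba_card (n : ℕ) (k : ℕ) (hk : k ≤ WW (Nn n) (Bn n)) :
    ((Finset.univ.filter (fun u : ZMod (Nn (n+1)) => WW (Nn n) (Bn n) ≤ dx (Nn n) (Bn n) 0 u.val + k)).card : ℝ)
      * (WW (Nn n) (Bn n) : ℝ) ≤ (k : ℝ) * (Nn (n+1) : ℝ) := by
  obtain ⟨hN12, hw3, hN12', hB12, hBeq, hWdvd⟩ := lev_dvd n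
  have hN0 : 0 < Nn n := Nn_pos n
  have hB0 : 0 < Bn n := by rw [← hBeq]; positivity
  have h1 := digit_count (Nn n) (Bn n) k 0 hN0 hB0 (by norm_num) hk
  have h2 : (Finset.univ.filter (fun u : ZMod (Nn (n+1)) => WW (Nn n) (Bn n) ≤ dx (Nn n) (Bn n) 0 u.val + k)).card ≤
      ((Finset.range (NN (Nn n) (Bn n))).filter (fun u => WW (Nn n) (Bn n) ≤ dx (Nn n) (Bn n) 0 u + k)).card := by
    refine Finset.card_le_card_of_injOn (fun u => u.val) ?_ ?_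
    · intro u hu
      simp only [Finset.coe_filter, Finset.mem_univ, true_and, Set.mem_ofPred_eq, Finset.mem_range] at hu ⊢
      exact ⟨ZMod.val_lt u, hu⟩
    · exact fun a _ b _ hab => ZMod.val_injective _ hab
  have h3 : (Finset.univ.filter (fun u : ZMod (Nn (n+1)) => WW (Nn n) (Bn n) ≤ dx (Nn n) (Bn n) 0 u.val + k)).card
      * WW (Nn n) (Bn n) ≤ k * NN (Nn n) (Bn n) := by
    rw [← h1]; exact Nat.mul_le_mul_right _ h2
  exact_mod_cast h3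

theorem ba_diff (c : Ctx) (n : ℕ) (f : ZMod (Nn n) → ℂ) (C : ℝ) (hf : ∀ u, ‖f u‖ ≤ C) (i : ℕ) (hi : i < Bn n) :
    ‖J c.hμ (n+1) (fun y => bf (n+1) 0 (fun u => f ((pr (Nn n) (wn n) (Bn n) u.val : ℕ) : ZMod (Nn n)))
        (((TP (n+1)) ^ (LL (Nn n) (Bn n) i)) y))
      - J c.hμ (n+1) (bf (n+1) 0 (fun u => f ((pr (Nn n) (wn n) (Bn n) u.val : ℕ) : ZMod (Nn n))))‖ ≤ C / Bn n := by
  classical
  obtain ⟨hN12, hw3, hN12', hB12, hBeq, hWdvd⟩ := lev_dvd n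
  have hN0 : 0 < Nn n := Nn_pos n
  have hB0 : 0 < Bn n := by rw [← hBeq]; positivity
  have hC0 : 0 ≤ C := (norm_nonneg _).trans (hf 0)
  obtain ⟨b1, b2, b3, b4, b5⟩ := J_basic c.hμ
  set g : Om (n+1) → ℂ := bf (n+1) 0 (fun u => f ((pr (Nn n) (wn n) (Bn n) u.val : ℕ) : ZMod (Nn n))) with hg
  set L := LL (Nn n) (Bn n) i with hL
  have hLd : Nn n ∣ L := by rw [hL]; unfold LL; exact Dvd.intro _ rfl
  have hLW : 12 * (Bn n) ^ 2 * (3 * L) ≤ WW (Nn n) (Bn n) := by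
    rw [hL]; unfold LL WW
    have : (Bn n) ^ 2 * (Bn n) ^ (i + 1) ≤ (Bn n) ^ (Bn n + 2) := by
      rw [← pow_add]; exact Nat.pow_le_pow_right hB0 (by omega)
    calc 12 * (Bn n) ^ 2 * (3 * (Nn n * Bn n ^ (i + 1))) = 36 * Nn n * ((Bn n) ^ 2 * (Bn n) ^ (i + 1)) := by ring
      _ ≤ 36 * Nn n * (Bn n) ^ (Bn n + 2) := Nat.mul_le_mul_left _ this
  have hLW2 : 3 * L ≤ WW (Nn n) (Bn n) := by
    refine le_trans ?_ hLW
    exact Nat.le_mul_of_pos_left _ (by positivity)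
  have hsub : J c.hμ (n+1) (fun y => g (((TP (n+1)) ^ L) y)) - J c.hμ (n+1) g =
      J c.hμ (n+1) (fun y => g (((TP (n+1)) ^ L) y) + (-1) * g y) := by
    rw [b1 (n+1) (fun y => g (((TP (n+1)) ^ L) y)) (fun y => (-1) * g y), b2 (n+1) (-1) g, neg_one_smul, sub_eq_add_neg]
  rw [hsub]
  have hsq := b5 (n+1) (fun y => g (((TP (n+1)) ^ L) y) + (-1) * g y)
  have hBR : (0:ℝ) < Bn n := by exact_mod_cast hB0
  refine le_of_sq_le_sq ?_ (by positivity)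
  rw [hsq]
  have hcardO : (Fintype.card (Om (n+1)) : ℝ) = (Nn (n+1) : ℝ) * 5 := by
    rw [Fintype.card_prod, ZMod.card, ZMod.card]; push_cast; ring
  have hM0 : (0:ℝ) < Nn (n+1) := by exact_mod_cast Nn_pos (n+1)
  have hbound : ∀ y : Om (n+1), ‖g (((TP (n+1)) ^ L) y) + (-1) * g y‖ ^ 2 ≤
      if WW (Nn n) (Bn n) ≤ dx (Nn n) (Bn n) 0 y.1.val + 3 * L then (2 * C) ^ 2 else 0 := by
    intro y
    have e1 : g (((TP (n+1)) ^ L) y) = f ((pr (Nn n) (wn n) (Bn n) (y.1 + ((3 * L : ℕ) : ZMod (Nn (n+1)))).val : ℕ) : ZMod (Nn n)) := by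
      rw [hg, ba_bf, ba_TP]
    have e2 : g y = f ((pr (Nn n) (wn n) (Bn n) y.1.val : ℕ) : ZMod (Nn n)) := by
      rw [hg, ba_bf]
    split_ifs with hc
    · have h1 : ‖g (((TP (n+1)) ^ L) y) + (-1) * g y‖ ≤ 2 * C := by
        refine (norm_add_le _ _).trans ?_
        rw [norm_mul, norm_neg, norm_one, one_mul, e1, e2]
        linarith [hf ((pr (Nn n) (wn n) (Bn n) (y.1 + ((3 * L : ℕ) : ZMod (Nn (n+1)))).val : ℕ) : ZMod (Nn n)),
          hf ((pr (Nn n) (wn n) (Bn n) y.1.val : ℕ) : ZMod (Nn n))]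
      exact pow_le_pow_left₀ (norm_nonneg _) h1 2
    · push Not at hc
      rw [e1, e2, ba_F n f L hLd y.1 hc]
      simp
  have hsum : (∑ y : Om (n+1), ‖g (((TP (n+1)) ^ L) y) + (-1) * g y‖ ^ 2) ≤
      5 * (((Finset.univ.filter (fun u : ZMod (Nn (n+1)) => WW (Nn n) (Bn n) ≤ dx (Nn n) (Bn n) 0 u.val + 3 * L)).card : ℝ) * (2 * C) ^ 2) := by
    refine (Finset.sum_le_sum (fun y _ => hbound y)).trans (le_of_eq ?_)
    have key : ∀ (a : ℝ) (P : ZMod (Nn (n+1)) → Prop) [DecidablePred P],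
        (∑ y : ZMod (Nn (n+1)) × ZMod 5, if P y.1 then a else 0) =
          5 * (((Finset.univ.filter P).card : ℝ) * a) := by
      intro a P _
      rw [Fintype.sum_prod_type]
      have h5 : ∀ x : ZMod (Nn (n+1)), (∑ _k : ZMod 5, if P x then a else 0) = 5 * (if P x then a else 0) := by
        intro x
        rw [Finset.sum_const, Finset.card_univ, ZMod.card, nsmul_eq_mul]
        norm_num
      rw [Finset.sum_congr rfl (fun x _ => h5 x), ← Finset.mul_sum, ← Finset.sum_filter, Finset.sum_const, nsmul_eq_mul]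
    exact key ((2 * C) ^ 2) (fun u => WW (Nn n) (Bn n) ≤ dx (Nn n) (Bn n) 0 u.val + 3 * L)
  have hcard := ba_card n (3 * L) hLW2
  set D : ℝ := ((Finset.univ.filter (fun u : ZMod (Nn (n+1)) => WW (Nn n) (Bn n) ≤ dx (Nn n) (Bn n) 0 u.val + 3 * L)).card : ℝ) with hD
  have hW0 : (0:ℝ) < WW (Nn n) (Bn n) := by
    have : 0 < WW (Nn n) (Bn n) := by unfold WW; positivity
    exact_mod_cast this
  have hLWR : 12 * (Bn n : ℝ) ^ 2 * (3 * L : ℕ) ≤ WW (Nn n) (Bn n) := by exact_mod_cast hLW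
  have hD0 : 0 ≤ D := by rw [hD]; positivity
  -- D / M ≤ 3L / W ≤ 1 / (12 B^2)
  have hDM : 12 * (Bn n : ℝ) ^ 2 * D ≤ Nn (n+1) := by
    have h1 : 12 * (Bn n : ℝ) ^ 2 * (D * WW (Nn n) (Bn n)) ≤ 12 * (Bn n : ℝ) ^ 2 * (((3 * L : ℕ) : ℝ) * Nn (n+1)) :=
      mul_le_mul_of_nonneg_left hcard (by positivity)
    have h2 : 12 * (Bn n : ℝ) ^ 2 * (((3 * L : ℕ) : ℝ) * Nn (n+1)) ≤ WW (Nn n) (Bn n) * Nn (n+1) := by
      rw [← mul_assoc]; exact mul_le_mul_of_nonneg_right hLWR hM0.le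
    have h3 : (12 * (Bn n : ℝ) ^ 2 * D) * WW (Nn n) (Bn n) ≤ Nn (n+1) * WW (Nn n) (Bn n) := by
      calc (12 * (Bn n : ℝ) ^ 2 * D) * WW (Nn n) (Bn n) = 12 * (Bn n : ℝ) ^ 2 * (D * WW (Nn n) (Bn n)) := by ring
        _ ≤ _ := h1
        _ ≤ _ := h2
        _ = _ := by ring
    exact le_of_mul_le_mul_right h3 hW0
  rw [hcardO, div_le_iff₀ (by positivity), div_pow, div_mul_eq_mul_div, le_div_iff₀ (by positivity)]
  have hC2 : 0 ≤ C ^ 2 := by positivity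
  have hB2 : (0:ℝ) < (Bn n : ℝ) ^ 2 := by positivity
  calc (∑ y : Om (n+1), ‖g (((TP (n+1)) ^ L) y) + (-1) * g y‖ ^ 2) * (Bn n : ℝ) ^ 2
      ≤ (5 * (D * (2 * C) ^ 2)) * (Bn n : ℝ) ^ 2 := mul_le_mul_of_nonneg_right hsum hB2.le
    _ = (5 * C ^ 2) * (4 * (Bn n : ℝ) ^ 2 * D) := by ring
    _ ≤ (5 * C ^ 2) * (Nn (n+1)) := by
        apply mul_le_mul_of_nonneg_left _ (by positivity)
        nlinarith [mul_nonneg hB2.le hD0]
    _ = C ^ 2 * ((Nn (n+1)) * 5) := by ring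
theorem base_avg (c : Ctx) (n : ℕ) (f : ZMod (Nn n) → ℂ) (C : ℝ) (hf : ∀ u, ‖f u‖ ≤ C) :
    ‖opP c.UT (QQ n) (J c.hμ n (bf n 0 f)) - J c.hμ n (bf n 0 f)‖ ≤ C * th n := by
  classical
  obtain ⟨hN12, hw3, hN12', hB12, hBeq, hWdvd⟩ := lev_dvd n
  have hN0 : 0 < Nn n := Nn_pos n
  have hB0 : 0 < Bn n := by rw [← hBeq]; positivity
  have hBR : (0:ℝ) < Bn n := by exact_mod_cast hB0
  have hBR1 : (1:ℝ) ≤ Bn n := by exact_mod_cast hB0
  have hC0 : 0 ≤ C := (norm_nonneg _).trans (hf 0)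
  have hδ0 : 0 ≤ δδ (n+1) := by unfold δδ; positivity
  have hJ : J c.hμ (n+1) (bf (n+1) 0 (fun u => f ((pr (Nn n) (wn n) (Bn n) u.val : ℕ) : ZMod (Nn n)))) = J c.hμ n (bf n 0 f) :=
    (bf_norm c n 0 f).2.2
  set v := J c.hμ n (bf n 0 f) with hv
  have hstep : ∀ i ∈ Finset.range (Bn n), ‖(c.UT ^ LL (Nn n) (Bn n) i) v - v‖ ≤
      C * (1 / Real.sqrt (Bn n) + (LL (Nn n) (Bn n) (Bn n) : ℝ) * δδ (n + 1)) := by
    intro i hi
    rw [Finset.mem_range] at hi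
    have h1 := isLim_pow c.hμ TP δδ c.UT c.lT (n+1) (LL (Nn n) (Bn n) i)
      (bf (n+1) 0 (fun u => f ((pr (Nn n) (wn n) (Bn n) u.val : ℕ) : ZMod (Nn n)))) C
      (fun y => by rw [ba_bf]; exact hf _)
    have h2 := ba_diff c n f C hf i hi
    rw [hJ] at h1 h2
    have h3 : ‖(c.UT ^ LL (Nn n) (Bn n) i) v - v‖ ≤ (LL (Nn n) (Bn n) i : ℕ) * (C * δδ (n+1)) + C / Bn n := by
      refine (norm_sub_le_norm_sub_add_norm_sub _ _ _).trans (add_le_add h1 h2)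
    refine h3.trans ?_
    have h4 : (LL (Nn n) (Bn n) i : ℝ) ≤ LL (Nn n) (Bn n) (Bn n) := by
      have : LL (Nn n) (Bn n) i ≤ LL (Nn n) (Bn n) (Bn n) := by
        unfold LL
        exact Nat.mul_le_mul_left _ (Nat.pow_le_pow_right hB0 (by omega))
      exact_mod_cast this
    have h5 : C / Bn n ≤ C * (1 / Real.sqrt (Bn n)) := by
      rw [mul_one_div]
      apply div_le_div_of_nonneg_left hC0 (Real.sqrt_pos.mpr hBR)
      exact (Real.sqrt_le_left hBR.le).mpr (by nlinarith)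
    have h6 : (LL (Nn n) (Bn n) i : ℝ) * (C * δδ (n+1)) ≤ LL (Nn n) (Bn n) (Bn n) * (C * δδ (n+1)) :=
      mul_le_mul_of_nonneg_right h4 (by positivity)
    have h7 : C * (1 / Real.sqrt (Bn n) + (LL (Nn n) (Bn n) (Bn n) : ℝ) * δδ (n + 1)) =
      C * (1 / Real.sqrt (Bn n)) + LL (Nn n) (Bn n) (Bn n) * (C * δδ (n+1)) := by ring
    rw [h7]
    linarith
  have hop : opP c.UT (QQ n) v - v = ∑ i ∈ Finset.range (Bn n), (1 / (Bn n : ℂ)) • ((c.UT ^ LL (Nn n) (Bn n) i) v - v) := by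
    unfold QQ
    rw [ba_opP_sum]
    simp only [smul_sub]
    rw [Finset.sum_sub_distrib, Finset.sum_const, Finset.card_range]
    have hBC : (Bn n : ℂ) ≠ 0 := by exact_mod_cast hB0.ne'
    congr 1
    rw [← Nat.cast_smul_eq_nsmul ℂ, smul_smul, mul_one_div, div_self hBC, one_smul]
  rw [hop]
  refine (norm_sum_le _ _).trans ?_
  have h8 : ∀ i ∈ Finset.range (Bn n), ‖(1 / (Bn n : ℂ)) • ((c.UT ^ LL (Nn n) (Bn n) i) v - v)‖ ≤
      (1 / (Bn n : ℝ)) * (C * (1 / Real.sqrt (Bn n) + (LL (Nn n) (Bn n) (Bn n) : ℝ) * δδ (n + 1))) := by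
    intro i hi
    rw [norm_smul, norm_div, norm_one, Complex.norm_natCast]
    exact mul_le_mul_of_nonneg_left (hstep i hi) (by positivity)
  refine (Finset.sum_le_sum h8).trans ?_
  rw [Finset.sum_const, Finset.card_range, nsmul_eq_mul, ← mul_assoc, mul_one_div, div_self hBR.ne', one_mul]
  apply mul_le_mul_of_nonneg_left _ hC0
  unfold th
  have h9 : 0 ≤ 1 / Real.sqrt (Bn n) := by positivity
  have h10 : 0 ≤ (LL (Nn n) (Bn n) (Bn n) : ℝ) * δδ (n + 1) := by positivity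
  have h11 : 0 ≤ Real.sqrt (ee n) := Real.sqrt_nonneg _
  linarith

end SM345
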