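import Pool.Agent.Helper345.SM.Defs
import Pool.Agent.Helper345.SM.base_avg
import Pool.Agent.Helper345.SM.th_facts
import Pool.Agent.Helper345.SM.Kc_approx
import Pool.Agent.Helper345.SM.bf_norm
import Pool.Agent.Helper345.SM.QQ_circle
import Pool.Agent.Helper345.SM.opP_basic

set_option autoImplicit false
set_option linter.unusedVariables false
set_option linter.style.longLine false

open MeasureTheory Filter Topology
open scoped ENNReal NNReal

noncomputable section

namespace SM345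

theorem base_avg_lim (c : Ctx) (F : Lp ℂ 2 c.μ) (hF : F ∈ c.Kc 0) :
    Tendsto (fun n => opP c.UT (QQ n) F) atTop (𝓝 F) := by
  obtain ⟨hmul, hadd, hC, hX, hlin, -, -, -⟩ := opP_basic c.UT
  have hnorm : ∀ n (f : Lp ℂ 2 c.μ), ‖opP c.UT (QQ n) f‖ ≤ ‖f‖ := by
    intro n f
    have hsum : ∀ (s : Finset ℕ) (P : ℕ → Polynomial ℂ),
        opP c.UT (∑ i ∈ s, P i) f = ∑ i ∈ s, opP c.UT (P i) f := by
      intro s P
      classical
      induction s using Finset.induction_on with
      | empty =>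
        have := hC 0 f
        rw [Polynomial.C_0, zero_smul] at this
        rw [Finset.sum_empty, Finset.sum_empty, this]
      | insert a s ha ih => rw [Finset.sum_insert ha, Finset.sum_insert ha, hadd, ih]
    unfold QQ
    rw [hsum]
    refine (norm_sum_le _ _).trans ?_
    have h1 : ∀ i ∈ Finset.range (Bn n), ‖opP c.UT (Polynomial.C (1 / (Bn n : ℂ)) *
        Polynomial.X ^ (LL (Nn n) (Bn n) i)) f‖ ≤ 1 / (Bn n : ℝ) * ‖f‖ := by
      intro i _
      rw [hmul, hC, hX, norm_smul, LinearIsometryEquiv.norm_map]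
      simp
    refine (Finset.sum_le_sum h1).trans ?_
    rw [Finset.sum_const, Finset.card_range, nsmul_eq_mul]
    rcases Nat.eq_zero_or_pos (Bn n) with h | h
    · rw [h]
      simp
    · have h2 : (0 : ℝ) < (Bn n : ℝ) := by exact_mod_cast h
      apply le_of_eq
      field_simp
  have hth : Tendsto th atTop (𝓝 0) := by
    obtain ⟨h1, h2, -⟩ := th_facts
    refine squeeze_zero h2 (fun n => ?_) h1
    have h3 : (1 : ℝ) ≤ (Nn n : ℝ) := by exact_mod_cast Nn_pos n
    have h4 : (1 : ℝ) ≤ (Nn n : ℝ) ^ 5 := one_le_pow₀ h3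
    nlinarith [h2 n]
  rw [Metric.tendsto_atTop]
  intro ε hε
  obtain ⟨m, f, hf⟩ := Kc_approx c 0 F hF (ε / 4) (by positivity)
  obtain ⟨C, hCf⟩ := (Set.finite_range (fun u => ‖f u‖)).bddAbove
  have hCb : ∀ u, ‖f u‖ ≤ C := fun u => hCf ⟨u, rfl⟩
  set G := J c.hμ m (bf m 0 f) with hG
  have hchain : ∀ k, ∃ g : ZMod (Nn (m + k)) → ℂ, (∀ u, ‖g u‖ ≤ C) ∧
      J c.hμ (m + k) (bf (m + k) 0 g) = G := by
    intro k
    induction k with
    | zero => exact ⟨f, hCb, rfl⟩
    | succ k ih =>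
      obtain ⟨g, hg1, hg2⟩ := ih
      refine ⟨fun u => g ((pr (Nn (m + k)) (wn (m + k)) (Bn (m + k)) u.val : ℕ) : ZMod (Nn (m + k))),
        fun u => hg1 _, ?_⟩
      exact (bf_norm c (m + k) 0 g).2.2.trans hg2
  have hG2 : ∀ n, m ≤ n → ‖opP c.UT (QQ n) G - G‖ ≤ C * th n := by
    intro n hn
    obtain ⟨k, rfl⟩ := Nat.exists_eq_add_of_le hn
    obtain ⟨g, hg1, hg2⟩ := hchain k
    have := base_avg c (m + k) g C hg1
    rw [hg2] at this
    exact this
  have hlim : Tendsto (fun n => C * th n) atTop (𝓝 0) := by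
    simpa using hth.const_mul C
  have hev := hlim.eventually (gt_mem_nhds (show (0 : ℝ) < ε / 2 by positivity))
  obtain ⟨N0, hN0⟩ := Filter.eventually_atTop.1 hev
  refine ⟨max m N0, fun n hn => ?_⟩
  rw [dist_eq_norm]
  have e1 : opP c.UT (QQ n) F - F = opP c.UT (QQ n) (F - G) + (opP c.UT (QQ n) G - G) - (F - G) := by
    have h1 : opP c.UT (QQ n) F = opP c.UT (QQ n) (F - G) + opP c.UT (QQ n) G := by
      rw [← hlin, sub_add_cancel]
    rw [h1]
    abel
  rw [e1]
  have h2 := norm_sub_le (opP c.UT (QQ n) (F - G) + (opP c.UT (QQ n) G - G)) (F - G)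
  have h3 := norm_add_le (opP c.UT (QQ n) (F - G)) (opP c.UT (QQ n) G - G)
  have h4 := hnorm n (F - G)
  have h5 := hG2 n (le_trans (le_max_left _ _) hn)
  have h6 := hN0 n (le_trans (le_max_right _ _) hn)
  have h7 : C * th n < ε / 2 := h6
  linarith

end SM345
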