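import Pool.Agent.Helper345.SM.Defs
import Pool.Agent.Helper345.SM.digit_count
import Pool.Agent.Helper345.SM.pr_s
import Pool.Agent.Helper345.SM.AA_change
import Pool.Agent.Helper345.SM.pr_per

set_option autoImplicit false
set_option linter.unusedVariables false
set_option linter.style.longLine false

open MeasureTheory Filter Topology
open scoped ENNReal NNReal

noncomputable section

namespace SM345

theorem errs_T_Bpos (n : ℕ) : 0 < Bn n := by
  have := Nn_pos n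
  show 0 < 12 * (Nn n * (n + 1)) ^ 12
  positivity

theorem errs_T_prmod (N w B v : ℕ) : pr N w B (v % NN N B) = pr N w B v := by
  simp [pr, dx, da, dc, Nat.mod_mod]

theorem errs_T_bad (n : ℕ) (z : Om (n+1)) (hz : pP n (TP (n+1) z) ≠ TP n (pP n z)) :
    WW (Nn n) (Bn n) ≤ dx (Nn n) (Bn n) 0 z.1.val + 3 ∨
      AA (Nn n) (Bn n) (z.1.val + 3) ≠ AA (Nn n) (Bn n) z.1.val := by
  by_contra hcon
  push Not at hcon
  obtain ⟨h1, h2⟩ := hcon
  obtain ⟨hd1, hd2, hd3, hd4, hd5, hd6⟩ := lev_dvd n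
  have hp := (pr_s (Nn n) (wn n) (Bn n) hd1 (Nn_pos n) hd2 (errs_T_Bpos n) z.1.val 3 h1).1
  apply hz
  have hval : (z.1 + 3).val = (z.1.val + 3) % NN (Nn n) (Bn n) := by
    have h3 : (3 : ZMod (Nn (n+1))) = ((3:ℕ) : ZMod (Nn (n+1))) := by norm_cast
    rw [h3, ZMod.val_add, ZMod.val_natCast, Nat.add_mod_mod]
    rfl
  have hA : pP n (TP (n+1) z) =
      (((pr (Nn n) (wn n) (Bn n) (z.1 + 3).val : ℕ) : ZMod (Nn n)),
        z.2 + phi' (Nn n) (wn n) (Bn n) (lev n).φ z.1.val) := rfl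
  have hB : TP n (pP n z) =
      (((pr (Nn n) (wn n) (Bn n) z.1.val : ℕ) : ZMod (Nn n)) + 3,
        z.2 + (lev n).φ (((pr (Nn n) (wn n) (Bn n) z.1.val : ℕ) : ZMod (Nn n)).val)) := rfl
  rw [hA, hB, hval, errs_T_prmod, hp, ZMod.natCast_mod, ZMod.val_natCast]
  have h4 : pr (Nn n) (wn n) (Bn n) z.1.val % Nn n = pr (Nn n) (wn n) (Bn n) z.1.val :=
    Nat.mod_eq_of_lt (Nat.mod_lt _ (Nn_pos n))
  rw [h4]
  refine Prod.ext ?_ ?_
  · show ((pr (Nn n) (wn n) (Bn n) z.1.val + 3 : ℕ) : ZMod (Nn n)) = _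
    push_cast
    rfl
  · show z.2 + phi' (Nn n) (wn n) (Bn n) (lev n).φ z.1.val =
      z.2 + (lev n).φ (pr (Nn n) (wn n) (Bn n) z.1.val)
    unfold phi'
    rw [h2, add_sub_cancel_right]

theorem errs_T (n : ℕ) : errs pP TP n ≤ ee n := by
  classical
  have hN := Nn_pos n
  have hB := errs_T_Bpos n
  obtain ⟨hd1, hd2, hd3, hd4, hd5, hd6⟩ := lev_dvd n
  set N := Nn n with hNdef
  set B := Bn n with hBdef
  have hNN : Nn (n+1) = NN N B := rfl
  set S1 := (Finset.range (NN N B)).filter (fun u => WW N B ≤ dx N B 0 u + 3) with hS1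
  set S2 := (Finset.range (NN N B)).filter (fun u => AA N B (u + 3) ≠ AA N B u) with hS2
  have hcard : ((Finset.univ.filter (fun z : Om (n+1) =>
      pP n (TP (n+1) z) ≠ TP n (pP n z))).card) ≤ (S1.card + S2.card) * 5 := by
    have h1 : ((Finset.univ.filter (fun z : Om (n+1) =>
        pP n (TP (n+1) z) ≠ TP n (pP n z))).card) ≤
        ((S1 ∪ S2) ×ˢ (Finset.univ : Finset (ZMod 5))).card := by
      refine Finset.card_le_card_of_injOn (fun z => (z.1.val, z.2)) ?_ ?_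
      · intro z hz
        have hz' : pP n (TP (n+1) z) ≠ TP n (pP n z) := by
          simpa using hz
        have h2 := errs_T_bad n z hz'
        have h3 : z.1.val < NN N B := ZMod.val_lt z.1
        simp only [Finset.coe_product, Finset.coe_union, Set.mem_prod, Set.mem_union,
          Finset.mem_coe, Finset.mem_univ, and_true, hS1, hS2, Finset.mem_filter,
          Finset.mem_range]
        rcases h2 with h2 | h2
        · exact Or.inl ⟨h3, h2⟩
        · exact Or.inr ⟨h3, h2⟩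
      · intro z _ z' _ h
        simp only [Prod.mk.injEq] at h
        exact Prod.ext (ZMod.val_injective _ h.1) h.2
    refine h1.trans ?_
    rw [Finset.card_product]
    have h2 : (Finset.univ : Finset (ZMod 5)).card = 5 := by decide
    rw [h2]
    exact Nat.mul_le_mul_right 5 (Finset.card_union_le _ _)
  have hOm : Fintype.card (Om (n+1)) = NN N B * 5 := by
    rw [Fintype.card_prod, ZMod.card, ZMod.card, hNN]
  have hW : 36 ≤ WW N B := by
    unfold WW
    have h1 : 0 < N * B ^ (B+2) := by positivity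
    calc 36 = 36 * 1 := rfl
      _ ≤ 36 * (N * B ^ (B+2)) := Nat.mul_le_mul_left 36 h1
      _ = 36 * N * B ^ (B+2) := by ring
  have hc1 := digit_count N B 3 0 hN hB (by norm_num) (by omega)
  have hc2 := AA_change N B hd1 hN hd4 hB
  have hNNpos : 0 < NN N B := hNN ▸ Nn_pos (n+1)
  have hNNR : (0:ℝ) < (NN N B : ℝ) := by exact_mod_cast hNNpos
  have hWR : (0:ℝ) < (WW N B : ℝ) := by
    have : 0 < WW N B := by omega
    exact_mod_cast this
  have hNBR : (0:ℝ) < (N:ℝ) * (B:ℝ) := by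
    have h1 : (0:ℝ) < (N:ℝ) := by exact_mod_cast hN
    have h2 : (0:ℝ) < (B:ℝ) := by exact_mod_cast hB
    positivity
  have hc1R : (S1.card : ℝ) = 3 / (WW N B : ℝ) * (NN N B : ℝ) := by
    have h1 : (S1.card : ℝ) * (WW N B : ℝ) = 3 * (NN N B : ℝ) := by exact_mod_cast hc1
    field_simp
    linarith
  have hWle : 3 * ((N:ℝ) * (B:ℝ)) ≤ (WW N B : ℝ) := by
    have h1 : 3 * (N * B) ≤ WW N B := by
      unfold WW
      have h2 : B ≤ B ^ (B + 2) := Nat.le_self_pow (by omega) B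
      calc 3 * (N * B) ≤ 36 * (N * B) := Nat.mul_le_mul_right _ (by norm_num)
        _ = 36 * N * B := by ring
        _ ≤ 36 * N * B ^ (B+2) := Nat.mul_le_mul_left _ h2
    exact_mod_cast h1
  have h3W : 3 / (WW N B : ℝ) ≤ 1 / ((N:ℝ) * (B:ℝ)) := by
    rw [div_le_div_iff₀ hWR hNBR]
    linarith
  unfold errs ee
  rw [hOm]
  have hden : (0:ℝ) < ((NN N B * 5 : ℕ) : ℝ) := by
    push_cast
    positivity
  rw [div_le_iff₀ hden]
  have hcardR : ((Finset.univ.filter (fun z : Om (n+1) =>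
      pP n (TP (n+1) z) ≠ TP n (pP n z))).card : ℝ) ≤ ((S1.card : ℝ) + S2.card) * 5 := by
    exact_mod_cast hcard
  refine hcardR.trans ?_
  have h5 : (S1.card : ℝ) + S2.card ≤ 4 / ((N:ℝ) * (B:ℝ)) * (NN N B : ℝ) := by
    calc (S1.card : ℝ) + S2.card ≤ 3 / (WW N B : ℝ) * (NN N B : ℝ)
          + (3 / ((N:ℝ) * (B:ℝ))) * (NN N B : ℝ) := by
          rw [hc1R]
          exact add_le_add le_rfl hc2
      _ ≤ 1 / ((N:ℝ) * (B:ℝ)) * (NN N B : ℝ) + (3 / ((N:ℝ) * (B:ℝ))) * (NN N B : ℝ) :=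
          add_le_add (mul_le_mul_of_nonneg_right h3W hNNR.le) le_rfl
      _ = 4 / ((N:ℝ) * (B:ℝ)) * (NN N B : ℝ) := by ring
  push_cast
  calc ((S1.card : ℝ) + S2.card) * 5 ≤ (4 / ((N:ℝ) * (B:ℝ)) * (NN N B : ℝ)) * 5 :=
        mul_le_mul_of_nonneg_right h5 (by norm_num)
    _ = 4 / ((N:ℝ) * (B:ℝ)) * ((NN N B : ℝ) * 5) := by ring

end SM345
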