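import Pool.Agent.Helper345.SM.Defs

set_option autoImplicit false
set_option linter.unusedVariables false
set_option linter.style.longLine false

open MeasureTheory Filter Topology
open scoped ENNReal NNReal

noncomputable section

namespace SM345

theorem errs_d (n : ℕ) : errs pP dP n ≤ ee n := by
  have h0 : (Finset.univ.filter (fun z : Om (n+1) => pP n (dP (n+1) z) ≠ dP n (pP n z))) = ∅ := by
    apply Finset.filter_false_of_mem
    intro z _ h
    exact h rfl
  have h1 : errs pP dP n = 0 := by
    unfold errs
    rw [h0]
    simp
  rw [h1]
  unfold ee
  positivity

end SM345
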