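import Pool.Agent.Helper345.SM.Defs
import Pool.Agent.Helper345.SM.pr_r
import Pool.Agent.Helper345.SM.pr_per

set_option autoImplicit false
set_option linter.unusedVariables false
set_option linter.style.longLine false

open MeasureTheory Filter Topology
open scoped ENNReal NNReal

noncomputable section

namespace SM345

theorem pr_mod_h298 (N w B v : ℕ) : pr N w B (v % NN N B) = pr N w B v := by
  unfold pr dx da dc
  simp only [Nat.mod_mod]

theorem errs_r (n : ℕ) : errs pP rP n ≤ ee n := by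
  have hz : ∀ z : Om (n + 1), pP n (rP (n + 1) z) = rP n (pP n z) := by
    intro z
    obtain ⟨h12, h3, h4, h5, h6, h7⟩ := lev_dvd n
    have hN := Nn_pos n
    have hB : 0 < Bn n := by
      rw [← h6]
      positivity
    obtain ⟨h8, h9⟩ := pr_r (Nn n) (wn n) (Bn n) h12 hN h3 hB z.1.val
    show pP n (rF (n + 1) z) = rF n (pP n z)
    refine Prod.ext ?_ rfl
    show ((pr (Nn n) (wn n) (Bn n) (z.1 + ((Nn (n + 1) / 4 : ℕ) : ZMod (Nn (n + 1)))).val : ℕ) :
      ZMod (Nn n)) = ((pr (Nn n) (wn n) (Bn n) z.1.val : ℕ) : ZMod (Nn n)) +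
        ((Nn n / 4 : ℕ) : ZMod (Nn n))
    rw [ZMod.val_add, ZMod.val_natCast, Nat.add_mod_mod]
    have e1 : pr (Nn n) (wn n) (Bn n) ((z.1.val + Nn (n + 1) / 4) % Nn (n + 1)) =
        pr (Nn n) (wn n) (Bn n) (z.1.val + Nn (n + 1) / 4) := pr_mod_h298 _ _ _ _
    have e2 : pr (Nn n) (wn n) (Bn n) (z.1.val + Nn (n + 1) / 4) =
        (pr (Nn n) (wn n) (Bn n) z.1.val + Nn n / 4) % Nn n := h8
    rw [e1, e2, ZMod.natCast_mod, Nat.cast_add]
  have h0 : errs pP rP n = 0 := by
    unfold errs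
    have : Finset.univ.filter (fun z : Om (n + 1) => pP n (rP (n + 1) z) ≠ rP n (pP n z)) = ∅ := by
      apply Finset.filter_eq_empty_iff.mpr
      intro z _ h
      exact h (hz z)
    rw [this]
    simp
  rw [h0]
  unfold ee
  positivity

end SM345
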