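import Pool.Agent.Helper345.SM.Defs
import Pool.Agent.Helper345.SM.digit_count
import Pool.Agent.Helper345.SM.pr_s

set_option autoImplicit false
set_option linter.unusedVariables false
set_option linter.style.longLine false

open MeasureTheory Filter Topology
open scoped ENNReal NNReal

noncomputable section

namespace SM345

theorem errs_s_pr_mod (N w B u : ℕ) : pr N w B (u % NN N B) = pr N w B u := by
  unfold pr dx da dc
  simp only [Nat.mod_mod]

theorem errs_s_good (n : ℕ) (z : Om (n + 1))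
    (h : dx (Nn n) (Bn n) 0 z.1.val + 1 < WW (Nn n) (Bn n)) :
    pP n (sP (n + 1) z) = sP n (pP n z) := by
  obtain ⟨hd1, hd2, hd3, hd4, -, -⟩ := lev_dvd n
  have hB : 0 < Bn n := by
    unfold Bn BB
    have := Nn_pos n
    positivity
  obtain ⟨v, c⟩ := z
  have h1 := (pr_s (Nn n) (wn n) (Bn n) hd1 (Nn_pos n) hd2 hB v.val 1 h).1
  have h2 : (v + 1).val = (v.val + 1) % NN (Nn n) (Bn n) := by
    rw [ZMod.val_add, ZMod.val_one_eq_one_mod, Nat.add_mod_mod]
    rfl
  show ((((pr (Nn n) (wn n) (Bn n) (v + 1).val : ℕ) : ZMod (Nn n)), c) : Om n) =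
    (((pr (Nn n) (wn n) (Bn n) v.val : ℕ) : ZMod (Nn n)) + 1, c)
  rw [h2, errs_s_pr_mod, h1, ZMod.natCast_mod]
  push_cast
  rfl

theorem errs_s_count (n : ℕ) :
    ((Finset.univ.filter (fun z : Om (n + 1) => pP n (sP (n + 1) z) ≠ sP n (pP n z))).card) *
      WW (Nn n) (Bn n) ≤ 5 * Nn (n + 1) := by
  have hB : 0 < Bn n := by
    unfold Bn BB
    have := Nn_pos n
    positivity
  have hW : 1 ≤ WW (Nn n) (Bn n) := by
    unfold WW
    have := Nn_pos n
    exact Nat.succ_le_of_lt (by positivity)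
  have h1 : (Finset.univ.filter (fun z : Om (n + 1) => pP n (sP (n + 1) z) ≠ sP n (pP n z))).card ≤
      ((Finset.univ.filter (fun v : ZMod (Nn (n + 1)) =>
        WW (Nn n) (Bn n) ≤ dx (Nn n) (Bn n) 0 v.val + 1)) ×ˢ (Finset.univ : Finset (ZMod 5))).card := by
    apply Finset.card_le_card
    intro z hz
    rw [Finset.mem_product]
    refine ⟨?_, Finset.mem_univ _⟩
    rw [Finset.mem_filter] at hz ⊢
    refine ⟨Finset.mem_univ _, ?_⟩
    by_contra h
    push Not at h
    exact hz.2 (errs_s_good n z h)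
  have h2 : (Finset.univ.filter (fun v : ZMod (Nn (n + 1)) =>
        WW (Nn n) (Bn n) ≤ dx (Nn n) (Bn n) 0 v.val + 1)).card ≤
      ((Finset.range (NN (Nn n) (Bn n))).filter (fun u =>
        WW (Nn n) (Bn n) ≤ dx (Nn n) (Bn n) 0 u + 1)).card := by
    refine Finset.card_le_card_of_injOn (fun v => v.val) ?_ ?_
    · intro v hv
      have hv' := (Finset.mem_filter.1 (Finset.mem_coe.1 hv)).2
      refine Finset.mem_coe.2 (Finset.mem_filter.2 ⟨Finset.mem_range.2 ?_, hv'⟩)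
      exact ZMod.val_lt v
    · intro v _ v' _ h
      exact ZMod.val_injective _ h
  have h3 := digit_count (Nn n) (Bn n) 1 0 (Nn_pos n) hB (by norm_num) hW
  rw [Finset.card_product, Finset.card_univ, ZMod.card] at h1
  calc _ ≤ (((Finset.range (NN (Nn n) (Bn n))).filter (fun u =>
        WW (Nn n) (Bn n) ≤ dx (Nn n) (Bn n) 0 u + 1)).card * 5) * WW (Nn n) (Bn n) :=
        Nat.mul_le_mul_right _ (h1.trans (Nat.mul_le_mul_right _ h2))
    _ = 5 * (((Finset.range (NN (Nn n) (Bn n))).filter (fun u =>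
        WW (Nn n) (Bn n) ≤ dx (Nn n) (Bn n) 0 u + 1)).card * WW (Nn n) (Bn n)) := by ring
    _ = 5 * NN (Nn n) (Bn n) := by rw [h3, one_mul]
    _ = 5 * Nn (n + 1) := rfl
theorem errs_s (n : ℕ) : errs pP sP n ≤ ee n := by
  have hN := Nn_pos n
  have hB : 0 < Bn n := by
    unfold Bn BB
    positivity
  have hW : Nn n * Bn n ≤ WW (Nn n) (Bn n) := by
    unfold WW
    have h1 : 1 ≤ Bn n ^ (Bn n + 1) := Nat.one_le_pow _ _ hB
    calc Nn n * Bn n = Nn n * (1 * Bn n) := by ring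
      _ ≤ Nn n * (Bn n ^ (Bn n + 1) * Bn n) := by gcongr
      _ ≤ 36 * (Nn n * (Bn n ^ (Bn n + 1) * Bn n)) := by omega
      _ = 36 * Nn n * Bn n ^ (Bn n + 2) := by ring
  have hW0 : 0 < WW (Nn n) (Bn n) := lt_of_lt_of_le (Nat.mul_pos hN hB) hW
  have hc := errs_s_count n
  have hN' := Nn_pos (n + 1)
  unfold errs ee
  have hcard : (Fintype.card (Om (n + 1)) : ℝ) = 5 * Nn (n + 1) := by
    rw [Fintype.card_prod, ZMod.card, ZMod.card]
    push_cast
    ring
  rw [hcard, div_le_div_iff₀ (by positivity) (by positivity)]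
  have hc' : ((Finset.univ.filter (fun z : Om (n + 1) =>
      pP n (sP (n + 1) z) ≠ sP n (pP n z))).card : ℝ) * WW (Nn n) (Bn n) ≤ 5 * Nn (n + 1) := by
    exact_mod_cast hc
  have hW' : (Nn n : ℝ) * Bn n ≤ WW (Nn n) (Bn n) := by exact_mod_cast hW
  have h5 : (0 : ℝ) ≤ 5 * Nn (n + 1) := by positivity
  calc _ ≤ ((Finset.univ.filter (fun z : Om (n + 1) =>
      pP n (sP (n + 1) z) ≠ sP n (pP n z))).card : ℝ) * WW (Nn n) (Bn n) :=
        mul_le_mul_of_nonneg_left hW' (Nat.cast_nonneg _)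
    _ ≤ 5 * Nn (n + 1) := hc'
    _ ≤ 4 * (5 * Nn (n + 1)) := by linarith

end SM345
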