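import Pool.Agent.Helper345.SM.Defs

set_option autoImplicit false
set_option linter.unusedVariables false
set_option linter.style.longLine false

open MeasureTheory Filter Topology
open scoped ENNReal NNReal

noncomputable section

namespace SM345

theorem dig_add_aux (W v e : ℕ) (h : v / W ^ e % W + 1 < W) :
    (∀ k, k < e → (v + W ^ e) / W ^ k % W = v / W ^ k % W) ∧
    ((v + W ^ e) / W ^ e % W = v / W ^ e % W + 1) ∧
    (∀ k, e < k → (v + W ^ e) / W ^ k = v / W ^ k) := by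
  have hW0 : 0 < W := by omega
  refine ⟨?_, ?_, ?_⟩
  · intro k hk
    obtain ⟨m, rfl⟩ : ∃ m, e = k + 1 + m := ⟨e - k - 1, by omega⟩
    have h1 : W ^ (k + 1 + m) = W ^ k * (W * W ^ m) := by ring
    rw [h1, Nat.add_mul_div_left _ _ (by positivity), Nat.add_mul_mod_self_left]
  · have h1 : (v + W ^ e) / W ^ e = v / W ^ e + 1 := by
      rw [Nat.add_div_right _ (by positivity)]
    rw [h1, Nat.add_mod, Nat.mod_eq_of_lt (by omega : 1 < W), Nat.mod_eq_of_lt h]
  · intro k hk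
    obtain ⟨m, rfl⟩ : ∃ m, k = e + 1 + m := ⟨k - e - 1, by omega⟩
    have h1 : W ^ (e + 1 + m) = W ^ e * W * W ^ m := by ring
    rw [h1]
    have h2 : ∀ y : ℕ, y / (W ^ e * W * W ^ m) = y / W ^ e / W / W ^ m := by
      intro y
      rw [Nat.div_div_eq_div_mul, Nat.div_div_eq_div_mul, mul_assoc]
    rw [h2, h2]
    congr 1
    rw [Nat.add_div_right _ (by positivity)]
    obtain ⟨a, ha⟩ : ∃ a, a = v / W ^ e := ⟨_, rfl⟩
    rw [← ha] at h ⊢
    have h3 : a + 1 = (a % W + 1) + W * (a / W) := by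
      have := Nat.mod_add_div a W
      omega
    rw [h3, Nat.add_mul_div_left _ _ hW0, Nat.div_eq_of_lt h, zero_add]

theorem t_shift_aux (N B u e : ℕ) (hN0 : 0 < N) (he1 : 1 ≤ e) (he3 : e ≤ 3)
    (h : dx N B e u + 1 < WW N B) :
    (∀ k, k ≤ 3 → dx N B k (u + WW N B ^ e) = dx N B k u + (if k = e then 1 else 0)) ∧
    da N B (u + WW N B ^ e) = da N B u ∧ dc N B (u + WW N B ^ e) = dc N B u := by
  obtain ⟨W, hW⟩ : ∃ W, W = WW N B := ⟨_, rfl⟩
  obtain ⟨v, hv⟩ : ∃ v, v = u % NN N B := ⟨_, rfl⟩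
  have hM : NN N B = 4 * N * W ^ 4 := by rw [hW]; rfl
  have hh : v / W ^ e % W + 1 < W := by rw [hv, hW]; exact h
  obtain ⟨h1, h2, h3⟩ := dig_add_aux W v e hh
  have hW0 : 0 < W := by omega
  have hM0 : 0 < NN N B := by rw [hM]; positivity
  have hvM : v < 4 * N * W ^ 4 := by rw [hv, ← hM]; exact Nat.mod_lt _ hM0
  have hv' : v + W ^ e < NN N B := by
    rw [hM]
    have h4 := h3 4 (by omega)
    have h5 : v / W ^ 4 < 4 * N := by
      rw [Nat.div_lt_iff_lt_mul (by positivity)]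
      exact hvM
    rw [← h4, Nat.div_lt_iff_lt_mul (by positivity)] at h5
    exact h5
  have hmod : (u + W ^ e) % NN N B = v + W ^ e := by
    rw [← Nat.mod_add_mod, ← hv, Nat.mod_eq_of_lt hv']
  refine ⟨?_, ?_, ?_⟩
  · intro k hk
    unfold dx
    rw [← hW, hmod, ← hv]
    rcases lt_trichotomy k e with hlt | heq | hgt
    · rw [h1 k hlt, if_neg (by omega), add_zero]
    · rw [heq, h2, if_pos rfl]
    · rw [h3 k hgt, if_neg (by omega), add_zero]
  · unfold da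
    rw [← hW, hmod, ← hv, h3 4 (by omega)]
  · unfold dc
    rw [← hW, hmod, ← hv, ← Nat.div_div_eq_div_mul, ← Nat.div_div_eq_div_mul, h3 4 (by omega)]

theorem pr_mod3_aux (N w B : ℕ) (hN : 12 ∣ N) (hw : 3 ∣ w) (u : ℕ) :
    pr N w B u % 3 = (u + da N B u) % 3 := by
  have h3N : 3 ∣ N := Dvd.dvd.trans (by norm_num) hN
  have h3N4 : 3 ∣ N / 4 := by
    obtain ⟨q, rfl⟩ := hN
    exact ⟨q, by omega⟩
  have h3M : 3 ∣ NN N B := by
    unfold NN
    exact Dvd.dvd.mul_right (Dvd.dvd.mul_left h3N 4) _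
  have h3W : 3 ∣ WW N B := by
    unfold WW
    exact Dvd.dvd.mul_right (Dvd.dvd.mul_left h3N 36) _
  have hx0 : dx N B 0 u % 3 = u % 3 := by
    unfold dx
    rw [pow_zero, Nat.div_one, Nat.mod_mod_of_dvd _ h3W, Nat.mod_mod_of_dvd _ h3M]
  have hs : 3 ∣ ∑ i ∈ Finset.range 3, w ^ ((i + da N B u) % 3 + 1) * dx N B (i + 1) u := by
    apply Finset.dvd_sum
    intro i _
    apply Dvd.dvd.mul_right
    rw [pow_succ]
    exact Dvd.dvd.mul_left hw _
  have hc : 3 ∣ N / 4 * dc N B u := Dvd.dvd.mul_right h3N4 _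
  unfold pr
  rw [Nat.mod_mod_of_dvd _ h3N]
  obtain ⟨a, ha⟩ := hs
  obtain ⟨b, hb⟩ := hc
  rw [ha, hb]
  omega

theorem pr_t (N w B : ℕ) (hN : 12 ∣ N) (hN0 : 0 < N) (hw : 3 ∣ w) (hB : 0 < B) (u j : ℕ)
    (h : dx N B ((u + 2 * j) % 3 + 1) u + 1 < WW N B) :
    pr N w B (u + WW N B ^ ((u + 2 * j) % 3 + 1))
      = (pr N w B u + w ^ ((pr N w B u + 2 * j) % 3 + 1)) % N := by
  obtain ⟨i, hi⟩ : ∃ i, i = (u + 2 * j) % 3 := ⟨_, rfl⟩
  rw [← hi] at h ⊢
  have hi3 : i < 3 := by rw [hi]; exact Nat.mod_lt _ (by norm_num)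
  obtain ⟨h1, h2, h3⟩ := t_shift_aux N B u (i + 1) hN0 (by omega) (by omega) h
  have hpr := pr_mod3_aux N w B hN hw u
  have hexp : (pr N w B u + 2 * j) % 3 = (i + da N B u) % 3 := by
    rw [hi]; omega
  rw [hexp]
  have hx0 : dx N B 0 (u + WW N B ^ (i + 1)) = dx N B 0 u := by
    rw [h1 0 (by omega), if_neg (by omega), add_zero]
  have hsum : ∑ k ∈ Finset.range 3, w ^ ((k + da N B u) % 3 + 1)
        * dx N B (k + 1) (u + WW N B ^ (i + 1))
      = ∑ k ∈ Finset.range 3, w ^ ((k + da N B u) % 3 + 1) * dx N B (k + 1) u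
        + w ^ ((i + da N B u) % 3 + 1) := by
    have h4 : ∀ k ∈ Finset.range 3, w ^ ((k + da N B u) % 3 + 1)
        * dx N B (k + 1) (u + WW N B ^ (i + 1))
        = w ^ ((k + da N B u) % 3 + 1) * dx N B (k + 1) u
          + (if k = i then w ^ ((k + da N B u) % 3 + 1) else 0) := by
      intro k hk
      rw [Finset.mem_range] at hk
      rw [h1 (k + 1) (by omega)]
      by_cases hki : k = i
      · rw [if_pos (by omega), if_pos hki]; ring
      · rw [if_neg (by omega), if_neg hki, add_zero, add_zero]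
    rw [Finset.sum_congr rfl h4, Finset.sum_add_distrib, Finset.sum_ite_eq' (Finset.range 3) i,
      if_pos (Finset.mem_range.mpr hi3)]
  unfold pr
  rw [h2, h3, hx0, hsum, Nat.mod_add_mod]
  congr 1
  ring

end SM345
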