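import Pool.Agent.Helper345.SM.Defs
import Pool.Agent.Helper345.SM.digit_count
import Pool.Agent.Helper345.SM.pr_t
import Pool.Agent.Helper345.SM.pr_per

set_option autoImplicit false
set_option linter.unusedVariables false
set_option linter.style.longLine false

open MeasureTheory Filter Topology
open scoped ENNReal NNReal

noncomputable section

namespace SM345

theorem errs_t_Bpos (n : ℕ) : 0 < Bn n := by
  have := Nn_pos n
  unfold Bn BB
  positivity

theorem errs_t_pr_mod (N w B u : ℕ) : pr N w B (u % NN N B) = pr N w B u := by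
  unfold pr dx da dc
  simp only [Nat.mod_mod]

theorem errs_t_good (j n : ℕ) (z : Om (n + 1))
    (h : dx (Nn n) (Bn n) ((z.1.val + 2 * j) % 3 + 1) z.1.val + 1 < WW (Nn n) (Bn n)) :
    pP n (tP j (n + 1) z) = tP j n (pP n z) := by
  obtain ⟨x, y⟩ := z
  simp only at h
  have hd := lev_dvd n
  have hp := pr_t (Nn n) (wn n) (Bn n) hd.1 (Nn_pos n) hd.2.1 (errs_t_Bpos n) x.val j h
  have e1 : tP j (n + 1) (x, y) = (x + ((wn (n + 1) ^ ((x.val + 2 * j) % 3 + 1) : ℕ) :
    ZMod (Nn (n + 1))), y) := rfl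
  have e2 : pP n (x, y) = (((pr (Nn n) (wn n) (Bn n) x.val : ℕ) : ZMod (Nn n)), y) := rfl
  have e3 : ∀ q : Om n, tP j n q = (q.1 + ((wn n ^ ((q.1.val + 2 * j) % 3 + 1) : ℕ) :
    ZMod (Nn n)), q.2) := fun _ => rfl
  have e4 : ∀ q : Om (n + 1), pP n q = (((pr (Nn n) (wn n) (Bn n) q.1.val : ℕ) : ZMod (Nn n)), q.2) :=
    fun _ => rfl
  rw [e1, e2, e3, e4]
  refine Prod.ext ?_ rfl
  simp only
  have hlt : pr (Nn n) (wn n) (Bn n) x.val < Nn n := by
    unfold pr
    exact Nat.mod_lt _ (Nn_pos n)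
  have hv : ((pr (Nn n) (wn n) (Bn n) x.val : ℕ) : ZMod (Nn n)).val =
      pr (Nn n) (wn n) (Bn n) x.val := ZMod.val_cast_of_lt hlt
  have hval : (x + ((wn (n + 1) ^ ((x.val + 2 * j) % 3 + 1) : ℕ) : ZMod (Nn (n + 1)))).val =
      (x.val + WW (Nn n) (Bn n) ^ ((x.val + 2 * j) % 3 + 1)) % NN (Nn n) (Bn n) := by
    rw [ZMod.val_add, ZMod.val_natCast, Nat.add_mod_mod]
    rfl
  rw [hval, errs_t_pr_mod, hp, hv, ZMod.natCast_mod]
  push_cast
  rfl

theorem errs_t (j n : ℕ) : errs pP (tP j) n ≤ ee n := by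
  have hB := errs_t_Bpos n
  have hN := Nn_pos n
  have hW : 0 < WW (Nn n) (Bn n) := by unfold WW; positivity
  have hM : 0 < NN (Nn n) (Bn n) := by unfold NN; positivity
  unfold errs
  have hcard : Fintype.card (Om (n + 1)) = NN (Nn n) (Bn n) * 5 := by
    rw [Fintype.card_prod, ZMod.card, ZMod.card]
    rfl
  set S : ℕ → Finset ℕ := fun i => (Finset.range (NN (Nn n) (Bn n))).filter
    (fun u => WW (Nn n) (Bn n) ≤ dx (Nn n) (Bn n) i u + 1) with hS
  have hSc : ∀ i < 4, ((S i).card : ℝ) = (NN (Nn n) (Bn n) : ℝ) / (WW (Nn n) (Bn n) : ℝ) := by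
    intro i hi
    have h1 := digit_count (Nn n) (Bn n) 1 i hN hB hi hW
    rw [one_mul] at h1
    rw [eq_div_iff (by positivity)]
    exact_mod_cast h1
  have hbad : ((Finset.univ.filter (fun z : Om (n+1) =>
      pP n (tP j (n+1) z) ≠ tP j n (pP n z))).card : ℕ) ≤
      (((Finset.range 3).biUnion (fun i => S (i + 1))) ×ˢ (Finset.univ : Finset (ZMod 5))).card := by
    refine Finset.card_le_card_of_injOn (fun z : Om (n + 1) => (z.1.val, z.2)) ?_ ?_
    · intro z hz
      have hz' : pP n (tP j (n+1) z) ≠ tP j n (pP n z) := by simpa using hz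
      have h1 : WW (Nn n) (Bn n) ≤
          dx (Nn n) (Bn n) ((z.1.val + 2 * j) % 3 + 1) z.1.val + 1 := by
        by_contra hcon
        exact hz' (errs_t_good j n z (not_le.mp hcon))
      have h2 : z.1.val < NN (Nn n) (Bn n) := ZMod.val_lt z.1
      rw [Finset.mem_coe, Finset.mem_product]
      refine ⟨?_, Finset.mem_univ _⟩
      rw [Finset.mem_biUnion]
      refine ⟨(z.1.val + 2 * j) % 3, Finset.mem_range.mpr (Nat.mod_lt _ (by norm_num)), ?_⟩
      rw [hS]
      exact Finset.mem_filter.mpr ⟨Finset.mem_range.mpr h2, h1⟩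
    · intro z _ z' _ hzz
      simp only [Prod.mk.injEq] at hzz
      exact Prod.ext (ZMod.val_injective _ hzz.1) hzz.2
  have hcb : (((Finset.range 3).biUnion (fun i => S (i + 1))) ×ˢ
      (Finset.univ : Finset (ZMod 5))).card ≤ ((S 1).card + (S 2).card + (S 3).card) * 5 := by
    rw [Finset.card_product]
    have h5 : (Finset.univ : Finset (ZMod 5)).card = 5 := by simp [ZMod.card]
    rw [h5]
    refine Nat.mul_le_mul_right 5 (Finset.card_biUnion_le.trans (le_of_eq ?_))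
    simp [Finset.sum_range_succ]
  have hfin : ((Finset.univ.filter (fun z : Om (n+1) =>
      pP n (tP j (n+1) z) ≠ tP j n (pP n z))).card : ℝ) ≤
      (3 * ((NN (Nn n) (Bn n) : ℝ) / (WW (Nn n) (Bn n) : ℝ))) * 5 := by
    have h1 : ((Finset.univ.filter (fun z : Om (n+1) =>
      pP n (tP j (n+1) z) ≠ tP j n (pP n z))).card : ℝ) ≤
      ((((S 1).card + (S 2).card + (S 3).card) * 5 : ℕ) : ℝ) := Nat.cast_le.mpr (hbad.trans hcb)
    refine h1.trans (le_of_eq ?_)
    push_cast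
    rw [hSc 1 (by norm_num), hSc 2 (by norm_num), hSc 3 (by norm_num)]
    ring
  rw [hcard]
  have hMr : (0 : ℝ) < NN (Nn n) (Bn n) := by exact_mod_cast hM
  have hWr : (0 : ℝ) < WW (Nn n) (Bn n) := by exact_mod_cast hW
  have hNB : (0 : ℝ) < (Nn n : ℝ) * (Bn n : ℝ) := by positivity
  have hWN : (Nn n : ℝ) * (Bn n : ℝ) ≤ WW (Nn n) (Bn n) := by
    have h1 : Nn n * Bn n ≤ WW (Nn n) (Bn n) := by
      unfold WW
      have h2 : Bn n ≤ Bn n ^ (Bn n + 2) := Nat.le_self_pow (by omega) _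
      calc Nn n * Bn n ≤ Nn n * Bn n ^ (Bn n + 2) := Nat.mul_le_mul_left _ h2
        _ ≤ 36 * Nn n * Bn n ^ (Bn n + 2) := by
          rw [mul_assoc]; exact Nat.le_mul_of_pos_left _ (by norm_num)
    exact_mod_cast h1
  calc ((Finset.univ.filter (fun z : Om (n+1) =>
      pP n (tP j (n+1) z) ≠ tP j n (pP n z))).card : ℝ) / ((NN (Nn n) (Bn n) * 5 : ℕ) : ℝ)
      ≤ ((3 * ((NN (Nn n) (Bn n) : ℝ) / (WW (Nn n) (Bn n) : ℝ))) * 5) /
        ((NN (Nn n) (Bn n) * 5 : ℕ) : ℝ) := div_le_div_of_nonneg_right hfin (Nat.cast_nonneg _)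
    _ = 3 / (WW (Nn n) (Bn n) : ℝ) := by
        push_cast
        field_simp
    _ ≤ 3 / ((Nn n : ℝ) * (Bn n : ℝ)) := by
        exact div_le_div_of_nonneg_left (by norm_num) hNB hWN
    _ ≤ ee n := by
        unfold ee
        exact div_le_div_of_nonneg_right (by norm_num) hNB.le

end SM345
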