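import Pool.Agent.Helper345.SM.Defs

set_option autoImplicit false
set_option linter.unusedVariables false
set_option linter.style.longLine false

open MeasureTheory Filter Topology
open scoped ENNReal NNReal

noncomputable section

namespace SM345

/-! ### helper lemmas for the target -/

section LimProof

variable {Ω : ℕ → Type} {π : ∀ n, Ω (n+1) → Ω n}

theorem lm_ext_tail (v v' : XX Ω π) (M : ℕ) (h : ∀ m, M ≤ m → v.1 m = v'.1 m) : v = v' := by
  have key : ∀ k n, M ≤ n + k → v.1 n = v'.1 n := by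
    intro k
    induction k with
    | zero => intro n hn; exact h n (by omega)
    | succ k ih =>
      intro n hn
      rw [← v.2 n, ← v'.2 n, ih (n+1) (by omega)]
  apply Subtype.ext
  funext n
  exact key M n (by omega)

theorem lm_exists_tail (M : ℕ) (y : ∀ n, Ω n) (h : ∀ m, M ≤ m → π m (y (m+1)) = y m) :
    ∃ v : XX Ω π, ∀ m, M ≤ m → v.1 m = y m := by
  induction M generalizing y with
  | zero => exact ⟨⟨y, fun n => h n (by omega)⟩, fun m _ => rfl⟩
  | succ M ih =>
    obtain ⟨v, hv⟩ := ih (Function.update y M (π M (y (M+1)))) (by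
      intro m hm
      rcases Nat.eq_or_lt_of_le hm with rfl | hlt
      · rw [Function.update_of_ne (by omega), Function.update_self]
      · rw [Function.update_of_ne (by omega), Function.update_of_ne (by omega)]
        exact h m (by omega))
    exact ⟨v, fun m hm => by rw [hv m (by omega), Function.update_of_ne (by omega)]⟩

theorem lm_q (n m : ℕ) (h : n ≤ m) : ∃ q : Ω m → Ω n, ∀ v : XX Ω π, v.1 n = q (v.1 m) := by
  induction m, h using Nat.le_induction with
  | base => exact ⟨id, fun v => rfl⟩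
  | succ m hm ih =>
    obtain ⟨q, hq⟩ := ih
    exact ⟨fun z => q (π m z), fun v => by
      change v.1 n = q (π m (v.1 (m+1)))
      rw [hq v]
      exact congrArg q (v.2 m).symm⟩

/-- eventually `v = g x` -/
def lmR (g : ∀ n, Equiv.Perm (Ω n)) (x v : XX Ω π) : Prop :=
  ∃ M, ∀ m, M ≤ m → v.1 m = g m (x.1 m)

/-- good from level `M` on -/
def lmA (π : ∀ n, Ω (n+1) → Ω n) (g : ∀ n, Equiv.Perm (Ω n)) (M : ℕ) : Set (XX Ω π) :=
  {x | ∀ m, M ≤ m → π m (g (m+1) (x.1 (m+1))) = g m (x.1 m)}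

/-- eventually good -/
def lmD (π : ∀ n, Ω (n+1) → Ω n) (g : ∀ n, Equiv.Perm (Ω n)) : Set (XX Ω π) :=
  {x | ∃ M, x ∈ lmA π g M}

theorem lmR_unique {g : ∀ n, Equiv.Perm (Ω n)} {x v v' : XX Ω π} (h : lmR g x v)
    (h' : lmR g x v') : v = v' := by
  obtain ⟨M, hM⟩ := h
  obtain ⟨M', hM'⟩ := h'
  exact lm_ext_tail v v' (max M M') (fun m hm => by
    rw [hM m (le_trans (le_max_left _ _) hm), hM' m (le_trans (le_max_right _ _) hm)])

theorem lmR_symm {g : ∀ n, Equiv.Perm (Ω n)} {x v : XX Ω π} (h : lmR g x v) :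
    lmR (fun n => (g n).symm) v x := by
  obtain ⟨M, hM⟩ := h
  refine ⟨M, fun m hm => ?_⟩
  rw [hM m hm]
  exact ((g m).symm_apply_apply _).symm

theorem lmR_dom {g : ∀ n, Equiv.Perm (Ω n)} {x v : XX Ω π} (h : lmR g x v) :
    x ∈ lmD π g := by
  obtain ⟨M, hM⟩ := h
  refine ⟨M, fun m hm => ?_⟩
  rw [← hM m hm, ← hM (m+1) (by omega)]
  exact v.2 m

theorem lmR_of_A {g : ∀ n, Equiv.Perm (Ω n)} {x : XX Ω π} {M : ℕ} (h : x ∈ lmA π g M) :
    ∃ v : XX Ω π, ∀ m, M ≤ m → v.1 m = g m (x.1 m) :=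
  lm_exists_tail M (fun m => g m (x.1 m)) h

theorem lm_exists_F (g : ∀ n, Equiv.Perm (Ω n)) : ∃ F : XX Ω π → XX Ω π,
    (∀ x M, x ∈ lmA π g M → ∀ m, M ≤ m → (F x).1 m = g m (x.1 m)) ∧
    (∀ x, x ∉ lmD π g → F x = x) := by
  classical
  refine ⟨fun x => if h : ∃ v, lmR g x v then h.choose else x, ?_, ?_⟩
  · intro x M hx m hm
    obtain ⟨v, hv⟩ := lmR_of_A hx
    have h1 : ∃ v, lmR g x v := ⟨v, M, hv⟩
    simp only [dif_pos h1]
    rw [lmR_unique h1.choose_spec ⟨M, hv⟩]
    exact hv m hm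
  · intro x hx
    have h1 : ¬ ∃ v, lmR g x v := by
      rintro ⟨v, hv⟩
      exact hx (lmR_dom hv)
    simp only [dif_neg h1]

variable [∀ n, Fintype (Ω n)] [∀ n, Nonempty (Ω n)] [∀ n, DecidableEq (Ω n)]
  [∀ n, MeasurableSpace (Ω n)] [∀ n, MeasurableSingletonClass (Ω n)]

omit [∀ n, Fintype (Ω n)] [∀ n, Nonempty (Ω n)] [∀ n, DecidableEq (Ω n)]
  [∀ n, MeasurableSingletonClass (Ω n)] in
theorem lm_meas_coord (n : ℕ) : Measurable (fun x : XX Ω π => x.1 n) :=
  (measurable_pi_apply n).comp measurable_subtype_coe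

omit [∀ n, Nonempty (Ω n)] [∀ n, DecidableEq (Ω n)] in
theorem lm_meas_set (n : ℕ) (S : Set (Ω n)) : MeasurableSet {x : XX Ω π | x.1 n ∈ S} :=
  lm_meas_coord n (Set.toFinite S).measurableSet

theorem lm_mu_fin {μ : Measure (XX Ω π)} (hμ : UnifMeas μ) (n : ℕ) (S : Finset (Ω n)) :
    μ {x | x.1 n ∈ S} = (S.card : ℝ≥0∞) * (Fintype.card (Ω n) : ℝ≥0∞)⁻¹ := by
  have h1 : {x : XX Ω π | x.1 n ∈ S} = ⋃ y ∈ S, {x | x.1 n = y} := by
    ext x
    simp
  rw [h1, measure_biUnion_finset]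
  · simp [hμ.unif]
  · intro a _ b _ hab
    exact Set.disjoint_left.2 (fun x hx hx' => hab (hx.symm.trans hx'))
  · intro y _
    exact lm_meas_set n {y}

theorem lm_unique {μ ν : Measure (XX Ω π)} (hμ : UnifMeas μ) (hν : UnifMeas ν) : μ = ν := by
  have hp1 := hμ.prob
  have hp2 := hν.prob
  let C : Set (Set (XX Ω π)) := {s | s = ∅ ∨ ∃ (n : ℕ) (y : Ω n), s = {x | x.1 n = y}}
  have hgen : instMSXX Ω π = MeasurableSpace.generateFrom C := by
    apply le_antisymm
    · have h1 : @Measurable _ _ (MeasurableSpace.generateFrom C) _ (fun x : XX Ω π => x.1) := by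
        refine (@measurable_pi_iff (XX Ω π) ℕ Ω (MeasurableSpace.generateFrom C) _ _).2 ?_
        intro n
        refine @measurable_to_countable' (Ω n) (XX Ω π) _ _ (MeasurableSpace.generateFrom C) _ ?_
        intro y
        apply MeasurableSpace.measurableSet_generateFrom
        exact Or.inr ⟨n, y, rfl⟩
      exact h1.comap_le
    · apply MeasurableSpace.generateFrom_le
      rintro s (rfl | ⟨n, y, rfl⟩)
      · exact MeasurableSet.empty
      · exact lm_meas_set n {y}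
  have hpi : IsPiSystem C := by
    have key : ∀ (n m : ℕ) (y : Ω n) (z : Ω m), n ≤ m →
        ({x : XX Ω π | x.1 n = y} ∩ {x | x.1 m = z}).Nonempty →
        {x : XX Ω π | x.1 n = y} ∩ {x | x.1 m = z} = {x | x.1 m = z} := by
      intro n m y z hnm hne
      obtain ⟨x0, hx1, hx2⟩ := hne
      obtain ⟨q, hq⟩ := lm_q (π := π) n m hnm
      apply Set.inter_eq_right.2
      intro x hx
      have hx' : x.1 m = z := hx
      have hx1' : x0.1 n = y := hx1
      have hx2' : x0.1 m = z := hx2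
      change x.1 n = y
      rw [hq x, hx', ← hx2', ← hq x0, hx1']
    rintro s (rfl | ⟨n, y, rfl⟩) t (rfl | ⟨m, z, rfl⟩) hne
    · left; simp
    · left; simp
    · left; simp
    · right
      rcases le_total n m with h | h
      · exact ⟨m, z, key n m y z h hne⟩
      · rw [Set.inter_comm] at hne ⊢
        exact ⟨n, y, key m n z y h hne⟩
  apply ext_of_generate_finite C hgen hpi
  · rintro s (rfl | ⟨n, y, rfl⟩)
    · simp
    · rw [hμ.unif, hν.unif]
  · simp

theorem lm_meas_A (g : ∀ n, Equiv.Perm (Ω n)) (M : ℕ) : MeasurableSet (lmA π g M) := by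
  have h1 : lmA π g M = ⋂ m, ⋂ (_ : M ≤ m),
      {x : XX Ω π | x.1 (m+1) ∈ {z : Ω (m+1) | π m (g (m+1) z) = g m (π m z)}} := by
    ext x
    simp only [lmA, Set.mem_iInter, Set.mem_ofPred_eq, x.2]
  rw [h1]
  exact MeasurableSet.iInter (fun m => MeasurableSet.iInter (fun _ => lm_meas_set (m+1) _))

theorem lm_meas_D (g : ∀ n, Equiv.Perm (Ω n)) : MeasurableSet (lmD π g) := by
  have h1 : lmD π g = ⋃ M, lmA π g M := by
    ext x
    simp [lmD]
  rw [h1]
  exact MeasurableSet.iUnion (fun M => lm_meas_A g M)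

theorem lm_mu_bad {μ : Measure (XX Ω π)} (hμ : UnifMeas μ) (g : ∀ n, Equiv.Perm (Ω n)) (m : ℕ) :
    μ {x | π m (g (m+1) (x.1 (m+1))) ≠ g m (x.1 m)} = ENNReal.ofReal (errs π g m) := by
  have h1 : {x : XX Ω π | π m (g (m+1) (x.1 (m+1))) ≠ g m (x.1 m)} =
      {x | x.1 (m+1) ∈ Finset.univ.filter (fun z : Ω (m+1) => π m (g (m+1) z) ≠ g m (π m z))} := by
    ext x
    simp only [Finset.mem_filter, Finset.mem_univ, true_and, Set.mem_ofPred_eq, x.2]
  rw [h1, lm_mu_fin hμ]
  unfold errs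
  have h2 : (0 : ℝ) < (Fintype.card (Ω (m+1)) : ℝ) := by
    exact_mod_cast Fintype.card_pos
  rw [ENNReal.ofReal_div_of_pos h2, ENNReal.ofReal_natCast, ENNReal.ofReal_natCast,
    ENNReal.div_eq_inv_mul, mul_comm]

theorem lm_errs_nonneg (g : ∀ n, Equiv.Perm (Ω n)) (m : ℕ) : 0 ≤ errs π g m := by
  unfold errs
  positivity

theorem lm_mu_Ac {μ : Measure (XX Ω π)} (hμ : UnifMeas μ) (g : ∀ n, Equiv.Perm (Ω n))
    (e : ℕ → ℝ) (he : ∀ n, errs π g n ≤ e n) (hs : Summable e) (M : ℕ) :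
    μ (lmA π g M)ᶜ ≤ ENNReal.ofReal (∑' m, e (M + m)) := by
  have he0 : ∀ n, 0 ≤ e n := fun n => (lm_errs_nonneg g n).trans (he n)
  have hs' : Summable (fun m => e (M + m)) := hs.comp_injective (add_right_injective M)
  have h1 : (lmA π g M)ᶜ ⊆ ⋃ k : ℕ, {x : XX Ω π |
      π (M + k) (g (M + k + 1) (x.1 (M + k + 1))) ≠ g (M + k) (x.1 (M + k))} := by
    intro x hx
    have hx' : ¬ ∀ m, M ≤ m → π m (g (m+1) (x.1 (m+1))) = g m (x.1 m) := hx
    push Not at hx'
    obtain ⟨m, hm, hne⟩ := hx'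
    obtain ⟨k, rfl⟩ := Nat.exists_eq_add_of_le hm
    exact Set.mem_iUnion.2 ⟨k, hne⟩
  calc μ (lmA π g M)ᶜ ≤ μ (⋃ k : ℕ, {x : XX Ω π |
      π (M + k) (g (M + k + 1) (x.1 (M + k + 1))) ≠ g (M + k) (x.1 (M + k))}) := measure_mono h1
    _ ≤ ∑' k, μ {x : XX Ω π |
      π (M + k) (g (M + k + 1) (x.1 (M + k + 1))) ≠ g (M + k) (x.1 (M + k))} :=
        measure_iUnion_le _
    _ ≤ ∑' k, ENNReal.ofReal (e (M + k)) := by
        apply ENNReal.tsum_le_tsum
        intro k
        rw [lm_mu_bad hμ g (M + k)]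
        exact ENNReal.ofReal_le_ofReal (he _)
    _ = ENNReal.ofReal (∑' m, e (M + m)) :=
        (ENNReal.ofReal_tsum_of_nonneg (fun m => he0 _) hs').symm

theorem lm_tail (e : ℕ → ℝ) :
    Tendsto (fun M => ENNReal.ofReal (∑' m, e (M + m))) atTop (𝓝 0) := by
  have h1 := tendsto_sum_nat_add e
  have h2 : (fun i => ∑' k, e (k + i)) = fun M => ∑' m, e (M + m) := by
    funext i
    congr 1
    funext k
    rw [add_comm]
  rw [h2] at h1
  have h3 := ENNReal.tendsto_ofReal h1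
  rwa [ENNReal.ofReal_zero] at h3

theorem lm_mu_Dc {μ : Measure (XX Ω π)} (hμ : UnifMeas μ) (g : ∀ n, Equiv.Perm (Ω n))
    (e : ℕ → ℝ) (he : ∀ n, errs π g n ≤ e n) (hs : Summable e) :
    μ (lmD π g)ᶜ = 0 := by
  apply nonpos_iff_eq_zero.1
  apply ge_of_tendsto (lm_tail e)
  apply Eventually.of_forall
  intro M
  refine le_trans (measure_mono ?_) (lm_mu_Ac hμ g e he hs M)
  apply Set.compl_subset_compl.2
  intro x hx
  exact ⟨M, hx⟩

theorem lm_F {μ : Measure (XX Ω π)} (hμ : UnifMeas μ) (g : ∀ n, Equiv.Perm (Ω n))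
    (e : ℕ → ℝ) (he : ∀ n, errs π g n ≤ e n) (hs : Summable e) : ∃ F : XX Ω π → XX Ω π,
    (∀ x M, x ∈ lmA π g M → ∀ m, M ≤ m → (F x).1 m = g m (x.1 m)) ∧ MeasurePreserving F μ μ := by
  obtain ⟨F, hF1, hF2⟩ := lm_exists_F (π := π) g
  have hmeas : Measurable F := by
    have h1 : Measurable (fun x => (F x).1) := by
      refine measurable_pi_iff.2 (fun n => ?_)
      apply measurable_to_countable'
      intro y
      choose q hq using fun M => lm_q (π := π) n (n + M) (by omega)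
      have h2 : (fun x => (F x).1 n) ⁻¹' {y} =
          (⋃ M, lmA π g M ∩ {x | x.1 (n + M) ∈ {z | q M (g (n+M) z) = y}}) ∪
            ((lmD π g)ᶜ ∩ {x | x.1 n ∈ ({y} : Set (Ω n))}) := by
        ext x
        simp only [Set.mem_preimage, Set.mem_singleton_iff, Set.mem_union, Set.mem_iUnion,
          Set.mem_inter_iff, Set.mem_compl_iff, Set.mem_ofPred_eq]
        constructor
        · intro hx
          by_cases hD : x ∈ lmD π g
          · left
            obtain ⟨M, hM⟩ := hD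
            refine ⟨M, hM, ?_⟩
            rw [← hF1 x M hM (n + M) (by omega), ← hq M (F x), hx]
          · right
            refine ⟨hD, ?_⟩
            rw [hF2 x hD] at hx
            exact hx
        · rintro (⟨M, hM, hx⟩ | ⟨hD, hx⟩)
          · rw [← hF1 x M hM (n+M) (by omega), ← hq M (F x)] at hx
            exact hx
          · rw [hF2 x hD]
            exact hx
      rw [h2]
      exact (MeasurableSet.iUnion (fun M => (lm_meas_A g M).inter (lm_meas_set _ _))).union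
        ((lm_meas_D g).compl.inter (lm_meas_set _ _))
    exact Measurable.subtype_mk h1
  refine ⟨F, hF1, hmeas, ?_⟩
  have hp := hμ.prob
  symm
  apply lm_unique hμ
  refine ⟨Measure.isProbabilityMeasure_map hmeas.aemeasurable, ?_⟩
  intro n y
  rw [Measure.map_apply hmeas
    (show MeasurableSet {x : XX Ω π | x.1 n = y} from lm_meas_set n {y})]
  have hT : ∀ m, n ≤ m → ∃ T : Set (XX Ω π), μ T = (Fintype.card (Ω n) : ℝ≥0∞)⁻¹ ∧
      ∀ x ∈ lmA π g m, (x ∈ T ↔ x ∈ F ⁻¹' {x | x.1 n = y}) := by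
    intro m hm
    obtain ⟨q, hq⟩ := lm_q (π := π) n m hm
    refine ⟨{x | x.1 m ∈ Finset.univ.filter (fun z => q (g m z) = y)}, ?_, ?_⟩
    · have h1 : (Finset.univ.filter (fun z => q (g m z) = y)).card =
          (Finset.univ.filter (fun z => q z = y)).card :=
        Finset.card_equiv (g m) (by intro i; simp)
      rw [lm_mu_fin hμ, h1, ← lm_mu_fin hμ, ← hμ.unif n y]
      congr 1
      ext x
      simp only [Finset.mem_filter, Finset.mem_univ, true_and, Set.mem_ofPred_eq, hq x]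
    · intro x hx
      simp only [Finset.mem_filter, Finset.mem_univ, true_and, Set.mem_ofPred_eq,
        Set.mem_preimage]
      rw [← hF1 x m hx m le_rfl, ← hq (F x)]
  have hup : μ (F ⁻¹' {x | x.1 n = y}) ≤ (Fintype.card (Ω n) : ℝ≥0∞)⁻¹ := by
    have h1 : Tendsto (fun M => (Fintype.card (Ω n) : ℝ≥0∞)⁻¹ +
        ENNReal.ofReal (∑' m, e (M + m))) atTop (𝓝 ((Fintype.card (Ω n) : ℝ≥0∞)⁻¹ + 0)) :=
      tendsto_const_nhds.add (lm_tail e)
    rw [add_zero] at h1
    apply ge_of_tendsto h1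
    filter_upwards [eventually_ge_atTop n] with m hm
    obtain ⟨T, hT1, hT2⟩ := hT m hm
    rw [← hT1]
    calc μ (F ⁻¹' {x | x.1 n = y}) ≤ μ (T ∪ (lmA π g m)ᶜ) := by
          apply measure_mono
          intro x hx
          by_cases hxA : x ∈ lmA π g m
          · exact Or.inl ((hT2 x hxA).2 hx)
          · exact Or.inr hxA
      _ ≤ μ T + μ (lmA π g m)ᶜ := measure_union_le _ _
      _ ≤ _ := add_le_add le_rfl (lm_mu_Ac hμ g e he hs m)
  have hlo : (Fintype.card (Ω n) : ℝ≥0∞)⁻¹ ≤ μ (F ⁻¹' {x | x.1 n = y}) := by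
    have h1 : Tendsto (fun M => μ (F ⁻¹' {x | x.1 n = y}) +
        ENNReal.ofReal (∑' m, e (M + m))) atTop (𝓝 (μ (F ⁻¹' {x | x.1 n = y}) + 0)) :=
      tendsto_const_nhds.add (lm_tail e)
    rw [add_zero] at h1
    apply ge_of_tendsto h1
    filter_upwards [eventually_ge_atTop n] with m hm
    obtain ⟨T, hT1, hT2⟩ := hT m hm
    rw [← hT1]
    calc μ T ≤ μ (F ⁻¹' {x | x.1 n = y} ∪ (lmA π g m)ᶜ) := by
          apply measure_mono
          intro x hx
          by_cases hxA : x ∈ lmA π g m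
          · exact Or.inl ((hT2 x hxA).1 hx)
          · exact Or.inr hxA
      _ ≤ μ (F ⁻¹' {x | x.1 n = y}) + μ (lmA π g m)ᶜ := measure_union_le _ _
      _ ≤ _ := add_le_add le_rfl (lm_mu_Ac hμ g e he hs m)
  exact le_antisymm hup hlo

theorem lm_errs_symm (g : ∀ n, Equiv.Perm (Ω n)) (n : ℕ) :
    errs π (fun n => (g n).symm) n = errs π g n := by
  unfold errs
  congr 2
  symm
  apply Finset.card_equiv (g (n+1))
  intro w
  simp only [Finset.mem_filter, Finset.mem_univ, true_and, Equiv.symm_apply_apply]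
  constructor
  · intro h1 h2
    apply h1
    rw [h2, Equiv.apply_symm_apply]
  · intro h1 h2
    apply h1
    rw [h2, Equiv.symm_apply_apply]

theorem lm_main {μ : Measure (XX Ω π)} (hμ : UnifMeas μ)
    (g : ∀ n, Equiv.Perm (Ω n)) (e : ℕ → ℝ) (he : ∀ n, errs π g n ≤ e n) (hs : Summable e) :
    ∃ G : XX Ω π ≃ᵐ XX Ω π, MeasurePreserving G μ μ ∧
      ∀ n, (μ {x | (G x).1 n ≠ g n (x.1 n)}).toReal ≤ ∑' m, e (n + m) := by
  classical
  have hp := hμ.prob
  let g' : ∀ n, Equiv.Perm (Ω n) := fun n => (g n).symm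
  have he' : ∀ n, errs π g' n ≤ e n := fun n => by
    change errs π (fun n => (g n).symm) n ≤ e n
    rw [lm_errs_symm]
    exact he n
  obtain ⟨F, hF1, hF2⟩ := lm_F hμ g e he hs
  obtain ⟨H, hH1, hH2⟩ := lm_F hμ g' e he' hs
  have hFD : ∀ x ∈ lmD π g, lmR g x (F x) := by
    rintro x ⟨M, hM⟩
    exact ⟨M, hF1 x M hM⟩
  have hHD : ∀ x ∈ lmD π g', lmR g' x (H x) := by
    rintro x ⟨M, hM⟩
    exact ⟨M, hH1 x M hM⟩
  have hHF : ∀ x ∈ lmD π g, H (F x) = x := by
    intro x hx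
    have h1 : lmR g' (F x) x := lmR_symm (hFD x hx)
    exact lmR_unique (hHD _ (lmR_dom h1)) h1
  have hFH : ∀ x ∈ lmD π g', F (H x) = x := by
    intro x hx
    have h1 : lmR g (H x) x := lmR_symm (hHD x hx)
    exact lmR_unique (hFD _ (lmR_dom h1)) h1
  let P : Set (XX Ω π) := lmD π g ∩ lmD π g'
  have hPm : MeasurableSet P := (lm_meas_D g).inter (lm_meas_D g')
  have hPae : ∀ᵐ x ∂μ, x ∈ P := by
    have h1 : ∀ᵐ x ∂μ, x ∈ lmD π g := by
      rw [ae_iff]
      exact lm_mu_Dc hμ g e he hs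
    have h2 : ∀ᵐ x ∂μ, x ∈ lmD π g' := by
      rw [ae_iff]
      exact lm_mu_Dc hμ g' e he' hs
    filter_upwards [h1, h2] with x hx1 hx2
    exact ⟨hx1, hx2⟩
  let E : Set (XX Ω π) := {x | ∀ k, F^[k] x ∈ P ∧ H^[k] x ∈ P}
  have hEm : MeasurableSet E := by
    have h1 : E = ⋂ k, ((F^[k]) ⁻¹' P ∩ (H^[k]) ⁻¹' P) := by
      ext x
      simp only [Set.mem_iInter]
      rfl
    rw [h1]
    exact MeasurableSet.iInter (fun k => ((hF2.measurable.iterate k) hPm).inter
      ((hH2.measurable.iterate k) hPm))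
  have hEae : ∀ᵐ x ∂μ, x ∈ E := by
    have h1 : ∀ᵐ x ∂μ, ∀ k, F^[k] x ∈ P ∧ H^[k] x ∈ P := by
      rw [ae_all_iff]
      intro k
      have h2 := (hF2.iterate k).quasiMeasurePreserving.ae hPae
      have h3 := (hH2.iterate k).quasiMeasurePreserving.ae hPae
      filter_upwards [h2, h3] with x hx1 hx2
      exact ⟨hx1, hx2⟩
    exact h1
  have hEP : ∀ x ∈ E, x ∈ P := fun x hx => (hx 0).1
  have hEF : ∀ x ∈ E, F x ∈ E := by
    intro x hx k
    constructor
    · rw [← Function.iterate_succ_apply]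
      exact (hx (k+1)).1
    · cases k with
      | zero => exact (hx 1).1
      | succ k =>
        rw [Function.iterate_succ_apply, hHF x (hEP x hx).1]
        exact (hx k).2
  have hEH : ∀ x ∈ E, H x ∈ E := by
    intro x hx k
    constructor
    · cases k with
      | zero => exact (hx 1).2
      | succ k =>
        rw [Function.iterate_succ_apply, hFH x (hEP x hx).2]
        exact (hx k).1
    · rw [← Function.iterate_succ_apply]
      exact (hx (k+1)).2
  let G : XX Ω π ≃ᵐ XX Ω π :=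
    { toFun := fun x => if x ∈ E then F x else x
      invFun := fun x => if x ∈ E then H x else x
      left_inv := by
        intro x
        by_cases hx : x ∈ E
        · simp only [if_pos hx, if_pos (hEF x hx), hHF x (hEP x hx).1]
        · simp only [if_neg hx]
      right_inv := by
        intro x
        by_cases hx : x ∈ E
        · simp only [if_pos hx, if_pos (hEH x hx), hFH x (hEP x hx).2]
        · simp only [if_neg hx]
      measurable_toFun := Measurable.ite hEm hF2.measurable measurable_id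
      measurable_invFun := Measurable.ite hEm hH2.measurable measurable_id }
  have hGF : ∀ x ∈ E, G x = F x := by
    intro x hx
    change (if x ∈ E then F x else x) = F x
    rw [if_pos hx]
  have hGae : (G : XX Ω π → XX Ω π) =ᵐ[μ] F := by
    filter_upwards [hEae] with x hx
    exact hGF x hx
  refine ⟨G, ⟨G.measurable, ?_⟩, ?_⟩
  · rw [Measure.map_congr hGae, hF2.map_eq]
  · intro n
    have he0 : ∀ n, 0 ≤ e n := fun n => (lm_errs_nonneg (π := π) g n).trans (he n)
    apply ENNReal.toReal_le_of_le_ofReal (tsum_nonneg (fun m => he0 _))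
    have h1 : μ Eᶜ = 0 := by
      have h2 := hEae
      rw [ae_iff] at h2
      exact h2
    calc μ {x | (G x).1 n ≠ g n (x.1 n)} ≤ μ (Eᶜ ∪ (lmA π g n)ᶜ) := by
          apply measure_mono
          intro x hx
          by_contra hcon
          simp only [Set.mem_union, Set.mem_compl_iff, not_or, not_not] at hcon
          apply hx
          rw [hGF x hcon.1]
          exact hF1 x n hcon.2 n le_rfl
      _ ≤ μ Eᶜ + μ (lmA π g n)ᶜ := measure_union_le _ _
      _ ≤ _ := by
          rw [h1, zero_add]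
          exact lm_mu_Ac hμ g e he hs n

end LimProof
theorem exists_lim {Ω : ℕ → Type} [∀ n, Fintype (Ω n)] [∀ n, Nonempty (Ω n)]
    [∀ n, DecidableEq (Ω n)] [∀ n, MeasurableSpace (Ω n)] [∀ n, MeasurableSingletonClass (Ω n)]
    {π : ∀ n, Ω (n+1) → Ω n} {μ : Measure (XX Ω π)} (hμ : UnifMeas μ)
    (g : ∀ n, Equiv.Perm (Ω n)) (e : ℕ → ℝ) (he : ∀ n, errs π g n ≤ e n) (hs : Summable e) :
    ∃ G : XX Ω π ≃ᵐ XX Ω π, MeasurePreserving G μ μ ∧
      ∀ n, (μ {x | (G x).1 n ≠ g n (x.1 n)}).toReal ≤ ∑' m, e (n + m) := by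
  exact lm_main hμ g e he hs

end SM345
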