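import Pool.Agent.Helper345.SM.Defs

set_option autoImplicit false
set_option linter.unusedVariables false
set_option linter.style.longLine false

open MeasureTheory Filter Topology
open scoped ENNReal NNReal

noncomputable section

namespace SM345

/-- recursive coding of a coherent sequence -/
def uqmap {Ω : ℕ → Type} {π : ∀ n, Ω (n+1) → Ω n} {k : ℕ → ℕ}
    (E : ∀ n (y : Ω n), Fin (k n) ≃ {z : Ω (n+1) // π n z = y}) :
    ∀ n, (Ω 0 × (∀ n, Fin (k n))) → Ω n
  | 0 => fun p => p.1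
  | (n+1) => fun p => (E n (uqmap E n p) (p.2 n)).1

theorem uqmap_coh {Ω : ℕ → Type} {π : ∀ n, Ω (n+1) → Ω n} {k : ℕ → ℕ}
    (E : ∀ n (y : Ω n), Fin (k n) ≃ {z : Ω (n+1) // π n z = y})
    (p : Ω 0 × (∀ n, Fin (k n))) (n : ℕ) : π n (uqmap E (n+1) p) = uqmap E n p :=
  (E n (uqmap E n p) (p.2 n)).2

theorem uqmap_box {Ω : ℕ → Type} {π : ∀ n, Ω (n+1) → Ω n} {k : ℕ → ℕ} [∀ n, Nonempty (Fin (k n))]
    (E : ∀ n (y : Ω n), Fin (k n) ≃ {z : Ω (n+1) // π n z = y}) :
    ∀ n (y : Ω n), ∃ (a : Ω 0) (b : ∀ i, Fin (k i)), ∀ p : Ω 0 × (∀ n, Fin (k n)),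
      uqmap E n p = y ↔ p.1 = a ∧ ∀ i < n, p.2 i = b i := by
  intro n
  induction n with
  | zero =>
    intro y
    refine ⟨y, fun i => Classical.arbitrary _, fun p => ?_⟩
    simp [uqmap]
  | succ n ih =>
    intro z
    obtain ⟨a, b, hab⟩ := ih (π n z)
    refine ⟨a, Function.update b n ((E n (π n z)).symm ⟨z, rfl⟩), fun p => ?_⟩
    have key : uqmap E (n+1) p = z ↔
        (uqmap E n p = π n z ∧ p.2 n = (E n (π n z)).symm ⟨z, rfl⟩) := by
      constructor
      · intro h
        have h1 : uqmap E n p = π n z := by rw [← h]; exact (uqmap_coh E p n).symm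
        refine ⟨h1, ?_⟩
        rw [Equiv.eq_symm_apply]
        apply Subtype.ext
        have h2 : (E n (uqmap E n p) (p.2 n)).1 = z := h
        rw [h1] at h2
        exact h2
      · rintro ⟨h1, h2⟩
        show (E n (uqmap E n p) (p.2 n)).1 = z
        rw [h1, h2, Equiv.apply_symm_apply]
    rw [key, hab]
    constructor
    · rintro ⟨⟨h1, h2⟩, h3⟩
      refine ⟨h1, fun i hi => ?_⟩
      rcases Nat.lt_succ_iff_lt_or_eq.mp hi with h | h
      · rw [Function.update_of_ne h.ne]; exact h2 i h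
      · subst h; rw [Function.update_self]; exact h3
    · rintro ⟨h1, h2⟩
      refine ⟨⟨h1, fun i hi => ?_⟩, ?_⟩
      · have := h2 i (by omega)
        rwa [Function.update_of_ne hi.ne] at this
      · have := h2 n (by omega)
        rwa [Function.update_self] at this

theorem uqmap_meas {Ω : ℕ → Type} [∀ n, Fintype (Ω n)] [∀ n, MeasurableSpace (Ω n)]
    [∀ n, MeasurableSingletonClass (Ω n)] {π : ∀ n, Ω (n+1) → Ω n} {k : ℕ → ℕ}
    (E : ∀ n (y : Ω n), Fin (k n) ≃ {z : Ω (n+1) // π n z = y}) :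
    ∀ n, Measurable (uqmap E n) := by
  intro n
  induction n with
  | zero => exact measurable_fst
  | succ n ih =>
    have h : uqmap E (n+1) = (fun w : Ω n × Fin (k n) => ((E n w.1 w.2).1 : Ω (n+1))) ∘
        (fun p : Ω 0 × (∀ n, Fin (k n)) => (uqmap E n p, p.2 n)) := rfl
    rw [h]
    exact (measurable_of_finite _).comp
      (ih.prodMk ((measurable_pi_apply n).comp measurable_snd))

theorem exists_unif {Ω : ℕ → Type} [∀ n, Fintype (Ω n)] [∀ n, Nonempty (Ω n)]
    [∀ n, DecidableEq (Ω n)] [∀ n, MeasurableSpace (Ω n)] [∀ n, MeasurableSingletonClass (Ω n)]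
    (π : ∀ n, Ω (n+1) → Ω n) (k : ℕ → ℕ)
    (hk : ∀ n y, (Finset.univ.filter (fun z : Ω (n+1) => π n z = y)).card = k n) :
    ∃ μ : Measure (XX Ω π), UnifMeas μ := by
  have hkpos : ∀ n, 0 < k n := by
    intro n
    obtain ⟨z⟩ := (inferInstance : Nonempty (Ω (n+1)))
    rw [← hk n (π n z)]
    exact Finset.card_pos.mpr ⟨z, by simp⟩
  haveI hne : ∀ n, Nonempty (Fin (k n)) := fun n => ⟨⟨0, hkpos n⟩⟩
  have hE : ∀ n (y : Ω n), Nonempty (Fin (k n) ≃ {z : Ω (n+1) // π n z = y}) := by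
    intro n y
    have : Fintype.card {z : Ω (n+1) // π n z = y} = k n := by
      rw [Fintype.card_subtype]; exact hk n y
    exact ⟨(Fintype.equivFinOfCardEq this).symm⟩
  let E : ∀ n (y : Ω n), Fin (k n) ≃ {z : Ω (n+1) // π n z = y} :=
    fun n y => Classical.choice (hE n y)
  have hcard : ∀ n, Fintype.card (Ω (n+1)) = Fintype.card (Ω n) * k n := by
    intro n
    have h := Finset.card_eq_sum_card_fiberwise (f := π n) (s := Finset.univ) (t := Finset.univ)
      (fun x _ => Finset.mem_coe.mpr (Finset.mem_univ _))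
    rw [Finset.card_univ] at h
    rw [h, Finset.sum_congr rfl (fun y _ => hk n y)]
    simp
  let ν : Measure (∀ n, Fin (k n)) :=
    Measure.infinitePi (fun n => (PMF.uniformOfFintype (Fin (k n))).toMeasure)
  let ρ : Measure (Ω 0) := (PMF.uniformOfFintype (Ω 0)).toMeasure
  let Φ : (Ω 0 × (∀ n, Fin (k n))) → XX Ω π :=
    fun p => ⟨fun n => uqmap E n p, fun n => uqmap_coh E p n⟩
  have hΦ : Measurable Φ :=
    Measurable.subtype_mk (measurable_pi_lambda _ (fun n => uqmap_meas E n))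
  have hprod : ∀ n, ((Fintype.card (Ω 0) : ℝ≥0∞)⁻¹ * ∏ i ∈ Finset.range n, ((k i : ℕ) : ℝ≥0∞)⁻¹)
      = (Fintype.card (Ω n) : ℝ≥0∞)⁻¹ := by
    intro n
    induction n with
    | zero => simp
    | succ n ih =>
      rw [Finset.prod_range_succ, ← mul_assoc, ih, hcard n, Nat.cast_mul]
      rw [ENNReal.mul_inv (Or.inr (ENNReal.natCast_ne_top _)) (Or.inl (ENNReal.natCast_ne_top _))]
  refine ⟨(ρ.prod ν).map Φ, ⟨Measure.isProbabilityMeasure_map hΦ.aemeasurable, fun n y => ?_⟩⟩
  obtain ⟨a, b, hab⟩ := uqmap_box E n y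
  have hms : MeasurableSet {x : XX Ω π | x.1 n = y} := by
    have hm : Measurable (fun x : XX Ω π => x.1 n) :=
      (measurable_pi_apply n).comp measurable_subtype_coe
    exact hm (measurableSet_singleton y)
  rw [Measure.map_apply hΦ hms]
  have hpre : Φ ⁻¹' {x : XX Ω π | x.1 n = y} =
      ({a} : Set (Ω 0)) ×ˢ (Set.pi (Finset.range n : Set ℕ) (fun i => {b i})) := by
    ext p
    have := hab p
    constructor
    · intro h
      have h' : uqmap E n p = y := h
      obtain ⟨h1, h2⟩ := this.mp h'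
      exact ⟨h1, fun i hi => h2 i (by simpa using hi)⟩
    · rintro ⟨h1, h2⟩
      exact this.mpr ⟨h1, fun i hi => h2 i (by simpa using hi)⟩
  rw [hpre, Measure.prod_prod]
  rw [show ν (Set.pi (Finset.range n : Set ℕ) (fun i => {b i})) =
      ∏ i ∈ Finset.range n, ((k i : ℕ) : ℝ≥0∞)⁻¹ from ?_]
  · rw [show ρ {a} = (Fintype.card (Ω 0) : ℝ≥0∞)⁻¹ from ?_]
    · exact hprod n
    · show (PMF.uniformOfFintype (Ω 0)).toMeasure {a} = _
      rw [PMF.toMeasure_apply_singleton _ _ (measurableSet_singleton a),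
        PMF.uniformOfFintype_apply]
  · show Measure.infinitePi (fun n => (PMF.uniformOfFintype (Fin (k n))).toMeasure) _ = _
    rw [Measure.infinitePi_pi _ (fun i _ => measurableSet_singleton _)]
    refine Finset.prod_congr rfl fun i _ => ?_
    rw [PMF.toMeasure_apply_singleton _ _ (measurableSet_singleton _),
      PMF.uniformOfFintype_apply, Fintype.card_fin]

end SM345
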