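import Pool.Agent.Helper345.SM.Defs
import Pool.Agent.Helper345.SM.digit_bij

set_option autoImplicit false
set_option linter.unusedVariables false
set_option linter.style.longLine false

open MeasureTheory Filter Topology
open scoped ENNReal NNReal

noncomputable section

namespace SM345

theorem fiber_card (n : ℕ) (y : Om n) :
    (Finset.univ.filter (fun z : Om (n+1) => pP n z = y)).card = 4 * (wn (n+1)) ^ 4 := by
  obtain ⟨h12, h3, h12', hB12, hB, hw⟩ := lev_dvd n
  have hN0 : 0 < Nn n := Nn_pos n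
  have hB0 : 0 < Bn n := by rw [← hB]; positivity
  have hW : 0 < WW (Nn n) (Bn n) := by unfold WW; positivity
  have key : ∀ (p : Fin 4 × (Fin 4 → Fin (WW (Nn n) (Bn n)))), ∃! u : ℕ, u < NN (Nn n) (Bn n) ∧
      pr (Nn n) (wn n) (Bn n) u = y.1.val ∧
      (∀ i < 4, dx (Nn n) (Bn n) i u = (fun i => if h : i < 4 then (p.2 ⟨i,h⟩).val else 0) i) ∧
      dc (Nn n) (Bn n) u = p.1.val := fun p =>
    digit_bij (Nn n) (wn n) (Bn n) h12 hN0 h3 hB0 y.1.val (ZMod.val_lt _)
      (fun i => if h : i < 4 then (p.2 ⟨i,h⟩).val else 0)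
      (by intro i; split_ifs with h; exact (p.2 _).isLt; exact hW) p.1.val p.1.isLt
  choose U hU hUu using key
  have hval : ∀ u : ℕ, u < NN (Nn n) (Bn n) → ((u : ZMod (Nn (n+1)))).val = u := by
    intro u hu
    exact ZMod.val_cast_of_lt (by rw [Nn_succ]; exact hu)
  have himg : Finset.univ.filter (fun z : Om (n+1) => pP n z = y)
      = Finset.univ.image (fun p => ((((U p : ℕ) : ZMod (Nn (n+1)))), y.2)) := by
    ext z
    simp only [Finset.mem_filter, Finset.mem_univ, true_and, Finset.mem_image]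
    constructor
    · intro hz
      have hz1 : ((pr (Nn n) (wn n) (Bn n) z.1.val : ℕ) : ZMod (Nn n)) = y.1 := by
        rw [← hz]; rfl
      have hz2 : z.2 = y.2 := by rw [← hz]; rfl
      have hzlt : z.1.val < NN (Nn n) (Bn n) := by
        exact lt_of_lt_of_eq (ZMod.val_lt z.1) (Nn_succ n)
      have hprlt : pr (Nn n) (wn n) (Bn n) z.1.val < Nn n := by
        unfold pr; exact Nat.mod_lt _ hN0
      have hpr : pr (Nn n) (wn n) (Bn n) z.1.val = y.1.val := by
        rw [← hz1, ZMod.val_cast_of_lt hprlt]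
      have hdc : dc (Nn n) (Bn n) z.1.val < 4 := by
        unfold dc
        rw [Nat.mod_eq_of_lt hzlt]
        apply Nat.div_lt_of_lt_mul
        calc z.1.val < NN (Nn n) (Bn n) := hzlt
          _ = _ := by unfold NN; ring
      refine ⟨(⟨dc (Nn n) (Bn n) z.1.val, hdc⟩,
        fun i => ⟨dx (Nn n) (Bn n) i z.1.val, by unfold dx; exact Nat.mod_lt _ hW⟩), ?_⟩
      have := hUu (⟨dc (Nn n) (Bn n) z.1.val, hdc⟩,
        fun i => ⟨dx (Nn n) (Bn n) i z.1.val, by unfold dx; exact Nat.mod_lt _ hW⟩) z.1.val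
        ⟨hzlt, hpr, by intro i hi; simp [hi], rfl⟩
      refine Prod.ext ?_ hz2.symm
      show ((U _ : ℕ) : ZMod (Nn (n+1))) = z.1
      rw [← this]
      exact ZMod.natCast_zmod_val z.1
    · rintro ⟨p, rfl⟩
      refine Prod.ext ?_ rfl
      show ((pr (Nn n) (wn n) (Bn n) (((U p : ℕ) : ZMod (Nn (n+1)))).val : ℕ) : ZMod (Nn n)) = y.1
      rw [hval _ (hU p).1, (hU p).2.1]
      exact ZMod.natCast_zmod_val y.1
  rw [himg, Finset.card_image_of_injective]
  · simp [Fintype.card_prod, wn_succ]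
  · intro p q hpq
    have h1 : ((U p : ℕ) : ZMod (Nn (n+1))) = ((U q : ℕ) : ZMod (Nn (n+1))) := congrArg Prod.fst hpq
    have h2 : U p = U q := by
      rw [← hval _ (hU p).1, ← hval _ (hU q).1, h1]
    refine Prod.ext (Fin.ext ?_) (funext fun i => Fin.ext ?_)
    · rw [← (hU p).2.2.2, ← (hU q).2.2.2, h2]
    · have a := (hU p).2.2.1 i i.isLt
      have b := (hU q).2.2.1 i i.isLt
      simp only [Fin.is_lt, dite_true, Fin.eta] at a b
      rw [← a, ← b, h2]

end SM345
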