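import Pool.Agent.Helper345.SM.Defs
import Pool.Agent.Helper345.SM.koop_coe
import Pool.Agent.Helper345.SM.J_basic

set_option autoImplicit false
set_option linter.unusedVariables false
set_option linter.style.longLine false

open MeasureTheory Filter Topology
open scoped ENNReal NNReal

noncomputable section

namespace SM345

theorem isLim_koop {Ω : ℕ → Type} [∀ n, Fintype (Ω n)] [∀ n, Nonempty (Ω n)]
    [∀ n, DecidableEq (Ω n)] [∀ n, MeasurableSpace (Ω n)] [∀ n, MeasurableSingletonClass (Ω n)]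
    {π : ∀ n, Ω (n+1) → Ω n} {μ : Measure (XX Ω π)} (hμ : UnifMeas μ)
    (g : ∀ n, Equiv.Perm (Ω n)) (a : ℕ → ℝ) (G : XX Ω π ≃ᵐ XX Ω π) (hG : MeasurePreserving G μ μ)
    (h : ∀ n, (μ {x | (G x).1 n ≠ g n (x.1 n)}).toReal ≤ a n) :
    IsLim hμ g (fun n => 2 * Real.sqrt (a n)) (Koop G hG) := by
  intro n f C hC
  have hprob := hμ.prob
  have hC0 : 0 ≤ C := (norm_nonneg _).trans (hC (Classical.arbitrary _))
  set bad : Set (XX Ω π) := {x | (G x).1 n ≠ g n (x.1 n)} with hbad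
  have h1 : (Koop G hG (J hμ n f) : XX Ω π → ℂ) =ᵐ[μ] fun x => f ((G x).1 n) := by
    have h2 := koop_coe G hG (J hμ n f)
    have h3 : (J hμ n f : XX Ω π → ℂ) =ᵐ[μ] fun x => f (x.1 n) := MemLp.coeFn_toLp _
    have h4 := hG.quasiMeasurePreserving.ae_eq_comp h3
    exact h2.trans h4
  have h5 : (J hμ n (f ∘ g n) : XX Ω π → ℂ) =ᵐ[μ] fun x => f (g n (x.1 n)) :=
    MemLp.coeFn_toLp _
  have h6 : ((Koop G hG (J hμ n f) - J hμ n (f ∘ g n) : Lp ℂ 2 μ) : XX Ω π → ℂ) =ᵐ[μ]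
      fun x => f ((G x).1 n) - f (g n (x.1 n)) := (Lp.coeFn_sub _ _).trans (h1.sub h5)
  have h7 : eLpNorm (fun x : XX Ω π => f ((G x).1 n) - f (g n (x.1 n))) 2 μ
      ≤ eLpNorm (bad.indicator fun _ => (2 * C : ℝ)) 2 μ := by
    apply eLpNorm_mono_real
    intro x
    by_cases hx : x ∈ bad
    · rw [Set.indicator_of_mem hx]
      calc ‖f ((G x).1 n) - f (g n (x.1 n))‖ ≤ ‖f ((G x).1 n)‖ + ‖f (g n (x.1 n))‖ :=
            norm_sub_le _ _
        _ ≤ C + C := add_le_add (hC _) (hC _)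
        _ = 2 * C := by ring
    · rw [Set.indicator_of_notMem hx]
      have hx' : (G x).1 n = g n (x.1 n) := by
        by_contra hne
        exact hx hne
      rw [hx', sub_self, norm_zero]
  have h8 : eLpNorm (bad.indicator fun _ => (2 * C : ℝ)) 2 μ ≤ ‖(2 * C : ℝ)‖ₑ * μ bad ^ (1 / (2 : ℝ≥0∞).toReal) :=
    eLpNorm_indicator_const_le (2 * C) 2
  have h9 := h7.trans h8
  rw [Lp.norm_def, eLpNorm_congr_ae h6]
  have hfin : ‖(2 * C : ℝ)‖ₑ * μ bad ^ (1 / (2 : ℝ≥0∞).toReal) ≠ ⊤ := by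
    refine ENNReal.mul_ne_top enorm_ne_top ?_
    refine ENNReal.rpow_ne_top_of_nonneg (by simp) (measure_ne_top μ bad)
  have h10 := ENNReal.toReal_mono hfin h9
  refine h10.trans ?_
  rw [ENNReal.toReal_mul, toReal_enorm, ← ENNReal.toReal_rpow, Real.norm_of_nonneg (by positivity)]
  have h11 : (μ bad).toReal ^ (1 / (2 : ℝ≥0∞).toReal) = Real.sqrt (μ bad).toReal := by
    rw [Real.sqrt_eq_rpow]
    norm_num
  rw [h11]
  have h12 : Real.sqrt (μ bad).toReal ≤ Real.sqrt (a n) := Real.sqrt_le_sqrt (h n)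
  calc 2 * C * Real.sqrt (μ bad).toReal ≤ 2 * C * Real.sqrt (a n) :=
        mul_le_mul_of_nonneg_left h12 (by positivity)
    _ = C * (2 * Real.sqrt (a n)) := by ring

end SM345
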