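import Pool.Agent.Helper345.SM.Defs
import Pool.Agent.Helper345.SM.exists_unif
import Pool.Agent.Helper345.SM.fiber_card
import Pool.Agent.Helper345.SM.exists_lim
import Pool.Agent.Helper345.SM.isLim_koop
import Pool.Agent.Helper345.SM.errs_s
import Pool.Agent.Helper345.SM.errs_t
import Pool.Agent.Helper345.SM.errs_T
import Pool.Agent.Helper345.SM.errs_r
import Pool.Agent.Helper345.SM.errs_d
import Pool.Agent.Helper345.SM.ee_facts

set_option autoImplicit false
set_option linter.unusedVariables false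
set_option linter.style.longLine false

open MeasureTheory Filter Topology
open scoped ENNReal NNReal

noncomputable section

namespace SM345

theorem ctx_exists : Nonempty Ctx := by
  obtain ⟨μ, hμ⟩ := exists_unif pP (fun n => 4 * (wn (n+1)) ^ 4) fiber_card
  have key : ∀ g : ∀ n, Equiv.Perm (Om n), (∀ n, errs pP g n ≤ ee n) →
      ∃ (G : X ≃ᵐ X) (hG : MeasurePreserving G μ μ), IsLim hμ g δδ (Koop G hG) := by
    intro g hg
    obtain ⟨G, hG, h⟩ := exists_lim hμ g ee hg ee_facts.1
    exact ⟨G, hG, isLim_koop hμ g (fun n => ∑' m, ee (n + m)) G hG h⟩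
  obtain ⟨Gs, hGs, ls⟩ := key sP errs_s
  obtain ⟨GT, hGT, lT⟩ := key TP errs_T
  obtain ⟨Gr, hGr, lr⟩ := key rP errs_r
  obtain ⟨Gd, hGd, ld⟩ := key dP errs_d
  choose Gt hGt lt using fun j => key (tP j) (errs_t j)
  exact ⟨{ μ := μ, hμ := hμ, G := GT, hG := hGT, US := Koop Gs hGs, Ut := fun j => Koop (Gt j) (hGt j), UR := Koop Gr hGr, UD := Koop Gd hGd, lS := ls, lt := lt, lT := lT, lR := lr, lD := ld }⟩

end SM345
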