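import Pool.Agent.Helper345.SM.Defs

set_option autoImplicit false
set_option linter.unusedVariables false
set_option linter.style.longLine false

open MeasureTheory Filter Topology
open scoped ENNReal NNReal

noncomputable section

namespace SM345

theorem csp_eL2_sq {α : Type*} [MeasurableSpace α] (μ : Measure α) (f : α → ℂ) :
    eLpNorm f 2 μ ^ (2 : ℝ) = ∫⁻ x, ‖f x‖ₑ ^ (2 : ℝ) ∂μ := by
  have := eLpNorm_nnreal_pow_eq_lintegral (f := f) (μ := μ) (p := 2) (by norm_num)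
  simpa using this

theorem csp_eL2_eq_of {α β : Type*} [MeasurableSpace α] [MeasurableSpace β] (μ : Measure α)
    (ν : Measure β) (f : α → ℂ) (g : β → ℂ)
    (h : ∫⁻ x, ‖f x‖ₑ ^ (2 : ℝ) ∂μ = ∫⁻ x, ‖g x‖ₑ ^ (2 : ℝ) ∂ν) :
    eLpNorm f 2 μ = eLpNorm g 2 ν := by
  rw [← csp_eL2_sq, ← csp_eL2_sq] at h
  exact (ENNReal.rpow_left_injective (by norm_num : (2 : ℝ) ≠ 0)) h

theorem csp_stepA (μ ν : Measure Circle) [IsFiniteMeasure μ] [IsFiniteMeasure ν]
    (h1 : μ ≪ ν) (h2 : ν ≪ μ) :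
    ∃ (g : Circle → ℂ) (W : Lp ℂ 2 μ ≃ₗᵢ[ℂ] Lp ℂ 2 ν), ∀ f : Lp ℂ 2 μ,
      (W f : Circle → ℂ) =ᵐ[ν] fun z => g z * (f : Circle → ℂ) z := by
  obtain ⟨g, hg⟩ : ∃ g : Circle → ℂ, g = fun z => ((√((μ.rnDeriv ν z).toReal) : ℝ) : ℂ) := ⟨_, rfl⟩
  have hgm : Measurable g := by
    rw [hg]
    exact Complex.measurable_ofReal.comp
      ((Measure.measurable_rnDeriv μ ν).ennreal_toReal.sqrt)
  have hlt := Measure.rnDeriv_lt_top μ ν
  have hpos := Measure.rnDeriv_pos' (μ := ν) (ν := μ) h2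
  have hgsq : ∀ᵐ z ∂ν, ‖g z‖ₑ ^ (2 : ℝ) = μ.rnDeriv ν z := by
    filter_upwards [hlt] with z hz
    rw [hg]
    simp only
    rw [← ofReal_norm, Complex.norm_real, Real.norm_of_nonneg (Real.sqrt_nonneg _),
      ENNReal.ofReal_rpow_of_nonneg (Real.sqrt_nonneg _) (by norm_num)]
    rw [show (2 : ℝ) = ((2 : ℕ) : ℝ) by norm_num, Real.rpow_natCast, Real.sq_sqrt ENNReal.toReal_nonneg,
      ENNReal.ofReal_toReal hz.ne]
  have hgne : ∀ᵐ z ∂ν, g z ≠ 0 := by
    filter_upwards [hgsq, hpos] with z hz hp h0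
    rw [h0] at hz
    simp at hz
    exact hp.ne hz
  have hnorm : ∀ f : Circle → ℂ, AEStronglyMeasurable f μ →
      eLpNorm (fun z => g z * f z) 2 ν = eLpNorm f 2 μ := by
    intro f hf
    apply csp_eL2_eq_of
    have hfν : AEStronglyMeasurable f ν := hf.mono_ac h2
    rw [← lintegral_rnDeriv_mul h1 (hfν.enorm.pow_const _)]
    apply lintegral_congr_ae
    filter_upwards [hgsq] with z hz
    rw [enorm_mul, ENNReal.mul_rpow_of_nonneg _ _ (by norm_num), hz]
  have hmem : ∀ f : Circle → ℂ, MemLp f 2 μ → MemLp (fun z => g z * f z) 2 ν := by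
    intro f hf
    refine ⟨hgm.aestronglyMeasurable.mul (hf.1.mono_ac h2), ?_⟩
    rw [hnorm f hf.1]
    exact hf.2
  let L : Lp ℂ 2 μ →ₗ[ℂ] Lp ℂ 2 ν :=
    { toFun := fun f => (hmem _ (Lp.memLp f)).toLp _
      map_add' := by
        intro f f'
        apply Lp.ext
        filter_upwards [(hmem _ (Lp.memLp (f + f'))).coeFn_toLp, (hmem _ (Lp.memLp f)).coeFn_toLp,
          (hmem _ (Lp.memLp f')).coeFn_toLp, h2.ae_le (Lp.coeFn_add f f'),
          Lp.coeFn_add ((hmem _ (Lp.memLp f)).toLp _) ((hmem _ (Lp.memLp f')).toLp _)]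
          with z e1 e2 e3 e4 e5
        rw [e1, e5, Pi.add_apply, e2, e3, e4, Pi.add_apply, mul_add]
      map_smul' := by
        intro c f
        apply Lp.ext
        filter_upwards [(hmem _ (Lp.memLp (c • f))).coeFn_toLp, (hmem _ (Lp.memLp f)).coeFn_toLp,
          h2.ae_le (Lp.coeFn_smul c f),
          Lp.coeFn_smul c ((hmem _ (Lp.memLp f)).toLp _)]
          with z e1 e2 e3 e4
        simp only [RingHom.id_apply]
        rw [e1, e4, Pi.smul_apply, e2, e3, Pi.smul_apply, smul_eq_mul, smul_eq_mul]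
        ring }
  have hL : ∀ f : Lp ℂ 2 μ, (L f : Circle → ℂ) =ᵐ[ν] fun z => g z * (f : Circle → ℂ) z :=
    fun f => (hmem _ (Lp.memLp f)).coeFn_toLp
  let Li : Lp ℂ 2 μ →ₗᵢ[ℂ] Lp ℂ 2 ν :=
    { toLinearMap := L
      norm_map' := by
        intro f
        rw [Lp.norm_def, Lp.norm_def, eLpNorm_congr_ae (hL f), hnorm _ (Lp.memLp f).1] }
  have hsurj : Function.Surjective Li := by
    intro h
    have hF : MemLp (fun z => (g z)⁻¹ * (h : Circle → ℂ) z) 2 μ := by
      have hm : AEStronglyMeasurable (fun z => (g z)⁻¹ * (h : Circle → ℂ) z) μ :=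
        (hgm.inv.aestronglyMeasurable.mul (Lp.memLp h).1).mono_ac h1
      refine ⟨hm, ?_⟩
      rw [← hnorm _ hm]
      have : eLpNorm (fun z => g z * ((g z)⁻¹ * (h : Circle → ℂ) z)) 2 ν = eLpNorm h 2 ν := by
        apply eLpNorm_congr_ae
        filter_upwards [hgne] with z hz
        rw [mul_inv_cancel_left₀ hz]
      rw [this]
      exact (Lp.memLp h).2
    refine ⟨hF.toLp _, ?_⟩
    apply Lp.ext
    filter_upwards [hL (hF.toLp _), h2.ae_le hF.coeFn_toLp, hgne] with z e1 e2 e3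
    show (L (hF.toLp _) : Circle → ℂ) z = _
    rw [e1, e2, mul_inv_cancel_left₀ e3]
  exact ⟨g, LinearIsometryEquiv.ofSurjective Li hsurj, fun f => hL f⟩


theorem csp_stepB (σ τ : Measure Circle) [IsFiniteMeasure σ] [IsFiniteMeasure τ]
    (s : Fin 3 → Circle → Circle) (E : Fin 3 → Set Circle) (φ : Circle → Circle)
    (hEm : ∀ i, MeasurableSet (E i)) (hEd : Pairwise (Function.onFun Disjoint E))
    (hEu : ⋃ i, E i = Set.univ)
    (hs : ∀ i, MeasurePreserving (s i) τ (σ.restrict (E i)))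
    (hφ : ∀ i, MeasurePreserving φ (σ.restrict (E i)) τ)
    (hφs : ∀ i w, φ (s i w) = w) (hsE : ∀ i j w, s i w ∈ E j ↔ i = j) :
    ∃ W : Lp ℂ 2 σ ≃ₗᵢ[ℂ] (PiLp 2 fun _ : Fin 3 => Lp ℂ 2 τ), ∀ (f : Lp ℂ 2 σ) (i : Fin 3),
      (W f i : Circle → ℂ) =ᵐ[τ] fun w => (f : Circle → ℂ) (s i w) := by
  have hq : ∀ i (P : Circle → Prop), (∀ᵐ z ∂σ, P z) → ∀ᵐ w ∂τ, P (s i w) := by
    intro i P hP
    exact (hs i).quasiMeasurePreserving.ae (ae_restrict_of_ae hP)
  have hmem : ∀ (i : Fin 3) (f : Circle → ℂ), MemLp f 2 σ → MemLp (fun w => f (s i w)) 2 τ := by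
    intro i f hf
    exact (hf.restrict (E i)).comp_measurePreserving (hs i)
  have hnorm : ∀ (i : Fin 3) (f : Circle → ℂ), MemLp f 2 σ →
      eLpNorm (fun w => f (s i w)) 2 τ = eLpNorm f 2 (σ.restrict (E i)) := by
    intro i f hf
    exact eLpNorm_comp_measurePreserving (hf.restrict (E i)).1 (hs i)
  let L : Lp ℂ 2 σ →ₗ[ℂ] (PiLp 2 fun _ : Fin 3 => Lp ℂ 2 τ) :=
    { toFun := fun f => WithLp.toLp 2 (fun i => (hmem i _ (Lp.memLp f)).toLp _)
      map_add' := by
        intro f f'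
        ext1 i
        apply Lp.ext
        show ((hmem i _ (Lp.memLp (f + f'))).toLp _ : Circle → ℂ) =ᵐ[τ]
          (((hmem i _ (Lp.memLp f)).toLp _ + (hmem i _ (Lp.memLp f')).toLp _ : Lp ℂ 2 τ) :
            Circle → ℂ)
        filter_upwards [(hmem i _ (Lp.memLp (f + f'))).coeFn_toLp,
          (hmem i _ (Lp.memLp f)).coeFn_toLp,
          (hmem i _ (Lp.memLp f')).coeFn_toLp, hq i _ (Lp.coeFn_add f f'),
          Lp.coeFn_add ((hmem i _ (Lp.memLp f)).toLp _) ((hmem i _ (Lp.memLp f')).toLp _)]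
          with z e1 e2 e3 e4 e5
        rw [e1, e5, Pi.add_apply, e2, e3, e4, Pi.add_apply]
      map_smul' := by
        intro c f
        ext1 i
        apply Lp.ext
        show ((hmem i _ (Lp.memLp (c • f))).toLp _ : Circle → ℂ) =ᵐ[τ]
          ((c • (hmem i _ (Lp.memLp f)).toLp _ : Lp ℂ 2 τ) : Circle → ℂ)
        filter_upwards [(hmem i _ (Lp.memLp (c • f))).coeFn_toLp,
          (hmem i _ (Lp.memLp f)).coeFn_toLp,
          hq i _ (Lp.coeFn_smul c f),
          Lp.coeFn_smul c ((hmem i _ (Lp.memLp f)).toLp _)]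
          with z e1 e2 e3 e4
        rw [e1, e4, Pi.smul_apply, e2, e3, Pi.smul_apply] }
  have hL : ∀ (f : Lp ℂ 2 σ) (i : Fin 3), (L f i : Circle → ℂ) =ᵐ[τ]
      fun w => (f : Circle → ℂ) (s i w) := fun f i => (hmem i _ (Lp.memLp f)).coeFn_toLp
  have hsum : ∀ f : Circle → ℂ, ∑ i, eLpNorm f 2 (σ.restrict (E i)) ^ (2 : ℝ) =
      eLpNorm f 2 σ ^ (2 : ℝ) := by
    intro f
    rw [csp_eL2_sq]
    have : ∀ i, eLpNorm f 2 (σ.restrict (E i)) ^ (2 : ℝ) =
        ∫⁻ x in E i, ‖f x‖ₑ ^ (2 : ℝ) ∂σ := fun i => csp_eL2_sq _ _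
    rw [Finset.sum_congr rfl (fun i _ => this i)]
    have h1 := lintegral_iUnion (μ := σ) hEm hEd (fun x => ‖f x‖ₑ ^ (2 : ℝ))
    rw [hEu, Measure.restrict_univ, tsum_fintype] at h1
    exact h1.symm
  let Li : Lp ℂ 2 σ →ₗᵢ[ℂ] (PiLp 2 fun _ : Fin 3 => Lp ℂ 2 τ) :=
    { toLinearMap := L
      norm_map' := by
        intro f
        have h2 : ‖L f‖ ^ 2 = ‖f‖ ^ 2 := by
          rw [PiLp.norm_sq_eq_of_L2]
          have h3 : ∀ i, ‖L f i‖ ^ 2 = (eLpNorm f 2 (σ.restrict (E i)) ^ (2 : ℝ)).toReal := by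
            intro i
            rw [Lp.norm_def, eLpNorm_congr_ae (hL f i), hnorm i _ (Lp.memLp f),
              ← ENNReal.toReal_rpow, Real.rpow_two]
          rw [Finset.sum_congr rfl (fun i _ => h3 i), ← ENNReal.toReal_sum]
          · rw [hsum, Lp.norm_def, ← ENNReal.toReal_rpow, Real.rpow_two]
          · intro i _
            exact ENNReal.rpow_ne_top_of_nonneg (by norm_num) ((Lp.memLp f).restrict (E i)).2.ne
        exact (pow_left_inj₀ (norm_nonneg _) (norm_nonneg _) two_ne_zero).1 h2 }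
  have hsurj : Function.Surjective Li := by
    intro h
    obtain ⟨F, hF⟩ : ∃ F : Circle → ℂ, F = fun z => ∑ i, (E i).indicator
      (fun z => (h i : Circle → ℂ) (φ z)) z := ⟨_, rfl⟩
    have hFm : MemLp F 2 σ := by
      rw [hF]
      apply memLp_finsetSum
      intro i _
      rw [memLp_indicator_iff_restrict (hEm i)]
      exact (Lp.memLp (h i)).comp_measurePreserving (hφ i)
    refine ⟨hFm.toLp _, ?_⟩
    ext1 i
    apply Lp.ext
    have h1 := hL (hFm.toLp _) i
    have h2 := hq i _ hFm.coeFn_toLp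
    show (L (hFm.toLp _) i : Circle → ℂ) =ᵐ[τ] _
    filter_upwards [h1, h2] with w e1 e2
    rw [e1, e2, hF]
    simp only
    rw [Finset.sum_eq_single i]
    · rw [Set.indicator_of_mem ((hsE i i w).2 rfl), hφs]
    · intro j _ hj
      rw [Set.indicator_of_notMem]
      rw [hsE]
      exact fun h => hj h.symm
    · intro hi
      exact absurd (Finset.mem_univ i) hi
  exact ⟨LinearIsometryEquiv.ofSurjective Li hsurj, fun f i => hL f i⟩


/-- a measurable cube root -/
def csp_s0 (w : Circle) : Circle := Circle.exp (Complex.arg (w : ℂ) / 3)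

theorem csp_s0_meas : Measurable csp_s0 := by
  unfold csp_s0
  have hc : Continuous (fun w : Circle => (w : ℂ)) := by fun_prop
  have h1 : Measurable (fun w : Circle => Complex.arg (w : ℂ) / 3) :=
    (Complex.measurable_arg.comp hc.measurable).div_const 3
  exact Circle.exp.continuous.measurable.comp h1

theorem csp_s0_cube (w : Circle) : csp_s0 w ^ 3 = w := by
  unfold csp_s0
  apply Circle.ext
  have h1 : ((Circle.exp (Complex.arg (w : ℂ) / 3) ^ 3 : Circle) : ℂ) =
      Complex.exp (Complex.arg (w : ℂ) * Complex.I) := by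
    rw [Circle.coe_pow, Circle.coe_exp, ← Complex.exp_nat_mul]
    congr 1
    push_cast
    ring
  rw [h1]
  have h2 := Complex.norm_mul_exp_arg_mul_I (w : ℂ)
  rw [Circle.norm_coe, Complex.ofReal_one, one_mul] at h2
  exact h2

theorem csp_cube_one (a : Circle) (ha : a ^ 3 = 1) (ha1 : a ≠ 1) (u : Circle) (hu : u ^ 3 = 1) :
    ∃ i : Fin 3, u = a ^ (i : ℕ) := by
  have ha' : (a : ℂ) ^ 3 = 1 := by
    rw [← Circle.coe_pow, ha, Circle.coe_one]
  have hu' : (u : ℂ) ^ 3 = 1 := by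
    rw [← Circle.coe_pow, hu, Circle.coe_one]
  have ha1' : (a : ℂ) ≠ 1 := by
    intro h
    apply ha1
    apply Circle.ext
    rw [h, Circle.coe_one]
  have hq : (a : ℂ) ^ 2 + a + 1 = 0 := by
    have : ((a : ℂ) - 1) * ((a : ℂ) ^ 2 + a + 1) = 0 := by
      linear_combination ha'
    rcases mul_eq_zero.1 this with h | h
    · exact absurd (sub_eq_zero.1 h) ha1'
    · exact h
  have h3 : ((u : ℂ) - 1) * (((u : ℂ) - a) * ((u : ℂ) - (a : ℂ) ^ 2)) = 0 := by
    have e : ((u : ℂ) - 1) * (((u : ℂ) - a) * ((u : ℂ) - (a : ℂ) ^ 2)) =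
        (u : ℂ) ^ 3 - (a : ℂ) ^ 3 - (u : ℂ) * ((u : ℂ) - (a : ℂ)) * ((a : ℂ) ^ 2 + a + 1) := by
      ring
    rw [e, ha', hu', hq]
    ring
  rcases mul_eq_zero.1 h3 with h | h
  · exact ⟨0, by apply Circle.ext; rw [sub_eq_zero.1 h]; simp⟩
  rcases mul_eq_zero.1 h with h | h
  · exact ⟨1, by apply Circle.ext; rw [sub_eq_zero.1 h]; simp⟩
  · exact ⟨2, by apply Circle.ext; rw [sub_eq_zero.1 h]; simp⟩

theorem csp_pow_inj' (a : Circle) (ha : a ^ 3 = 1) (ha1 : a ≠ 1) (i j : ℕ) (hi : i < 3) (hj : j < 3)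
    (h : a ^ i = a ^ j) : i = j := by
  have h2 : a ^ 2 ≠ 1 := by
    intro h2
    apply ha1
    calc a = a ^ 3 * (a ^ 2)⁻¹ := by group
      _ = 1 := by rw [ha, h2]; simp
  have h12 : a ^ 2 ≠ a := by
    intro h2
    apply ha1
    have : a * a = a * 1 := by rw [← pow_two, h2, mul_one]
    exact mul_left_cancel this
  interval_cases i <;> interval_cases j <;> simp only [pow_zero, pow_one] at h <;>
    first | rfl | exact absurd h ha1 | exact absurd h.symm ha1 | exact absurd h h2 |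
      exact absurd h.symm h2 | exact absurd h h12 | exact absurd h.symm h12

theorem csp_pow_inj (a : Circle) (ha : a ^ 3 = 1) (ha1 : a ≠ 1) (i j : Fin 3)
    (h : a ^ (i : ℕ) = a ^ (j : ℕ)) : i = j :=
  Fin.ext (csp_pow_inj' a ha ha1 i j i.2 j.2 h)

theorem csp_rot_comp (a : Circle) (i : ℕ) (μ : Measure Circle) (h : μ.map (rot a) = μ) :
    μ.map (rot (a ^ i)) = μ := by
  have hm : ∀ b : Circle, Measurable (rot b) := fun b => (continuous_const_mul b).measurable
  induction i with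
  | zero =>
    have : rot (a ^ 0) = id := by
      funext z
      simp [rot]
    rw [this, Measure.map_id]
  | succ i ih =>
    have : rot (a ^ (i + 1)) = rot a ∘ rot (a ^ i) := by
      funext z
      simp only [rot, Function.comp]
      rw [pow_succ', mul_assoc]
    rw [this, ← Measure.map_map (hm _) (hm _), ih, h]

theorem cube_split (σ : Measure Circle) [IsFiniteMeasure σ] (a : Circle) (ha : a ^ 3 = 1)
    (ha1 : a ≠ 1) (h : σ.map (rot a) ≪ σ) :
    ∃ σ₁ : Measure Circle, IsFiniteMeasure σ₁ ∧ σ₁ ≪ σ.map (fun z => z ^ 3) ∧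
      (σ ≠ 0 → σ₁ ≠ 0) ∧
      ∃ W : Lp ℂ 2 σ ≃ₗᵢ[ℂ] (PiLp 2 fun _ : Fin 3 => Lp ℂ 2 σ₁),
        ∀ f f' : Lp ℂ 2 σ, (f' : Circle → ℂ) =ᵐ[σ] (fun z => (z : ℂ) ^ 3 * (f : Circle → ℂ) z) →
          ∀ i, (W f' i : Circle → ℂ) =ᵐ[σ₁] fun z => (z : ℂ) * (W f i : Circle → ℂ) z := by
  have hrm : ∀ b : Circle, Measurable (rot b) := fun b => (continuous_const_mul b).measurable
  have hcm : Measurable (fun z : Circle => z ^ 3) := (continuous_pow 3).measurable
  obtain ⟨σ', hσ'⟩ : ∃ σ' : Measure Circle, σ' = σ + σ.map (rot a) + σ.map (rot (a ^ 2)) := ⟨_, rfl⟩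
  have hfin : IsFiniteMeasure σ' := by rw [hσ']; infer_instance
  have h2 : σ.map (rot (a ^ 2)) ≪ σ := by
    have : rot (a ^ 2) = rot a ∘ rot a := by
      funext z
      simp only [rot, Function.comp]
      rw [pow_two, mul_assoc]
    rw [this, ← Measure.map_map (hrm _) (hrm _)]
    exact (h.map (hrm a)).trans h
  have hac1 : σ ≪ σ' := by
    rw [hσ', add_assoc]
    exact Measure.absolutelyContinuous_of_le (Measure.le_add_right le_rfl)
  have hac2 : σ' ≪ σ := by
    rw [hσ']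
    exact (Measure.AbsolutelyContinuous.rfl.add_left h).add_left h2
  have hinv : σ'.map (rot a) = σ' := by
    rw [hσ', Measure.map_add _ _ (hrm a), Measure.map_add _ _ (hrm a),
      Measure.map_map (hrm _) (hrm _), Measure.map_map (hrm _) (hrm _)]
    have e1 : rot a ∘ rot a = rot (a ^ 2) := by
      funext z
      simp only [rot, Function.comp]
      rw [pow_two, mul_assoc]
    have e2 : rot a ∘ rot (a ^ 2) = id := by
      funext z
      simp only [rot, Function.comp, id]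
      rw [← mul_assoc, ← pow_succ', ha, one_mul]
    rw [e1, e2, Measure.map_id]
    abel
  -- the sections
  obtain ⟨s, hs⟩ : ∃ s : Fin 3 → Circle → Circle, s = fun (i : Fin 3) w => a ^ (i : ℕ) * csp_s0 w :=
    ⟨_, rfl⟩
  obtain ⟨E, hE⟩ : ∃ E : Fin 3 → Set Circle, E = fun (i : Fin 3) => {z | a ^ (i : ℕ) * csp_s0 (z ^ 3) = z} :=
    ⟨_, rfl⟩
  have hsm : ∀ i, Measurable (s i) := by
    intro i
    rw [hs]
    exact (continuous_const_mul _).measurable.comp csp_s0_meas
  have hEm : ∀ i, MeasurableSet (E i) := by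
    intro i
    rw [hE]
    exact measurableSet_eq_fun ((continuous_const_mul _).measurable.comp (csp_s0_meas.comp hcm))
      measurable_id
  have ha3 : ∀ i : ℕ, (a ^ i) ^ 3 = 1 := by
    intro i
    rw [← pow_mul, mul_comm, pow_mul, ha, one_pow]
  have hφs : ∀ i w, (s i w) ^ 3 = w := by
    intro i w
    rw [hs]
    simp only
    rw [mul_pow, ha3, one_mul, csp_s0_cube]
  have hsE : ∀ i j w, s i w ∈ E j ↔ i = j := by
    intro i j w
    have e : s i w ∈ E j ↔ a ^ (j : ℕ) * csp_s0 ((s i w) ^ 3) = s i w := by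
      rw [hE]; rfl
    rw [e, hφs, hs]
    simp only
    constructor
    · intro h
      exact (csp_pow_inj a ha ha1 j i (mul_right_cancel h)).symm
    · intro h
      rw [h]
  have hEd : Pairwise (Function.onFun Disjoint E) := by
    intro i j hij
    rw [Function.onFun, Set.disjoint_left]
    intro z hz hz'
    rw [hE] at hz hz'
    have h1 : a ^ (i : ℕ) * csp_s0 (z ^ 3) = a ^ (j : ℕ) * csp_s0 (z ^ 3) := by
      rw [show a ^ (i : ℕ) * csp_s0 (z ^ 3) = z from hz, show a ^ (j : ℕ) * csp_s0 (z ^ 3) = z from hz']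
    exact hij (csp_pow_inj a ha ha1 i j (mul_right_cancel h1))
  have hEu : ⋃ i, E i = Set.univ := by
    rw [Set.eq_univ_iff_forall]
    intro z
    rw [Set.mem_iUnion]
    have : (z * (csp_s0 (z ^ 3))⁻¹) ^ 3 = 1 := by
      rw [mul_pow, inv_pow, csp_s0_cube, mul_inv_cancel]
    obtain ⟨i, hi⟩ := csp_cube_one a ha ha1 _ this
    refine ⟨i, ?_⟩
    rw [hE]
    show a ^ (i : ℕ) * csp_s0 (z ^ 3) = z
    rw [← hi]
    group
  obtain ⟨τ, hτ⟩ : ∃ τ : Measure Circle, τ = (σ'.restrict (E 0)).map (fun z => z ^ 3) := ⟨_, rfl⟩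
  have hτfin : IsFiniteMeasure τ := by rw [hτ]; infer_instance
  have hsp : ∀ i, MeasurePreserving (s i) τ (σ'.restrict (E i)) := by
    intro i
    refine ⟨hsm i, ?_⟩
    rw [hτ, Measure.map_map (hsm i) hcm]
    have e1 : (σ'.restrict (E 0)).map (s i ∘ fun z => z ^ 3) =
        (σ'.restrict (E 0)).map (rot (a ^ (i : ℕ))) := by
      apply Measure.map_congr
      filter_upwards [ae_restrict_mem (hEm 0)] with z hz
      rw [hE] at hz
      have hz' : a ^ ((0 : Fin 3) : ℕ) * csp_s0 (z ^ 3) = z := hz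
      simp only [Fin.val_zero, pow_zero, one_mul] at hz'
      rw [hs]
      simp only [Function.comp, rot]
      rw [hz']
    rw [e1]
    have e2 : E 0 = rot (a ^ (i : ℕ)) ⁻¹' (E i) := by
      ext z
      rw [hE]
      simp only [Set.mem_ofPred_eq, Set.mem_preimage, rot, mul_pow, ha3, one_mul]
      constructor
      · intro hz
        have hz' : a ^ ((0 : Fin 3) : ℕ) * csp_s0 (z ^ 3) = z := hz
        simp only [Fin.val_zero, pow_zero, one_mul] at hz'
        rw [hz']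
      · intro hz
        have := mul_left_cancel hz
        simpa using this
    rw [e2, ← Measure.restrict_map (hrm _) (hEm i), csp_rot_comp a i σ' hinv]
  have hφp : ∀ i, MeasurePreserving (fun z : Circle => z ^ 3) (σ'.restrict (E i)) τ := by
    intro i
    refine ⟨hcm, ?_⟩
    rw [← (hsp i).map_eq, Measure.map_map hcm (hsm i)]
    have : (fun z : Circle => z ^ 3) ∘ s i = id := by
      funext w
      exact hφs i w
    rw [this, Measure.map_id]
  refine ⟨τ, hτfin, ?_, ?_, ?_⟩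
  · rw [hτ]
    exact ((Measure.absolutelyContinuous_of_le Measure.restrict_le_self).trans hac2).map hcm
  · intro hne h0
    apply hne
    have h3 : σ' Set.univ = 0 := by
      rw [← hEu]
      apply nonpos_iff_eq_zero.1
      refine (measure_iUnion_le _).trans ?_
      rw [tsum_fintype]
      apply le_of_eq
      apply Finset.sum_eq_zero
      intro i _
      have : σ'.restrict (E i) = 0 := by
        rw [← (hsp i).map_eq, h0, Measure.map_zero]
      rw [← Measure.restrict_apply_univ, this]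
      rfl
    have h4 : σ Set.univ = 0 := hac1 h3
    exact Measure.measure_univ_eq_zero.1 h4
  · obtain ⟨g, WA, hWA⟩ := csp_stepA σ σ' hac1 hac2
    obtain ⟨WB, hWB⟩ := csp_stepB σ' τ s E (fun z => z ^ 3) hEm hEd hEu hsp hφp hφs hsE
    have hq : ∀ i (P : Circle → Prop), (∀ᵐ z ∂σ', P z) → ∀ᵐ w ∂τ, P (s i w) := by
      intro i P hP
      exact (hsp i).quasiMeasurePreserving.ae (ae_restrict_of_ae hP)
    refine ⟨WA.trans WB, ?_⟩
    intro f f' hff i
    have h1 : (WA f' : Circle → ℂ) =ᵐ[σ'] fun z => (z : ℂ) ^ 3 * (WA f : Circle → ℂ) z := by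
      filter_upwards [hWA f, hWA f', hac2.ae_le hff] with z e1 e2 e3
      rw [e1, e2, e3]
      ring
    have h2 := hWB (WA f) i
    have h3 := hWB (WA f') i
    have h4 := hq i _ h1
    show (WB (WA f') i : Circle → ℂ) =ᵐ[τ] fun z => (z : ℂ) * (WB (WA f) i : Circle → ℂ) z
    filter_upwards [h2, h3, h4] with w e1 e2 e3
    rw [e1, e2, e3]
    congr 1
    rw [← Circle.coe_pow, hφs]

end SM345
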