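import Pool.Agent.Helper345.SM.Defs

set_option autoImplicit false
set_option linter.unusedVariables false
set_option linter.style.longLine false

open MeasureTheory Filter Topology
open scoped ENNReal NNReal

noncomputable section

namespace SM345

theorem disj (ν τ : Measure Circle) [IsFiniteMeasure ν] [IsFiniteMeasure τ]
    (Q : ℕ → Polynomial ℂ) (hQ : ∀ n (z : Circle), ‖(Q n).eval (z : ℂ)‖ ≤ 1)
    (h1 : Tendsto (fun n => ∫ z : Circle, ‖(Q n).eval (z : ℂ) - 1‖ ^ 2 ∂ν) atTop (𝓝 0))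
    (h2 : ∀ h : Lp ℂ 2 τ, ∀ᶠ n in atTop,
      ∫ z : Circle, ‖(Q n).eval (z : ℂ)‖ ^ 2 * ‖(h : Circle → ℂ) z‖ ^ 2 ∂τ
        ≤ (1 / 2) * ∫ z : Circle, ‖(h : Circle → ℂ) z‖ ^ 2 ∂τ) :
    ν ⟂ₘ τ := by
  classical
  obtain ⟨s, hs, hs1, hs2⟩ := Measure.mutuallySingular_singularPart τ ν
  -- `(τ.singularPart ν) s = 0`, `ν sᶜ = 0`
  have hac : τ.restrict s ≪ ν := by
    refine Measure.AbsolutelyContinuous.mk fun A hA hνA => ?_
    rw [Measure.restrict_apply hA]
    have h3 : τ (A ∩ s) = (τ.singularPart ν) (A ∩ s) +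
        (ν.withDensity (τ.rnDeriv ν)) (A ∩ s) := by
      conv_lhs => rw [← Measure.singularPart_add_rnDeriv τ ν]
      rfl
    rw [h3]
    have h4 : (τ.singularPart ν) (A ∩ s) = 0 :=
      measure_mono_null Set.inter_subset_right hs1
    have h5 : (ν.withDensity (τ.rnDeriv ν)) (A ∩ s) = 0 :=
      (withDensity_absolutelyContinuous ν (τ.rnDeriv ν))
        (measure_mono_null Set.inter_subset_left hνA)
    rw [h4, h5, add_zero]
  suffices hτ : τ s = 0 by
    exact ⟨sᶜ, hs.compl, hs2, by rwa [compl_compl]⟩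
  -- measurability
  have hQm : ∀ n, Continuous fun z : Circle => (Q n).eval (z : ℂ) := fun n =>
    (Q n).continuous.comp continuous_subtype_val
  set f : ℕ → Circle → ℝ := fun n z => ‖(Q n).eval (z : ℂ) - 1‖ ^ 2 with hf
  have hfc : ∀ n, Continuous (f n) := fun n => ((hQm n).sub continuous_const).norm.pow 2
  have hf4 : ∀ n z, ‖f n z‖ ≤ 4 := by
    intro n z
    rw [Real.norm_of_nonneg (by positivity)]
    have h3 : ‖(Q n).eval (z : ℂ) - 1‖ ≤ 2 := by
      refine (norm_sub_le _ _).trans ?_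
      have := hQ n z
      rw [norm_one]
      linarith
    have h4 := pow_le_pow_left₀ (norm_nonneg _) h3 2
    calc f n z ≤ 2 ^ 2 := h4
      _ = 4 := by norm_num
  have hfi : ∀ n, Integrable (f n) ν := fun n =>
    Integrable.of_bound (hfc n).aestronglyMeasurable 4 (Eventually.of_forall fun z => hf4 n z)
  have hL1 : Tendsto (fun n => eLpNorm (f n - fun _ => (0 : ℝ)) 1 ν) atTop (𝓝 0) := by
    have h3 : ∀ n, eLpNorm (f n - fun _ => (0 : ℝ)) 1 ν = ENNReal.ofReal (∫ z, f n z ∂ν) := by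
      intro n
      have h4 : (f n - fun _ => (0 : ℝ)) = f n := by
        funext z
        simp
      rw [h4, eLpNorm_one_eq_lintegral_enorm,
        ofReal_integral_eq_lintegral_ofReal (hfi n) (Eventually.of_forall fun z => by
          show (0 : ℝ) ≤ f n z
          positivity)]
      refine lintegral_congr fun z => ?_
      rw [Real.enorm_of_nonneg (by positivity)]
    simp_rw [h3]
    have h5 := (ENNReal.continuous_ofReal.tendsto 0).comp h1
    rw [ENNReal.ofReal_zero] at h5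
    exact h5
  have hmeas : TendstoInMeasure ν f atTop (fun _ => (0 : ℝ)) :=
    tendstoInMeasure_of_tendsto_eLpNorm one_ne_zero (fun n => (hfc n).aestronglyMeasurable)
      aestronglyMeasurable_const hL1
  obtain ⟨ns, hns, hae⟩ := hmeas.exists_seq_tendsto_ae
  have hae' : ∀ᵐ z ∂(τ.restrict s), Tendsto (fun i => f (ns i) z) atTop (𝓝 0) :=
    hac.ae_le hae
  have hae2 : ∀ᵐ z : Circle ∂(τ.restrict s),
      Tendsto (fun i => ‖(Q (ns i)).eval (z : ℂ)‖ ^ 2) atTop (𝓝 1) := by
    filter_upwards [hae'] with z hz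
    have h3 : Tendsto (fun i => ‖(Q (ns i)).eval (z : ℂ) - 1‖) atTop (𝓝 0) := by
      have h4 := (Real.continuous_sqrt.tendsto 0).comp hz
      rw [Real.sqrt_zero] at h4
      refine h4.congr fun i => ?_
      show Real.sqrt (‖(Q (ns i)).eval (z : ℂ) - 1‖ ^ 2) = _
      rw [Real.sqrt_sq (norm_nonneg _)]
    have h5 : Tendsto (fun i => (Q (ns i)).eval (z : ℂ)) atTop (𝓝 1) :=
      tendsto_iff_norm_sub_tendsto_zero.2 h3
    have h6 := (h5.norm).pow 2
    simpa using h6
  have hdct : Tendsto (fun i => ∫ z : Circle, ‖(Q (ns i)).eval (z : ℂ)‖ ^ 2 ∂(τ.restrict s)) atTop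
      (𝓝 (∫ _z, (1 : ℝ) ∂(τ.restrict s))) := by
    refine tendsto_integral_of_dominated_convergence (fun _ => (1 : ℝ))
      (fun i => (((hQm (ns i)).norm.pow 2)).aestronglyMeasurable) (integrable_const _)
      (fun i => Eventually.of_forall fun z => ?_) hae2
    rw [Real.norm_of_nonneg (by positivity)]
    exact pow_le_one₀ (norm_nonneg _) (hQ _ z)
  -- the test function
  have hfin : τ s ≠ ⊤ := measure_ne_top τ s
  have hh := h2 (indicatorConstLp 2 hs hfin (1 : ℂ))
  have hind : (indicatorConstLp 2 hs hfin (1 : ℂ) : Circle → ℂ) =ᵐ[τ] s.indicator fun _ => 1 :=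
    indicatorConstLp_coeFn
  have hI1 : ∀ n, ∫ z : Circle, ‖(Q n).eval (z : ℂ)‖ ^ 2 *
      ‖(indicatorConstLp 2 hs hfin (1 : ℂ) : Circle → ℂ) z‖ ^ 2 ∂τ =
      ∫ z : Circle, ‖(Q n).eval (z : ℂ)‖ ^ 2 ∂(τ.restrict s) := by
    intro n
    rw [← integral_indicator hs]
    refine integral_congr_ae ?_
    filter_upwards [hind] with z hz
    rw [hz]
    by_cases hzs : z ∈ s
    · simp [hzs]
    · simp [hzs]
  have hI2 : ∫ z : Circle,
      ‖(indicatorConstLp 2 hs hfin (1 : ℂ) : Circle → ℂ) z‖ ^ 2 ∂τ =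
      ∫ _z, (1 : ℝ) ∂(τ.restrict s) := by
    rw [← integral_indicator hs]
    refine integral_congr_ae ?_
    filter_upwards [hind] with z hz
    rw [hz]
    by_cases hzs : z ∈ s
    · simp [hzs]
    · simp [hzs]
  simp_rw [hI1, hI2] at hh
  have hle : ∫ _z, (1 : ℝ) ∂(τ.restrict s) ≤ 1 / 2 * ∫ _z, (1 : ℝ) ∂(τ.restrict s) :=
    le_of_tendsto hdct (hns.tendsto_atTop.eventually hh)
  rw [integral_const, smul_eq_mul, mul_one] at hle
  have h7 : (τ.restrict s).real Set.univ = 0 := by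
    have h8 : 0 ≤ (τ.restrict s).real Set.univ := measureReal_nonneg
    linarith
  rw [measureReal_restrict_apply_univ, measureReal_def, ENNReal.toReal_eq_zero_iff] at h7
  rcases h7 with h7 | h7
  · exact h7
  · exact absurd h7 hfin

end SM345
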