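import Pool.Agent.Helper345.SM.Defs
import Pool.Agent.Helper345.SM.opP_basic

set_option autoImplicit false
set_option linter.unusedVariables false
set_option linter.style.longLine false

open MeasureTheory Filter Topology
open scoped ENNReal NNReal

noncomputable section

namespace SM345

theorem spec_poly {H : Type} [NormedAddCommGroup H] [InnerProductSpace ℂ H]
    (U : H ≃ₗᵢ[ℂ] H) (K : Submodule ℂ H) (hU : ∀ f ∈ K, U f ∈ K) (σ : Measure Circle)
    (W : K ≃ₗᵢ[ℂ] Lp ℂ 2 σ)
    (hW : ∀ f f' : K, (f' : H) = U f →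
        (W f' : Circle → ℂ) =ᵐ[σ] fun z => (z : ℂ) * (W f : Circle → ℂ) z)
    (P : Polynomial ℂ) (f f' : K) (h : (f' : H) = opP U P f) :
    (W f' : Circle → ℂ) =ᵐ[σ] fun z => P.eval (z : ℂ) * (W f : Circle → ℂ) z := by
  have hpow : ∀ (k : ℕ) (g : H), g ∈ K → (U ^ k) g ∈ K := by
    intro k
    induction k with
    | zero => intro g hg; simpa using hg
    | succ k ih =>
      intro g hg
      rw [pow_succ]
      exact ih (U g) (hU g hg)
  have hmem : ∀ (P : Polynomial ℂ) (g : H), g ∈ K → opP U P g ∈ K := by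
    intro P g hg
    unfold opP
    exact Submodule.sum_mem _ fun k _ => Submodule.smul_mem _ _ (hpow k g hg)
  obtain ⟨hmul, hadd, hC, hX, -, -, -, -⟩ := opP_basic U
  induction P using Polynomial.induction_on generalizing f' with
  | C a =>
    have h1 : f' = a • f := by
      apply Subtype.ext
      rw [h, hC]
      rfl
    rw [h1, map_smul]
    filter_upwards [Lp.coeFn_smul a (W f)] with z hz
    rw [hz]
    simp
  | add p q ihp ihq =>
    have h1 : f' = ⟨opP U p f, hmem p f f.2⟩ + ⟨opP U q f, hmem q f f.2⟩ := by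
      apply Subtype.ext
      rw [h, hadd]
      rfl
    rw [h1, map_add]
    filter_upwards [Lp.coeFn_add (W ⟨opP U p f, hmem p f f.2⟩) (W ⟨opP U q f, hmem q f f.2⟩),
      ihp ⟨opP U p f, hmem p f f.2⟩ rfl, ihq ⟨opP U q f, hmem q f f.2⟩ rfl] with z hz h2 h3
    rw [hz]
    simp only [Pi.add_apply]
    rw [h2, h3]
    simp [add_mul]
  | monomial n a ih =>
    have h0 : (Polynomial.C a * Polynomial.X ^ (n + 1) : Polynomial ℂ) =
        Polynomial.X ^ 1 * (Polynomial.C a * Polynomial.X ^ n) := by ring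
    have h1 := hW ⟨opP U (Polynomial.C a * Polynomial.X ^ n) f, hmem _ f f.2⟩ f' (by
      rw [h, h0, hmul, hX]
      simp)
    filter_upwards [h1, ih ⟨opP U (Polynomial.C a * Polynomial.X ^ n) f, hmem _ f f.2⟩ rfl]
      with z hz h2
    rw [hz, h2]
    simp
    ring

end SM345
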