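import Pool.Agent.Helper345.SM.Defs
import Pool.Agent.Helper345.SM.spec_poly
import Pool.Agent.Helper345.SM.opP_basic

set_option autoImplicit false
set_option linter.unusedVariables false
set_option linter.style.longLine false

open MeasureTheory Filter Topology
open scoped ENNReal NNReal

noncomputable section

namespace SM345

/-- the coordinate function -/
def qi_z : C(Circle, ℂ) := ⟨fun z => (z : ℂ), by fun_prop⟩

theorem qi_conj_mul (z : Circle) : (starRingEnd ℂ) (z : ℂ) * (z : ℂ) = 1 := by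
  rw [← Complex.normSq_eq_conj_mul_self, Circle.normSq_coe]
  simp

theorem qi_dense (S : Set C(Circle, ℂ)) (hcl : IsClosed S) (h1 : (1 : C(Circle, ℂ)) ∈ S)
    (hadd : ∀ φ ψ, φ ∈ S → ψ ∈ S → φ + ψ ∈ S) (hsm : ∀ (c : ℂ) φ, φ ∈ S → c • φ ∈ S)
    (hz : ∀ φ ∈ S, qi_z * φ ∈ S) (hz' : ∀ φ ∈ S, star qi_z * φ ∈ S) (φ : C(Circle, ℂ)) :
    φ ∈ S := by
  have hA : (StarAlgebra.adjoin ℂ ({qi_z} : Set C(Circle, ℂ))).topologicalClosure = ⊤ := by
    apply ContinuousMap.starSubalgebra_topologicalClosure_eq_top_of_separatesPoints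
    intro x y hxy
    refine ⟨qi_z, ⟨qi_z, ?_, rfl⟩, ?_⟩
    · exact StarAlgebra.subset_adjoin ℂ _ (Set.mem_singleton _)
    · intro h
      exact hxy (Circle.ext h)
  have hsub : ∀ ψ ∈ Algebra.adjoin ℂ (({qi_z} : Set C(Circle, ℂ)) ∪ star {qi_z}),
      ∀ φ ∈ S, ψ * φ ∈ S := by
    intro ψ hψ
    induction hψ using Algebra.adjoin_induction with
    | mem x hx =>
      intro φ hφ
      rcases hx with hx | hx
      · rw [Set.mem_singleton_iff] at hx
        subst hx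
        exact hz φ hφ
      · have hx' : star x = qi_z := by simpa using hx
        have hx2 : x = star qi_z := by rw [← hx', star_star]
        rw [hx2]
        exact hz' φ hφ
    | algebraMap r =>
      intro φ hφ
      have : algebraMap ℂ C(Circle, ℂ) r * φ = r • φ := by
        rw [Algebra.smul_def]
      rw [this]
      exact hsm r φ hφ
    | add x y _ _ hx hy =>
      intro φ hφ
      rw [add_mul]
      exact hadd _ _ (hx φ hφ) (hy φ hφ)
    | mul x y _ _ hx hy =>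
      intro φ hφ
      rw [mul_assoc]
      exact hx _ (hy φ hφ)
  have hsub2 : ((StarAlgebra.adjoin ℂ ({qi_z} : Set C(Circle, ℂ)) : StarSubalgebra ℂ C(Circle, ℂ)) :
      Set C(Circle, ℂ)) ⊆ S := by
    intro ψ hψ
    have := hsub ψ hψ 1 h1
    rwa [mul_one] at this
  have hmem : φ ∈ (StarAlgebra.adjoin ℂ ({qi_z} : Set C(Circle, ℂ))).topologicalClosure := by
    rw [hA]
    trivial
  exact closure_minimal hsub2 hcl hmem

theorem quasi_inv {H : Type} [NormedAddCommGroup H] [InnerProductSpace ℂ H] [CompleteSpace H]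
    (U : H ≃ₗᵢ[ℂ] H) (K : Submodule ℂ H) (hU : ∀ f ∈ K, U f ∈ K) (hU' : ∀ f ∈ K, U⁻¹ f ∈ K)
    (σ : Measure Circle) [IsFiniteMeasure σ] (W : K ≃ₗᵢ[ℂ] Lp ℂ 2 σ) (g : K)
    (hg : (W g : Circle → ℂ) =ᵐ[σ] (fun _ => 1))
    (hW : ∀ f f' : K, (f' : H) = U f →
        (W f' : Circle → ℂ) =ᵐ[σ] fun z => (z : ℂ) * (W f : Circle → ℂ) z)
    (V : H →ₗ[ℂ] H) (C : ℝ) (hC : ∀ f, ‖V f‖ ≤ C * ‖f‖) (hV : ∀ f ∈ K, V f ∈ K)
    (a : Circle) (hVU : ∀ f ∈ K, V (U f) = (a : ℂ) • U (V f))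
    (hd : ∀ F ∈ K, (∀ f ∈ K, inner ℂ (V f) F = 0) → F = 0) :
    σ.map (rot a) ≪ σ := by
  classical
  let VK : K →ₗ[ℂ] K := V.restrict hV
  have hVK : ∀ f : K, ((VK f : K) : H) = V f := fun f => rfl
  let T0 : Lp ℂ 2 σ →ₗ[ℂ] Lp ℂ 2 σ :=
    W.toLinearEquiv.toLinearMap ∘ₗ VK ∘ₗ W.symm.toLinearEquiv.toLinearMap
  have hT0 : ∀ x, T0 x = W (VK (W.symm x)) := fun x => rfl
  have hT0b : ∀ x, ‖T0 x‖ ≤ C * ‖x‖ := by
    intro x
    rw [hT0, LinearIsometryEquiv.norm_map]
    calc ‖VK (W.symm x)‖ = ‖V ((W.symm x : K) : H)‖ := rfl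
      _ ≤ C * ‖((W.symm x : K) : H)‖ := hC _
      _ = C * ‖x‖ := by
        have e : ‖((W.symm x : K) : H)‖ = ‖W.symm x‖ := rfl
        rw [e, LinearIsometryEquiv.norm_map]
  let T : Lp ℂ 2 σ →L[ℂ] Lp ℂ 2 σ := T0.mkContinuous C hT0b
  have hT : ∀ x, T x = W (VK (W.symm x)) := fun x => rfl
  have hTb : ∀ x, ‖T x‖ ≤ C * ‖x‖ := hT0b
  set h : Lp ℂ 2 σ := W (VK g) with hh
  let ι : C(Circle, ℂ) →L[ℂ] Lp ℂ 2 σ := ContinuousMap.toLp (E := ℂ) 2 σ ℂ
  have hι : ∀ φ : C(Circle, ℂ), (ι φ : Circle → ℂ) =ᵐ[σ] φ := fun φ =>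
    ContinuousMap.coeFn_toLp (E := ℂ) (p := 2) (𝕜 := ℂ) σ φ
  let S : Set C(Circle, ℂ) :=
    {φ | (T (ι φ) : Circle → ℂ) =ᵐ[σ] fun z => φ (rot a z) * (h : Circle → ℂ) z}
  have hS1 : (1 : C(Circle, ℂ)) ∈ S := by
    have e1 : ι 1 = W g := by
      apply Lp.ext
      refine (hι 1).trans ?_
      refine EventuallyEq.trans ?_ hg.symm
      exact Eventually.of_forall fun z => rfl
    have e2 : T (ι 1) = h := by
      rw [hT, e1, LinearIsometryEquiv.symm_apply_apply]
    change (T (ι 1) : Circle → ℂ) =ᵐ[σ] _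
    rw [e2]
    exact Eventually.of_forall fun z => by simp
  have hSadd : ∀ φ ψ, φ ∈ S → ψ ∈ S → φ + ψ ∈ S := by
    intro φ ψ hφ hψ
    change (T (ι (φ + ψ)) : Circle → ℂ) =ᵐ[σ] _
    rw [map_add, map_add]
    filter_upwards [Lp.coeFn_add (T (ι φ)) (T (ι ψ)), hφ, hψ] with z h1 h2 h3
    rw [h1, Pi.add_apply, h2, h3, ContinuousMap.add_apply]
    ring
  have hSsm : ∀ (c : ℂ) φ, φ ∈ S → c • φ ∈ S := by
    intro c φ hφ
    change (T (ι (c • φ)) : Circle → ℂ) =ᵐ[σ] _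
    rw [map_smul, map_smul]
    filter_upwards [Lp.coeFn_smul c (T (ι φ)), hφ] with z h1 h2
    rw [h1, Pi.smul_apply, h2, ContinuousMap.smul_apply, smul_eq_mul, smul_eq_mul]
    ring
  have hrot : ∀ z : Circle, ((rot a z : Circle) : ℂ) = (a : ℂ) * (z : ℂ) := fun z => by
    simp [rot]
  have hSz : ∀ φ ∈ S, qi_z * φ ∈ S := by
    intro φ hφ
    let f : K := W.symm (ι φ)
    have hWf : W f = ι φ := W.apply_symm_apply _
    let f' : K := ⟨U f, hU f f.2⟩
    have e1 : W f' = ι (qi_z * φ) := by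
      apply Lp.ext
      filter_upwards [hW f f' rfl, hι (qi_z * φ), hι φ] with z h1 h2 h3
      rw [h1, h2, hWf, h3]
      rfl
    have e2 : W.symm (ι (qi_z * φ)) = f' := by rw [← e1, W.symm_apply_apply]
    let v' : K := ⟨U (VK f : K), hU _ (VK f).2⟩
    have e3 : VK f' = (a : ℂ) • v' := by
      apply Subtype.ext
      change V (U f) = (a : ℂ) • U (V f)
      exact hVU f f.2
    have e4 : T (ι (qi_z * φ)) = (a : ℂ) • W v' := by
      rw [hT, e2, e3, map_smul]
    change (T (ι (qi_z * φ)) : Circle → ℂ) =ᵐ[σ] _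
    rw [e4]
    have hφ' : (W (VK f) : Circle → ℂ) =ᵐ[σ] fun z => φ (rot a z) * (h : Circle → ℂ) z := hφ
    filter_upwards [Lp.coeFn_smul (a : ℂ) (W v'), hW (VK f) v' rfl, hφ'] with z h1 h2 h3
    rw [h1, Pi.smul_apply, h2, h3, ContinuousMap.mul_apply, smul_eq_mul]
    change _ = ((rot a z : Circle) : ℂ) * φ (rot a z) * _
    rw [hrot]
    ring
  have hSz' : ∀ φ ∈ S, star qi_z * φ ∈ S := by
    intro φ hφ
    let f : K := W.symm (ι φ)
    have hWf : W f = ι φ := W.apply_symm_apply _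
    let f' : K := ⟨U⁻¹ f, hU' f f.2⟩
    have hUf' : (f : H) = U (f' : H) := by
      change (f : H) = U (U⁻¹ (f : H))
      exact (U.apply_symm_apply _).symm
    have e1 : W f' = ι (star qi_z * φ) := by
      apply Lp.ext
      filter_upwards [hW f' f hUf', hι (star qi_z * φ), hι φ] with z h1 h2 h3
      rw [hWf, h3] at h1
      rw [h2, ContinuousMap.mul_apply, h1]
      change _ = (starRingEnd ℂ) (z : ℂ) * _
      rw [← mul_assoc, qi_conj_mul, one_mul]
    have e2 : W.symm (ι (star qi_z * φ)) = f' := by rw [← e1, W.symm_apply_apply]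
    let v' : K := ⟨U (VK f' : K), hU _ (VK f').2⟩
    have e3 : VK f = (a : ℂ) • v' := by
      apply Subtype.ext
      change V f = (a : ℂ) • U (V f')
      rw [hUf']
      exact hVU f' f'.2
    have e4 : T (ι φ) = (a : ℂ) • W v' := by
      rw [hT]
      change W (VK f) = _
      rw [e3, map_smul]
    have e5 : T (ι (star qi_z * φ)) = W (VK f') := by rw [hT, e2]
    change (T (ι (star qi_z * φ)) : Circle → ℂ) =ᵐ[σ] _
    rw [e5]
    have hφ' : (T (ι φ) : Circle → ℂ) =ᵐ[σ] fun z => φ (rot a z) * (h : Circle → ℂ) z := hφ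
    rw [e4] at hφ'
    filter_upwards [Lp.coeFn_smul (a : ℂ) (W v'), hW (VK f') v' rfl, hφ'] with z h1 h2 h3
    rw [h1, Pi.smul_apply, h2, smul_eq_mul] at h3
    rw [ContinuousMap.mul_apply]
    change _ = (starRingEnd ℂ) ((rot a z : Circle) : ℂ) * φ (rot a z) * _
    rw [mul_assoc, ← h3, hrot, map_mul]
    have ha := qi_conj_mul a
    have hz := qi_conj_mul z
    linear_combination (-(starRingEnd ℂ) (z : ℂ) * (z : ℂ) * (W (VK f') : Circle → ℂ) z) * ha
      - (W (VK f') : Circle → ℂ) z * hz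
  have hScl : IsClosed S := by
    apply isClosed_of_closure_subset
    intro φ hφ
    obtain ⟨u, hu, hlim⟩ := mem_closure_iff_seq_limit.1 hφ
    have h1 : Tendsto (fun n => T (ι (u n))) atTop (𝓝 (T (ι φ))) :=
      ((T.continuous.comp ι.continuous).tendsto φ).comp hlim
    obtain ⟨ns, hns, hae⟩ := (tendstoInMeasure_of_tendsto_Lp h1).exists_seq_tendsto_ae
    have hall : ∀ᵐ z ∂σ, ∀ n, (T (ι (u n)) : Circle → ℂ) z = u n (rot a z) * (h : Circle → ℂ) z :=
      ae_all_iff.2 fun n => hu n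
    change (T (ι φ) : Circle → ℂ) =ᵐ[σ] _
    filter_upwards [hae, hall] with z h2 h3
    have h4 : Tendsto (fun i => u (ns i) (rot a z) * (h : Circle → ℂ) z) atTop
        (𝓝 (φ (rot a z) * (h : Circle → ℂ) z)) := by
      have h5 : Tendsto (fun n => u n (rot a z)) atTop (𝓝 (φ (rot a z))) :=
        ((continuous_eval_const (F := C(Circle, ℂ)) (rot a z)).tendsto φ).comp hlim
      exact (h5.comp hns.tendsto_atTop).mul_const _
    have h6 : Tendsto (fun i => u (ns i) (rot a z) * (h : Circle → ℂ) z) atTop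
        (𝓝 ((T (ι φ) : Circle → ℂ) z)) := by
      refine h2.congr fun i => ?_
      exact h3 _
    exact tendsto_nhds_unique h6 h4
  have hSall : ∀ φ : C(Circle, ℂ),
      (T (ι φ) : Circle → ℂ) =ᵐ[σ] fun z => φ (rot a z) * (h : Circle → ℂ) z := fun φ =>
    qi_dense S hScl hS1 hSadd hSsm hSz hSz' φ
  -- inequality for continuous functions
  have hnorm : ∀ f : Lp ℂ 2 σ, ∫⁻ z, ‖(f : Circle → ℂ) z‖ₑ ^ 2 ∂σ = ‖f‖ₑ ^ 2 := by
    intro f
    rw [Lp.enorm_def, eLpNorm_eq_lintegral_rpow_enorm_toReal (by norm_num) (by norm_num)]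
    simp only [ENNReal.toReal_ofNat, ENNReal.rpow_ofNat, one_div]
    rw [← ENNReal.rpow_ofNat, ← ENNReal.rpow_mul]
    norm_num
  have hF1 : ∀ φ : C(Circle, ℂ), ∫⁻ z, ‖φ (rot a z)‖ₑ ^ 2 * ‖(h : Circle → ℂ) z‖ₑ ^ 2 ∂σ ≤
      ENNReal.ofReal C ^ 2 * ∫⁻ z, ‖φ z‖ₑ ^ 2 ∂σ := by
    intro φ
    have e1 : ∫⁻ z, ‖φ (rot a z)‖ₑ ^ 2 * ‖(h : Circle → ℂ) z‖ₑ ^ 2 ∂σ = ‖T (ι φ)‖ₑ ^ 2 := by
      rw [← hnorm]
      apply lintegral_congr_ae
      filter_upwards [hSall φ] with z hz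
      rw [hz, enorm_mul, mul_pow]
    have e2 : ∫⁻ z, ‖φ z‖ₑ ^ 2 ∂σ = ‖ι φ‖ₑ ^ 2 := by
      rw [← hnorm]
      apply lintegral_congr_ae
      filter_upwards [hι φ] with z hz
      rw [hz]
    rw [e1, e2, ← mul_pow]
    gcongr
    rw [← ofReal_norm, ← ofReal_norm]
    by_cases hC0 : 0 ≤ C
    · rw [← ENNReal.ofReal_mul hC0]
      exact ENNReal.ofReal_le_ofReal (hTb _)
    · have h1 := hTb (ι φ)
      have h2 : C * ‖ι φ‖ ≤ 0 := mul_nonpos_of_nonpos_of_nonneg (by linarith) (norm_nonneg _)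
      rw [ENNReal.ofReal_of_nonpos (h1.trans h2)]
      exact zero_le
  have hrotm : Measurable (rot a) := by
    have : Continuous (rot a) := by
      unfold rot
      fun_prop
    exact this.measurable
  have hhm : Measurable (h : Circle → ℂ) := (Lp.stronglyMeasurable h).measurable
  -- the image measure
  let ν : Measure Circle := (σ.withDensity fun z => ‖(h : Circle → ℂ) z‖ₑ ^ 2).map (rot a)
  have hνint : ∀ u : Circle → ℝ≥0∞, Measurable u →
      ∫⁻ z, u z ∂ν = ∫⁻ z, ‖(h : Circle → ℂ) z‖ₑ ^ 2 * u (rot a z) ∂σ := by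
    intro u hu
    have hm2 : Measurable fun z => ‖(h : Circle → ℂ) z‖ₑ ^ 2 := hhm.enorm.pow_const 2
    have e := lintegral_withDensity_eq_lintegral_mul σ (f := fun z => ‖(h : Circle → ℂ) z‖ₑ ^ 2) hm2
      (g := fun z => u (rot a z)) (hu.comp hrotm)
    change ∫⁻ z, u z ∂(Measure.map (rot a) (σ.withDensity fun z => ‖(h : Circle → ℂ) z‖ₑ ^ 2)) = _
    rw [lintegral_map hu hrotm, e]
    rfl
  have hνfin : IsFiniteMeasure ν := by
    constructor
    have e : ν Set.univ = ∫⁻ z, (1 : ℝ≥0∞) ∂ν := by simp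
    rw [e, hνint _ measurable_const]
    simp only [mul_one]
    rw [hnorm]
    exact ENNReal.pow_lt_top (enorm_lt_top)
  have hνle : ∀ φ : C(Circle, ℂ), ∫⁻ z, ‖φ z‖ₑ ^ 2 ∂ν ≤
      ENNReal.ofReal C ^ 2 * ∫⁻ z, ‖φ z‖ₑ ^ 2 ∂σ := by
    intro φ
    rw [hνint _ (by fun_prop)]
    refine le_trans (le_of_eq ?_) (hF1 φ)
    apply lintegral_congr
    intro z
    rw [mul_comm]
  have hνac : ∀ E : Set Circle, MeasurableSet E → σ E = 0 → ν E = 0 := by
    intro E hE hE0
    have key : ∀ ε : ℝ≥0∞, ε ≠ 0 → ν E ≤ (2 + 2 * ENNReal.ofReal C ^ 2) * ε ^ 2 := by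
      intro ε hε
      have hmem : MemLp (E.indicator fun _ => (1 : ℂ)) 2 (σ + ν) :=
        memLp_indicator_const 2 hE 1 (Or.inr (measure_ne_top _ _))
      obtain ⟨φ, hφ, -⟩ := hmem.exists_boundedContinuous_eLpNorm_sub_le (by norm_num) hε
      set w : Circle → ℝ≥0∞ := fun z => ‖E.indicator (fun _ => (1 : ℂ)) z - φ z‖ₑ ^ 2 with hw
      have hwm : Measurable w := by
        have : Measurable fun z => E.indicator (fun _ => (1 : ℂ)) z - φ z :=
          (measurable_const.indicator hE).sub φ.continuous.measurable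
        exact this.enorm.pow_const 2
      have hwint : ∫⁻ z, w z ∂(σ + ν) ≤ ε ^ 2 := by
        have e : ∫⁻ z, w z ∂(σ + ν) =
            eLpNorm ((E.indicator fun _ => (1 : ℂ)) - (φ : Circle → ℂ)) 2 (σ + ν) ^ 2 := by
          rw [eLpNorm_eq_lintegral_rpow_enorm_toReal (by norm_num) (by norm_num)]
          simp only [ENNReal.toReal_ofNat, ENNReal.rpow_ofNat, one_div]
          rw [← ENNReal.rpow_ofNat, ← ENNReal.rpow_mul]
          norm_num
          rfl
        rw [e]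
        gcongr
      rw [lintegral_add_measure] at hwint
      have hws : ∫⁻ z, w z ∂σ ≤ ε ^ 2 := le_trans le_self_add hwint
      have hwn : ∫⁻ z, w z ∂ν ≤ ε ^ 2 := le_trans le_add_self hwint
      have hφσ : ∫⁻ z, ‖φ z‖ₑ ^ 2 ∂σ ≤ ε ^ 2 := by
        refine le_trans (le_of_eq ?_) hws
        apply lintegral_congr_ae
        have : ∀ᵐ z ∂σ, z ∉ E := measure_eq_zero_iff_ae_notMem.1 hE0
        filter_upwards [this] with z hz
        rw [hw]
        simp [Set.indicator_of_notMem hz]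
      have hφν : ∫⁻ z, ‖φ z‖ₑ ^ 2 ∂ν ≤ ENNReal.ofReal C ^ 2 * ε ^ 2 := by
        refine le_trans (hνle φ.toContinuousMap) ?_
        gcongr
        exact hφσ
      have hpt : ∀ z, E.indicator (fun _ => (1 : ℝ≥0∞)) z ≤ 2 * w z + 2 * ‖φ z‖ₑ ^ 2 := by
        intro z
        by_cases hz : z ∈ E
        · rw [Set.indicator_of_mem hz]
          have e1 : (1 : ℂ) = (E.indicator (fun _ => (1 : ℂ)) z - φ z) + φ z := by
            rw [Set.indicator_of_mem hz]; ring
          have e2 : ‖(1 : ℂ)‖ ≤ ‖E.indicator (fun _ => (1 : ℂ)) z - φ z‖ + ‖φ z‖ := by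
            conv_lhs => rw [e1]
            exact norm_add_le _ _
          rw [norm_one] at e2
          have e3 : (1 : ℝ) ≤ 2 * ‖E.indicator (fun _ => (1 : ℂ)) z - φ z‖ ^ 2 + 2 * ‖φ z‖ ^ 2 := by
            nlinarith [sq_nonneg (‖E.indicator (fun _ => (1 : ℂ)) z - φ z‖ - ‖φ z‖)]
          have e4 := ENNReal.ofReal_le_ofReal e3
          rw [ENNReal.ofReal_one, ENNReal.ofReal_add (by positivity) (by positivity),
            ENNReal.ofReal_mul (by norm_num), ENNReal.ofReal_mul (by norm_num),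
            ENNReal.ofReal_pow (norm_nonneg _), ENNReal.ofReal_pow (norm_nonneg _),
            ofReal_norm, ofReal_norm] at e4
          simpa using e4
        · rw [Set.indicator_of_notMem hz]
          exact zero_le
      calc ν E = ∫⁻ z, E.indicator (fun _ => (1 : ℝ≥0∞)) z ∂ν := by
            rw [lintegral_indicator hE]; simp
        _ ≤ ∫⁻ z, (2 * w z + 2 * ‖φ z‖ₑ ^ 2) ∂ν := lintegral_mono hpt
        _ = 2 * ∫⁻ z, w z ∂ν + 2 * ∫⁻ z, ‖φ z‖ₑ ^ 2 ∂ν := by
            rw [lintegral_add_left (hwm.const_mul 2), lintegral_const_mul _ hwm,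
              lintegral_const_mul]
            exact φ.continuous.measurable.enorm.pow_const 2
        _ ≤ 2 * ε ^ 2 + 2 * (ENNReal.ofReal C ^ 2 * ε ^ 2) := by gcongr
        _ = (2 + 2 * ENNReal.ofReal C ^ 2) * ε ^ 2 := by ring
    have hlim : Tendsto (fun n : ℕ => (2 + 2 * ENNReal.ofReal C ^ 2) * ((n : ℝ≥0∞)⁻¹) ^ 2) atTop
        (𝓝 ((2 + 2 * ENNReal.ofReal C ^ 2) * (0 : ℝ≥0∞) ^ 2)) := by
      apply ENNReal.Tendsto.const_mul
      · have h0 := ENNReal.tendsto_inv_nat_nhds_zero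
        have := ENNReal.Tendsto.pow (n := 2) h0
        exact this
      · right
        finiteness
    have hle : ν E ≤ (2 + 2 * ENNReal.ofReal C ^ 2) * (0 : ℝ≥0∞) ^ 2 := by
      refine ge_of_tendsto hlim (Eventually.of_forall fun n => key _ ?_)
      simp
    simpa using hle
  have hZ : ∀ᵐ z ∂σ, (h : Circle → ℂ) z ≠ 0 := by
    set Z : Set Circle := {z | (h : Circle → ℂ) z = 0} with hZdef
    have hZm : MeasurableSet Z := hhm (measurableSet_singleton 0)
    let q : Lp ℂ 2 σ := indicatorConstLp 2 hZm (measure_ne_top σ Z) (1 : ℂ)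
    have hq : (q : Circle → ℂ) =ᵐ[σ] Z.indicator fun _ => (1 : ℂ) := indicatorConstLp_coeFn
    have hclosed : IsClosed {x : Lp ℂ 2 σ | inner ℂ (T x) q = 0} :=
      isClosed_eq ((T.continuous).inner continuous_const) continuous_const
    have hall : ∀ x : Lp ℂ 2 σ, inner ℂ (T x) q = 0 := by
      intro x
      have hdr : DenseRange (ContinuousMap.toLp (E := ℂ) 2 σ ℂ) :=
        ContinuousMap.toLp_denseRange ℂ σ ℂ (by norm_num)
      refine hdr.induction_on (p := fun x => inner ℂ (T x) q = 0) x hclosed ?_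
      intro φ
      rw [L2.inner_def]
      rw [integral_eq_zero_of_ae]
      filter_upwards [hSall φ, hq] with z h1 h2
      change inner ℂ ((T (ι φ) : Circle → ℂ) z) _ = _
      rw [h1, h2]
      by_cases hz : z ∈ Z
      · have : (h : Circle → ℂ) z = 0 := hz
        rw [this]
        simp
      · rw [Set.indicator_of_notMem hz]
        simp
    let F : K := W.symm q
    have hF : (F : H) = 0 := by
      apply hd F F.2
      intro f hf
      have e1 : T (W ⟨f, hf⟩) = W (VK ⟨f, hf⟩) := by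
        rw [hT, W.symm_apply_apply]
      have e2 : inner ℂ (W (VK ⟨f, hf⟩)) (W F) = inner ℂ (VK ⟨f, hf⟩) F :=
        W.inner_map_map _ _
      have e3 : inner ℂ (VK ⟨f, hf⟩) F = inner ℂ (V f) (F : H) := rfl
      rw [← e3, ← e2, ← e1]
      have e4 : W F = q := W.apply_symm_apply _
      rw [e4]
      exact hall _
    have hq0 : q = 0 := by
      have e4 : W F = q := W.apply_symm_apply _
      have e5 : F = 0 := Subtype.ext hF
      rw [← e4, e5, map_zero]
    have hq1 : (q : Circle → ℂ) =ᵐ[σ] 0 := by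
      rw [hq0]
      exact Lp.coeFn_zero _ _ _
    filter_upwards [hq, hq1] with z h1 h2 h3
    rw [h2] at h1
    have : z ∈ Z := h3
    rw [Set.indicator_of_mem this] at h1
    simp at h1
  refine Measure.AbsolutelyContinuous.mk fun E hE hE0 => ?_
  rw [Measure.map_apply hrotm hE]
  have h1 := hνac E hE hE0
  have h2 : ∫⁻ z in rot a ⁻¹' E, ‖(h : Circle → ℂ) z‖ₑ ^ 2 ∂σ = 0 := by
    rw [← withDensity_apply _ (hrotm hE), ← Measure.map_apply hrotm hE]
    exact h1
  rw [lintegral_eq_zero_iff (by fun_prop)] at h2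
  have h3 : ∀ᵐ z ∂σ.restrict (rot a ⁻¹' E), False := by
    filter_upwards [h2, ae_restrict_of_ae hZ] with z h4 h5
    apply h5
    simpa using h4
  rw [ae_iff] at h3
  simpa using h3

end SM345
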