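import Pool.Agent.Helper345.SM.Defs
import Pool.Agent.Helper345.SM.Kc_approx
import Pool.Agent.Helper345.SM.bf_norm
import Pool.Agent.Helper345.SM.rel_D
import Pool.Agent.Helper345.SM.ee_facts
import Pool.Agent.Helper345.SM.J_basic
import Pool.Agent.Helper345.SM.isLim_pow

set_option autoImplicit false
set_option linter.unusedVariables false
set_option linter.style.longLine false

open MeasureTheory Filter Topology
open scoped ENNReal NNReal

noncomputable section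

namespace SM345

theorem relTS_chi0 (b : ZMod 5) : chi (0 * b) = 1 := by
  simp [chi]

theorem relTS_level (c : Ctx) (n : ℕ) (f : ZMod (Nn n) → ℂ) (C : ℝ) (hC : ∀ u, ‖f u‖ ≤ C) :
    ‖c.UT (J c.hμ n (bf n 0 f)) - c.US (c.US (c.US (J c.hμ n (bf n 0 f))))‖ ≤ 4 * (C * δδ n) := by
  have hb : ∀ y, ‖bf n 0 f y‖ ≤ C := by
    intro y
    rw [bf, relTS_chi0, mul_one]
    exact hC _
  have e1 : bf n 0 f ∘ (TP n) = bf n 0 (fun u => f (u + 3)) := by
    funext y
    change f ((TF n y).1) * chi (0 * (TF n y).2) = f (y.1 + 3) * chi (0 * y.2)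
    rw [relTS_chi0, relTS_chi0]
    rfl
  have e2 : (fun y => bf n 0 f (((sP n) ^ 3) y)) = bf n 0 (fun u => f (u + 3)) := by
    funext y
    change f ((sF n (sF n (sF n y))).1) * chi (0 * (sF n (sF n (sF n y))).2) =
      f (y.1 + 3) * chi (0 * y.2)
    rw [relTS_chi0, relTS_chi0]
    have : (sF n (sF n (sF n y))).1 = y.1 + 3 := by
      change y.1 + 1 + 1 + 1 = y.1 + 3
      ring
    rw [this]
  have h1 := c.lT n (bf n 0 f) C hb
  rw [e1] at h1
  have h2 := isLim_pow c.hμ sP δδ c.US c.lS n 3 (bf n 0 f) C hb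
  rw [e2] at h2
  have e3 : (c.US ^ 3) (J c.hμ n (bf n 0 f)) = c.US (c.US (c.US (J c.hμ n (bf n 0 f)))) := rfl
  rw [e3] at h2
  set j := J c.hμ n (bf n 0 (fun u => f (u + 3))) with hj
  have h3 : ‖c.UT (J c.hμ n (bf n 0 f)) - c.US (c.US (c.US (J c.hμ n (bf n 0 f))))‖ ≤
      ‖c.UT (J c.hμ n (bf n 0 f)) - j‖ + ‖c.US (c.US (c.US (J c.hμ n (bf n 0 f)))) - j‖ := by
    have := norm_sub_le (c.UT (J c.hμ n (bf n 0 f)) - j)
      (c.US (c.US (c.US (J c.hμ n (bf n 0 f)))) - j)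
    rwa [sub_sub_sub_cancel_right] at this
  push_cast at h2
  have h1' : ‖c.UT (J c.hμ n (bf n 0 f)) - j‖ ≤ C * δδ n := h1
  linarith

theorem relTS_lift (c : Ctx) (n : ℕ) (f : ZMod (Nn n) → ℂ) (C : ℝ) (hC : ∀ u, ‖f u‖ ≤ C) :
    ∀ k : ℕ, ∃ f' : ZMod (Nn (n + k)) → ℂ, (∀ u, ‖f' u‖ ≤ C) ∧
      J c.hμ (n + k) (bf (n + k) 0 f') = J c.hμ n (bf n 0 f) := by
  intro k
  induction k with
  | zero => exact ⟨f, hC, rfl⟩
  | succ k ih =>
    obtain ⟨f', h1, h2⟩ := ih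
    refine ⟨fun u => f' ((pr (Nn (n + k)) (wn (n + k)) (Bn (n + k)) u.val : ℕ) :
      ZMod (Nn (n + k))), fun u => h1 _, ?_⟩
    rw [← h2]
    exact (bf_norm c (n + k) 0 f').2.2

theorem relTS_base (c : Ctx) (n : ℕ) (f : ZMod (Nn n) → ℂ) :
    c.UT (J c.hμ n (bf n 0 f)) = c.US (c.US (c.US (J c.hμ n (bf n 0 f)))) := by
  obtain ⟨C, hC⟩ := (Set.finite_range (fun u => ‖f u‖)).bddAbove
  have hC' : ∀ u, ‖f u‖ ≤ C := fun u => hC ⟨u, rfl⟩
  have key : ∀ k : ℕ, ‖c.UT (J c.hμ n (bf n 0 f)) -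
      c.US (c.US (c.US (J c.hμ n (bf n 0 f))))‖ ≤ 4 * (C * δδ (k + n)) := by
    intro k
    obtain ⟨f', h1, h2⟩ := relTS_lift c n f C hC' k
    have h3 := relTS_level c (n + k) f' C h1
    rw [h2] at h3
    rwa [Nat.add_comm k n]
  have ht : Tendsto (fun k : ℕ => 4 * (C * δδ (k + n))) atTop (𝓝 0) := by
    have h4 : Tendsto (fun k : ℕ => δδ (k + n)) atTop (𝓝 0) :=
      ee_facts.2.2.1.comp (tendsto_add_atTop_nat n)
    have := (h4.const_mul C).const_mul 4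
    simpa using this
  have h5 := ge_of_tendsto' ht key
  rw [← sub_eq_zero, ← norm_le_zero_iff]
  exact h5
theorem rel_TS (c : Ctx) (F : Lp ℂ 2 c.μ) (hF : F ∈ c.Kc 0) : c.UT F = c.US (c.US (c.US F)) := by
  rw [← sub_eq_zero, ← norm_le_zero_iff]
  refine le_of_forall_pos_le_add fun ε hε => ?_
  obtain ⟨n, f, hf⟩ := Kc_approx c 0 F hF (ε / 2) (by linarith)
  have h1 := relTS_base c n f
  set F' := J c.hμ n (bf n 0 f) with hF'
  have h2 : c.UT F - c.US (c.US (c.US F)) =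
      c.UT (F - F') - c.US (c.US (c.US (F - F'))) := by
    rw [map_sub, map_sub, map_sub, map_sub, h1]
    abel
  rw [h2, zero_add]
  refine (norm_sub_le _ _).trans ?_
  rw [LinearIsometryEquiv.norm_map, LinearIsometryEquiv.norm_map, LinearIsometryEquiv.norm_map,
    LinearIsometryEquiv.norm_map]
  linarith

end SM345
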