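import Pool.Agent.Helper345.SM.Defs

set_option autoImplicit false
set_option linter.unusedVariables false
set_option linter.style.longLine false

open MeasureTheory Filter Topology
open scoped ENNReal NNReal

noncomputable section

namespace SM345

open scoped InnerProductSpace

namespace SPA

/-- The circle `ℝ / ℤ`. -/
abbrev TT : Type := AddCircle (1 : ℝ)

/-- The character `t ↦ exp (2 π i n t)` in `L²(σ)`. -/
noncomputable def ch (σ : Measure TT) [IsFiniteMeasure σ] (n : ℤ) : Lp ℂ 2 σ :=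
  ContinuousMap.toLp 2 σ ℂ (fourier n)

/-- The closed cyclic subspace of `v`. -/
noncomputable def cyc {H : Type} [NormedAddCommGroup H] [InnerProductSpace ℂ H] (U : H ≃ₗᵢ[ℂ] H)
    (v : H) : Submodule ℂ H :=
  (Submodule.span ℂ (Set.range fun n : ℤ => (U ^ n) v)).topologicalClosure


end SPA

namespace SPA


/-! ## TARGET (prove this) -/

theorem ch_dense (σ : Measure TT) [IsFiniteMeasure σ] :
    (Submodule.span ℂ (Set.range (ch σ))).topologicalClosure = ⊤ := by
  haveI : Fact (0 < (1 : ℝ)) := ⟨one_pos⟩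
  convert!
    (ContinuousMap.toLp_denseRange (p := 2) ℂ σ ℂ (by simp)).topologicalClosure_map_submodule
      (span_fourier_closure_eq_top (T := (1 : ℝ)))
  rw [Submodule.map_span]
  congr 1
  ext x
  simp only [Set.mem_range, Set.mem_image, exists_exists_eq_and, ch]
  rfl

end SPA

namespace SPA




/-! ## TARGET (prove this) -/

theorem cyc_inner_aux {H : Type} [NormedAddCommGroup H] [InnerProductSpace ℂ H]
    (U : H ≃ₗᵢ[ℂ] H) (v : H) (σ : Measure TT) [IsFiniteMeasure σ]
    (hσ : ∀ n : ℤ, ∫ z, fourier n z ∂σ = ⟪v, (U ^ n) v⟫_ℂ) (m n : ℤ) :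
    ⟪ch σ m, ch σ n⟫_ℂ = ⟪(U ^ m) v, (U ^ n) v⟫_ℂ := by
  have h1 : ⟪ch σ m, ch σ n⟫_ℂ = ∫ z, fourier (n - m) z ∂σ := by
    unfold ch
    rw [ContinuousMap.inner_toLp]
    refine integral_congr_ae (Eventually.of_forall fun x => ?_)
    have : n - m = n + -m := by ring
    simp only [this, fourier_add, fourier_neg]
  have h2 : (U ^ n) v = (U ^ m) ((U ^ (n - m)) v) := by
    have : U ^ n = U ^ m * U ^ (n - m) := by rw [← zpow_add]; congr 1; ring
    rw [this]
    rfl
  rw [h1, hσ, h2, LinearIsometryEquiv.inner_map_map]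

theorem cyc_norm_aux {H : Type} [NormedAddCommGroup H] [InnerProductSpace ℂ H]
    (U : H ≃ₗᵢ[ℂ] H) (v : H) (σ : Measure TT) [IsFiniteMeasure σ]
    (hσ : ∀ n : ℤ, ∫ z, fourier n z ∂σ = ⟪v, (U ^ n) v⟫_ℂ) (a : ℤ →₀ ℂ) :
    ‖Finsupp.linearCombination ℂ (fun n : ℤ => (U ^ n) v) a‖ =
      ‖Finsupp.linearCombination ℂ (ch σ) a‖ := by
  have h : ⟪Finsupp.linearCombination ℂ (fun n : ℤ => (U ^ n) v) a,
      Finsupp.linearCombination ℂ (fun n : ℤ => (U ^ n) v) a⟫_ℂ =
      ⟪Finsupp.linearCombination ℂ (ch σ) a, Finsupp.linearCombination ℂ (ch σ) a⟫_ℂ := by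
    simp only [Finsupp.linearCombination_apply, Finsupp.sum, sum_inner, inner_sum,
      inner_smul_left, inner_smul_right, cyc_inner_aux U v σ hσ]
  rw [inner_self_eq_norm_sq_to_K, inner_self_eq_norm_sq_to_K] at h
  have h2 : ‖Finsupp.linearCombination ℂ (fun n : ℤ => (U ^ n) v) a‖ ^ 2 =
      ‖Finsupp.linearCombination ℂ (ch σ) a‖ ^ 2 := by exact_mod_cast h
  exact (sq_eq_sq₀ (norm_nonneg _) (norm_nonneg _)).1 h2

theorem cyc_mul_aux (σ : Measure TT) [IsFiniteMeasure σ] (f : Lp ℂ 2 σ) :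
    ∃ g : Lp ℂ 2 σ, g =ᵐ[σ] fun z => fourier 1 z * f z := by
  have h : MemLp (fun z => fourier 1 z * f z) 2 σ := by
    refine MemLp.of_le (Lp.memLp f) ?_ (Eventually.of_forall fun z => ?_)
    · exact ((fourier (T := (1 : ℝ)) 1).continuous.aestronglyMeasurable).mul
        (Lp.aestronglyMeasurable f)
    · rw [norm_mul]
      have : ‖(fourier 1 z : ℂ)‖ = 1 := by rw [fourier_apply]; exact Circle.norm_coe _
      rw [this, one_mul]
  exact ⟨h.toLp _, h.coeFn_toLp⟩

theorem cyc_dist_aux (σ : Measure TT) [IsFiniteMeasure σ] (f g f' g' : Lp ℂ 2 σ)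
    (h : g =ᵐ[σ] fun z => fourier 1 z * f z) (h' : g' =ᵐ[σ] fun z => fourier 1 z * f' z) :
    ‖g - g'‖ = ‖f - f'‖ := by
  rw [Lp.norm_def, Lp.norm_def]
  congr 1
  refine eLpNorm_congr_norm_ae ?_
  filter_upwards [Lp.coeFn_sub g g', Lp.coeFn_sub f f', h, h'] with z h1 h2 h3 h4
  rw [h1, h2, Pi.sub_apply, Pi.sub_apply, h3, h4, ← mul_sub, norm_mul]
  have : ‖(fourier 1 z : ℂ)‖ = 1 := by rw [fourier_apply]; exact Circle.norm_coe _
  rw [this, one_mul]


theorem cyc_iso {H : Type} [NormedAddCommGroup H] [InnerProductSpace ℂ H] [CompleteSpace H]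
    (U : H ≃ₗᵢ[ℂ] H) (v : H) (σ : Measure TT) [IsFiniteMeasure σ]
    (hσ : ∀ n : ℤ, ∫ z, fourier n z ∂σ = ⟪v, (U ^ n) v⟫_ℂ) :
    ∃ W : Lp ℂ 2 σ →ₗᵢ[ℂ] H, (∀ n, W (ch σ n) = (U ^ n) v) ∧
      (∀ f g : Lp ℂ 2 σ, (g =ᵐ[σ] fun z => fourier 1 z * f z) → W g = U (W f)) ∧
      LinearMap.range W.toLinearMap = cyc U v := by
  set e : (ℤ →₀ ℂ) →ₗ[ℂ] Lp ℂ 2 σ := Finsupp.linearCombination ℂ (ch σ) with he
  set f : (ℤ →₀ ℂ) →ₗ[ℂ] H := Finsupp.linearCombination ℂ (fun n : ℤ => (U ^ n) v) with hf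
  have hnorm : ∀ a, ‖f a‖ = ‖e a‖ := fun a => cyc_norm_aux U v σ hσ a
  have hdense : DenseRange e := by
    have h1 : Set.range e = (Submodule.span ℂ (Set.range (ch σ)) : Set (Lp ℂ 2 σ)) := by
      rw [← LinearMap.coe_range, he, Finsupp.range_linearCombination]
    unfold DenseRange
    rw [h1, dense_iff_closure_eq, ← Submodule.topologicalClosure_coe, ch_dense σ]
    rfl
  have hbd : ∃ C, ∀ a, ‖f a‖ ≤ C * ‖e a‖ := ⟨1, fun a => by rw [one_mul, hnorm]⟩
  have hWe : ∀ a, f.extendOfNorm e (e a) = f a :=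
    fun a => LinearMap.extendOfNorm_eq hdense hbd a
  have hWn : ∀ x, ‖f.extendOfNorm e x‖ = ‖x‖ := by
    intro x
    refine hdense.induction_on (p := fun x => ‖f.extendOfNorm e x‖ = ‖x‖) x
      (isClosed_eq (by fun_prop) (by fun_prop)) fun a => ?_
    rw [hWe, hnorm]
  let W : Lp ℂ 2 σ →ₗᵢ[ℂ] H := ⟨(f.extendOfNorm e).toLinearMap, hWn⟩
  have hW : ∀ x, W x = f.extendOfNorm e x := fun _ => rfl
  have hWch : ∀ n, W (ch σ n) = (U ^ n) v := by
    intro n
    have h1 : e (Finsupp.single n 1) = ch σ n := by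
      rw [he, Finsupp.linearCombination_single, one_smul]
    have h2 : f (Finsupp.single n 1) = (U ^ n) v := by
      rw [hf, Finsupp.linearCombination_single, one_smul]
    rw [hW, ← h1, hWe, h2]
  refine ⟨W, hWch, ?_, ?_⟩
  · have hspan : ∀ x ∈ Submodule.span ℂ (Set.range (ch σ)), ∃ y : Lp ℂ 2 σ,
        (y =ᵐ[σ] fun z => fourier 1 z * x z) ∧ W y = U (W x) := by
      intro x hx
      induction hx using Submodule.span_induction with
      | mem x hx =>
        obtain ⟨n, rfl⟩ := hx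
        refine ⟨ch σ (n + 1), ?_, ?_⟩
        · have h1 := (fourier (T := (1 : ℝ)) (n + 1)).coeFn_toLp (p := 2) (𝕜 := ℂ) σ
          have h2 := (fourier (T := (1 : ℝ)) n).coeFn_toLp (p := 2) (𝕜 := ℂ) σ
          filter_upwards [h1, h2] with z h1 h2
          unfold ch
          rw [h1, h2, fourier_add, mul_comm]
        · rw [hWch, hWch]
          have : U ^ (n + 1) = U * U ^ n := by rw [add_comm, zpow_one_add]
          rw [this]
          rfl
      | zero =>
        refine ⟨0, ?_, by simp⟩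
        filter_upwards [Lp.coeFn_zero ℂ 2 σ] with z hz
        rw [hz]; simp
      | add x x' _ _ ih ih' =>
        obtain ⟨y, hy, hy2⟩ := ih
        obtain ⟨y', hy', hy2'⟩ := ih'
        refine ⟨y + y', ?_, ?_⟩
        · filter_upwards [Lp.coeFn_add y y', Lp.coeFn_add x x', hy, hy'] with z h1 h2 h3 h4
          rw [h1, h2, Pi.add_apply, Pi.add_apply, h3, h4, mul_add]
        · rw [map_add, map_add, map_add, hy2, hy2']
      | smul c x _ ih =>
        obtain ⟨y, hy, hy2⟩ := ih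
        refine ⟨c • y, ?_, ?_⟩
        · filter_upwards [Lp.coeFn_smul c y, Lp.coeFn_smul c x, hy] with z h1 h2 h3
          rw [h1, h2, Pi.smul_apply, Pi.smul_apply, h3, smul_eq_mul, smul_eq_mul]
          ring
        · rw [map_smul, map_smul, map_smul, hy2]
    intro x y hxy
    have hxcl : x ∈ closure (Submodule.span ℂ (Set.range (ch σ)) : Set (Lp ℂ 2 σ)) := by
      rw [← Submodule.topologicalClosure_coe, ch_dense σ]
      trivial
    have hle : ∀ ε > 0, ‖W y - U (W x)‖ ≤ 2 * ε := by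
      intro ε hε
      obtain ⟨x', hx', hd⟩ := Metric.mem_closure_iff.1 hxcl ε hε
      obtain ⟨y', hy', hy2⟩ := hspan x' hx'
      rw [dist_eq_norm] at hd
      have e1 : W y - U (W x) = W (y - y') + U (W (x' - x)) := by
        rw [map_sub, map_sub, map_sub, hy2]
        abel
      rw [e1]
      refine (norm_add_le _ _).trans ?_
      rw [LinearIsometry.norm_map, LinearIsometryEquiv.norm_map, LinearIsometry.norm_map,
        cyc_dist_aux σ x y x' y' hxy hy', norm_sub_rev x' x]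
      linarith
    have h0 : ‖W y - U (W x)‖ ≤ 0 := by
      by_contra hcon
      push Not at hcon
      have := hle (‖W y - U (W x)‖ / 4) (by positivity)
      linarith
    exact sub_eq_zero.1 (norm_le_zero_iff.1 h0)
  · apply le_antisymm
    · rintro _ ⟨x, rfl⟩
      have hxcl : x ∈ closure (Submodule.span ℂ (Set.range (ch σ)) : Set (Lp ℂ 2 σ)) := by
        rw [← Submodule.topologicalClosure_coe, ch_dense σ]
        trivial
      have : W x ∈ closure (Submodule.span ℂ (Set.range fun n : ℤ => (U ^ n) v) : Set H) := by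
        refine map_mem_closure W.continuous hxcl ?_
        intro x' hx'
        have hmap : Submodule.map W.toLinearMap (Submodule.span ℂ (Set.range (ch σ))) ≤
            Submodule.span ℂ (Set.range fun n : ℤ => (U ^ n) v) := by
          rw [Submodule.map_span_le]
          rintro _ ⟨n, rfl⟩
          have h1 : W.toLinearMap (ch σ n) = (U ^ n) v := hWch n
          rw [h1]
          exact Submodule.subset_span ⟨n, rfl⟩
        exact hmap ⟨x', hx', rfl⟩
      exact this
    · unfold cyc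
      refine Submodule.topologicalClosure_minimal _ ?_ ?_
      · rw [Submodule.span_le]
        rintro _ ⟨n, rfl⟩
        exact ⟨ch σ n, hWch n⟩
      · have := W.isometry.isClosedEmbedding.isClosed_range
        exact this

end SPA

namespace SPA


open scoped CompactlySupported

/-- auxiliary: cast a real continuous function to a complex one -/
noncomputable def toC (f : TT → ℝ) (hf : Continuous f) : C(TT, ℂ) :=
  ⟨fun x => (f x : ℂ), Complex.continuous_ofReal.comp hf⟩

/-- auxiliary: the map from the spectrum to the circle -/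
theorem exists_phi {H : Type} [NormedAddCommGroup H] [InnerProductSpace ℂ H] [CompleteSpace H]
    (u : unitary (H →L[ℂ] H)) :
    ∃ φ : C(spectrum ℂ (u : H →L[ℂ] H), TT), ∀ z, fourier 1 (φ z) = (z : ℂ) := by
  have hn : ∀ z : spectrum ℂ (u : H →L[ℂ] H), (z : ℂ) ∈ Metric.sphere (0:ℂ) 1 := by
    intro z
    have := spectrum.subset_circle_of_unitary u.2 z.2
    exact this
  let e : TT ≃ₜ Circle := AddCircle.homeomorphCircle (T := (1:ℝ)) one_ne_zero
  let ψ : spectrum ℂ (u : H →L[ℂ] H) → Circle := fun z => ⟨(z : ℂ), by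
    have := hn z
    simpa [Submonoid.unitSphere] using this⟩
  have hψ : Continuous ψ := by
    apply Continuous.subtype_mk
    exact continuous_subtype_val
  refine ⟨⟨fun z => e.symm (ψ z), e.symm.continuous.comp hψ⟩, ?_⟩
  intro z
  rw [fourier_one]
  change ((AddCircle.toCircle (e.symm (ψ z)) : Circle) : ℂ) = z
  rw [← AddCircle.homeomorphCircle_apply one_ne_zero]
  change ((e (e.symm (ψ z)) : Circle) : ℂ) = z
  rw [Homeomorph.apply_symm_apply]

/-- auxiliary: functional calculus on the circle -/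
theorem exists_T {H : Type} [NormedAddCommGroup H] [InnerProductSpace ℂ H] [CompleteSpace H]
    (u : unitary (H →L[ℂ] H)) :
    ∃ T : C(TT, ℂ) →⋆ₐ[ℂ] (H →L[ℂ] H), T (fourier 1) = (u : H →L[ℂ] H) := by
  obtain ⟨φ, hφ⟩ := exists_phi u
  have ha : IsStarNormal (u : H →L[ℂ] H) := inferInstance
  refine ⟨(cfcHom (R := ℂ) (a := (u : H →L[ℂ] H)) ha).comp (ContinuousMap.compStarAlgHom' ℂ ℂ φ), ?_⟩
  have h1 : (ContinuousMap.compStarAlgHom' ℂ ℂ φ) (fourier 1) =
      (ContinuousMap.id ℂ).restrict (spectrum ℂ (u : H →L[ℂ] H)) := by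
    ext z
    simp [hφ z]
  rw [StarAlgHom.comp_apply, h1]
  exact cfcHom_id ha

theorem herglotz_T {H : Type} [NormedAddCommGroup H] [InnerProductSpace ℂ H] [CompleteSpace H]
    (T : C(TT, ℂ) →⋆ₐ[ℂ] (H →L[ℂ] H)) (v : H) : ∃ σ : Measure TT, IsFiniteMeasure σ ∧
      ∀ f : C(TT, ℂ), ∫ z, f z ∂σ = ⟪v, T f v⟫_ℂ := by
  let L : C_c(TT, ℝ) →ₗ[ℝ] ℝ :=
    { toFun := fun f => (⟪v, T (toC f f.continuous) v⟫_ℂ).re
      map_add' := by
        intro f g
        have : toC (⇑(f + g)) (f + g).continuous = toC f f.continuous + toC g g.continuous := by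
          ext x; simp [toC]
        rw [this, map_add, ContinuousLinearMap.add_apply, inner_add_right, Complex.add_re]
      map_smul' := by
        intro c f
        have : toC (⇑(c • f)) (c • f).continuous = (c : ℂ) • toC f f.continuous := by
          ext x; simp [toC]
        rw [this, map_smul, ContinuousLinearMap.smul_apply, inner_smul_right, Complex.re_ofReal_mul]
        simp }
  have hpos : ∀ f : C_c(TT, ℝ), 0 ≤ f → 0 ≤ L f := by
    intro f hf
    have hf' : ∀ x, 0 ≤ f x := fun x => hf x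
    let g : C(TT, ℂ) := toC (fun x => Real.sqrt (f x)) (Real.continuous_sqrt.comp f.continuous)
    have hg : toC f f.continuous = star g * g := by
      ext x
      simp only [toC, ContinuousMap.coe_mk, ContinuousMap.mul_apply, ContinuousMap.star_apply, g]
      rw [RCLike.star_def, Complex.conj_ofReal, ← Complex.ofReal_mul, Real.mul_self_sqrt (hf' x)]
    change 0 ≤ (⟪v, T (toC f f.continuous) v⟫_ℂ).re
    rw [hg, map_mul, map_star, ContinuousLinearMap.mul_apply, ContinuousLinearMap.star_eq_adjoint,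
      ContinuousLinearMap.adjoint_inner_right]
    exact inner_self_nonneg (𝕜 := ℂ)
  let Λ : C_c(TT, ℝ) →ₚ[ℝ] ℝ := PositiveLinearMap.mk₀ L hpos
  refine ⟨RealRMK.rieszMeasure Λ, inferInstance, ?_⟩
  have hre : ∀ f : C(TT, ℝ), ∫ z, f z ∂(RealRMK.rieszMeasure Λ) = (⟪v, T (toC f f.continuous) v⟫_ℂ).re := by
    intro f
    have := RealRMK.integral_rieszMeasure Λ (CompactlySupportedContinuousMap.continuousMapEquiv f)
    exact this
  have him : ∀ f : C(TT, ℝ), (⟪v, T (toC f f.continuous) v⟫_ℂ).im = 0 := by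
    intro f
    have h1 : star (toC f f.continuous) = toC f f.continuous := by
      ext x; simp [toC]
    have h2 : ContinuousLinearMap.adjoint (T (toC f f.continuous)) = T (toC f f.continuous) := by
      rw [← ContinuousLinearMap.star_eq_adjoint, ← map_star, h1]
    have h3 : (starRingEnd ℂ) ⟪v, T (toC f f.continuous) v⟫_ℂ = ⟪v, T (toC f f.continuous) v⟫_ℂ := by
      rw [inner_conj_symm, ← ContinuousLinearMap.adjoint_inner_right, h2]
    exact Complex.conj_eq_iff_im.mp h3
  intro f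
  let fr : C(TT, ℝ) := ⟨fun x => (f x).re, Complex.continuous_re.comp f.continuous⟩
  let fi : C(TT, ℝ) := ⟨fun x => (f x).im, Complex.continuous_im.comp f.continuous⟩
  have hf : f = toC fr fr.continuous + Complex.I • toC fi fi.continuous := by
    ext x
    simp only [toC, ContinuousMap.add_apply, ContinuousMap.coe_mk, ContinuousMap.smul_apply, fr, fi, smul_eq_mul]
    rw [mul_comm]; exact (Complex.re_add_im (f x)).symm
  have hint : Integrable (fun z => f z) (RealRMK.rieszMeasure Λ) :=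
    f.continuous.integrable_of_hasCompactSupport (HasCompactSupport.of_compactSpace _)
  have h1 : (∫ z, f z ∂(RealRMK.rieszMeasure Λ)).re = ∫ z, fr z ∂(RealRMK.rieszMeasure Λ) :=
    (integral_re hint).symm
  have h2 : (∫ z, f z ∂(RealRMK.rieszMeasure Λ)).im = ∫ z, fi z ∂(RealRMK.rieszMeasure Λ) :=
    (integral_im hint).symm
  have h3 : ⟪v, T f v⟫_ℂ = ⟪v, T (toC fr fr.continuous) v⟫_ℂ + Complex.I * ⟪v, T (toC fi fi.continuous) v⟫_ℂ := by
    conv_lhs => rw [hf]
    rw [map_add, map_smul, ContinuousLinearMap.add_apply, ContinuousLinearMap.smul_apply,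
      inner_add_right, inner_smul_right]
  apply Complex.ext
  · rw [h1, hre, h3]
    simp [him]
  · rw [h2, hre, h3]
    simp [him]

/-! ## TARGET (prove this) -/

theorem herglotz {H : Type} [NormedAddCommGroup H] [InnerProductSpace ℂ H] [CompleteSpace H]
    (U : H ≃ₗᵢ[ℂ] H) (v : H) : ∃ σ : Measure TT, IsFiniteMeasure σ ∧
      ∀ n : ℤ, ∫ z, fourier n z ∂σ = ⟪v, (U ^ n) v⟫_ℂ := by
  set u : unitary (H →L[ℂ] H) := Unitary.linearIsometryEquiv.symm U with hu
  obtain ⟨T, hT⟩ := exists_T u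
  obtain ⟨σ, hσ, hf⟩ := herglotz_T T v
  refine ⟨σ, hσ, ?_⟩
  have hnat : ∀ n : ℕ, T (fourier (n : ℤ)) = ((u ^ n : unitary (H →L[ℂ] H)) : H →L[ℂ] H) := by
    intro n
    have h1 : (fourier (n : ℤ) : C(TT, ℂ)) = (fourier 1) ^ n := by
      induction n with
      | zero => ext x; simp
      | succ k ih =>
        rw [pow_succ, ← ih]
        ext x
        push_cast
        rw [fourier_add]; rfl
    rw [h1, map_pow, hT]
    rfl
  have hint : ∀ n : ℤ, T (fourier n) = ((u ^ n : unitary (H →L[ℂ] H)) : H →L[ℂ] H) := by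
    intro n
    obtain ⟨m, rfl | rfl⟩ := n.eq_nat_or_neg
    · rw [hnat m, zpow_natCast]
    · have h1 : (fourier (-(m : ℤ)) : C(TT, ℂ)) = star (fourier (m : ℤ)) := by
        ext x
        rw [fourier_neg]; rfl
      rw [h1, map_star, hnat m, zpow_neg, zpow_natCast]
      rfl
  intro n
  rw [hf, hint]
  have h1 : (u ^ n : unitary (H →L[ℂ] H)) = Unitary.linearIsometryEquiv.symm (U ^ n) := by
    rw [hu, map_zpow]
  rw [h1, Unitary.coe_symm_linearIsometryEquiv_apply]
  rfl

end SPA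
theorem spec {H : Type} [NormedAddCommGroup H] [InnerProductSpace ℂ H] [CompleteSpace H]
    (U : H ≃ₗᵢ[ℂ] H) (K : Submodule ℂ H) (g : H) (hg : g ∈ K) (hK : cyc U g = K) :
    ∃ σ : Measure Circle, IsFiniteMeasure σ ∧ ∃ W : K ≃ₗᵢ[ℂ] Lp ℂ 2 σ,
      (W ⟨g, hg⟩ : Circle → ℂ) =ᵐ[σ] (fun _ => 1) ∧
      ∀ f f' : K, (f' : H) = U f →
        (W f' : Circle → ℂ) =ᵐ[σ] fun z => (z : ℂ) * (W f : Circle → ℂ) z := by
  obtain ⟨σ', hfin, hσ'⟩ := SPA.herglotz U g
  obtain ⟨W', hW1, hW2, hW3⟩ := SPA.cyc_iso U g σ' hσ'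
  let e : SPA.TT ≃ᵐ Circle := (AddCircle.homeomorphCircle (T := (1:ℝ)) one_ne_zero).toMeasurableEquiv
  have he : ∀ x : SPA.TT, ((e x : Circle) : ℂ) = fourier 1 x := by
    intro x
    show (((AddCircle.homeomorphCircle (T := (1:ℝ)) one_ne_zero) x : Circle) : ℂ) = _
    rw [AddCircle.homeomorphCircle_apply, fourier_one]
  let σ : Measure Circle := Measure.map e σ'
  have hmp : MeasurePreserving e σ' σ := ⟨e.measurable, rfl⟩
  have hσfin : IsFiniteMeasure σ := by infer_instance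
  have hmps : MeasurePreserving e.symm σ σ' := hmp.symm e
  let C : Lp ℂ 2 σ →ₗᵢ[ℂ] Lp ℂ 2 σ' := Lp.compMeasurePreservingₗᵢ ℂ e hmp
  have hCcoe : ∀ F : Lp ℂ 2 σ, (C F : SPA.TT → ℂ) =ᵐ[σ'] fun x => (F : Circle → ℂ) (e x) :=
    fun F => Lp.coeFn_compMeasurePreserving F hmp
  have hCsurj : Function.Surjective C := by
    intro F
    refine ⟨Lp.compMeasurePreservingₗᵢ ℂ e.symm hmps F, ?_⟩
    apply Lp.ext
    have h1 := hCcoe (Lp.compMeasurePreservingₗᵢ ℂ e.symm hmps F)
    have h2 : (Lp.compMeasurePreservingₗᵢ ℂ e.symm hmps F : Circle → ℂ) =ᵐ[σ]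
        fun z => (F : SPA.TT → ℂ) (e.symm z) := Lp.coeFn_compMeasurePreserving F hmps
    have h3 := hmp.quasiMeasurePreserving.ae_eq_comp h2
    refine h1.trans (h3.trans ?_)
    refine Eventually.of_forall fun x => ?_
    simp
  let V : Lp ℂ 2 σ →ₗᵢ[ℂ] H := W'.comp C
  have hVrange : LinearMap.range V.toLinearMap = K := by
    rw [← hK]
    have h1 : cyc U g = SPA.cyc U g := rfl
    rw [h1, ← hW3]
    ext y
    constructor
    · rintro ⟨F, rfl⟩
      exact ⟨C F, rfl⟩
    · rintro ⟨F, rfl⟩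
      obtain ⟨F', rfl⟩ := hCsurj F
      exact ⟨F', rfl⟩
  let E : Lp ℂ 2 σ ≃ₗᵢ[ℂ] K :=
    V.equivRange.trans (LinearIsometryEquiv.ofEq _ _ hVrange)
  have hE : ∀ F, ((E F : K) : H) = V F := fun F => rfl
  have hEs : ∀ f : K, V (E.symm f) = f := fun f => by rw [← hE, E.apply_symm_apply]
  refine ⟨σ, hσfin, E.symm, ?_, ?_⟩
  · have h1 : C (E.symm ⟨g, hg⟩) = SPA.ch σ' 0 := by
      apply W'.injective
      rw [hW1 0]
      exact hEs ⟨g, hg⟩
    have h2 : (SPA.ch σ' 0 : SPA.TT → ℂ) =ᵐ[σ'] fun _ => 1 := by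
      refine (ContinuousMap.coeFn_toLp (𝕜 := ℂ) σ' (fourier 0)).trans ?_
      exact Eventually.of_forall fun x => fourier_zero
    have h3 := hCcoe (E.symm ⟨g, hg⟩)
    rw [h1] at h3
    have h4 : ∀ᵐ x ∂σ', (E.symm ⟨g, hg⟩ : Circle → ℂ) (e x) = 1 := by
      filter_upwards [h2, h3] with x hx hy
      rw [← hy, hx]
    exact (e.measurableEmbedding.ae_map_iff (μ := σ') (p := fun z => (E.symm ⟨g, hg⟩ : Circle → ℂ) z = 1)).2 h4
  · intro f f' hff
    have hM : MemLp (fun x : SPA.TT => fourier 1 x * (C (E.symm f) : SPA.TT → ℂ) x) 2 σ' := by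
      refine MemLp.of_le (Lp.memLp (C (E.symm f))) ?_ ?_
      · exact (ContinuousMap.continuous _).aestronglyMeasurable.mul (Lp.aestronglyMeasurable _)
      · refine Eventually.of_forall fun x => ?_
        rw [norm_mul, fourier_apply, Circle.norm_coe, one_mul]
    have h1 : C (E.symm f') = hM.toLp _ := by
      apply W'.injective
      rw [hW2 (C (E.symm f)) (hM.toLp _) hM.coeFn_toLp]
      have h5 : W' (C (E.symm f')) = f' := hEs f'
      have h6 : W' (C (E.symm f)) = f := hEs f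
      rw [h5, h6, hff]
    have h3 := hCcoe (E.symm f')
    rw [h1] at h3
    have h4 : ∀ᵐ x ∂σ', (E.symm f' : Circle → ℂ) (e x) = ((e x : Circle) : ℂ) * (E.symm f : Circle → ℂ) (e x) := by
      filter_upwards [h3, hM.coeFn_toLp, hCcoe (E.symm f)] with x hx hy hz
      rw [← hx, hy, hz, he]
    exact (e.measurableEmbedding.ae_map_iff (μ := σ') (p := fun z => (E.symm f' : Circle → ℂ) z = (z : ℂ) * (E.symm f : Circle → ℂ) z)).2 h4

end SM345
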