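import Pool.Agent.Helper345.SM.Defs
import Pool.Agent.Helper345.SM.K0_cyc
import Pool.Agent.Helper345.SM.spec
import Pool.Agent.Helper345.SM.spec_poly
import Pool.Agent.Helper345.SM.quasi_inv
import Pool.Agent.Helper345.SM.cube_split
import Pool.Agent.Helper345.SM.VV_basic
import Pool.Agent.Helper345.SM.VV_dense
import Pool.Agent.Helper345.SM.rel_TS
import Pool.Agent.Helper345.SM.base_avg_lim
import Pool.Agent.Helper345.SM.rel_D
import Pool.Agent.Helper345.SM.one_fix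
import Pool.Agent.Helper345.SM.QQ_circle
import Pool.Agent.Helper345.SM.opP_basic
import Pool.Agent.Helper345.SM.K0_approx
import Pool.Agent.Helper345.SM.bf_norm

set_option autoImplicit false
set_option linter.unusedVariables false
set_option linter.style.longLine false

open MeasureTheory Filter Topology
open scoped ENNReal NNReal

noncomputable section

namespace SM345

/-! ### auxiliary lemmas for fin_base -/

theorem fb_conv (σ σ₁ : Measure Circle) [IsFiniteMeasure σ] [IsFiniteMeasure σ₁]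
    (hac : σ₁ ≪ σ.map (fun z => z ^ 3)) (q : ℕ → Circle → ℂ) (hq : ∀ n, Continuous (q n))
    (hb : ∀ n z, ‖q n z‖ ≤ 1) (F : ℕ → Lp ℂ 2 σ) (G : Lp ℂ 2 σ)
    (hF : ∀ n, (F n : Circle → ℂ) =ᵐ[σ] fun z => q n (z ^ 3))
    (hG : (G : Circle → ℂ) =ᵐ[σ] fun _ => 1) (hlim : Tendsto F atTop (𝓝 G)) :
    Tendsto (fun n => ∫ z, ‖q n z - 1‖ ^ 2 ∂σ₁) atTop (𝓝 0) := by
  refine tendsto_of_subseq_tendsto fun ns hns => ?_
  have h1 := tendstoInMeasure_of_tendsto_Lp (hlim.comp hns)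
  obtain ⟨ms, hms, hae⟩ := h1.exists_seq_tendsto_ae
  refine ⟨ms, ?_⟩
  have h2 : ∀ᵐ z ∂σ, Tendsto (fun k => q (ns (ms k)) (z ^ 3)) atTop (𝓝 1) := by
    filter_upwards [hae, ae_all_iff.2 (fun k => hF (ns (ms k))), hG] with z h1 h2 h3
    rw [h3] at h1
    refine h1.congr fun k => ?_
    exact h2 k
  have hm : MeasurableSet {w : Circle | Tendsto (fun k => q (ns (ms k)) w) atTop (𝓝 1)} :=
    measurableSet_tendsto _ (fun k => (hq _).measurable)
  have h3 : ∀ᵐ w ∂(σ.map (fun z => z ^ 3)), Tendsto (fun k => q (ns (ms k)) w) atTop (𝓝 1) :=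
    (ae_map_iff (continuous_pow 3).measurable.aemeasurable hm).2 h2
  have h4 : ∀ᵐ w ∂σ₁, Tendsto (fun k => q (ns (ms k)) w) atTop (𝓝 1) := hac.ae_le h3
  have h5 := tendsto_integral_of_dominated_convergence (μ := σ₁) (fun _ : Circle => (4 : ℝ))
    (F := fun k z => ‖q (ns (ms k)) z - 1‖ ^ 2) (f := fun _ => (0 : ℝ)) ?_ (integrable_const _) ?_ ?_
  · simpa using h5
  · intro k
    exact (((hq _).sub continuous_const).norm.pow 2).aestronglyMeasurable
  · intro k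
    refine Eventually.of_forall fun z => ?_
    have hz : ‖q (ns (ms k)) z - 1‖ ≤ 2 := by
      have := norm_sub_le (q (ns (ms k)) z) 1
      have := hb (ns (ms k)) z
      rw [norm_one] at *
      linarith
    rw [Real.norm_of_nonneg (by positivity)]
    nlinarith [norm_nonneg (q (ns (ms k)) z - 1)]
  · filter_upwards [h4] with z hz
    have : Tendsto (fun k => ‖q (ns (ms k)) z - 1‖ ^ 2) atTop (𝓝 (‖(1 : ℂ) - 1‖ ^ 2)) :=
      ((hz.sub tendsto_const_nhds).norm).pow 2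
    simpa using this

theorem fb_opP_sum {H : Type} [NormedAddCommGroup H] [InnerProductSpace ℂ H]
    (U : H ≃ₗᵢ[ℂ] H) {ι : Type} (s : Finset ι) (P : ι → Polynomial ℂ) (f : H) :
    opP U (∑ i ∈ s, P i) f = ∑ i ∈ s, opP U (P i) f := by
  classical
  obtain ⟨-, hadd, hC, -⟩ := opP_basic U
  induction s using Finset.induction_on with
  | empty =>
    have := hC 0 f
    simpa using this
  | insert a s ha ih => rw [Finset.sum_insert ha, Finset.sum_insert ha, hadd, ih]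

theorem fb_opP_mono {H : Type} [NormedAddCommGroup H] [InnerProductSpace ℂ H]
    (U : H ≃ₗᵢ[ℂ] H) (a : ℂ) (m : ℕ) (f : H) :
    opP U (Polynomial.C a * Polynomial.X ^ m) f = a • (U ^ m) f := by
  obtain ⟨hmul, -, hC, hX, -⟩ := opP_basic U
  rw [hmul, hX, hC]

theorem fb_K0_mem (c : Ctx) (f : Lp ℂ 2 c.μ) : f ∈ c.K0 ↔ c.UD f = chi 0 • f ∧ inner ℂ c.one f = 0 := by
  unfold Ctx.K0
  rw [Submodule.mem_inf, Submodule.mem_orthogonal_singleton_iff_inner_right]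
  rfl

theorem fb_US (c : Ctx) (f : Lp ℂ 2 c.μ) (hf : f ∈ c.K0) : c.US f ∈ c.K0 := by
  rw [fb_K0_mem] at hf ⊢
  have h1 : c.US (c.UD f) = c.UD (c.US f) := by
    have := (rel_D c 0).2.1
    exact congrArg (fun W : Lp ℂ 2 c.μ ≃ₗᵢ[ℂ] Lp ℂ 2 c.μ => W f) this
  refine ⟨?_, ?_⟩
  · rw [← h1, hf.1, map_smul]
  · have h2 := (one_fix c).1
    have h3 : inner ℂ (c.US c.one) (c.US f) = inner ℂ c.one f := LinearIsometryEquiv.inner_map_map _ _ _
    rw [h2] at h3
    rw [h3, hf.2]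

theorem fb_US' (c : Ctx) (f : Lp ℂ 2 c.μ) (hf : f ∈ c.K0) : c.US⁻¹ f ∈ c.K0 := by
  have h0 : c.US (c.US⁻¹ f) = f := c.US.apply_symm_apply f
  generalize c.US⁻¹ f = h at h0
  rw [fb_K0_mem] at hf ⊢
  have h1 : c.US (c.UD h) = c.UD (c.US h) := by
    have := (rel_D c 0).2.1
    exact congrArg (fun W : Lp ℂ 2 c.μ ≃ₗᵢ[ℂ] Lp ℂ 2 c.μ => W h) this
  refine ⟨?_, ?_⟩
  · apply c.US.injective
    rw [h1, h0, hf.1, map_smul, h0]
  · have h2 := (one_fix c).1
    have h3 : inner ℂ (c.US c.one) (c.US h) = inner ℂ c.one h := LinearIsometryEquiv.inner_map_map _ _ _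
    rw [h2, h0, hf.2] at h3
    exact h3.symm

theorem fb_pow (c : Ctx) (f : Lp ℂ 2 c.μ) (hf : f ∈ c.K0) (k : ℕ) :
    (c.UT ^ k) f = (c.US ^ (3 * k)) f ∧ (c.US ^ (3 * k)) f ∈ c.K0 := by
  induction k with
  | zero => exact ⟨rfl, hf⟩
  | succ k ih =>
    have e1 : (c.UT ^ (k + 1)) f = c.UT ((c.UT ^ k) f) := by
      rw [pow_succ']; rfl
    have e2 : (c.US ^ (3 * (k + 1))) f = c.US (c.US (c.US ((c.US ^ (3 * k)) f))) := by
      rw [show 3 * (k + 1) = 3 * k + 1 + 1 + 1 by ring, pow_succ', pow_succ', pow_succ']; rfl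
    have hk : (c.US ^ (3 * k)) f ∈ c.Kc 0 := ih.2.1
    refine ⟨?_, ?_⟩
    · rw [e1, ih.1, rel_TS c _ hk, e2]
    · rw [e2]
      exact fb_US c _ (fb_US c _ (fb_US c _ ih.2))

theorem fb_QQ (c : Ctx) (f : Lp ℂ 2 c.μ) (hf : f ∈ c.K0) (n : ℕ) :
    opP c.UT (QQ n) f = opP c.US ((QQ n).comp (Polynomial.X ^ 3)) f := by
  have e1 : opP c.UT (QQ n) f =
      ∑ i ∈ Finset.range (Bn n), (1 / (Bn n : ℂ)) • (c.UT ^ (LL (Nn n) (Bn n) i)) f := by
    unfold QQ
    rw [fb_opP_sum]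
    exact Finset.sum_congr rfl fun i _ => fb_opP_mono _ _ _ _
  have e2 : (QQ n).comp (Polynomial.X ^ 3) =
      ∑ i ∈ Finset.range (Bn n), Polynomial.C (1 / (Bn n : ℂ)) * Polynomial.X ^ (3 * LL (Nn n) (Bn n) i) := by
    unfold QQ
    rw [Polynomial.sum_comp]
    refine Finset.sum_congr rfl fun i _ => ?_
    rw [Polynomial.mul_comp, Polynomial.C_comp, Polynomial.X_pow_comp, ← pow_mul]
  rw [e1, e2, fb_opP_sum]
  refine Finset.sum_congr rfl fun i _ => ?_
  rw [fb_opP_mono, (fb_pow c f hf _).1]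

theorem fb_nontriv (c : Ctx) : ∃ F ∈ c.K0, F ≠ 0 := by
  classical
  let f : ZMod (Nn 0) → ℂ := fun u => (if u = 0 then 1 else 0) - (if u = 1 then 1 else 0)
  have h01 : (0 : ZMod (Nn 0)) ≠ 1 := by
    show (0 : ZMod 12) ≠ 1
    decide
  have hsum : ∑ u, f u = 0 := by
    simp only [f, Finset.sum_sub_distrib, Finset.sum_ite_eq', Finset.mem_univ, if_true, sub_self]
  obtain ⟨b1, b2, -⟩ := bf_norm c 0 0 f
  refine ⟨J c.hμ 0 (bf 0 0 f), ?_, ?_⟩
  · rw [fb_K0_mem]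
    refine ⟨b1, ?_⟩
    rw [(one_fix c).2.2.2.2.2.2 0 f, hsum, zero_div]
  · intro h
    rw [h] at b2
    have h3 : (0 : ℝ) < (∑ u, ‖f u‖ ^ 2) / (Nn 0 : ℝ) := by
      refine div_pos ?_ (by exact_mod_cast Nn_pos 0)
      refine Finset.sum_pos' (fun u _ => by positivity) ⟨0, Finset.mem_univ _, ?_⟩
      have : f 0 = 1 := by simp [f, h01]
      rw [this]
      norm_num
    rw [← b2] at h3
    simp at h3
theorem fin_base (c : Ctx) : ∃ σ₁ : Measure Circle, IsFiniteMeasure σ₁ ∧ σ₁ ≠ 0 ∧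
    Tendsto (fun n => ∫ z : Circle, ‖(QQ n).eval (z : ℂ) - 1‖ ^ 2 ∂σ₁) atTop (𝓝 0) ∧
    ∃ W : c.K0 ≃ₗᵢ[ℂ] (PiLp 2 fun _ : Fin 3 => Lp ℂ 2 σ₁),
      ∀ f f' : c.K0, (f' : Lp ℂ 2 c.μ) = c.UT f →
        ∀ i, (W f' i : Circle → ℂ) =ᵐ[σ₁] fun z => (z : ℂ) * (W f i : Circle → ℂ) z := by
  have hcomp : CompleteSpace (Lp ℂ 2 c.μ) := inferInstance
  obtain ⟨g, hg, hcyc⟩ := K0_cyc c
  obtain ⟨σ, hσ, W, hW1, hW⟩ := spec c.US c.K0 g hg hcyc
  -- the intertwiner
  let V : Lp ℂ 2 c.μ →ₗ[ℂ] Lp ℂ 2 c.μ :=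
    (c.Ut 0).toLinearEquiv.toLinearMap + zeta • (c.Ut 1).toLinearEquiv.toLinearMap
      + zeta ^ 2 • (c.Ut 2).toLinearEquiv.toLinearMap
  have hVV : ∀ F, V F = c.VV F := fun F => rfl
  let a : Circle := Circle.exp (4 * Real.pi / 3)
  have ha : (a : ℂ) = zeta ^ 2 := by
    simp only [a, zeta, Circle.coe_exp]
    rw [← Complex.exp_nat_mul]
    congr 1
    push_cast
    ring
  have ha3 : a ^ 3 = 1 := by
    apply Subtype.ext
    rw [Circle.coe_pow, ha]
    simp only [zeta]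
    rw [← Complex.exp_nat_mul, ← Complex.exp_nat_mul]
    rw [show ((3 : ℕ) : ℂ) * (((2 : ℕ) : ℂ) * (2 * Real.pi * Complex.I / 3)) =
      2 * Real.pi * Complex.I + 2 * Real.pi * Complex.I by push_cast; ring, Complex.exp_add,
      Complex.exp_two_pi_mul_I]
    simp
  have ha1 : a ≠ 1 := by
    intro h
    have h1 : Complex.exp (((4 * Real.pi / 3 : ℝ) : ℂ) * Complex.I) = 1 := by
      have := congrArg (fun z : Circle => (z : ℂ)) h
      simpa only [a, Circle.coe_exp, Circle.coe_one] using this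
    rw [Complex.exp_eq_one_iff] at h1
    obtain ⟨k, hk⟩ := h1
    have hpi : (Real.pi : ℂ) ≠ 0 := by exact_mod_cast Real.pi_ne_zero
    have h2 : (2 : ℂ) = 3 * k := by
      have h3 : (2 * Real.pi * Complex.I) * 2 = (2 * Real.pi * Complex.I) * (3 * k) := by
        push_cast at hk
        linear_combination 3 * hk
      exact mul_left_cancel₀ (by simp [hpi]) h3
    have h4 : (2 : ℤ) = 3 * k := by exact_mod_cast h2
    omega
  have hqi : σ.map (rot a) ≪ σ := by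
    refine quasi_inv c.US c.K0 (fb_US c) (fb_US' c) σ W ⟨g, hg⟩ hW1 hW V 3 ?_ ?_ a ?_ ?_
    · intro f
      rw [hVV]
      exact (VV_basic c).2.2 f
    · intro f hf
      rw [hVV]
      exact (VV_basic c).1 f hf
    · intro f _
      rw [hVV, hVV, ha]
      exact (VV_basic c).2.1 f
    · intro F hF h
      exact VV_dense c F hF fun f hf => by
        rw [← hVV]
        exact h f hf
  obtain ⟨σ₁, hσ₁, hac, hne, W₁, hW₁⟩ := cube_split σ a ha3 ha1 hqi
  refine ⟨σ₁, hσ₁, hne ?_, ?_, W.trans W₁, ?_⟩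
  · -- σ ≠ 0
    intro h0
    obtain ⟨F, hF, hF0⟩ := fb_nontriv c
    have h1 : W ⟨F, hF⟩ = 0 := by
      apply Lp.ext
      subst h0
      rw [ae_zero]
      exact Filter.eventually_bot
    have h2 : (⟨F, hF⟩ : c.K0) = 0 := by
      apply W.injective
      rw [h1, map_zero]
    exact hF0 (congrArg Subtype.val h2)
  · -- convergence
    have hgK : g ∈ c.Kc 0 := hg.1
    have hlim := base_avg_lim c g hgK
    have hmem : ∀ n, opP c.UT (QQ n) g ∈ c.K0 := by
      intro n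
      rw [fb_QQ c g hg n]
      have h1 := (opP_basic c.US).2.2.2.2.2.2.1 ((QQ n).comp (Polynomial.X ^ 3)) g
      have h2 : Submodule.span ℂ (Set.range fun k : ℤ => (c.US ^ k) g) ≤ c.K0 := by
        conv_rhs => rw [← hcyc]
        exact Submodule.le_topologicalClosure _
      exact h2 h1
    refine fb_conv σ σ₁ hac (fun n z => (QQ n).eval (z : ℂ)) ?_ ?_
      (fun n => W ⟨opP c.UT (QQ n) g, hmem n⟩) (W ⟨g, hg⟩) ?_ hW1 ?_
    · intro n
      exact (QQ n).continuous.comp continuous_subtype_val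
    · intro n z
      exact QQ_circle n z
    · intro n
      have h1 := spec_poly c.US c.K0 (fb_US c) σ W hW ((QQ n).comp (Polynomial.X ^ 3)) ⟨g, hg⟩
        ⟨opP c.UT (QQ n) g, hmem n⟩ (fb_QQ c g hg n)
      filter_upwards [h1, hW1] with z h2 h3
      rw [h2, h3, mul_one, Polynomial.eval_comp]
      simp
    · have h1 : Tendsto (fun n => (⟨opP c.UT (QQ n) g, hmem n⟩ : c.K0)) atTop (𝓝 ⟨g, hg⟩) := by
        rw [tendsto_subtype_rng]
        exact hlim
      exact (W.continuous.tendsto _).comp h1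
  · intro f f' hff
    have hfK : (f : Lp ℂ 2 c.μ) ∈ c.Kc 0 := f.2.1
    rw [rel_TS c _ hfK] at hff
    let f1 : c.K0 := ⟨c.US f, fb_US c _ f.2⟩
    let f2 : c.K0 := ⟨c.US f1, fb_US c _ f1.2⟩
    have h1 := hW f f1 rfl
    have h2 := hW f1 f2 rfl
    have h3 := hW f2 f' hff
    refine hW₁ (W f) (W f') ?_
    filter_upwards [h1, h2, h3] with z e1 e2 e3
    rw [e3, e2, e1]
    ring

end SM345
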