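import Pool.Agent.Helper345.SM.Defs
import Pool.Agent.Helper345.SM.phi_r
import Pool.Agent.Helper345.SM.isLim_mul
import Pool.Agent.Helper345.SM.isLim_unique
import Pool.Agent.Helper345.SM.ee_facts

set_option autoImplicit false
set_option linter.unusedVariables false
set_option linter.style.longLine false

open MeasureTheory Filter Topology
open scoped ENNReal NNReal

noncomputable section

namespace SM345

theorem phi_mod_aux_RT (n u : ℕ) : (lev n).φ (u % Nn n) = (lev n).φ u := by
  have h : ∀ k v : ℕ, (lev n).φ (v + Nn n * k) = (lev n).φ v := by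
    intro k
    induction k with
    | zero => intro v; simp
    | succ k ih =>
      intro v
      rw [mul_add, mul_one, ← add_assoc, (phi_r n _).1, ih]
  conv_rhs => rw [← Nat.mod_add_div u (Nn n)]
  rw [h]

theorem perm_RT (n : ℕ) : TP n * rP n = rP n * TP n := by
  apply Equiv.ext
  rintro ⟨a, b⟩
  change TF n (rF n (a, b)) = rF n (TF n (a, b))
  unfold TF rF
  simp only
  have h1 : (a + ((Nn n / 4 : ℕ) : ZMod (Nn n))).val = (a.val + Nn n / 4) % Nn n := by
    rw [ZMod.val_add, ZMod.val_natCast]
    simp [Nat.add_mod]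
  have h2 : (lev n).φ (a + ((Nn n / 4 : ℕ) : ZMod (Nn n))).val = 2 * (lev n).φ a.val := by
    rw [h1, phi_mod_aux_RT, (phi_r n _).2]
  rw [h2]
  refine Prod.ext ?_ ?_
  · simp only
    ring
  · simp only
    ring

theorem rel_RT (c : Ctx) : c.UR * c.UT = c.UT * c.UR := by
  have h1 := isLim_mul c.hμ rP TP δδ δδ c.UR c.UT c.lR c.lT
  have h2 := isLim_mul c.hμ TP rP δδ δδ c.UT c.UR c.lT c.lR
  have hg : (fun n => TP n * rP n) = (fun n => rP n * TP n) := by
    funext n
    exact perm_RT n
  rw [hg] at h1
  have ht : Tendsto (fun n => δδ n + δδ n) atTop (𝓝 0) := by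
    have := ee_facts.2.2.1.add ee_facts.2.2.1
    simpa using this
  exact isLim_unique c.hμ (fun n => rP n * TP n) _ _ _ _ h1 h2 ht ht

end SM345
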