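import Pool.Agent.Helper345.SM.Defs
import Pool.Agent.Helper345.SM.K1_cyc
import Pool.Agent.Helper345.SM.spec
import Pool.Agent.Helper345.SM.spec_poly
import Pool.Agent.Helper345.SM.chi_avg_lim
import Pool.Agent.Helper345.SM.rel_D
import Pool.Agent.Helper345.SM.rel_RT
import Pool.Agent.Helper345.SM.chi_basic
import Pool.Agent.Helper345.SM.bf_norm
import Pool.Agent.Helper345.SM.opP_basic

set_option autoImplicit false
set_option linter.unusedVariables false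
set_option linter.style.longLine false

open MeasureTheory Filter Topology
open scoped ENNReal NNReal

noncomputable section

namespace SM345

theorem fin_chi_mem (c : Ctx) (b : ZMod 5) (F : Lp ℂ 2 c.μ) :
    F ∈ c.Kc b ↔ c.UR F ∈ c.Kc (2 * b) := by
  obtain ⟨-, -, -, hDR, hD5⟩ := rel_D c 0
  obtain ⟨hchi, -, -, -⟩ := chi_basic
  have e1 : c.UD (c.UR F) = c.UR (c.UD (c.UD F)) := by
    have := congrArg (fun U : Lp ℂ 2 c.μ ≃ₗᵢ[ℂ] Lp ℂ 2 c.μ => U F) hDR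
    exact this
  constructor
  · intro h
    have h' : c.UD F = chi b • F := h
    show c.UD (c.UR F) = chi (2 * b) • c.UR F
    rw [e1, h', map_smul, h', map_smul, map_smul, smul_smul, two_mul, hchi]
  · intro h
    have h' : c.UD (c.UR F) = chi (2 * b) • c.UR F := h
    rw [e1, ← map_smul] at h'
    have h2 : c.UD (c.UD F) = chi (2 * b) • F := c.UR.injective h'
    show c.UD F = chi b • F
    have h5 : ∀ x, c.UD (c.UD (c.UD (c.UD (c.UD x)))) = x := by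
      intro x
      have := congrArg (fun U : Lp ℂ 2 c.μ ≃ₗᵢ[ℂ] Lp ℂ 2 c.μ => U x) hD5
      exact this
    have h6 : c.UD F = c.UD (c.UD (c.UD (c.UD (c.UD (c.UD F))))) := (h5 (c.UD F)).symm
    rw [h6, h2, map_smul, map_smul, h2, map_smul, map_smul, map_smul, map_smul, h2, smul_smul,
      smul_smul, ← hchi, ← hchi]
    have key : ∀ b : ZMod 5, 2 * b + 2 * b + 2 * b = b := by decide
    rw [key b]

/-- restriction of `UR` -/
def fin_chi_eq (c : Ctx) (b : ZMod 5) : c.Kc b ≃ₗᵢ[ℂ] c.Kc (2 * b) where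
  toFun F := ⟨c.UR F, (fin_chi_mem c b F).1 F.2⟩
  invFun G := ⟨c.UR.symm G, (fin_chi_mem c b _).2 (by
    rw [LinearIsometryEquiv.apply_symm_apply]; exact G.2)⟩
  map_add' x y := Subtype.ext (map_add c.UR _ _)
  map_smul' a x := Subtype.ext (map_smul c.UR _ _)
  left_inv x := Subtype.ext (c.UR.symm_apply_apply _)
  right_inv x := Subtype.ext (c.UR.apply_symm_apply _)
  norm_map' x := c.UR.norm_map _

theorem fin_chi_down (c : Ctx) (τ : Measure Circle) (b : ZMod 5)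
    (h : ∃ W : c.Kc (2 * b) ≃ₗᵢ[ℂ] Lp ℂ 2 τ,
      ∀ f f' : c.Kc (2 * b), (f' : Lp ℂ 2 c.μ) = c.UT f →
        (W f' : Circle → ℂ) =ᵐ[τ] fun z => (z : ℂ) * (W f : Circle → ℂ) z) :
    ∃ W : c.Kc b ≃ₗᵢ[ℂ] Lp ℂ 2 τ,
      ∀ f f' : c.Kc b, (f' : Lp ℂ 2 c.μ) = c.UT f →
        (W f' : Circle → ℂ) =ᵐ[τ] fun z => (z : ℂ) * (W f : Circle → ℂ) z := by
  obtain ⟨W, hW⟩ := h
  refine ⟨(fin_chi_eq c b).trans W, fun f f' hf => ?_⟩
  refine hW (fin_chi_eq c b f) (fin_chi_eq c b f') ?_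
  show c.UR f' = c.UT (c.UR f)
  rw [hf]
  have := congrArg (fun U : Lp ℂ 2 c.μ ≃ₗᵢ[ℂ] Lp ℂ 2 c.μ => U f) (rel_RT c)
  exact this

theorem fin_chi_nsq {τ : Measure Circle} (u : Lp ℂ 2 τ) :
    ‖u‖ ^ 2 = ∫ z : Circle, ‖(u : Circle → ℂ) z‖ ^ 2 ∂τ := by
  have h1 : inner ℂ u u = ∫ z, inner ℂ ((u : Circle → ℂ) z) ((u : Circle → ℂ) z) ∂τ :=
    MeasureTheory.L2.inner_def u u
  simp only [inner_self_eq_norm_sq_to_K] at h1
  have h2 : ((‖u‖ ^ 2 : ℝ) : ℂ) = ((∫ z : Circle, ‖(u : Circle → ℂ) z‖ ^ 2 ∂τ : ℝ) : ℂ) := by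
    rw [← integral_complex_ofReal]
    push_cast
    exact h1
  exact_mod_cast h2


theorem fin_chi (c : Ctx) : ∃ τ : Measure Circle, IsFiniteMeasure τ ∧ τ ≠ 0 ∧
    (∀ h : Lp ℂ 2 τ, ∀ᶠ n in atTop,
      ∫ z : Circle, ‖(QQ n).eval (z : ℂ)‖ ^ 2 * ‖(h : Circle → ℂ) z‖ ^ 2 ∂τ
        ≤ (1 / 2) * ∫ z : Circle, ‖(h : Circle → ℂ) z‖ ^ 2 ∂τ) ∧
    ∀ b : ZMod 5, b ≠ 0 → ∃ W : c.Kc b ≃ₗᵢ[ℂ] Lp ℂ 2 τ,
      ∀ f f' : c.Kc b, (f' : Lp ℂ 2 c.μ) = c.UT f →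
        (W f' : Circle → ℂ) =ᵐ[τ] fun z => (z : ℂ) * (W f : Circle → ℂ) z := by
  obtain ⟨g, hg, hcyc⟩ := K1_cyc c
  obtain ⟨τ, hτ, W, -, hW⟩ := spec c.UT (c.Kc 1) g hg hcyc
  obtain ⟨hTD, -, -, -, -⟩ := rel_D c 0
  have hUT : ∀ f ∈ c.Kc 1, c.UT f ∈ c.Kc 1 := by
    intro f hf
    have hf' : c.UD f = chi 1 • f := hf
    show c.UD (c.UT f) = chi 1 • c.UT f
    have e1 : c.UT (c.UD f) = c.UD (c.UT f) := by
      have := congrArg (fun U : Lp ℂ 2 c.μ ≃ₗᵢ[ℂ] Lp ℂ 2 c.μ => U f) hTD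
      exact this
    rw [← e1, hf', map_smul]
  have hpow : ∀ (k : ℕ), ∀ f ∈ c.Kc 1, (c.UT ^ k) f ∈ c.Kc 1 := by
    intro k
    induction k with
    | zero => intro f hf; exact hf
    | succ k ih =>
      intro f hf
      rw [pow_succ]
      exact ih _ (hUT f hf)
  refine ⟨τ, hτ, ?_, ?_, ?_⟩
  · intro h0
    obtain ⟨hm, hn, -⟩ := bf_norm c 0 1 (fun _ => 1)
    have h1 : W ⟨_, hm⟩ = 0 := by
      have hz : ‖W ⟨_, hm⟩‖ ^ 2 = 0 := by
        rw [fin_chi_nsq]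
        have key : ∀ (τ : Measure Circle) (_ : τ = 0) (f : Circle → ℝ), ∫ z, f z ∂τ = 0 := by
          rintro _ rfl f; simp
        exact key τ h0 _
      exact norm_eq_zero.1 (by simpa using hz)
    have h2 : ‖W ⟨_, hm⟩‖ = ‖J c.hμ 0 (bf 0 1 fun _ => 1)‖ := W.norm_map _
    rw [h1, norm_zero] at h2
    rw [← h2] at hn
    simp only [norm_one, one_pow, Finset.sum_const, Finset.card_univ, ZMod.card, nsmul_eq_mul,
      mul_one] at hn
    have h3 : ((Nn 0 : ℕ) : ℝ) ≠ 0 := Nat.cast_ne_zero.2 (Nn_pos 0).ne'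
    rw [div_self h3] at hn
    norm_num at hn
  · intro h
    set F := W.symm h with hF
    have hWF : W F = h := W.apply_symm_apply h
    have hop : ∀ n, opP c.UT (QQ n) (F : Lp ℂ 2 c.μ) ∈ c.Kc 1 := by
      intro n
      unfold opP
      exact Submodule.sum_mem _ fun k _ => Submodule.smul_mem _ _ (hpow k _ F.2)
    have hint : ∀ n, ∫ z : Circle, ‖(QQ n).eval (z : ℂ)‖ ^ 2 * ‖(h : Circle → ℂ) z‖ ^ 2 ∂τ =
        ‖opP c.UT (QQ n) (F : Lp ℂ 2 c.μ)‖ ^ 2 := by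
      intro n
      have h1 := spec_poly c.UT (c.Kc 1) hUT τ W hW (QQ n) F ⟨_, hop n⟩ rfl
      have h2 : ‖W ⟨_, hop n⟩‖ = ‖opP c.UT (QQ n) (F : Lp ℂ 2 c.μ)‖ := W.norm_map _
      rw [← h2, fin_chi_nsq]
      refine integral_congr_ae ?_
      filter_upwards [h1] with z hz
      rw [hz, norm_mul, mul_pow, hWF]
    have hhn : ∫ z : Circle, ‖(h : Circle → ℂ) z‖ ^ 2 ∂τ = ‖(F : Lp ℂ 2 c.μ)‖ ^ 2 := by
      rw [← fin_chi_nsq, ← hWF, W.norm_map]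
      rfl
    by_cases hF0 : (F : Lp ℂ 2 c.μ) = 0
    · refine Filter.Eventually.of_forall fun n => ?_
      have h3 : opP c.UT (QQ n) (F : Lp ℂ 2 c.μ) = 0 := by
        rw [hF0]; unfold opP; simp
      rw [hint, hhn, h3, hF0]
      simp
    · filter_upwards [chi_avg_lim c 1 (by decide) F F.2 hF0] with n hn
      rw [hint, hhn]
      exact hn
  · have b1 : ∃ W : c.Kc 1 ≃ₗᵢ[ℂ] Lp ℂ 2 τ,
        ∀ f f' : c.Kc 1, (f' : Lp ℂ 2 c.μ) = c.UT f →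
          (W f' : Circle → ℂ) =ᵐ[τ] fun z => (z : ℂ) * (W f : Circle → ℂ) z := ⟨W, hW⟩
    have b3 := fin_chi_down c τ 3 b1
    have b4 := fin_chi_down c τ 4 b3
    have b2 := fin_chi_down c τ 2 b4
    intro b hb
    have : b = 1 ∨ b = 2 ∨ b = 3 ∨ b = 4 := by
      revert b; decide
    rcases this with rfl | rfl | rfl | rfl
    · exact b1
    · exact b2
    · exact b3
    · exact b4

end SM345
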