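import Pool.Agent.Helper345.SM.Defs
import Pool.Agent.Helper345.SM.rel_D
import Pool.Agent.Helper345.SM.one_fix
import Pool.Agent.Helper345.SM.chi_basic

set_option autoImplicit false
set_option linter.unusedVariables false
set_option linter.style.longLine false

open MeasureTheory Filter Topology
open scoped ENNReal NNReal

noncomputable section

namespace SM345

theorem fin_decomp (c : Ctx) [IsFiniteMeasure c.μ] :
    ∃ Z : L20 c.μ ≃ₗᵢ[ℂ] WithLp 2 (c.K0 × (PiLp 2 fun i : Fin 4 => c.Kc ((i : ℕ) + 1 : ZMod 5))),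
      ∀ f f' : L20 c.μ, (f' : Lp ℂ 2 c.μ) = c.UT f →
        ((Z f').fst : Lp ℂ 2 c.μ) = c.UT (Z f).fst ∧
        ∀ i, ((Z f').snd i : Lp ℂ 2 c.μ) = c.UT ((Z f).snd i) := by
  obtain ⟨hadd, h0, hnorm, h1⟩ := chi_basic
  -- relations
  have hmem : ∀ (b : ZMod 5) (F : Lp ℂ 2 c.μ), F ∈ c.Kc b ↔ c.UD F = chi b • F := fun b F => Iff.rfl
  have hTD : ∀ F, c.UT (c.UD F) = c.UD (c.UT F) := by
    intro F
    have := (rel_D c 0).1
    exact congrArg (fun U : Lp ℂ 2 c.μ ≃ₗᵢ[ℂ] Lp ℂ 2 c.μ => U F) this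
  have hD5 : ∀ F, (c.UD ^ 5) F = F := by
    intro F
    have := (rel_D c 0).2.2.2.2
    exact congrArg (fun U : Lp ℂ 2 c.μ ≃ₗᵢ[ℂ] Lp ℂ 2 c.μ => U F) this
  have hone : (Lp.const 2 c.μ (1 : ℂ)) = c.one := rfl
  have hTone : c.UT c.one = c.one := (one_fix c).2.2.1
  have hDone : c.UD c.one = c.one := (one_fix c).2.2.2.1
  have hone0 : c.one ∈ c.Kc 0 := by rw [hmem, h0, one_smul, hDone]
  -- characters
  have hne : ∀ b : ZMod 5, b ≠ 0 → chi b ≠ 1 := by
    intro b hb h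
    have hn : ∀ n : ℕ, chi (n • b) = 1 := by
      intro n
      induction n with
      | zero => simpa using h0
      | succ n ih => rw [succ_nsmul, hadd, ih, h, mul_one]
    have : ∀ b : ZMod 5, b ≠ 0 → ∃ n : Fin 5, n.val • b = 1 := by decide
    obtain ⟨n, hn'⟩ := this b hb
    exact h1 (hn' ▸ hn n.val)
  have hconj : ∀ a : ZMod 5, (starRingEnd ℂ) (chi a) = chi (-a) := by
    intro a
    have e1 : chi a * chi (-a) = 1 := by rw [← hadd, add_neg_cancel, h0]
    have e2 : chi a * (starRingEnd ℂ) (chi a) = 1 := by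
      rw [Complex.mul_conj, Complex.normSq_eq_norm_sq, hnorm]; simp
    have hz : chi a ≠ 0 := by
      intro h; rw [h, zero_mul] at e1; exact zero_ne_one e1
    exact mul_left_cancel₀ hz (e2.trans e1.symm)
  -- orthogonality
  have horth : ∀ (a b : ZMod 5), a ≠ b → ∀ x ∈ c.Kc a, ∀ y ∈ c.Kc b, inner ℂ x y = 0 := by
    intro a b hab x hx y hy
    have e : inner ℂ (c.UD x) (c.UD y) = inner ℂ x y := c.UD.inner_map_map x y
    rw [(hmem a x).1 hx, (hmem b y).1 hy, inner_smul_left, inner_smul_right, hconj, ← mul_assoc,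
      ← hadd] at e
    have hb : -a + b ≠ 0 := by
      intro h; apply hab; rw [neg_add_eq_zero] at h; exact h
    have h2 : (chi (-a + b) - 1) * inner ℂ x y = 0 := by rw [sub_mul, e, one_mul, sub_self]
    rcases mul_eq_zero.1 h2 with h3 | h3
    · exact absurd (sub_eq_zero.1 h3) (hne _ hb)
    · exact h3
  -- invariance
  have hTK : ∀ (b : ZMod 5) (F : Lp ℂ 2 c.μ), F ∈ c.Kc b → c.UT F ∈ c.Kc b := by
    intro b F hF
    rw [hmem] at hF ⊢
    rw [← hTD, hF, map_smul]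
  have hK0 : ∀ F : Lp ℂ 2 c.μ, F ∈ c.K0 ↔ F ∈ c.Kc 0 ∧ inner ℂ c.one F = 0 := by
    intro F
    unfold Ctx.K0
    rw [Submodule.mem_inf, Submodule.mem_orthogonal_singleton_iff_inner_right]
  have hL : ∀ F : Lp ℂ 2 c.μ, F ∈ L20 c.μ ↔ inner ℂ c.one F = 0 := by
    intro F
    unfold L20
    rw [hone, Submodule.mem_orthogonal_singleton_iff_inner_right]
  have hTK0 : ∀ (F : Lp ℂ 2 c.μ), F ∈ c.K0 → c.UT F ∈ c.K0 := by
    intro F hF
    rw [hK0] at hF ⊢
    refine ⟨hTK 0 F hF.1, ?_⟩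
    have e : inner ℂ (c.UT c.one) (c.UT F) = inner ℂ c.one F := c.UT.inner_map_map _ _
    rw [hTone] at e
    rw [e, hF.2]
  -- the indices
  have hi0 : ∀ i : Fin 4, (((i : ℕ) : ZMod 5) + 1) ≠ 0 := by decide
  have hij : ∀ i j : Fin 4, i ≠ j → (((i : ℕ) : ZMod 5) + 1) ≠ (((j : ℕ) : ZMod 5) + 1) := by decide
  -- the projections
  let P : ZMod 5 → Lp ℂ 2 c.μ → Lp ℂ 2 c.μ := fun b F =>
    (1 / 5 : ℂ) • ∑ i ∈ Finset.range 5, chi (-(b * (i : ZMod 5))) • (c.UD ^ i) F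
  have hP : ∀ b F, P b F ∈ c.Kc b := by
    intro b F
    rw [hmem]
    show c.UD ((1 / 5 : ℂ) • ∑ i ∈ Finset.range 5, chi (-(b * (i : ZMod 5))) • (c.UD ^ i) F)
      = chi b • ((1 / 5 : ℂ) • ∑ i ∈ Finset.range 5, chi (-(b * (i : ZMod 5))) • (c.UD ^ i) F)
    rw [map_smul, map_sum, smul_comm (chi b)]
    congr 1
    have e1 : ∀ i ∈ Finset.range 5, c.UD (chi (-(b * (i : ZMod 5))) • (c.UD ^ i) F)
        = chi b • (chi (-(b * ((i + 1 : ℕ) : ZMod 5))) • (c.UD ^ (i + 1)) F) := by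
      intro i _
      rw [map_smul, smul_smul, ← hadd, pow_succ']
      congr 2
      push_cast
      ring
    rw [Finset.sum_congr rfl e1, ← Finset.smul_sum]
    congr 1
    rw [Finset.sum_range_succ, Finset.sum_range_succ' _ 4]
    congr 1
    have : ((4 + 1 : ℕ) : ZMod 5) = 0 := by decide
    rw [this, hD5]
    simp
  have hsum : ∀ F, ∑ b : ZMod 5, P b F = F := by
    intro F
    show ∑ b : ZMod 5, (1 / 5 : ℂ) • ∑ i ∈ Finset.range 5, chi (-(b * (i : ZMod 5))) • (c.UD ^ i) F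
      = F
    rw [← Finset.smul_sum, Finset.sum_comm]
    have e1 : ∀ i ∈ Finset.range 5, ∑ b : ZMod 5, chi (-(b * (i : ZMod 5))) • (c.UD ^ i) F
        = if i = 0 then (5 : ℂ) • F else 0 := by
      intro i hi
      rw [← Finset.sum_smul]
      split_ifs with h
      · subst h
        simp [h0, ZMod.card]
      · have hin : (i : ZMod 5) ≠ 0 := by
          have : ∀ i ∈ Finset.range 5, i ≠ 0 → (i : ZMod 5) ≠ 0 := by decide
          exact this i hi h
        have hS : ∑ b : ZMod 5, chi (-(b * (i : ZMod 5))) = 0 := by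
          have hs : ∑ b : ZMod 5, chi (-(b * (i : ZMod 5)))
              = chi (-(i : ZMod 5)) * ∑ b : ZMod 5, chi (-(b * (i : ZMod 5))) := by
            rw [Finset.mul_sum]
            rw [← Equiv.sum_comp (Equiv.addRight (1 : ZMod 5))]
            refine Finset.sum_congr rfl fun b _ => ?_
            rw [← hadd]
            congr 1
            simp only [Equiv.coe_addRight]
            ring
          have h3 : (chi (-(i : ZMod 5)) - 1) * ∑ b : ZMod 5, chi (-(b * (i : ZMod 5))) = 0 := by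
            rw [sub_mul, ← hs, one_mul, sub_self]
          rcases mul_eq_zero.1 h3 with h4 | h4
          · exact absurd (sub_eq_zero.1 h4) (hne _ (neg_ne_zero.2 hin))
          · exact h4
        rw [hS, zero_smul]
    rw [Finset.sum_congr rfl e1, Finset.sum_ite_eq' (Finset.range 5) 0 (fun _ => (5 : ℂ) • F)]
    simp [smul_smul]
  have hsplit : ∀ g : ZMod 5 → Lp ℂ 2 c.μ, ∑ b : ZMod 5, g b
      = g 0 + ∑ i : Fin 4, g (((i : ℕ) : ZMod 5) + 1) := by
    intro g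
    have key : ∀ g : Fin 5 → Lp ℂ 2 c.μ, ∑ b, g b = g 0 + (g 1 + g 2 + g 3 + g 4) := by
      intro g
      rw [Fin.sum_univ_five]
      abel
    rw [Fin.sum_univ_four]
    exact key g
  -- the map
  let W : WithLp 2 (c.K0 × (PiLp 2 fun i : Fin 4 => c.Kc ((i : ℕ) + 1 : ZMod 5))) →ₗᵢ[ℂ] L20 c.μ :=
    { toFun := fun z => ⟨(z.fst : Lp ℂ 2 c.μ) + ∑ i, (z.snd i : Lp ℂ 2 c.μ), by
        rw [hL, inner_add_right, inner_sum, ((hK0 _).1 z.fst.2).2, zero_add]
        exact Finset.sum_eq_zero fun i _ => horth 0 _ (hi0 i).symm _ hone0 _ (z.snd i).2⟩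
      map_add' := by
        intro x y
        apply Subtype.ext
        show (((x + y).fst : c.K0) : Lp ℂ 2 c.μ) + ∑ i : Fin 4, (((x + y).snd i : c.Kc ((i : ℕ) + 1 : ZMod 5)) : Lp ℂ 2 c.μ) = _
        simp only [WithLp.add_fst, WithLp.add_snd, PiLp.add_apply, Submodule.coe_add,
          Finset.sum_add_distrib]
        abel
      map_smul' := by
        intro a x
        apply Subtype.ext
        show (((a • x).fst : c.K0) : Lp ℂ 2 c.μ) + ∑ i : Fin 4, (((a • x).snd i : c.Kc ((i : ℕ) + 1 : ZMod 5)) : Lp ℂ 2 c.μ) = _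
        simp only [WithLp.smul_fst, WithLp.smul_snd, PiLp.smul_apply, Submodule.coe_smul,
          RingHom.id_apply, smul_add, Finset.smul_sum]
      norm_map' := by
        intro z
        show ‖(z.fst : Lp ℂ 2 c.μ) + ∑ i, (z.snd i : Lp ℂ 2 c.μ)‖ = ‖z‖
        have hsq : ‖(z.fst : Lp ℂ 2 c.μ) + ∑ i, (z.snd i : Lp ℂ 2 c.μ)‖ ^ 2 = ‖z‖ ^ 2 := by
          rw [WithLp.prod_norm_sq_eq_of_L2, PiLp.norm_sq_eq_of_L2]
          have e1 : inner ℂ (z.fst : Lp ℂ 2 c.μ) (∑ i, (z.snd i : Lp ℂ 2 c.μ)) = 0 := by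
            rw [inner_sum]
            exact Finset.sum_eq_zero fun i _ => horth 0 _ (hi0 i).symm _ ((hK0 _).1 z.fst.2).1 _ (z.snd i).2
          have e2 : ‖∑ i, (z.snd i : Lp ℂ 2 c.μ)‖ ^ 2 = ∑ i, ‖(z.snd i : Lp ℂ 2 c.μ)‖ ^ 2 := by
            have e3 : (inner ℂ (∑ i, (z.snd i : Lp ℂ 2 c.μ)) (∑ i, (z.snd i : Lp ℂ 2 c.μ)) : ℂ)
                = ∑ i, (inner ℂ (z.snd i : Lp ℂ 2 c.μ) (z.snd i : Lp ℂ 2 c.μ) : ℂ) := by
              rw [sum_inner]
              refine Finset.sum_congr rfl fun i _ => ?_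
              rw [inner_sum]
              rw [Finset.sum_eq_single i]
              · intro j _ hj
                exact horth _ _ (hij i j hj.symm) _ (z.snd i).2 _ (z.snd j).2
              · intro h; exact absurd (Finset.mem_univ i) h
            simp only [inner_self_eq_norm_sq_to_K] at e3
            exact_mod_cast e3
          have e4 := norm_add_sq_eq_norm_sq_add_norm_sq_of_inner_eq_zero (𝕜 := ℂ) (z.fst : Lp ℂ 2 c.μ) (∑ i, (z.snd i : Lp ℂ 2 c.μ)) e1
          rw [← sq, ← sq, ← sq] at e4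
          rw [e4, e2]
          rfl
        exact (sq_eq_sq₀ (norm_nonneg _) (norm_nonneg _)).1 hsq }
  have hWapp : ∀ z, ((W z : L20 c.μ) : Lp ℂ 2 c.μ) = (z.fst : Lp ℂ 2 c.μ) + ∑ i, (z.snd i : Lp ℂ 2 c.μ) :=
    fun z => rfl
  have hWs : Function.Surjective W := by
    intro f
    have hf := (hL _).1 f.2
    have hs := (hsum (f : Lp ℂ 2 c.μ)).symm
    rw [hsplit] at hs
    have hP0 : P 0 (f : Lp ℂ 2 c.μ) ∈ c.K0 := by
      rw [hK0]
      refine ⟨hP 0 _, ?_⟩
      rw [hs, inner_add_right, inner_sum] at hf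
      rw [Finset.sum_eq_zero, add_zero] at hf
      · exact hf
      · intro i _
        exact horth 0 _ (hi0 i).symm _ hone0 _ (hP _ _)
    refine ⟨WithLp.toLp 2 (⟨P 0 (f : Lp ℂ 2 c.μ), hP0⟩, WithLp.toLp 2 fun i => ⟨P _ (f : Lp ℂ 2 c.μ), hP _ _⟩), ?_⟩
    apply Subtype.ext
    rw [hWapp]
    exact hs.symm
  let Z := (LinearIsometryEquiv.ofSurjective W hWs)
  have hZ : ∀ z, Z z = W z := fun z => rfl
  refine ⟨Z.symm, ?_⟩
  intro f f' hff
  have h5 : Z.symm f' = WithLp.toLp 2 (⟨c.UT (Z.symm f).fst, hTK0 _ (Z.symm f).fst.2⟩,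
      WithLp.toLp 2 fun i => ⟨c.UT ((Z.symm f).snd i), hTK _ _ ((Z.symm f).snd i).2⟩) := by
    rw [LinearIsometryEquiv.symm_apply_eq]
    apply Subtype.ext
    rw [hZ, hWapp, hff]
    have h6 : (f : Lp ℂ 2 c.μ) = ((Z.symm f).fst : Lp ℂ 2 c.μ) + ∑ i, ((Z.symm f).snd i : Lp ℂ 2 c.μ) := by
      rw [← hWapp, ← hZ, LinearIsometryEquiv.apply_symm_apply]
    conv_lhs => rw [h6, map_add, map_sum]
    rfl
  rw [h5]
  exact ⟨rfl, fun i => rfl⟩

end SM345
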