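import Pool.Agent.Helper345.SM.Defs
import Pool.Agent.Helper345.SM.fin_base
import Pool.Agent.Helper345.SM.fin_chi
import Pool.Agent.Helper345.SM.fin_decomp
import Pool.Agent.Helper345.SM.disj
import Pool.Agent.Helper345.SM.QQ_circle
import Pool.Agent.Helper345.SM.koop_coe

set_option autoImplicit false
set_option linter.unusedVariables false
set_option linter.style.longLine false

open MeasureTheory Filter Topology
open scoped ENNReal NNReal

noncomputable section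

namespace SM345

theorem final (c : Ctx) [IsFiniteMeasure c.μ] :
    HasSpectralMultiplicities c.μ c.G c.hG 3 4 := by
  obtain ⟨σ₁, hσ₁f, hσ₁0, hlim, W0, hW0⟩ := fin_base c
  obtain ⟨τ, hτf, hτ0, hdec, hW⟩ := fin_chi c
  obtain ⟨Z, hZ⟩ := fin_decomp c
  have hne : ∀ i : Fin 4, ((i : ℕ) + 1 : ZMod 5) ≠ 0 := by decide
  choose W hW' using hW
  let WW4 : (PiLp 2 fun i : Fin 4 => c.Kc ((i : ℕ) + 1 : ZMod 5)) ≃ₗᵢ[ℂ]
      (PiLp 2 fun _ : Fin 4 => Lp ℂ 2 τ) :=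
    LinearIsometryEquiv.piLpCongrRight 2 (fun i : Fin 4 => W ((i : ℕ) + 1 : ZMod 5) (hne i))
  refine ⟨σ₁, τ, hσ₁f, hτf, hσ₁0, hτ0, disj σ₁ τ QQ QQ_circle hlim hdec,
    Z.trans (LinearIsometryEquiv.withLpProdCongr 2 W0 WW4), ?_⟩
  intro f f' hff
  have h1 : (f' : Lp ℂ 2 c.μ) = c.UT f := by
    refine Lp.ext (hff.trans ?_)
    exact (koop_coe c.G c.hG (f : Lp ℂ 2 c.μ)).symm
  obtain ⟨h2, h3⟩ := hZ f f' h1
  refine ⟨fun i => ?_, fun i => ?_⟩
  · exact hW0 _ _ h2 i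
  · exact hW' _ (hne i) _ _ (h3 i)

end SM345
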